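import Mathlib
import Pool.Agent.NHP.Defs

/-!
# NHQ/Defs: the label calculus of the homotopy theorem, geometric definitions

`*` is a point of the 3-manifold `N`.  Path classes are arrows of the fundamental groupoid, `≫` = first the left one.

* `cl γ`: class of the path `γ`.  `PC f γ`: the function `f`, restricted to `[0, 1]`, represents the class `γ`.
* `Crv x o k`: `k : ℝ → N` is the core of a thick knot, `k 0 = x`, and `k` on `[0, 1]` has the class `o`.
* `Lab x k T p q c`: the core `t ↦ T (0, t)` of the chord goes from `k p` to `k q`, and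
  `[k | 0 → p] [T (0, ·)] [k | 0 → q]⁻¹ = c`.
* `ChL x k T p q c`: `T` is a chord of the curve `k`, with foot `k p`, tip `k q`, `0 < p < q < 1`, label `c`, off `x`.
* `fing T`: the map `T (u, 0) ↦ T (u, 9/8 bmp u)`, `u ∈ (-1, 1)`, the identity off the foot strand: `fing T ∘ k` is the
  curve `k` with the finger (its range is `kn (range k) T`).
* `Mv x k k'`: a push of `N - {x}` carries the curve `k` to the curve `k'`.
* `St x c k k'`: `k'` is `k` with one finger of label `c`, up to `Mv`.
-/

open scoped Manifold ContDiff Topology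
open Set Filter CategoryTheory
open Pool.Agent.RSG (E3 ex Thick)
open Pool.Agent.KNT (bmp)
open Pool.Agent.NHP

namespace Pool.Agent.NHQ

section
variable {N : Type*} [TopologicalSpace N]

/-- the class of a path in the fundamental groupoid -/
def cl {x y : N} (γ : Path x y) : (FundamentalGroupoid.mk x ⟶ FundamentalGroupoid.mk y) :=
  Path.Homotopic.Quotient.mk γ

/-- the function `f`, restricted to `[0, 1]`, is a path of class `γ` -/
def PC {x y : N} (f : ℝ → N) (γ : FundamentalGroupoid.mk x ⟶ FundamentalGroupoid.mk y) : Prop :=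
  ∃ c : Path x y, (∀ t : unitInterval, c t = f t) ∧ cl c = γ

/-- the core of `T` goes from `k p` to `k q`; label `c`: first `k` from `0` to `p`, then the core of `T`, then `k` back
from `q` to `0` -/
def Lab (x : N) (k : ℝ → N) (T : E → N) (p q : ℝ)
    (c : FundamentalGroupoid.mk x ⟶ FundamentalGroupoid.mk x) : Prop :=
  ∃ (α : FundamentalGroupoid.mk x ⟶ FundamentalGroupoid.mk (k p))
    (β : FundamentalGroupoid.mk (k p) ⟶ FundamentalGroupoid.mk (k q))
    (δ : FundamentalGroupoid.mk x ⟶ FundamentalGroupoid.mk (k q)),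
    PC (fun t => k (p * t)) α ∧ PC (fun t => T (0, t)) β ∧ PC (fun t => k (q * t)) δ ∧ c = α ≫ β ≫ inv δ

/-- push the foot strand along the finger -/
noncomputable def fing (T : E → N) (y : N) : N := by
  classical
  exact if h : ∃ u : ℝ, |u| < 1 ∧ T ((u : ℂ), 0) = y then T ((h.choose : ℂ), 9 / 8 * bmp h.choose) else y

end

section
variable {N : Type*} [TopologicalSpace N] [ChartedSpace E3 N]

/-- `k` is the core of a thick knot through `x`, with class `o` -/
structure Crv (x : N) (o : FundamentalGroupoid.mk x ⟶ FundamentalGroupoid.mk x) (k : ℝ → N) : Prop where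
  thick : ∃ κ : ℝ × ℂ → N, Thick κ ∧ ∀ l, κ (l, 0) = k l
  zero : k 0 = x
  cls : PC k o

/-- `T` is a chord of `k` with foot `k p`, tip `k q`, `0 < p < q < 1`, label `c`, off the point `x` -/
structure ChL (x : N) (k : ℝ → N) (T : E → N) (p q : ℝ)
    (c : FundamentalGroupoid.mk x ⟶ FundamentalGroupoid.mk x) : Prop where
  chd : Chd (range k) T
  pos : 0 < p
  lt : p < q
  one : q < 1
  off : x ∉ T '' TD
  lab : Lab x k T p q c

/-- a push of `N - {x}` carries `k` to `k'` -/
def Mv (x : N) (k k' : ℝ → N) : Prop :=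
  ∃ V : ℝ → Equiv.Perm N, Push {x}ᶜ V ∧ ∀ t, k' t = V 1 (k t)

/-- `k'` is `k` with one finger of label `c`, up to a push of `N - {x}` -/
def St (x : N) (c : FundamentalGroupoid.mk x ⟶ FundamentalGroupoid.mk x) (k k' : ℝ → N) : Prop :=
  ∃ (T : E → N) (p q : ℝ), ChL x k T p q c ∧ Mv x (fing T ∘ k) k'

end

end Pool.Agent.NHQ
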