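import Mathlib
import Pool.Agent.NHQ.Defs

/-!
# NHQ/KerD: definitions for `ker_main`
-/

open scoped Manifold ContDiff Topology
open Set Filter CategoryTheory
open Pool.Agent.RSG (E3 ex Thick)
open Pool.Agent.NHP

namespace Pool.Agent.NHQ

/-- the fundamental group at `x` is generated by the squares and `o` -/
def Gen2 {N : Type*} [TopologicalSpace N] {x : N} (o : FundamentalGroupoid.mk x ⟶ FundamentalGroupoid.mk x) : Prop :=
  Subgroup.closure ({z : FundamentalGroup N x | ∃ y : FundamentalGroup N x, z = y * y} ∪ {(o : FundamentalGroup N x)}) = ⊤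

/-- orientability, in the form which is needed: chords with standard ends have the sign `1` -/
def Ori (N : Type*) [TopologicalSpace N] [ChartedSpace E3 N] : Prop :=
  ∀ (κ : ℝ × ℂ → N) (p q ε σ : ℝ) (T : E → N), Thick κ → 0 < ε → (σ = 1 ∨ σ = -1) → Chd (core κ) T → StdE κ p q ε σ T → σ = 1

end Pool.Agent.NHQ
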