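import Pool.Agent.NHQ.Defs

/-!
# NHQ/Sg: calculus of path classes
-/

open scoped Manifold ContDiff Topology unitInterval
open Set Filter CategoryTheory
open Pool.Agent.RSG (E3 ex Thick)
open Pool.Agent.KNT (bmp)
open Pool.Agent.NHP

namespace Pool.Agent.NHQ

section
variable {N : Type*} [TopologicalSpace N]

theorem cl_trans {x y z : N} (γ : Path x y) (δ : Path y z) : cl (γ.trans δ) = cl γ ≫ cl δ := rfl

theorem cl_refl (x : N) : cl (Path.refl x) = 𝟙 (FundamentalGroupoid.mk x) := rfl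

theorem cl_symm {x y : N} (γ : Path x y) : cl γ.symm = inv (cl γ) := by
  rw [← Groupoid.inv_eq_inv]; rfl

theorem cl_eq {x y : N} {γ δ : Path x y} (h : γ.Homotopic δ) : cl γ = cl δ :=
  Quotient.sound h

theorem cl_exact {x y : N} {γ δ : Path x y} (h : cl γ = cl δ) : γ.Homotopic δ :=
  Quotient.exact h

theorem cl_surj {x y : N} (α : FundamentalGroupoid.mk x ⟶ FundamentalGroupoid.mk y) :
    ∃ γ : Path x y, cl γ = α :=
  Path.Homotopic.Quotient.mk_surjective α

variable {x y z : N} {f g : ℝ → N}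

theorem PC.congr {γ : FundamentalGroupoid.mk x ⟶ FundamentalGroupoid.mk y} (h : PC f γ)
    (hfg : ∀ t ∈ Icc (0 : ℝ) 1, g t = f t) : PC g γ := by
  obtain ⟨c, hc, hcl⟩ := h
  exact ⟨c, fun t => (hc t).trans (hfg t t.2).symm, hcl⟩

theorem PC.unique {γ γ' : FundamentalGroupoid.mk x ⟶ FundamentalGroupoid.mk y} (h : PC f γ)
    (h' : PC f γ') : γ = γ' := by
  obtain ⟨c, hc, rfl⟩ := h
  obtain ⟨c', hc', rfl⟩ := h'
  have : c = c' := by
    ext t; rw [hc, hc']
  rw [this]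

theorem PC.zero {γ : FundamentalGroupoid.mk x ⟶ FundamentalGroupoid.mk y} (h : PC f γ) : f 0 = x := by
  obtain ⟨c, hc, -⟩ := h
  have := hc 0
  rw [c.source] at this
  exact this.symm

theorem PC.one {γ : FundamentalGroupoid.mk x ⟶ FundamentalGroupoid.mk y} (h : PC f γ) : f 1 = y := by
  obtain ⟨c, hc, -⟩ := h
  have := hc 1
  rw [c.target] at this
  exact this.symm

theorem PC.cont {γ : FundamentalGroupoid.mk x ⟶ FundamentalGroupoid.mk y} (h : PC f γ) :
    ContinuousOn f (Icc 0 1) := by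
  obtain ⟨c, hc, -⟩ := h
  rw [continuousOn_iff_continuous_domRestrict]
  have : (Icc (0 : ℝ) 1).domRestrict f = c := by
    funext t
    exact (hc t).symm
  rw [this]
  exact c.continuous

/-- the path of a function -/
theorem exists_path (hf : ContinuousOn f (Icc 0 1)) (h0 : f 0 = x) (h1 : f 1 = y) :
    ∃ c : Path x y, ∀ t : I, c t = f t :=
  ⟨⟨⟨fun t : I => f t, continuousOn_iff_continuous_domRestrict.1 hf⟩, by simpa using h0, by simpa using h1⟩,
    fun _ => rfl⟩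

theorem exists_PC (hf : ContinuousOn f (Icc 0 1)) (h0 : f 0 = x) (h1 : f 1 = y) :
    ∃ γ : FundamentalGroupoid.mk x ⟶ FundamentalGroupoid.mk y, PC f γ := by
  obtain ⟨c, hc⟩ := exists_path hf h0 h1
  exact ⟨cl c, c, hc, rfl⟩

theorem PC.const (x : N) : PC (fun _ => x) (𝟙 (FundamentalGroupoid.mk x)) :=
  ⟨Path.refl x, fun _ => rfl, rfl⟩

/-- concatenation of functions -/
noncomputable def cc {M : Type*} (f g : ℝ → M) (t : ℝ) : M := if t ≤ 1 / 2 then f (2 * t) else g (2 * t - 1)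

theorem PC.trans {γ : FundamentalGroupoid.mk x ⟶ FundamentalGroupoid.mk y}
    {δ : FundamentalGroupoid.mk y ⟶ FundamentalGroupoid.mk z} (h : PC f γ) (h' : PC g δ) :
    PC (cc f g) (γ ≫ δ) := by
  obtain ⟨c, hc, rfl⟩ := h
  obtain ⟨d, hd, rfl⟩ := h'
  refine ⟨c.trans d, ?_, rfl⟩
  intro t
  rw [Path.trans_apply]
  unfold cc
  split_ifs with h
  · exact hc _
  · exact hd _

theorem PC.symm {γ : FundamentalGroupoid.mk x ⟶ FundamentalGroupoid.mk y} (h : PC f γ) :
    PC (fun t => f (1 - t)) (inv γ) := by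
  obtain ⟨c, hc, rfl⟩ := h
  refine ⟨c.symm, ?_, cl_symm c⟩
  intro t
  change c (unitInterval.symm t) = f (1 - t)
  rw [hc]
  rfl

/-- the base points of `f` are arbitrary: transport of a class by equalities of points -/
theorem PC.homotopic {u v : ℝ → N} {H : ℝ × ℝ → N} (hH : ContinuousOn H (Icc (0 : ℝ) 1 ×ˢ Icc (0 : ℝ) 1))
    (h0 : ∀ t ∈ Icc (0 : ℝ) 1, H (0, t) = u t) (h1 : ∀ t ∈ Icc (0 : ℝ) 1, H (1, t) = v t)
    (hx : ∀ s ∈ Icc (0 : ℝ) 1, H (s, 0) = x) (hy : ∀ s ∈ Icc (0 : ℝ) 1, H (s, 1) = y)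
    {γ : FundamentalGroupoid.mk x ⟶ FundamentalGroupoid.mk y} (h : PC u γ) : PC v γ := by
  obtain ⟨c, hc, rfl⟩ := h
  have hv : ContinuousOn v (Icc 0 1) := by
    have h2 : ContinuousOn (fun t : ℝ => H (1, t)) (Icc 0 1) :=
      hH.comp (by fun_prop) (fun t ht => ⟨⟨zero_le_one, le_rfl⟩, ht⟩)
    exact h2.congr (fun t ht => (h1 t ht).symm)
  have hI0 : (0 : ℝ) ∈ Icc (0 : ℝ) 1 := ⟨le_rfl, zero_le_one⟩
  have hI1 : (1 : ℝ) ∈ Icc (0 : ℝ) 1 := ⟨zero_le_one, le_rfl⟩
  obtain ⟨d, hd⟩ := exists_path (x := x) (y := y) hv (by rw [← h1 0 hI0, hx 1 hI1]) (by rw [← h1 1 hI1, hy 1 hI1])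
  refine ⟨d, hd, ?_⟩
  apply cl_eq
  refine Path.Homotopic.symm ⟨⟨⟨⟨fun q : I × I => H (q.1, q.2), ?_⟩, ?_, ?_⟩, ?_⟩⟩
  · have h2 := continuousOn_iff_continuous_domRestrict.1 hH
    exact h2.comp (f := fun q : I × I => (⟨((q.1 : ℝ), (q.2 : ℝ)), q.1.2, q.2.2⟩ : (Icc (0 : ℝ) 1 ×ˢ Icc (0 : ℝ) 1 : Set (ℝ × ℝ))))
      (by fun_prop)
  · intro t
    change H (((0 : I) : ℝ), (t : ℝ)) = c t
    rw [Icc.coe_zero, h0 t t.2, hc]
  · intro t
    change H (((1 : I) : ℝ), (t : ℝ)) = d t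
    rw [Icc.coe_one, h1 t t.2, hd]
  · intro s t ht
    rcases ht with rfl | ht
    · change H ((s : ℝ), ((0 : I) : ℝ)) = c 0
      rw [Icc.coe_zero, hx s s.2, c.source]
    · rw [mem_singleton_iff] at ht
      subst ht
      change H ((s : ℝ), ((1 : I) : ℝ)) = c 1
      rw [Icc.coe_one, hy s s.2, c.target]

/-- **Convexity.** The images of two paths with the same end points in a convex set have the same class. -/
theorem PC.convex {M : Type*} [AddCommGroup M] [Module ℝ M] [TopologicalSpace M] [ContinuousAdd M]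
    [ContinuousSMul ℝ M] {C : Set M} (hC : Convex ℝ C) {F : M → N} (hF : ContinuousOn F C) {u v : ℝ → M}
    (hu : ContinuousOn u (Icc 0 1)) (hv : ContinuousOn v (Icc 0 1)) (huC : ∀ t ∈ Icc (0 : ℝ) 1, u t ∈ C)
    (hvC : ∀ t ∈ Icc (0 : ℝ) 1, v t ∈ C) (h0 : u 0 = v 0) (h1 : u 1 = v 1)
    {γ : FundamentalGroupoid.mk x ⟶ FundamentalGroupoid.mk y} (h : PC (fun t => F (u t)) γ) :
    PC (fun t => F (v t)) γ := by
  have hx : F (u 0) = x := h.zero
  have hy : F (u 1) = y := h.one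
  refine PC.homotopic (H := fun q : ℝ × ℝ => F ((1 - q.1) • u q.2 + q.1 • v q.2)) ?_ ?_ ?_ ?_ ?_ h
  · refine hF.comp ?_ ?_
    · have h2 : ContinuousOn (fun q : ℝ × ℝ => u q.2) (Icc (0 : ℝ) 1 ×ˢ Icc (0 : ℝ) 1) :=
        hu.comp continuousOn_snd (fun q hq => hq.2)
      have h3 : ContinuousOn (fun q : ℝ × ℝ => v q.2) (Icc (0 : ℝ) 1 ×ˢ Icc (0 : ℝ) 1) :=
        hv.comp continuousOn_snd (fun q hq => hq.2)
      have h4 : ContinuousOn (fun q : ℝ × ℝ => 1 - q.1) (Icc (0 : ℝ) 1 ×ˢ Icc (0 : ℝ) 1) := by fun_prop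
      have h5 : ContinuousOn (fun q : ℝ × ℝ => q.1) (Icc (0 : ℝ) 1 ×ˢ Icc (0 : ℝ) 1) := by fun_prop
      exact (h4.smul h2).add (h5.smul h3)
    · rintro ⟨s, t⟩ ⟨hs, ht⟩
      exact hC (huC t ht) (hvC t ht) (by linarith [hs.2]) hs.1 (by ring)
  · intro t _
    simp
  · intro t _
    simp
  · intro s _
    rw [← h0, ← hx]
    congr 1
    rw [← add_smul]; simp
  · intro s _
    rw [← h1, ← hy]
    congr 1
    rw [← add_smul]; simp

/-- additivity on intervals -/
theorem PC.add {k : ℝ → N} {a b c : ℝ} {C : Set ℝ} (hC : Convex ℝ C) (hk : ContinuousOn k C) (ha : a ∈ C)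
    (hb : b ∈ C) (hc : c ∈ C) {γ : FundamentalGroupoid.mk x ⟶ FundamentalGroupoid.mk y}
    {δ : FundamentalGroupoid.mk y ⟶ FundamentalGroupoid.mk z} (h : PC (fun t => k (a + (b - a) * t)) γ)
    (h' : PC (fun t => k (b + (c - b) * t)) δ) : PC (fun t => k (a + (c - a) * t)) (γ ≫ δ) := by
  have h1 := h.trans h'
  have h2 : cc (fun t => k (a + (b - a) * t)) (fun t => k (b + (c - b) * t))
      = fun t => k (cc (fun t => a + (b - a) * t) (fun t => b + (c - b) * t) t) := by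
    funext t
    unfold cc
    split_ifs <;> rfl
  rw [h2] at h1
  have hseg : ∀ p ∈ C, ∀ q ∈ C, ∀ t ∈ Icc (0 : ℝ) 1, p + (q - p) * t ∈ C := by
    intro p hp q hq t ht
    have := hC hp hq (by linarith [ht.2] : (0 : ℝ) ≤ 1 - t) ht.1 (by ring)
    have e : (1 - t) • p + t • q = p + (q - p) * t := by
      simp only [smul_eq_mul]; ring
    rwa [e] at this
  refine PC.convex hC hk (u := cc (fun t => a + (b - a) * t) (fun t => b + (c - b) * t))
    (v := fun t => a + (c - a) * t) ?_ ?_ ?_ ?_ ?_ ?_ h1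
  · unfold cc
    apply Continuous.continuousOn
    refine Continuous.if_le (by fun_prop) (by fun_prop) continuous_id continuous_const ?_
    intro t ht
    rw [ht]; ring
  · fun_prop
  · intro t ht
    unfold cc
    split_ifs with h3
    · exact hseg a ha b hb _ ⟨by linarith [ht.1], by linarith⟩
    · exact hseg b hb c hc _ ⟨by linarith, by linarith [ht.2]⟩
  · intro t ht
    exact hseg a ha c hc t ht
  · unfold cc
    rw [if_pos (by norm_num)]; ring
  · unfold cc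
    rw [if_neg (by norm_num)]; ring

/-- **Squares.** -/
theorem PC.square {x' y' : N} {H : ℝ × ℝ → N} (hH : ContinuousOn H (Icc (0 : ℝ) 1 ×ˢ Icc (0 : ℝ) 1))
    {γ₀ : FundamentalGroupoid.mk x ⟶ FundamentalGroupoid.mk y}
    {γ₁ : FundamentalGroupoid.mk x' ⟶ FundamentalGroupoid.mk y'}
    {α : FundamentalGroupoid.mk x ⟶ FundamentalGroupoid.mk x'}
    {β : FundamentalGroupoid.mk y ⟶ FundamentalGroupoid.mk y'} (h0 : PC (fun t => H (0, t)) γ₀)
    (h1 : PC (fun t => H (1, t)) γ₁) (ha : PC (fun s => H (s, 0)) α) (hb : PC (fun s => H (s, 1)) β) :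
    γ₀ ≫ β = α ≫ γ₁ := by
  have hC : Convex ℝ (Icc (0 : ℝ) 1 ×ˢ Icc (0 : ℝ) 1 : Set (ℝ × ℝ)) := (convex_Icc 0 1).prod (convex_Icc 0 1)
  have e1 := h0.trans hb
  have e2 := ha.trans h1
  have f1 : cc (fun t => H (0, t)) (fun s => H (s, 1))
      = fun t => H (cc (fun t => (0, t)) (fun s => (s, 1)) t) := by
    funext t
    unfold cc
    split_ifs <;> rfl
  have f2 : cc (fun s => H (s, 0)) (fun t => H (1, t))
      = fun t => H (cc (fun s => (s, 0)) (fun t => (1, t)) t) := by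
    funext t
    unfold cc
    split_ifs <;> rfl
  rw [f1] at e1
  rw [f2] at e2
  refine PC.unique (PC.convex hC hH ?_ ?_ ?_ ?_ ?_ ?_ e1) e2
  · unfold cc
    apply Continuous.continuousOn
    refine Continuous.if_le (by fun_prop) (by fun_prop) continuous_id continuous_const ?_
    intro t ht
    rw [ht]; norm_num
  · unfold cc
    apply Continuous.continuousOn
    refine Continuous.if_le (by fun_prop) (by fun_prop) continuous_id continuous_const ?_
    intro t ht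
    rw [ht]; norm_num
  · intro t ht
    unfold cc
    split_ifs with h3
    · exact ⟨⟨le_rfl, zero_le_one⟩, by linarith [ht.1], by linarith⟩
    · exact ⟨⟨by linarith, by linarith [ht.2]⟩, zero_le_one, le_rfl⟩
  · intro t ht
    unfold cc
    split_ifs with h3
    · exact ⟨⟨by linarith [ht.1], by linarith⟩, le_rfl, zero_le_one⟩
    · exact ⟨⟨zero_le_one, le_rfl⟩, by linarith, by linarith [ht.2]⟩
  · unfold cc
    rw [if_pos (by norm_num), if_pos (by norm_num)]; norm_num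
  · unfold cc
    rw [if_neg (by norm_num), if_neg (by norm_num)]; norm_num

end

end Pool.Agent.NHQ
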