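import Pool.Agent.NHQ.Sg
import Pool.Agent.NHP.Grp

/-!
# NHQ/FgB: elementary properties of `bmp` and of the map `fing T`
-/

open scoped Manifold ContDiff Topology unitInterval
open Set Filter CategoryTheory
open Pool.Agent.CSG (stp stp_smooth stp_zero stp_one stp_nonneg stp_le_one)
open Pool.Agent.RSG (E3 ex Thick)
open Pool.Agent.KNT (bmp)
open Pool.Agent.NHP

namespace Pool.Agent.NHQ

theorem bmp_smooth : ContDiff ℝ ∞ bmp :=
  contDiff_const.sub ((stp_smooth _ _).comp (contDiff_id.pow 2))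

theorem bmp_one {y : ℝ} (h : |y| ≤ 1 / 16) : bmp y = 1 := by
  unfold bmp
  rw [stp_zero (by norm_num), sub_zero]
  have := sq_le_sq' (by linarith [abs_nonneg y] : -(1 / 16 : ℝ) ≤ |y|) h
  rw [sq_abs] at this
  linarith

theorem bmp_zero {y : ℝ} (h : 1 / 8 ≤ |y|) : bmp y = 0 := by
  unfold bmp
  rw [stp_one (by norm_num), sub_self]
  have := sq_le_sq' (by linarith : -|y| ≤ (1 / 8 : ℝ)) h
  rw [sq_abs] at this
  linarith

theorem bmp_nonneg (y : ℝ) : 0 ≤ bmp y := by
  unfold bmp; linarith [stp_le_one (1 / 256) (1 / 64) (y ^ 2)]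

theorem bmp_le_one (y : ℝ) : bmp y ≤ 1 := by
  unfold bmp; linarith [stp_nonneg (1 / 256) (1 / 64) (y ^ 2)]

theorem bmp_neg (y : ℝ) : bmp (-y) = bmp y := by
  unfold bmp; rw [neg_sq]

theorem bmp_zero_eq : bmp 0 = 1 := bmp_one (by norm_num)

/-- the foot point -/
theorem foot_TD {u : ℝ} (h : |u| < 1) {x : ℝ} (h1 : -(1 / 4) < x) (h2 : x < 5 / 4) : ((u : ℂ), x) ∈ TD := by
  refine ⟨?_, h1, h2⟩
  rw [Complex.norm_real, Real.norm_eq_abs]
  exact h

theorem foot_TS {u : ℝ} (h : |u| < 1) : ((u : ℂ), (0 : ℝ)) ∈ TS :=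
  ⟨foot_TD h (by norm_num) (by norm_num), Or.inl ⟨rfl, by simp⟩⟩

theorem TS_sub : TS ⊆ TD := fun _ h => h.1

theorem TF_sub : TF ⊆ TD := fun _ h => h.1

section
variable {N : Type*} {T : E → N}

theorem fing_foot (hT : InjOn T TD) {u : ℝ} (hu : |u| < 1) : fing T (T ((u : ℂ), 0)) = T ((u : ℂ), 9 / 8 * bmp u) := by
  have h : ∃ u' : ℝ, |u'| < 1 ∧ T ((u' : ℂ), 0) = T ((u : ℂ), 0) := ⟨u, hu, rfl⟩
  unfold fing
  rw [dif_pos h]
  have h1 := h.choose_spec
  have h2 := hT (foot_TD h1.1 (by norm_num) (by norm_num)) (foot_TD hu (by norm_num) (by norm_num)) h1.2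
  have h3 : h.choose = u := by
    have : ((h.choose : ℝ) : ℂ) = ((u : ℝ) : ℂ) := congrArg Prod.fst h2
    exact_mod_cast this
  rw [h3]

theorem fing_of_not {y : N} (h : ∀ u : ℝ, |u| < 1 → T ((u : ℂ), 0) ≠ y) : fing T y = y := by
  unfold fing
  rw [dif_neg]
  rintro ⟨u, hu, h1⟩
  exact h u hu h1

/-- the points off the middle part of the foot strand are fixed -/
theorem fing_fix (hT : InjOn T TD) {y : N} (h : ∀ u : ℝ, |u| < 1 / 8 → T ((u : ℂ), 0) ≠ y) : fing T y = y := by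
  by_cases h1 : ∃ u : ℝ, |u| < 1 ∧ T ((u : ℂ), 0) = y
  · obtain ⟨u, hu, rfl⟩ := h1
    rw [fing_foot hT hu, bmp_zero, mul_zero]
    by_contra h2
    exact h u (not_le.1 h2) rfl
  · exact fing_of_not (fun u hu h2 => h1 ⟨u, hu, h2⟩)

theorem fing_off (hT : InjOn T TD) {y : N} (h : y ∉ T '' TD) : fing T y = y :=
  fing_fix hT (fun u hu h1 => h ⟨_, foot_TD (by linarith) (by norm_num) (by norm_num), h1⟩)

/-- the tip strand is fixed -/
theorem fing_tip (hT : InjOn T TD) {w : ℂ} (hw : ‖w‖ < 1) {x : ℝ} (h1 : -(1 / 4) < x) (h2 : x < 5 / 4) (h : x ≠ 0) :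
    fing T (T (w, x)) = T (w, x) := by
  refine fing_fix hT (fun u hu h3 => ?_)
  have h4 := hT (foot_TD (by linarith) (by norm_num) (by norm_num)) ⟨hw, h1, h2⟩ h3
  exact h (congrArg Prod.snd h4).symm

/-- conjugation -/
theorem fing_conj (A : Equiv.Perm N) (hT : InjOn T TD) (y : N) : fing (fun q => A (T q)) (A y) = A (fing T y) := by
  have hA : InjOn (fun q => A (T q)) TD := fun a ha b hb h => hT ha hb (A.injective h)
  by_cases h : ∃ u : ℝ, |u| < 1 ∧ T ((u : ℂ), 0) = y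
  · obtain ⟨u, hu, rfl⟩ := h
    rw [fing_foot hT hu]
    exact fing_foot (T := fun q => A (T q)) hA hu
  · rw [fing_of_not (fun u hu h1 => h ⟨u, hu, h1⟩)]
    exact fing_of_not (fun u hu h1 => h ⟨u, hu, A.injective h1⟩)

/-- the image of a curve under `fing` -/
theorem fing_image {K : Set N} (hT : InjOn T TD) (hit : K ∩ T '' TD = T '' TS) : fing T '' K = kn K T := by
  ext y
  constructor
  · rintro ⟨z, hz, rfl⟩
    by_cases hzT : z ∈ T '' TD
    · have h1 : z ∈ T '' TS := by rw [← hit]; exact ⟨hz, hzT⟩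
      obtain ⟨⟨w, x⟩, ⟨hq, hq'⟩, rfl⟩ := h1
      right
      rcases hq' with ⟨h2, h3⟩ | ⟨h2, h3⟩
      · change x = 0 at h2
        change w.im = 0 at h3
        subst h2
        have hw : w = ((w.re : ℝ) : ℂ) := by apply Complex.ext <;> simp [h3]
        have hwn : |w.re| < 1 := (Complex.abs_re_le_norm w).trans_lt hq.1
        rw [hw, fing_foot hT hwn]
        refine ⟨_, ⟨foot_TD hwn ?_ ?_, Or.inl ⟨by simp, by simp⟩⟩, rfl⟩
        · have := bmp_nonneg w.re; linarith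
        · have := bmp_le_one w.re; linarith
      · change x = 1 at h2
        change w.re = 0 at h3
        subst h2
        rw [fing_tip hT hq.1 (by norm_num) (by norm_num) one_ne_zero]
        exact ⟨_, ⟨hq, Or.inr ⟨rfl, h3⟩⟩, rfl⟩
    · left
      rw [fing_off hT hzT]
      exact ⟨hz, hzT⟩
  · rintro (⟨h1, h2⟩ | ⟨⟨w, x⟩, ⟨hq, hq'⟩, rfl⟩)
    · exact ⟨y, h1, fing_off hT h2⟩
    · rcases hq' with ⟨h3, h4⟩ | ⟨h3, h4⟩
      · change w.im = 0 at h3
        change x = 9 / 8 * bmp w.re at h4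
        have hw : w = ((w.re : ℝ) : ℂ) := by apply Complex.ext <;> simp [h3]
        have hwn : |w.re| < 1 := (Complex.abs_re_le_norm w).trans_lt hq.1
        have hmem : T (((w.re : ℝ) : ℂ), 0) ∈ K := by
          have : T (((w.re : ℝ) : ℂ), 0) ∈ K ∩ T '' TD := by
            rw [hit]; exact ⟨_, foot_TS hwn, rfl⟩
          exact this.1
        refine ⟨_, hmem, ?_⟩
        rw [fing_foot hT hwn, h4, ← hw]
      · change x = 1 at h3
        change w.re = 0 at h4
        subst h3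
        have hmem : T (w, 1) ∈ K := by
          have : T (w, 1) ∈ K ∩ T '' TD := by
            rw [hit]; exact ⟨_, ⟨hq, Or.inr ⟨rfl, h4⟩⟩, rfl⟩
          exact this.1
        exact ⟨_, hmem, fing_tip hT hq.1 (by norm_num) (by norm_num) one_ne_zero⟩

theorem fing_range {k : ℝ → N} (hT : InjOn T TD) (hit : range k ∩ T '' TD = T '' TS) :
    range (fing T ∘ k) = kn (range k) T := by
  rw [range_comp, fing_image hT hit]

/-- fingers along disjoint tubes commute -/
theorem fing_comm {T' : E → N} (hT : InjOn T TD) (hT' : InjOn T' TD) (hd : Disjoint (T '' TD) (T' '' TD)) (y : N) :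
    fing T (fing T' y) = fing T' (fing T y) := by
  by_cases h : y ∈ T '' TD
  · have h' : y ∉ T' '' TD := fun h' => Set.disjoint_left.1 hd h h'
    rw [fing_off hT' h']
    by_cases h1 : ∃ u : ℝ, |u| < 1 ∧ T ((u : ℂ), 0) = y
    · obtain ⟨u, hu, rfl⟩ := h1
      rw [fing_foot hT hu, fing_off hT']
      intro h2
      refine Set.disjoint_left.1 hd ⟨_, foot_TD hu ?_ ?_, rfl⟩ h2
      · have := bmp_nonneg u; linarith
      · have := bmp_le_one u; linarith
    · rw [fing_of_not (fun u hu h2 => h1 ⟨u, hu, h2⟩), fing_off hT' h']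
  · rw [fing_off hT h]
    by_cases h1 : ∃ u : ℝ, |u| < 1 ∧ T' ((u : ℂ), 0) = y
    · obtain ⟨u, hu, rfl⟩ := h1
      rw [fing_foot hT' hu, fing_off hT]
      intro h2
      refine Set.disjoint_left.1 hd h2 ⟨_, foot_TD hu ?_ ?_, rfl⟩
      · have := bmp_nonneg u; linarith
      · have := bmp_le_one u; linarith
    · rw [fing_of_not (fun u hu h2 => h1 ⟨u, hu, h2⟩), fing_off hT h]

end

end Pool.Agent.NHQ
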