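import Mathlib
import Pool.Agent.NHQ.FgB
import Pool.Agent.NHP.Grp

/-!
# NHQ/Cnj: chords, fingers and knots under permutations, symmetries of the chord model (difficulty 2)

PROOFS.  `A` is a permutation of `N`.
* `chd_img`: `Cht TD (A ∘ T)` is `Cht.push` (`A = V s`); `A '' K ∩ (A ∘ T) '' TD = A '' (K ∩ T '' TD)`.
* `kn_img`: `image_union`, `image_diff` (`A` injective), `(A ∘ T) '' S = A '' (T '' S)`.
* `fing_img`: if `y = T (u, 0)`, `|u| < 1`, both sides are `A (T (u, 9/8 bmp u))`; otherwise both are `A y` (`A` is injective).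
* `range_fing`: `range (fing T ∘ k) = kn (range k) T`.  `⊆`: if `k t = T (u, 0)` then `fing T (k t) = T (u, 9/8 bmp u) ∈ T '' TF`; otherwise
  `fing T (k t) = k t`, and if `k t ∈ T '' TD` then `k t ∈ T '' TS` (`hit`), so `k t = T q` with `q` on the tip strand (`q ∈ TF`), else `k t ∈ range k \ T '' TD`.
  `⊇`: `T q`, `q ∈ TF`, `q.1.im = 0`, `q.2 = 9/8 bmp q.1.re`: with `u = q.1.re`, `|u| < 1`, `T (u, 0) ∈ T '' TS ⊆ range k`, `T (u, 0) = k t`, `fing T (k t) = T q`; tip strand: `T q = k t` is not of the form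
  `T (u, 0)` (`T` is injective on `TD`, second coordinate `1`).
* `fing_mem`: `T (u, 9/8 bmp u) ∈ T '' TD` since `0 ≤ bmp ≤ 1`, `9/8 < 5/4`.
* symmetries `sy e f`, `e, f = ±1`: involutions, `sy e f '' TD = TD`, `TS`, `TF` are preserved (`bmp (-y) = bmp y` since `bmp` is a function of `y ^ 2`); smooth, linear.
-/

open scoped Manifold ContDiff Topology
open Set Filter CategoryTheory
open Pool.Agent.RSG (E3 ex Thick)
open Pool.Agent.KNT (bmp)
open Pool.Agent.NHP

namespace Pool.Agent.NHQ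

/-- symmetries of the model of a chord -/
def sy (e f : ℝ) (q : E) : E := (⟨e * q.1.re, f * q.1.im⟩, q.2)

theorem bmp_even (y : ℝ) : bmp (-y) = bmp y := by
  unfold bmp
  rw [neg_sq]

theorem bmp_mem (y : ℝ) : 0 ≤ bmp y ∧ bmp y ≤ 1 := by
  unfold bmp
  have h0 := Pool.Agent.CSG.stp_nonneg (1 / 256) (1 / 64) (y ^ 2)
  have h1 := Pool.Agent.CSG.stp_le_one (1 / 256) (1 / 64) (y ^ 2)
  constructor <;> linarith

theorem isOpen_TD : IsOpen TD := by
  have h1 : IsOpen {q : E | ‖q.1‖ < 1} := isOpen_lt (by fun_prop) continuous_const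
  have h2 : IsOpen {q : E | -(1 / 4) < q.2} := isOpen_lt continuous_const continuous_snd
  have h3 : IsOpen {q : E | q.2 < 5 / 4} := isOpen_lt continuous_snd continuous_const
  exact h1.inter (h2.inter h3)

theorem cnj_sq {e : ℝ} (he : e = 1 ∨ e = -1) : e * e = 1 := by
  rcases he with h | h <;> rw [h] <;> norm_num

theorem sy_sy {e f : ℝ} (he : e = 1 ∨ e = -1) (hf : f = 1 ∨ f = -1) (q : E) : sy e f (sy e f q) = q := by
  unfold sy
  refine Prod.ext (Complex.ext ?_ ?_) rfl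
  · change e * (e * q.1.re) = q.1.re
    rw [← mul_assoc, cnj_sq he, one_mul]
  · change f * (f * q.1.im) = q.1.im
    rw [← mul_assoc, cnj_sq hf, one_mul]

/-- the linear map -/
noncomputable def cnj_L (e f : ℝ) : E →L[ℝ] E :=
  LinearMap.toContinuousLinearMap
    { toFun := sy e f
      map_add' := fun p q => Prod.ext (Complex.ext (mul_add e _ _) (mul_add f _ _)) rfl
      map_smul' := fun c q => by
        refine Prod.ext (Complex.ext ?_ ?_) rfl
        · simp only [sy, RingHom.id_apply, Prod.smul_fst, Complex.real_smul, Complex.mul_re, Complex.ofReal_re,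
            Complex.ofReal_im]
          ring
        · simp only [sy, RingHom.id_apply, Prod.smul_fst, Complex.real_smul, Complex.mul_im, Complex.ofReal_re,
            Complex.ofReal_im]
          ring }

theorem cnj_L_eq (e f : ℝ) : (cnj_L e f : E → E) = sy e f := rfl

theorem sy_smooth (e f : ℝ) : ContDiff ℝ ∞ (sy e f) := by
  rw [← cnj_L_eq]
  exact (cnj_L e f).contDiff

theorem cnj_bij {e f : ℝ} (he : e = 1 ∨ e = -1) (hf : f = 1 ∨ f = -1) (q : E) :
    Function.Bijective (fderiv ℝ (sy e f) q) := by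
  rw [← cnj_L_eq, ContinuousLinearMap.fderiv]
  exact Function.Involutive.bijective (fun q => sy_sy he hf q)

theorem cnj_norm {e f : ℝ} (he : e = 1 ∨ e = -1) (hf : f = 1 ∨ f = -1) (q : E) : ‖(sy e f q).1‖ = ‖q.1‖ := by
  have h1 : ‖(sy e f q).1‖ ^ 2 = ‖q.1‖ ^ 2 := by
    rw [← Complex.normSq_eq_norm_sq, ← Complex.normSq_eq_norm_sq, Complex.normSq_apply, Complex.normSq_apply]
    change e * q.1.re * (e * q.1.re) + f * q.1.im * (f * q.1.im) = _
    have h2 := cnj_sq he
    have h3 := cnj_sq hf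
    calc e * q.1.re * (e * q.1.re) + f * q.1.im * (f * q.1.im)
        = (e * e) * (q.1.re * q.1.re) + (f * f) * (q.1.im * q.1.im) := by ring
      _ = _ := by rw [h2, h3, one_mul, one_mul]
  exact (pow_left_inj₀ (norm_nonneg _) (norm_nonneg _) two_ne_zero).1 h1

theorem cnj_TD {e f : ℝ} (he : e = 1 ∨ e = -1) (hf : f = 1 ∨ f = -1) {q : E} (hq : q ∈ TD) : sy e f q ∈ TD := by
  refine ⟨?_, hq.2.1, hq.2.2⟩
  rw [cnj_norm he hf]
  exact hq.1

theorem cnj_TS {e f : ℝ} (he : e = 1 ∨ e = -1) (hf : f = 1 ∨ f = -1) {q : E} (hq : q ∈ TS) : sy e f q ∈ TS := by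
  refine ⟨cnj_TD he hf hq.1, ?_⟩
  rcases hq.2 with ⟨h1, h2⟩ | ⟨h1, h2⟩
  · left
    refine ⟨h1, ?_⟩
    change f * q.1.im = 0
    rw [h2, mul_zero]
  · right
    refine ⟨h1, ?_⟩
    change e * q.1.re = 0
    rw [h2, mul_zero]

theorem cnj_bmp {e : ℝ} (he : e = 1 ∨ e = -1) (y : ℝ) : bmp (e * y) = bmp y := by
  rcases he with h | h
  · rw [h, one_mul]
  · rw [h, neg_one_mul, bmp_even]

theorem cnj_TF {e f : ℝ} (he : e = 1 ∨ e = -1) (hf : f = 1 ∨ f = -1) {q : E} (hq : q ∈ TF) : sy e f q ∈ TF := by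
  refine ⟨cnj_TD he hf hq.1, ?_⟩
  rcases hq.2 with ⟨h1, h2⟩ | ⟨h1, h2⟩
  · left
    constructor
    · change f * q.1.im = 0
      rw [h1, mul_zero]
    · change q.2 = 9 / 8 * bmp (e * q.1.re)
      rw [cnj_bmp he]
      exact h2
  · right
    refine ⟨h1, ?_⟩
    change e * q.1.re = 0
    rw [h2, mul_zero]

theorem cnj_image {N : Type*} {T : E → N} {e f : ℝ} (he : e = 1 ∨ e = -1) (hf : f = 1 ∨ f = -1) {S : Set E}
    (hS : ∀ q ∈ S, sy e f q ∈ S) : (T ∘ sy e f) '' S = T '' S := by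
  apply Subset.antisymm
  · rintro _ ⟨q, hq, rfl⟩
    exact ⟨sy e f q, hS q hq, rfl⟩
  · rintro _ ⟨q, hq, rfl⟩
    refine ⟨sy e f q, hS q hq, ?_⟩
    change T (sy e f (sy e f q)) = T q
    rw [sy_sy he hf]

theorem cnj_mem0 {u : ℝ} (hu : |u| < 1) : ((u : ℂ), (0 : ℝ)) ∈ TD := by
  refine ⟨?_, by norm_num, by norm_num⟩
  change ‖(u : ℂ)‖ < 1
  rw [Complex.norm_real]
  exact hu

theorem cnj_mem1 {u : ℝ} (hu : |u| < 1) : ((u : ℂ), (9 / 8 * bmp u : ℝ)) ∈ TD := by
  have h := bmp_mem u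
  refine ⟨?_, ?_, ?_⟩
  · change ‖(u : ℂ)‖ < 1
    rw [Complex.norm_real]
    exact hu
  · change -(1 / 4) < 9 / 8 * bmp u
    linarith [h.1]
  · change 9 / 8 * bmp u < 5 / 4
    linarith [h.2]

variable {N : Type*} [TopologicalSpace N] [ChartedSpace E3 N]

theorem chd_img {K : Set N} {T : E → N} (hT : Chd K T) {O : Set N} {V : ℝ → Equiv.Perm N} (hV : Push O V) (s : ℝ) :
    Chd (V s '' K) (V s ∘ T) := by
  refine ⟨hT.cht.push hV s, ?_⟩
  rw [image_comp, image_comp, ← image_inter (V s).injective, hT.hit]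

theorem kn_img {K : Set N} {T : E → N} (A : Equiv.Perm N) : kn (A '' K) (A ∘ T) = A '' kn K T := by
  unfold kn
  rw [image_comp, image_comp, image_union, image_sdiff A.injective]

theorem fing_off' {T : E → N} {y : N} (h : y ∉ T '' TD) : fing T y = y := by
  apply fing_of_not
  intro u hu h1
  exact h ⟨_, cnj_mem0 hu, h1⟩

theorem fing_mem {T : E → N} (hT : InjOn T TD) {y : N} : fing T y ∈ T '' TD ↔ y ∈ T '' TD := by
  by_cases h : ∃ u : ℝ, |u| < 1 ∧ T ((u : ℂ), 0) = y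
  · obtain ⟨u, hu, rfl⟩ := h
    rw [fing_foot hT hu]
    exact ⟨fun _ => ⟨_, cnj_mem0 hu, rfl⟩, fun _ => ⟨_, cnj_mem1 hu, rfl⟩⟩
  · rw [fing_of_not (fun u hu h1 => h ⟨u, hu, h1⟩)]

theorem fing_img {T : E → N} (hT : InjOn T TD) (A : Equiv.Perm N) (y : N) : fing (A ∘ T) (A y) = A (fing T y) := by
  by_cases h : ∃ u : ℝ, |u| < 1 ∧ T ((u : ℂ), 0) = y
  · obtain ⟨u, hu, rfl⟩ := h
    rw [fing_foot hT hu]
    exact fing_foot (T := A ∘ T) (A.injective.comp_injOn hT) hu
  · rw [fing_of_not (fun u hu h1 => h ⟨u, hu, h1⟩)]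
    apply fing_of_not
    intro u hu h1
    exact h ⟨u, hu, A.injective h1⟩

theorem range_fing {k : ℝ → N} {T : E → N} (hT : Chd (range k) T) : range (fing T ∘ k) = kn (range k) T := by
  have hi := hT.cht.inj
  apply Subset.antisymm
  · rintro _ ⟨t, rfl⟩
    change fing T (k t) ∈ kn (range k) T
    by_cases h : ∃ u : ℝ, |u| < 1 ∧ T ((u : ℂ), 0) = k t
    · obtain ⟨u, hu, h1⟩ := h
      rw [← h1, fing_foot hi hu]
      right
      refine ⟨_, ⟨cnj_mem1 hu, Or.inl ⟨?_, ?_⟩⟩, rfl⟩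
      · change ((u : ℂ)).im = 0
        exact Complex.ofReal_im u
      · change 9 / 8 * bmp u = 9 / 8 * bmp ((u : ℂ)).re
        rw [Complex.ofReal_re]
    · rw [fing_of_not (fun u hu h1 => h ⟨u, hu, h1⟩)]
      by_cases h2 : k t ∈ T '' TD
      · have h3 : k t ∈ T '' TS := by
          rw [← hT.hit]
          exact ⟨⟨t, rfl⟩, h2⟩
        obtain ⟨q, hq, h4⟩ := h3
        rcases hq.2 with ⟨h5, h6⟩ | h5
        · exfalso
          apply h
          refine ⟨q.1.re, ?_, ?_⟩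
          · exact (Complex.abs_re_le_norm _).trans_lt hq.1.1
          · rw [← h4]
            congr 1
            refine Prod.ext (Complex.ext ?_ ?_) h5.symm
            · exact Complex.ofReal_re _
            · change ((q.1.re : ℂ)).im = q.1.im
              rw [Complex.ofReal_im, h6]
        · right
          exact ⟨q, ⟨hq.1, Or.inr h5⟩, h4⟩
      · left
        exact ⟨⟨t, rfl⟩, h2⟩
  · rintro y (⟨⟨t, rfl⟩, h2⟩ | ⟨q, hq, rfl⟩)
    · exact ⟨t, fing_off' h2⟩
    · rcases hq.2 with ⟨h5, h6⟩ | h5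
      · have hu : |q.1.re| < 1 := (Complex.abs_re_le_norm _).trans_lt hq.1.1
        have h7 : T ((q.1.re : ℂ), 0) ∈ range k := by
          have h8 : T ((q.1.re : ℂ), 0) ∈ T '' TS :=
            ⟨_, ⟨cnj_mem0 hu, Or.inl ⟨rfl, Complex.ofReal_im _⟩⟩, rfl⟩
          rw [← hT.hit] at h8
          exact h8.1
        obtain ⟨t, ht⟩ := h7
        refine ⟨t, ?_⟩
        change fing T (k t) = T q
        rw [ht, fing_foot hi hu]
        congr 1
        refine Prod.ext (Complex.ext ?_ ?_) h6.symm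
        · exact Complex.ofReal_re _
        · change ((q.1.re : ℂ)).im = q.1.im
          rw [Complex.ofReal_im, h5]
      · have h7 : T q ∈ range k := by
          have h8 : T q ∈ T '' TS := ⟨_, ⟨hq.1, Or.inr h5⟩, rfl⟩
          rw [← hT.hit] at h8
          exact h8.1
        obtain ⟨t, ht⟩ := h7
        refine ⟨t, ?_⟩
        change fing T (k t) = T q
        rw [ht]
        apply fing_of_not
        intro u hu h9
        have h10 := hi (cnj_mem0 hu) hq.1 h9
        have h11 : (0 : ℝ) = q.2 := congrArg Prod.snd h10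
        rw [h5.1] at h11
        exact zero_ne_one h11

theorem chd_sy {K : Set N} {T : E → N} (hT : Chd K T) {e f : ℝ} (he : e = 1 ∨ e = -1) (hf : f = 1 ∨ f = -1) :
    Chd K (T ∘ sy e f) := by
  refine ⟨?_, ?_⟩
  · exact hT.cht.comp isOpen_TD (fun q _ => (sy_smooth e f).contDiffAt) (fun q _ => cnj_bij he hf q)
      (fun p _ q _ h => by rw [← sy_sy he hf p, h, sy_sy he hf]) (fun q hq => cnj_TD he hf hq)
  · rw [cnj_image he hf (fun q hq => cnj_TD he hf hq), cnj_image he hf (fun q hq => cnj_TS he hf hq)]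
    exact hT.hit

theorem kn_sy (K : Set N) (T : E → N) {e f : ℝ} (he : e = 1 ∨ e = -1) (hf : f = 1 ∨ f = -1) :
    kn K (T ∘ sy e f) = kn K T := by
  unfold kn
  rw [cnj_image he hf (fun q hq => cnj_TD he hf hq), cnj_image he hf (fun q hq => cnj_TF he hf hq)]

theorem fing_sy {T : E → N} (hT : InjOn T TD) {e f : ℝ} (he : e = 1 ∨ e = -1) (hf : f = 1 ∨ f = -1) :
    fing (T ∘ sy e f) = fing T := by
  have hi : InjOn (T ∘ sy e f) TD := by
    intro p hp q hq h
    have h1 := hT (cnj_TD he hf hp) (cnj_TD he hf hq) h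
    rw [← sy_sy he hf p, h1, sy_sy he hf]
  have hs : ∀ (u x : ℝ), sy e f ((u : ℂ), x) = (((e * u : ℝ) : ℂ), x) := by
    intro u x
    refine Prod.ext (Complex.ext ?_ ?_) rfl
    · change e * ((u : ℂ)).re = (((e * u : ℝ) : ℂ)).re
      rw [Complex.ofReal_re, Complex.ofReal_re]
    · change f * ((u : ℂ)).im = (((e * u : ℝ) : ℂ)).im
      rw [Complex.ofReal_im, Complex.ofReal_im, mul_zero]
  have ha : ∀ u : ℝ, |u| < 1 → |e * u| < 1 := by
    intro u hu
    rcases he with h | h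
    · rw [h, one_mul]; exact hu
    · rw [h, neg_one_mul, abs_neg]; exact hu
  funext y
  by_cases h : ∃ u : ℝ, |u| < 1 ∧ T ((u : ℂ), 0) = y
  · obtain ⟨u, hu, rfl⟩ := h
    rw [fing_foot hT hu]
    have h1 := fing_foot hi (ha u hu)
    have h2 : e * (e * u) = u := by rw [← mul_assoc, cnj_sq he, one_mul]
    simp only [Function.comp_apply, hs, h2, cnj_bmp he] at h1
    exact h1
  · rw [fing_of_not (fun u hu h1 => h ⟨u, hu, h1⟩)]
    apply fing_of_not
    intro u hu h1
    apply h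
    refine ⟨e * u, ha u hu, ?_⟩
    rw [← h1, Function.comp_apply, hs]

/-- a chord of `K` is a chord of every set which is equal to `K` in the tube -/
theorem chd_congr {K K' : Set N} {T : E → N} (hT : Chd K T) (h : K ∩ T '' TD = K' ∩ T '' TD) : Chd K' T :=
  ⟨hT.cht, by rw [← h]; exact hT.hit⟩

end Pool.Agent.NHQ
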