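import Pool.Agent.NHQ.FgB

/-!
# NHQ/FgC: the homotopy from the curve to the curve with the finger; path classes
-/

open scoped Manifold ContDiff Topology unitInterval
open Set Filter CategoryTheory
open Pool.Agent.CSG (stp stp_smooth stp_zero stp_one stp_nonneg stp_le_one)
open Pool.Agent.RSG (E3 ex Thick)
open Pool.Agent.KNT (bmp)
open Pool.Agent.NHP

namespace Pool.Agent.NHQ

/-- the finger of height `s * 9 / 8` -/
noncomputable def fingS {N : Type*} (T : E → N) (s : ℝ) (y : N) : N := by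
  classical
  exact if h : ∃ u : ℝ, |u| < 1 ∧ T ((u : ℂ), 0) = y then T ((h.choose : ℂ), s * (9 / 8 * bmp h.choose)) else y

section
variable {N : Type*} {T : E → N}

theorem fingS_foot (hT : InjOn T TD) {u : ℝ} (hu : |u| < 1) (s : ℝ) :
    fingS T s (T ((u : ℂ), 0)) = T ((u : ℂ), s * (9 / 8 * bmp u)) := by
  have h : ∃ u' : ℝ, |u'| < 1 ∧ T ((u' : ℂ), 0) = T ((u : ℂ), 0) := ⟨u, hu, rfl⟩
  unfold fingS
  rw [dif_pos h]
  have h1 := h.choose_spec
  have h2 := hT (foot_TD h1.1 (by norm_num) (by norm_num)) (foot_TD hu (by norm_num) (by norm_num)) h1.2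
  have h3 : h.choose = u := by
    have : ((h.choose : ℝ) : ℂ) = ((u : ℝ) : ℂ) := congrArg Prod.fst h2
    exact_mod_cast this
  rw [h3]

theorem fingS_of_not {y : N} (h : ∀ u : ℝ, |u| < 1 → T ((u : ℂ), 0) ≠ y) (s : ℝ) : fingS T s y = y := by
  unfold fingS
  rw [dif_neg]
  rintro ⟨u, hu, h1⟩
  exact h u hu h1

theorem fingS_fix (hT : InjOn T TD) {y : N} (h : ∀ u : ℝ, |u| < 1 / 8 → T ((u : ℂ), 0) ≠ y) (s : ℝ) :
    fingS T s y = y := by
  by_cases h1 : ∃ u : ℝ, |u| < 1 ∧ T ((u : ℂ), 0) = y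
  · obtain ⟨u, hu, rfl⟩ := h1
    rw [fingS_foot hT hu, bmp_zero, mul_zero, mul_zero]
    by_contra h2
    exact h u (not_le.1 h2) rfl
  · exact fingS_of_not (fun u hu h2 => h1 ⟨u, hu, h2⟩) s

theorem fingS_one (hT : InjOn T TD) (y : N) : fingS T 1 y = fing T y := by
  by_cases h1 : ∃ u : ℝ, |u| < 1 ∧ T ((u : ℂ), 0) = y
  · obtain ⟨u, hu, rfl⟩ := h1
    rw [fingS_foot hT hu, fing_foot hT hu, one_mul]
  · rw [fingS_of_not (fun u hu h2 => h1 ⟨u, hu, h2⟩), fing_of_not (fun u hu h2 => h1 ⟨u, hu, h2⟩)]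

theorem fingS_zero (hT : InjOn T TD) (y : N) : fingS T 0 y = y := by
  by_cases h1 : ∃ u : ℝ, |u| < 1 ∧ T ((u : ℂ), 0) = y
  · obtain ⟨u, hu, rfl⟩ := h1
    rw [fingS_foot hT hu, zero_mul]
  · rw [fingS_of_not (fun u hu h2 => h1 ⟨u, hu, h2⟩)]

end

section
variable {N : Type*} [TopologicalSpace N] [ChartedSpace E3 N] [T2Space N] {T : E → N}

theorem TD_open : IsOpen TD := by
  have h1 : IsOpen {q : E | ‖q.1‖ < 1} := isOpen_lt (by fun_prop) (by fun_prop)
  have h2 : IsOpen {q : E | -(1 / 4) < q.2} := isOpen_lt (by fun_prop) (by fun_prop)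
  have h3 : IsOpen {q : E | q.2 < 5 / 4} := isOpen_lt (by fun_prop) (by fun_prop)
  exact h1.inter (h2.inter h3)

/-- the middle part of the foot strand is compact -/
theorem foot_compact (hT : Cht TD T) : IsCompact (T '' {q : E | ∃ u : ℝ, |u| ≤ 1 / 8 ∧ q = ((u : ℂ), 0)}) := by
  have h1 : IsCompact {q : E | ∃ u : ℝ, |u| ≤ 1 / 8 ∧ q = ((u : ℂ), (0 : ℝ))} := by
    have : {q : E | ∃ u : ℝ, |u| ≤ 1 / 8 ∧ q = ((u : ℂ), (0 : ℝ))}
        = (fun u : ℝ => ((u : ℂ), (0 : ℝ))) '' Icc (-(1 / 8)) (1 / 8) := by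
      ext q
      constructor
      · rintro ⟨u, hu, rfl⟩
        exact ⟨u, abs_le.1 hu, rfl⟩
      · rintro ⟨u, hu, rfl⟩
        exact ⟨u, abs_le.2 hu, rfl⟩
    rw [this]
    exact isCompact_Icc.image (by fun_prop)
  refine h1.image_of_continuousOn (hT.contOn.mono ?_)
  rintro _ ⟨u, hu, rfl⟩
  exact foot_TD (by linarith) (by norm_num) (by norm_num)

/-- near each parameter the curve is fixed or given by the foot strand -/
theorem fing_local {k : ℝ → N} (hk : Continuous k) (hT : Chd (range k) T) (t₀ : ℝ) :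
    (∀ᶠ t in 𝓝 t₀, ∀ s, fingS T s (k t) = k t) ∨
      ∃ u : ℝ → ℝ, ContinuousAt u t₀ ∧ ∀ᶠ t in 𝓝 t₀, |u t| < 1 ∧ k t = T ((u t : ℂ), 0) := by
  by_cases hA : k t₀ ∈ T '' TD
  · obtain ⟨g, hg, hgs⟩ := hT.cht.inv
    have hopen : IsOpen (T '' TD) := hT.cht.img TD_open Subset.rfl
    have hζ : ContinuousAt (fun t => g (k t)) t₀ := (hgs _ hA).continuousAt.comp hk.continuousAt
    have hev : ∀ᶠ t in 𝓝 t₀, k t ∈ T '' TD := hk.continuousAt.eventually (hopen.mem_nhds hA)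
    have hTS : ∀ t, k t ∈ T '' TD → g (k t) ∈ TS ∧ T (g (k t)) = k t := by
      intro t ht
      have h1 : k t ∈ T '' TS := by rw [← hT.hit]; exact ⟨⟨t, rfl⟩, ht⟩
      obtain ⟨q, hq, hqe⟩ := h1
      rw [← hqe, hg q (TS_sub hq)]
      exact ⟨hq, rfl⟩
    rcases (hTS t₀ hA).1.2 with ⟨h0, -⟩ | ⟨h1, -⟩
    · right
      refine ⟨fun t => (g (k t)).1.re, ?_, ?_⟩
      · exact Complex.continuous_re.continuousAt.comp (continuousAt_fst.comp hζ)
      · have h2 : ∀ᶠ t in 𝓝 t₀, (g (k t)).2 < 1 / 2 :=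
          (continuousAt_snd.comp hζ).eventually (isOpen_Iio.mem_nhds (by
            change (g (k t₀)).2 < 1 / 2
            rw [h0]; norm_num))
        filter_upwards [hev, h2] with t ht ht2
        obtain ⟨⟨h3, h4⟩, h5⟩ := hTS t ht
        rcases h4 with ⟨h6, h7⟩ | ⟨h6, -⟩
        · have hw : (((g (k t)).1.re : ℝ) : ℂ) = (g (k t)).1 := by apply Complex.ext <;> simp [h7]
          refine ⟨(Complex.abs_re_le_norm _).trans_lt h3.1, ?_⟩
          rw [hw]
          conv_lhs => rw [← h5]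
          congr 1
          exact Prod.ext rfl h6
        · rw [h6] at ht2; norm_num at ht2
    · left
      have h2 : ∀ᶠ t in 𝓝 t₀, 1 / 2 < (g (k t)).2 :=
        (continuousAt_snd.comp hζ).eventually (isOpen_Ioi.mem_nhds (by
          change 1 / 2 < (g (k t₀)).2
          rw [h1]; norm_num))
      filter_upwards [hev, h2] with t ht ht2 s
      obtain ⟨⟨h3, h4⟩, h5⟩ := hTS t ht
      refine fingS_of_not (fun u hu h6 => ?_) s
      rw [← h5] at h6
      have h7 := hT.cht.inj (foot_TD hu (by norm_num) (by norm_num)) h3 h6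
      rw [← h7] at ht2
      norm_num at ht2
  · left
    have hcl := (foot_compact hT.cht).isClosed
    have h1 : k t₀ ∉ T '' {q : E | ∃ u : ℝ, |u| ≤ 1 / 8 ∧ q = ((u : ℂ), 0)} := by
      rintro ⟨_, ⟨u, hu, rfl⟩, h2⟩
      exact hA ⟨_, foot_TD (by linarith) (by norm_num) (by norm_num), h2⟩
    filter_upwards [hk.continuousAt.eventually (hcl.isOpen_compl.mem_nhds h1)] with t ht s
    exact fingS_fix hT.cht.inj (fun u hu h2 => ht ⟨_, ⟨u, hu.le, rfl⟩, h2⟩) s

theorem fingS_cont {k : ℝ → N} (hk : Continuous k) (hT : Chd (range k) T) :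
    ContinuousOn (fun q : ℝ × ℝ => fingS T q.1 (k q.2)) (Icc 0 1 ×ˢ univ) := by
  rintro ⟨s₀, t₀⟩ ⟨hs₀, -⟩
  have hpr : Tendsto (fun q : ℝ × ℝ => q.2) (𝓝 (s₀, t₀)) (𝓝 t₀) := continuousAt_snd
  rcases fing_local hk hT t₀ with h | ⟨u, hu, h⟩
  · have h1 : (fun q : ℝ × ℝ => fingS T q.1 (k q.2)) =ᶠ[𝓝 (s₀, t₀)] fun q => k q.2 := by
      filter_upwards [hpr.eventually h] with q hq
      exact hq q.1
    have h2 : ContinuousAt (fun q : ℝ × ℝ => k q.2) (s₀, t₀) := hk.continuousAt.comp continuousAt_snd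
    exact (h2.congr h1.symm).continuousWithinAt
  · have h1 : (fun q : ℝ × ℝ => fingS T q.1 (k q.2)) =ᶠ[𝓝 (s₀, t₀)]
        fun q => T ((u q.2 : ℂ), q.1 * (9 / 8 * bmp (u q.2))) := by
      filter_upwards [hpr.eventually h] with q hq
      rw [hq.2, fingS_foot hT.cht.inj hq.1]
    have hut₀ : |u t₀| < 1 := h.self_of_nhds.1
    have hmem : ((u t₀ : ℂ), s₀ * (9 / 8 * bmp (u t₀))) ∈ TD := by
      refine foot_TD hut₀ ?_ ?_
      · have := mul_nonneg hs₀.1 (mul_nonneg (by norm_num : (0 : ℝ) ≤ 9 / 8) (bmp_nonneg (u t₀)))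
        linarith
      · have h3 : 9 / 8 * bmp (u t₀) ≤ 9 / 8 := by linarith [bmp_le_one (u t₀)]
        have h4 : s₀ * (9 / 8 * bmp (u t₀)) ≤ 1 * (9 / 8) :=
          mul_le_mul hs₀.2 h3 (mul_nonneg (by norm_num) (bmp_nonneg _)) zero_le_one
        linarith
    have h2 : ContinuousAt (fun q : ℝ × ℝ => T ((u q.2 : ℂ), q.1 * (9 / 8 * bmp (u q.2)))) (s₀, t₀) := by
      have hu' : ContinuousAt (fun q : ℝ × ℝ => u q.2) (s₀, t₀) := hu.comp_of_eq continuousAt_snd rfl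
      have h3 : ContinuousAt (fun q : ℝ × ℝ => (((u q.2 : ℝ) : ℂ), q.1 * (9 / 8 * bmp (u q.2)))) (s₀, t₀) := by
        refine ContinuousAt.prodMk (Complex.continuous_ofReal.continuousAt.comp hu') ?_
        exact continuousAt_fst.mul (continuousAt_const.mul (bmp_smooth.continuous.continuousAt.comp hu'))
      exact ContinuousAt.comp_of_eq ((hT.cht.contOn).continuousAt (TD_open.mem_nhds hmem)) h3 rfl
    exact (h2.congr h1.symm).continuousWithinAt

theorem fing_cont {k : ℝ → N} (hk : Continuous k) (hT : Chd (range k) T) : Continuous (fing T ∘ k) := by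
  have h1 : Continuous fun t : ℝ => fingS T 1 (k t) := by
    rw [← continuousOn_univ]
    exact (fingS_cont hk hT).comp (f := fun t : ℝ => ((1 : ℝ), t)) (by fun_prop)
      (fun t _ => ⟨⟨zero_le_one, le_rfl⟩, mem_univ _⟩)
  have h2 : (fun t : ℝ => fingS T 1 (k t)) = fing T ∘ k := by
    funext t; exact fingS_one hT.cht.inj _
  rwa [h2] at h1

/-- the finger of a fixed point -/
theorem fingS_fix_of {y : N} (hT : InjOn T TD) (h : fing T y = y) {s : ℝ} (hs : s ∈ Icc (0 : ℝ) 1) : fingS T s y = y := by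
  by_cases h1 : ∃ u : ℝ, |u| < 1 ∧ T ((u : ℂ), 0) = y
  · obtain ⟨u, hu, rfl⟩ := h1
    rw [fing_foot hT hu] at h
    have hb0 := bmp_nonneg u
    have hb1 := bmp_le_one u
    have h2 := hT (foot_TD hu (by linarith) (by linarith)) (foot_TD hu (by norm_num) (by norm_num)) h
    have h3 : 9 / 8 * bmp u = 0 := congrArg Prod.snd h2
    rw [fingS_foot hT hu, h3, mul_zero]
  · exact fingS_of_not (fun u hu h2 => h1 ⟨u, hu, h2⟩) s

/-- **Detour lemma.** -/
theorem PC.fing {k : ℝ → N} (hk : Continuous k) (hT : Chd (range k) T) {φ : ℝ → ℝ} (hφ : Continuous φ) {x y : N}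
    (h0 : NHQ.fing T (k (φ 0)) = k (φ 0)) (h1 : NHQ.fing T (k (φ 1)) = k (φ 1))
    {γ : FundamentalGroupoid.mk x ⟶ FundamentalGroupoid.mk y} (h : PC (fun t => k (φ t)) γ) :
    PC (fun t => NHQ.fing T (k (φ t))) γ := by
  have hx : k (φ 0) = x := h.zero
  have hy : k (φ 1) = y := h.one
  refine PC.homotopic (H := fun q : ℝ × ℝ => fingS T q.1 (k (φ q.2))) ?_ ?_ ?_ ?_ ?_ h
  · exact (fingS_cont hk hT).comp (f := fun q : ℝ × ℝ => (q.1, φ q.2)) (by fun_prop)
      (fun q hq => ⟨hq.1, mem_univ _⟩)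
  · intro t _
    exact fingS_zero hT.cht.inj _
  · intro t _
    exact fingS_one hT.cht.inj _
  · intro s hs
    change fingS T s (k (φ 0)) = x
    rw [fingS_fix_of hT.cht.inj h0 hs, hx]
  · intro s hs
    change fingS T s (k (φ 1)) = y
    rw [fingS_fix_of hT.cht.inj h1 hs, hy]

/-- with moving end point: the end point runs along the core of the tube -/
theorem PC.fing_foot {k : ℝ → N} (hk : Continuous k) (hT : Chd (range k) T) {φ : ℝ → ℝ} (hφ : Continuous φ) {x y z : N}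
    (h0 : NHQ.fing T (k (φ 0)) = k (φ 0)) (h1 : k (φ 1) = T (0, 0))
    {γ : FundamentalGroupoid.mk x ⟶ FundamentalGroupoid.mk y} (h : PC (fun t => k (φ t)) γ)
    {ρ : FundamentalGroupoid.mk y ⟶ FundamentalGroupoid.mk z} (hρ : PC (fun t => T (0, 9 / 8 * t)) ρ) :
    PC (fun t => NHQ.fing T (k (φ t))) (γ ≫ ρ) := by
  have hx : k (φ 0) = x := h.zero
  have hz : T (0, 9 / 8) = z := by
    have := hρ.one
    simpa using this
  have hf1 : NHQ.fing T (k (φ 1)) = z := by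
    rw [h1]
    have h2 := NHQ.fing_foot hT.cht.inj (u := 0) (by norm_num)
    rw [Complex.ofReal_zero, bmp_zero_eq, mul_one] at h2
    rw [h2, hz]
  obtain ⟨γ₁, hγ₁⟩ := exists_PC (x := x) (y := z) (f := fun t => NHQ.fing T (k (φ t)))
    ((fing_cont hk hT).comp hφ).continuousOn (by rw [h0, hx]) hf1
  have hH : ContinuousOn (fun q : ℝ × ℝ => fingS T q.1 (k (φ q.2))) (Icc (0 : ℝ) 1 ×ˢ Icc (0 : ℝ) 1) :=
    (fingS_cont hk hT).comp (f := fun q : ℝ × ℝ => (q.1, φ q.2)) (by fun_prop)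
      (fun q hq => ⟨hq.1, mem_univ _⟩)
  have hsq := PC.square (H := fun q : ℝ × ℝ => fingS T q.1 (k (φ q.2))) hH (γ₀ := γ) (γ₁ := γ₁)
    (α := 𝟙 (FundamentalGroupoid.mk x)) (β := ρ)
    (h.congr (fun t _ => fingS_zero hT.cht.inj _)) (hγ₁.congr (fun t _ => fingS_one hT.cht.inj _))
    ((PC.const x).congr (fun s hs => by
      change fingS T s (k (φ 0)) = x
      rw [fingS_fix_of hT.cht.inj h0 hs, hx]))
    (hρ.congr (fun s hs => by
      change fingS T s (k (φ 1)) = T (0, 9 / 8 * s)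
      rw [h1]
      have h2 := NHQ.fingS_foot hT.cht.inj (u := 0) (by norm_num) s
      rw [Complex.ofReal_zero, bmp_zero_eq, mul_one] at h2
      rw [h2, mul_comm]))
  rw [hsq, Category.id_comp]
  exact hγ₁

end

end Pool.Agent.NHQ
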