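import Mathlib
import Pool.Agent.NHQ.FgC

/-!
# NHQ/Lbl: labels of chords
-/

open scoped Manifold ContDiff Topology unitInterval
open Set Filter CategoryTheory
open Pool.Agent.CSG (stp stp_smooth stp_zero stp_one stp_nonneg stp_le_one)
open Pool.Agent.RSG (E3 ex Thick)
open Pool.Agent.KNT (bmp)
open Pool.Agent.NHP

namespace Pool.Agent.NHQ

section
variable {N : Type*} [TopologicalSpace N]

/-- free end points -/
theorem lab_iff {x : N} {k : ℝ → N} {T : E → N} {p q : ℝ} {c : FundamentalGroupoid.mk x ⟶ FundamentalGroupoid.mk x} :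
    Lab x k T p q c ↔ ∃ (y z : N) (α : FundamentalGroupoid.mk x ⟶ FundamentalGroupoid.mk y)
      (β : FundamentalGroupoid.mk y ⟶ FundamentalGroupoid.mk z)
      (δ : FundamentalGroupoid.mk x ⟶ FundamentalGroupoid.mk z),
      PC (fun t => k (p * t)) α ∧ PC (fun t => T (0, t)) β ∧ PC (fun t => k (q * t)) δ ∧ c = α ≫ β ≫ inv δ := by
  constructor
  · rintro ⟨α, β, δ, h1, h2, h3, h4⟩
    exact ⟨_, _, α, β, δ, h1, h2, h3, h4⟩
  · rintro ⟨y, z, α, β, δ, h1, h2, h3, h4⟩
    have hy : k p = y := by have := h1.one; simpa using this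
    have hz : k q = z := by have := h3.one; simpa using this
    subst hy; subst hz
    exact ⟨α, β, δ, h1, h2, h3, h4⟩

theorem Lab.unique {x : N} {k : ℝ → N} {T : E → N} {p q : ℝ} {c c' : FundamentalGroupoid.mk x ⟶ FundamentalGroupoid.mk x}
    (h : Lab x k T p q c) (h' : Lab x k T p q c') : c = c' := by
  obtain ⟨α, β, δ, h1, h2, h3, rfl⟩ := h
  obtain ⟨α', β', δ', h1', h2', h3', rfl⟩ := h'
  rw [h1.unique h1', h2.unique h2', h3.unique h3']

theorem exists_Lab {x : N} {k : ℝ → N} (hk : Continuous k) (h0 : k 0 = x) {T : E → N} {p q : ℝ}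
    (hT : ContinuousOn (fun t : ℝ => T (0, t)) (Icc 0 1)) (hp : T (0, 0) = k p) (hq : T (0, 1) = k q) :
    ∃ c, Lab x k T p q c := by
  obtain ⟨α, hα⟩ := exists_PC (x := x) (y := k p) (f := fun t => k (p * t)) (by fun_prop) (by simp [h0]) (by simp)
  obtain ⟨β, hβ⟩ := exists_PC hT hp hq
  obtain ⟨δ, hδ⟩ := exists_PC (x := x) (y := k q) (f := fun t => k (q * t)) (by fun_prop) (by simp [h0]) (by simp)
  exact ⟨_, α, β, δ, hα, hβ, hδ, rfl⟩

/-- the core goes from `k p` to `k q` -/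
theorem Lab.foot {x : N} {k : ℝ → N} {T : E → N} {p q : ℝ} {c : FundamentalGroupoid.mk x ⟶ FundamentalGroupoid.mk x}
    (h : Lab x k T p q c) : T (0, 0) = k p := by
  obtain ⟨α, β, δ, h1, h2, h3, -⟩ := h
  exact h2.zero

theorem Lab.tip {x : N} {k : ℝ → N} {T : E → N} {p q : ℝ} {c : FundamentalGroupoid.mk x ⟶ FundamentalGroupoid.mk x}
    (h : Lab x k T p q c) : T (0, 1) = k q := by
  obtain ⟨α, β, δ, h1, h2, h3, -⟩ := h
  exact h2.one

/-- the chord read from the tip to the foot -/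
noncomputable def rev (T : E → N) (q : E) : N := T (Complex.I * (starRingEnd ℂ) q.1, 1 - q.2)

theorem Lab.rev {x : N} {k : ℝ → N} {T : E → N} {p q : ℝ} {c : FundamentalGroupoid.mk x ⟶ FundamentalGroupoid.mk x}
    (h : Lab x k T p q c) : Lab x k (NHQ.rev T) q p (inv c) := by
  obtain ⟨α, β, δ, h1, h2, h3, rfl⟩ := h
  refine ⟨δ, inv β, α, h3, ?_, h1, by simp⟩
  refine h2.symm.congr (fun t _ => ?_)
  simp [NHQ.rev]

/-- homotopic cores -/
theorem Lab.core {x : N} {k : ℝ → N} {T T' : E → N} {p q : ℝ} {c : FundamentalGroupoid.mk x ⟶ FundamentalGroupoid.mk x}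
    (h : Lab x k T p q c) {y z : N} {β : FundamentalGroupoid.mk y ⟶ FundamentalGroupoid.mk z}
    (h1 : PC (fun t => T (0, t)) β) (h2 : PC (fun t => T' (0, t)) β) : Lab x k T' p q c := by
  obtain ⟨α, β', δ, g1, g2, g3, rfl⟩ := h
  have hy : k p = y := g2.zero.symm.trans h1.zero
  have hz : k q = z := g2.one.symm.trans h1.one
  subst hy; subst hz
  have : β' = β := g2.unique h1
  subst this
  exact ⟨α, β', δ, g1, h2, g3, rfl⟩

end

section
variable {N : Type*} [TopologicalSpace N] [ChartedSpace E3 N]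

theorem push_fix {x : N} {V : ℝ → Equiv.Perm N} (hV : Push {x}ᶜ V) (s : ℝ) : V s x = x :=
  hV.out s (by simp)

theorem push_zero {O : Set N} {V : ℝ → Equiv.Perm N} (hV : Push O V) (y : N) : V 0 y = y := by
  rw [hV.zero]; rfl

/-- the class of a path and of its image -/
theorem PC.pushG {O : Set N} {V : ℝ → Equiv.Perm N} (hV : Push O V) {f : ℝ → N} {x y x' y' : N}
    {γ : FundamentalGroupoid.mk x ⟶ FundamentalGroupoid.mk y} (h : PC f γ)
    {α : FundamentalGroupoid.mk x ⟶ FundamentalGroupoid.mk x'} {β : FundamentalGroupoid.mk y ⟶ FundamentalGroupoid.mk y'}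
    (ha : PC (fun s => V s x) α) (hb : PC (fun s => V s y) β) : PC (fun t => V 1 (f t)) (inv α ≫ γ ≫ β) := by
  have hx : V 1 x = x' := ha.one
  have hy : V 1 y = y' := hb.one
  have hc1 : Continuous (V 1) := hV.cont.comp (Continuous.prodMk continuous_const continuous_id)
  obtain ⟨γ₁, hγ₁⟩ := exists_PC (x := x') (y := y') (f := fun t => V 1 (f t))
    (hc1.comp_continuousOn h.cont) (by rw [h.zero, hx]) (by rw [h.one, hy])
  have hH : ContinuousOn (fun q : ℝ × ℝ => V q.1 (f q.2)) (Icc (0 : ℝ) 1 ×ˢ Icc (0 : ℝ) 1) := by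
    refine hV.cont.comp_continuousOn (f := fun q : ℝ × ℝ => (q.1, f q.2)) ?_
    exact continuousOn_fst.prodMk (h.cont.comp continuousOn_snd (fun q hq => hq.2))
  have hsq := PC.square (H := fun q : ℝ × ℝ => V q.1 (f q.2)) hH (γ₀ := γ) (γ₁ := γ₁) (α := α) (β := β)
    (h.congr (fun t _ => push_zero hV _)) hγ₁
    (ha.congr (fun s _ => by change V s (f 0) = V s x; rw [h.zero]))
    (hb.congr (fun s _ => by change V s (f 1) = V s y; rw [h.one]))
  have : inv α ≫ γ ≫ β = γ₁ := by rw [hsq]; simp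
  rw [this]
  exact hγ₁

/-- labels are invariant under pushes off the base point -/
theorem Lab.push {x : N} {V : ℝ → Equiv.Perm N} (hV : Push {x}ᶜ V) {k : ℝ → N} {T : E → N} {p q : ℝ}
    {c : FundamentalGroupoid.mk x ⟶ FundamentalGroupoid.mk x} (h : Lab x k T p q c) :
    Lab x (fun t => V 1 (k t)) (fun q => V 1 (T q)) p q c := by
  obtain ⟨α, β, δ, h1, h2, h3, rfl⟩ := h
  have hc : ∀ y : N, Continuous fun s : ℝ => V s y := fun y =>
    hV.cont.comp (Continuous.prodMk continuous_id continuous_const)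
  have hx : PC (fun s => V s x) (𝟙 (FundamentalGroupoid.mk x)) :=
    (PC.const x).congr (fun s _ => push_fix hV s)
  obtain ⟨τp, hp⟩ := exists_PC (x := k p) (y := V 1 (k p)) (f := fun s => V s (k p)) (hc _).continuousOn
    (push_zero hV _) rfl
  obtain ⟨τq, hq⟩ := exists_PC (x := k q) (y := V 1 (k q)) (f := fun s => V s (k q)) (hc _).continuousOn
    (push_zero hV _) rfl
  refine ⟨inv (𝟙 _) ≫ α ≫ τp, inv τp ≫ β ≫ τq, inv (𝟙 _) ≫ δ ≫ τq, h1.pushG hV hx hp, h2.pushG hV hp hq, h3.pushG hV hx hq, ?_⟩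
  simp

variable [T2Space N]

/-- labels are not changed by a disjoint finger -/
theorem Lab.fing {x : N} {k : ℝ → N} (hk : Continuous k) {T : E → N} (hT : Chd (range k) T) (h0 : k 0 ∉ T '' TD)
    {T' : E → N} {p q : ℝ} (hp : k p ∉ T '' TD) (hq : k q ∉ T '' TD)
    {c : FundamentalGroupoid.mk x ⟶ FundamentalGroupoid.mk x} (h : Lab x k T' p q c) :
    Lab x (NHQ.fing T ∘ k) T' p q c := by
  obtain ⟨α, β, δ, h1, h2, h3, rfl⟩ := h
  refine lab_iff.2 ⟨k p, k q, α, β, δ, ?_, h2, ?_, rfl⟩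
  · exact PC.fing hk hT (φ := fun t => p * t) (by fun_prop) (by rw [mul_zero]; exact fing_off hT.cht.inj h0)
      (by rw [mul_one]; exact fing_off hT.cht.inj hp) h1
  · exact PC.fing hk hT (φ := fun t => q * t) (by fun_prop) (by rw [mul_zero]; exact fing_off hT.cht.inj h0)
      (by rw [mul_one]; exact fing_off hT.cht.inj hq) h3

/-- the class of the curve is not changed by a finger -/
theorem PC.fing_curve {x : N} {k : ℝ → N} (hk : Continuous k) {T : E → N} (hT : Chd (range k) T) (hx : x ∉ T '' TD)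
    {o : FundamentalGroupoid.mk x ⟶ FundamentalGroupoid.mk x} (h : PC k o) : PC (NHQ.fing T ∘ k) o := by
  refine PC.fing hk hT (φ := fun t => t) (by fun_prop) ?_ ?_ h
  · rw [h.zero]; exact fing_off hT.cht.inj hx
  · rw [h.one]; exact fing_off hT.cht.inj hx

end

end Pool.Agent.NHQ
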