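import Pool.Agent.NHP.Sma

/-!
# NHQ/Shr: vertical shears

`V s (w, x) = (w, x + stp 0 1 s * a w)` as long as the cut-off function `B` is `1` along the segment; the points with
`B = 0` are fixed; the first coordinate is never changed.
-/

open scoped Manifold ContDiff Topology
open Set Filter
open Pool.Agent.CSG (stp stp_smooth stp_zero stp_one stp_nonneg stp_le_one)
open Pool.Agent.RSG (E3 ex Thick)
open Pool.Agent.KNT (Dom Str Str2 BalC bmp)
open Pool.Agent.NHP

namespace Pool.Agent.NHQ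

/-- iterates of a smooth family of diffeomorphisms -/
theorem shr_iter {F : ℝ → Equiv.Perm E} (h : ContDiff ℝ ∞ fun q : ℝ × E => F q.1 q.2)
    (h' : ContDiff ℝ ∞ fun q : ℝ × E => (F q.1).symm q.2) (n : ℕ) :
    ContDiff ℝ ∞ (fun q : ℝ × E => ((F q.1) ^ n) q.2) ∧
      ContDiff ℝ ∞ (fun q : ℝ × E => ((F q.1) ^ n).symm q.2) := by
  induction n with
  | zero =>
    constructor
    · exact (contDiff_snd : ContDiff ℝ ∞ fun q : ℝ × E => q.2)
    · exact (contDiff_snd : ContDiff ℝ ∞ fun q : ℝ × E => q.2)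
  | succ n ih =>
    constructor
    · have e : (fun q : ℝ × E => ((F q.1) ^ (n + 1)) q.2)
          = fun q : ℝ × E => (fun p : ℝ × E => ((F p.1) ^ n) p.2) (q.1, F q.1 q.2) := by
        funext q; rw [pow_succ]; rfl
      rw [e]
      exact ih.1.comp (contDiff_fst.prodMk h)
    · have e : (fun q : ℝ × E => ((F q.1) ^ (n + 1)).symm q.2)
          = fun q : ℝ × E => (fun p : ℝ × E => (F p.1).symm p.2) (q.1, ((F q.1) ^ n).symm q.2) := by
        funext q; rw [pow_succ]; rfl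
      rw [e]
      exact h'.comp (contDiff_fst.prodMk ih.2)

theorem exists_shear {O : Set E} {a : ℂ → ℝ} (ha : ContDiff ℝ ∞ a) {B : E → ℝ} (hB : ContDiff ℝ ∞ B)
    (hC : HasCompactSupport B) (hBO : tsupport B ⊆ O) :
    ∃ V : ℝ → Equiv.Perm E, PushE O V ∧
      (∀ (w : ℂ) (x : ℝ), (∀ r ∈ Icc (0 : ℝ) 1, B (w, x + r * a w) = 1) →
        ∀ s, V s (w, x) = (w, x + stp 0 1 s * a w)) ∧
      (∀ s q, B q = 0 ∨ a q.1 = 0 → V s q = q) ∧ ∀ s q, (V s q).1 = q.1 := by
  -- the function `a B`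
  let H : E → E := fun q => (0, a q.1 * B q)
  have hH : ContDiff ℝ ∞ H := contDiff_const.prodMk ((ha.comp contDiff_fst).mul hB)
  have hHc : HasCompactSupport H := by
    refine hC.mono ?_
    intro q hq hBq
    apply hq
    change ((0 : ℂ), a q.1 * B q) = 0
    rw [hBq, mul_zero]; rfl
  obtain ⟨M, hM⟩ : ∃ M, ∀ q, ‖fderiv ℝ H q‖ ≤ M := by
    have h1 : Continuous (fderiv ℝ H) := hH.continuous_fderiv (by simp)
    obtain ⟨M, hM⟩ := (hHc.fderiv (𝕜 := ℝ)).exists_bound_of_continuous h1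
    exact ⟨M, hM⟩
  obtain ⟨n, hn⟩ := exists_nat_gt (2 * |M| + 1)
  have hn0 : (0 : ℝ) < n := by
    have := abs_nonneg M; linarith
  let G : ℝ × E → E := fun q => (stp 0 1 q.1 / n) • H q.2
  have hG : ContDiff ℝ ∞ G :=
    (((stp_smooth 0 1).comp contDiff_fst).div_const _).smul (hH.comp contDiff_snd)
  have hb : ∀ q : ℝ × E, ‖(fderiv ℝ G q).comp (ContinuousLinearMap.inr ℝ ℝ E)‖ ≤ 1 / 2 := by
    rintro ⟨s, q⟩
    have h1 : HasFDerivAt (fun y : E => G (s, y)) ((fderiv ℝ G (s, q)).comp (ContinuousLinearMap.inr ℝ ℝ E)) q := by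
      have h2 : HasFDerivAt (fun y : E => ((s, y) : ℝ × E)) (ContinuousLinearMap.inr ℝ ℝ E) q :=
        hasFDerivAt_prodMk_right s q
      exact (hG.differentiable (by simp) (s, q)).hasFDerivAt.comp q h2
    have h2 : HasFDerivAt (fun y : E => G (s, y)) ((stp 0 1 s / (n : ℝ)) • fderiv ℝ H q) q :=
      (hH.differentiable (by simp) q).hasFDerivAt.fun_const_smul (stp 0 1 s / (n : ℝ))
    rw [h1.unique h2, norm_smul, Real.norm_eq_abs, abs_div, abs_of_nonneg (stp_nonneg 0 1 s),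
      abs_of_pos hn0]
    have h3 : stp 0 1 s / n ≤ 1 / n := by gcongr; exact stp_le_one 0 1 s
    have h4 : ‖fderiv ℝ H q‖ ≤ |M| := (hM q).trans (le_abs_self M)
    calc stp 0 1 s / n * ‖fderiv ℝ H q‖ ≤ 1 / n * |M| := by
          gcongr
      _ = |M| / n := by ring
      _ ≤ 1 / 2 := by
          rw [div_le_div_iff₀ hn0 two_pos]; linarith
  obtain ⟨F, hF, hF', hFx⟩ := small_fam hG hb
  have hFq : ∀ s w x, F s (w, x) = (w, x + stp 0 1 s / n * (a w * B (w, x))) := by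
    intro s w x
    rw [hFx]
    change ((w, x) : ℂ × ℝ) + (stp 0 1 s / n) • ((0 : ℂ), a w * B (w, x)) = _
    ext
    · simp
    · simp
  have hF1 : ∀ s q, (F s q).1 = q.1 := by
    rintro s ⟨w, x⟩; rw [hFq]
  have hfix : ∀ s q, B q = 0 ∨ a q.1 = 0 → F s q = q := by
    rintro s ⟨w, x⟩ (h | h)
    · rw [hFq, h]; simp
    · change a w = 0 at h
      rw [hFq, h]; simp
  have hpow1 : ∀ s (k : ℕ) q, (((F s) ^ k) q).1 = q.1 := by
    intro s k
    induction k with
    | zero => intro q; rfl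
    | succ k ih =>
      intro q
      rw [pow_succ]
      change (((F s) ^ k) (F s q)).1 = q.1
      rw [ih, hF1]
  have hpowfix : ∀ s (k : ℕ) q, B q = 0 ∨ a q.1 = 0 → ((F s) ^ k) q = q := by
    intro s k q hq
    induction k with
    | zero => rfl
    | succ k ih =>
      rw [pow_succ]
      change ((F s) ^ k) (F s q) = q
      rw [hfix s q hq, ih]
  have hpow : ∀ s (k : ℕ) w x, (∀ r ∈ Icc (0 : ℝ) 1, B (w, x + r * a w) = 1) → k ≤ n →
      ((F s) ^ k) (w, x) = (w, x + k / n * stp 0 1 s * a w) := by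
    intro s k w x h
    induction k with
    | zero => intro _; simp
    | succ k ih =>
      intro hk
      have h1 := ih (by omega)
      rw [pow_succ']
      change F s (((F s) ^ k) (w, x)) = _
      rw [h1, hFq]
      have h2 : B (w, x + k / n * stp 0 1 s * a w) = 1 := by
        apply h (k / n * stp 0 1 s)
        have hkn : (k : ℝ) ≤ n := by exact_mod_cast (by omega : k ≤ n)
        have h3 : (k : ℝ) / n ≤ 1 := (div_le_one hn0).2 hkn
        have h4 : (0 : ℝ) ≤ (k : ℝ) / n := by positivity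
        constructor
        · exact mul_nonneg h4 (stp_nonneg 0 1 s)
        · calc (k : ℝ) / n * stp 0 1 s ≤ 1 * 1 := mul_le_mul h3 (stp_le_one 0 1 s) (stp_nonneg 0 1 s) zero_le_one
            _ = 1 := one_mul 1
      rw [h2]
      congr 1
      push_cast
      field_simp
      ring
  refine ⟨fun s => (F s) ^ n, ⟨(shr_iter hF hF' n).1, (shr_iter hF hF' n).2, ?_, ?_⟩, ?_, ?_, ?_⟩
  · -- `V 0 = id`
    have h0 : F 0 = Equiv.refl E := by
      ext1 q
      obtain ⟨w, x⟩ := q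
      rw [hFq, stp_zero one_pos le_rfl]; simp
    change (F 0) ^ n = _
    rw [h0]
    exact one_pow n
  · refine ⟨tsupport B, hC, hBO, ?_⟩
    intro s q hq
    exact hpowfix s n q (Or.inl (image_eq_zero_of_notMem_tsupport hq))
  · intro w x h s
    have := hpow s n w x h le_rfl
    rw [div_self hn0.ne', one_mul] at this
    exact this
  · intro s q hq
    exact hpowfix s n q hq
  · intro s q
    exact hpow1 s n q

theorem exists_cutE {O : Set E} (hO : IsOpen O) {K : Set E} (hK : IsCompact K) (hKO : K ⊆ O) :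
    ∃ χ : E → ℝ, ContDiff ℝ ∞ χ ∧ HasCompactSupport χ ∧ tsupport χ ⊆ O ∧ ∀ x ∈ K, χ x = 1 := by
  obtain ⟨C, hC, h1, h2⟩ := exists_compact_between hK hO hKO
  obtain ⟨f, f1, f2, -⟩ := exists_contMDiffMap_one_nhds_of_subset_interior (n := (⊤ : ℕ∞)) 𝓘(ℝ, E)
    hK.isClosed h1
  have h3 : tsupport (f : E → ℝ) ⊆ C := by
    refine closure_minimal ?_ hC.isClosed
    intro x hx
    by_contra hxC
    exact hx (f2 x hxC)
  exact ⟨f, f.contMDiff.contDiff, hC.of_isClosed_subset (isClosed_tsupport _) h3, h3.trans h2,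
    fun x hx => f1.self_of_nhdsSet x hx⟩

/-- **Vertical shear** of a compact set `S` in `O \ P`. -/
theorem vshear {O : Set E} (hO : IsOpen O) {P : Set E} (hP : IsClosed P) {a : ℂ → ℝ}
    (ha : ContDiff ℝ ∞ a) {S : Set E} (hS : IsCompact S)
    (h : ∀ q ∈ S, ∀ r ∈ Icc (0 : ℝ) 1, (q.1, q.2 + r * a q.1) ∈ O \ P) :
    ∃ V : ℝ → Equiv.Perm E, PushE (O \ P) V ∧
      (∀ q, (q ∈ S ∨ a q.1 = 0) → ∀ s, V s q = (q.1, q.2 + stp 0 1 s * a q.1)) ∧
      ∀ s q, (V s q).1 = q.1 := by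
  let K : Set E := (fun p : E × ℝ => (p.1.1, p.1.2 + p.2 * a p.1.1)) '' (S ×ˢ Icc (0 : ℝ) 1)
  have hK : IsCompact K := by
    refine (hS.prod isCompact_Icc).image ?_
    have := ha.continuous
    fun_prop
  have hKO : K ⊆ O \ P := by
    rintro _ ⟨⟨q, r⟩, ⟨hq, hr⟩, rfl⟩
    exact h q hq r hr
  obtain ⟨B, hB, hBc, hBO, hB1⟩ := exists_cutE (hO.sdiff hP) hK hKO
  obtain ⟨V, hV, hV1, hV2, hV3⟩ := exists_shear ha hB hBc hBO
  refine ⟨V, hV, ?_, hV3⟩
  rintro ⟨w, x⟩ (hq | hq) s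
  · exact hV1 w x (fun r hr => hB1 _ ⟨((w, x), r), ⟨hq, hr⟩, rfl⟩) s
  · rw [hV2 s _ (Or.inr hq), hq, mul_zero, add_zero]

end Pool.Agent.NHQ
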