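import Mathlib
import Pool.Agent.NHQ.Cnj
import Pool.Agent.NHQ.Shr
import Pool.Agent.NHQ.FgC
import Pool.Agent.NHP.Tra

/-!
# NHQ/Thn: thin chords
-/

open scoped Manifold ContDiff Topology
open Set Filter CategoryTheory
open Pool.Agent.CSG (stp stp_smooth stp_zero stp_one stp_nonneg stp_le_one stp_deriv_nonneg)
open Pool.Agent.RSG (E3 ex Thick)
open Pool.Agent.KNT (bmp)
open Pool.Agent.NHP

namespace Pool.Agent.NHQ

/-- `(w, x) ↦ (d w, h x)` -/
def Sc (d : ℝ) (h : ℝ → ℝ) (q : E) : E := ((d : ℂ) * q.1, h q.2)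

/-- `h` fixes `0`, `1`, has slope `d` near the ends -/
structure Hei (d : ℝ) (h : ℝ → ℝ) : Prop where
  smooth : ContDiff ℝ ∞ h
  pos : ∀ x, 0 < deriv h x
  foot : ∀ x ≤ 1 / 4, h x = d * x
  tip : ∀ x, 3 / 4 ≤ x → h x = 1 - d * (1 - x)

/-- the function `d x + (1 - d) stp` -/
theorem exists_Hei {d : ℝ} (hd : 0 < d) (hd1 : d ≤ 1) : ∃ h : ℝ → ℝ, Hei d h := by
  have hlt : (1 / 4 : ℝ) < 3 / 4 := by norm_num
  refine ⟨fun x => d * x + (1 - d) * stp (1 / 4) (3 / 4) x, ?_, ?_, ?_, ?_⟩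
  · exact (contDiff_const.mul contDiff_id).add (contDiff_const.mul (stp_smooth _ _))
  · intro x
    have h1 : HasDerivAt (fun x : ℝ => d * x + (1 - d) * stp (1 / 4) (3 / 4) x)
        (d * 1 + (1 - d) * deriv (stp (1 / 4) (3 / 4)) x) x :=
      ((hasDerivAt_id x).const_mul d).add
        ((((stp_smooth (1 / 4) (3 / 4)).differentiable (by simp)) x).hasDerivAt.const_mul (1 - d))
    rw [h1.deriv]
    have h2 := stp_deriv_nonneg hlt x
    have h3 : 0 ≤ (1 - d) * deriv (stp (1 / 4) (3 / 4)) x := mul_nonneg (by linarith) h2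
    linarith
  · intro x hx
    rw [stp_zero hlt hx]; ring
  · intro x hx
    rw [stp_one hlt hx]; ring

namespace Hei

variable {d : ℝ} {h : ℝ → ℝ} (H : Hei d h)
include H

theorem mono : StrictMono h := strictMono_of_deriv_pos H.pos

theorem zero : h 0 = 0 := by rw [H.foot 0 (by norm_num), mul_zero]

theorem one : h 1 = 1 := by rw [H.tip 1 (by norm_num)]; ring

theorem eq_zero {x : ℝ} (hx : h x = 0) : x = 0 := H.mono.injective (by rw [hx, H.zero])

theorem eq_one {x : ℝ} (hx : h x = 1) : x = 1 := H.mono.injective (by rw [hx, H.one])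

theorem low {x : ℝ} (hx : -(1 / 4) < x) : -(d / 4) < h x := by
  have := H.mono hx
  rw [H.foot (-(1 / 4)) (by norm_num)] at this
  linarith

theorem up {x : ℝ} (hx : x < 5 / 4) : h x < 1 + d / 4 := by
  have := H.mono hx
  rw [H.tip (5 / 4) (by norm_num)] at this
  linarith

theorem TD_of {q : E} (hd : 0 < d) (hd1 : d ≤ 1) (hq : q ∈ TD) : Sc d h q ∈ TD := by
  obtain ⟨h1, h2, h3⟩ := hq
  refine ⟨?_, ?_, ?_⟩
  · change ‖(d : ℂ) * q.1‖ < 1
    rw [norm_mul, Complex.norm_real, Real.norm_eq_abs, abs_of_pos hd]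
    calc d * ‖q.1‖ ≤ 1 * ‖q.1‖ := by gcongr
      _ < 1 := by rwa [one_mul]
  · change -(1 / 4) < h q.2
    have := H.low h2; linarith
  · change h q.2 < 5 / 4
    have := H.up h3; linarith

theorem TS_iff {q : E} (hd : 0 < d) (hd1 : d ≤ 1) (hq : q ∈ TD) : Sc d h q ∈ TS ↔ q ∈ TS := by
  have e1 : (Sc d h q).1.im = d * q.1.im := by simp [Sc]
  have e2 : (Sc d h q).1.re = d * q.1.re := by simp [Sc]
  constructor
  · rintro ⟨-, ⟨h1, h2⟩ | ⟨h1, h2⟩⟩
    · refine ⟨hq, Or.inl ⟨H.eq_zero h1, ?_⟩⟩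
      rw [e1] at h2
      exact (mul_eq_zero.1 h2).resolve_left hd.ne'
    · refine ⟨hq, Or.inr ⟨H.eq_one h1, ?_⟩⟩
      rw [e2] at h2
      exact (mul_eq_zero.1 h2).resolve_left hd.ne'
  · rintro ⟨-, ⟨h1, h2⟩ | ⟨h1, h2⟩⟩
    · refine ⟨H.TD_of hd hd1 hq, Or.inl ⟨?_, ?_⟩⟩
      · change h q.2 = 0; rw [h1, H.zero]
      · rw [e1, h2, mul_zero]
    · refine ⟨H.TD_of hd hd1 hq, Or.inr ⟨?_, ?_⟩⟩
      · change h q.2 = 1; rw [h1, H.one]
      · rw [e2, h2, mul_zero]

theorem inj (hd : 0 < d) : Function.Injective (Sc d h) := by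
  rintro ⟨w, x⟩ ⟨w', x'⟩ he
  have h1 : (d : ℂ) * w = (d : ℂ) * w' := congrArg Prod.fst he
  have h2 : h x = h x' := congrArg Prod.snd he
  have hd' : (d : ℂ) ≠ 0 := by exact_mod_cast hd.ne'
  rw [mul_left_cancel₀ hd' h1, H.mono.injective h2]

theorem smoothSc : ContDiff ℝ ∞ (Sc d h) :=
  (contDiff_const.mul contDiff_fst).prodMk (H.smooth.comp contDiff_snd)

theorem bijSc (hd : 0 < d) (q : E) : Function.Bijective (fderiv ℝ (Sc d h) q) := by
  have hd' : (d : ℂ) ≠ 0 := by exact_mod_cast hd.ne'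
  have h1 : HasFDerivAt (fun q : E => (d : ℂ) * q.1) ((d : ℂ) • ContinuousLinearMap.fst ℝ ℂ ℝ) q :=
    hasFDerivAt_fst.const_mul _
  have h2 : HasFDerivAt (fun q : E => h q.2) ((deriv h q.2) • ContinuousLinearMap.snd ℝ ℂ ℝ) q := by
    have h3 : HasDerivAt h (deriv h q.2) q.2 := (H.smooth.differentiable (by simp) _).hasDerivAt
    exact h3.comp_hasFDerivAt q hasFDerivAt_snd
  have h3 : HasFDerivAt (Sc d h) (((d : ℂ) • ContinuousLinearMap.fst ℝ ℂ ℝ).prod
      ((deriv h q.2) • ContinuousLinearMap.snd ℝ ℂ ℝ)) q := h1.prodMk h2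
  rw [h3.fderiv]
  have hp := (H.pos q.2).ne'
  constructor
  · rintro ⟨a, b⟩ ⟨a', b'⟩ he
    have e1 : (d : ℂ) * a = (d : ℂ) * a' := congrArg Prod.fst he
    have e2 : deriv h q.2 * b = deriv h q.2 * b' := congrArg Prod.snd he
    rw [mul_left_cancel₀ hd' e1, mul_left_cancel₀ hp e2]
  · rintro ⟨a, b⟩
    refine ⟨((d : ℂ)⁻¹ * a, (deriv h q.2)⁻¹ * b), ?_⟩
    refine Prod.ext ?_ ?_
    · change (d : ℂ) * ((d : ℂ)⁻¹ * a) = a
      rw [mul_inv_cancel_left₀ hd']
    · change deriv h q.2 * ((deriv h q.2)⁻¹ * b) = b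
      rw [mul_inv_cancel_left₀ hp]

end Hei

variable {N : Type*} [TopologicalSpace N] [ChartedSpace E3 N] [T2Space N]

omit [T2Space N] in
theorem thin_chd {K : Set N} {T : E → N} (hT : Chd K T) {d : ℝ} {h : ℝ → ℝ} (H : Hei d h) (hd : 0 < d) (hd1 : d ≤ 1) :
    Chd K (T ∘ Sc d h) where
  cht := hT.cht.comp (f := Sc d h) (isOpen_TD) (fun q _ => H.smoothSc.contDiffAt) (fun q _ => H.bijSc hd q)
    (H.inj hd).injOn (fun q hq => H.TD_of hd hd1 hq)
  hit := by
    ext y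
    constructor
    · rintro ⟨h1, ⟨q, hq, rfl⟩⟩
      have h2 := H.TD_of hd hd1 hq
      have h3 : T (Sc d h q) ∈ T '' TS := by rw [← hT.hit]; exact ⟨h1, ⟨_, h2, rfl⟩⟩
      obtain ⟨q', hq', he⟩ := h3
      have h4 : q' = Sc d h q := hT.cht.inj (TS_sub hq') h2 he
      rw [h4] at hq'
      exact ⟨q, (H.TS_iff hd hd1 hq).1 hq', rfl⟩
    · rintro ⟨q, hq, rfl⟩
      have h1 : Sc d h q ∈ TS := (H.TS_iff hd hd1 (TS_sub hq)).2 hq
      have h2 : T (Sc d h q) ∈ K ∩ T '' TD := by rw [hT.hit]; exact ⟨_, h1, rfl⟩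
      exact ⟨h2.1, q, TS_sub hq, rfl⟩

/-- the closed tube -/
def CT (d : ℝ) : Set E := Metric.closedBall (0 : ℂ) d ×ˢ Icc (-(d / 4)) (1 + d / 4)

theorem CT_compact (d : ℝ) : IsCompact (CT d) := (isCompact_closedBall 0 d).prod isCompact_Icc

theorem CT_TD {d : ℝ} (hd : d < 1) : CT d ⊆ TD := by
  rintro ⟨w, x⟩ ⟨h1, h2, h3⟩
  rw [mem_closedBall_zero_iff] at h1
  change ‖w‖ ≤ d at h1
  change -(d / 4) ≤ x at h2
  change x ≤ 1 + d / 4 at h3
  refine ⟨?_, ?_, ?_⟩
  · change ‖w‖ < 1; linarith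
  · change -(1 / 4) < x; linarith
  · change x < 5 / 4; linarith

/-- small tubes around the core -/
theorem exists_CT {O : Set E} (hO : IsOpen O) (hc : ∀ x ∈ Icc (0 : ℝ) 1, ((0 : ℂ), x) ∈ O) :
    ∃ d₀ : ℝ, 0 < d₀ ∧ d₀ < 1 ∧ ∀ d, d ≤ d₀ → CT d ⊆ O := by
  have h1 : IsCompact ({(0 : ℂ)} ×ˢ Icc (0 : ℝ) 1) := isCompact_singleton.prod isCompact_Icc
  obtain ⟨δ, hδ, h2⟩ := h1.exists_thickening_subset_open hO (by
    rintro ⟨w, x⟩ ⟨hw, hx⟩
    rw [mem_singleton_iff] at hw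
    change w = 0 at hw
    subst hw
    exact hc x hx)
  refine ⟨min (δ / 2) (1 / 2), by positivity, by
    have := min_le_right (δ / 2) (1 / 2 : ℝ); linarith, ?_⟩
  rintro d hd ⟨w, x⟩ ⟨h3, h4, h5⟩
  change w ∈ Metric.closedBall (0 : ℂ) d at h3
  rw [mem_closedBall_zero_iff] at h3
  change -(d / 4) ≤ x at h4
  change x ≤ 1 + d / 4 at h5
  have hdδ : d ≤ δ / 2 := hd.trans (min_le_left _ _)
  apply h2
  rw [Metric.mem_thickening_iff]
  refine ⟨((0 : ℂ), max 0 (min x 1)), ⟨rfl, ⟨le_max_left _ _, max_le zero_le_one (min_le_right _ _)⟩⟩, ?_⟩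
  rw [Prod.dist_eq, max_lt_iff]
  constructor
  · change dist w 0 < δ
    rw [dist_zero_right]; linarith
  · change dist x (max 0 (min x 1)) < δ
    rw [Real.dist_eq, abs_lt]
    have hd0 : 0 ≤ d := (norm_nonneg w).trans h3
    rcases le_total x 1 with h6 | h6
    · rw [min_eq_left h6]
      rcases le_total 0 x with h7 | h7
      · rw [max_eq_right h7]; constructor <;> linarith
      · rw [max_eq_left h7]; constructor <;> linarith
    · rw [min_eq_right h6, max_eq_right zero_le_one]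
      constructor <;> linarith

theorem thin_chord {K : Set N} {T : E → N} (hT : Chd K T) {O : Set N} (hO : IsOpen O)
    (hc : ∀ x ∈ Icc (0 : ℝ) 1, T (0, x) ∈ O) :
    ∃ d₀ : ℝ, 0 < d₀ ∧ ∀ d : ℝ, 0 < d → d ≤ d₀ → ∃ h : ℝ → ℝ, Hei d h ∧ Chd K (T ∘ Sc d h) ∧ (T ∘ Sc d h) '' TD ⊆ O ∧
      (∃ C : Set N, IsCompact C ∧ C ⊆ T '' TD ∧ C ⊆ O ∧ (T ∘ Sc d h) '' TD ⊆ C) ∧
      (∃ V : ℝ → Equiv.Perm N, Push (T '' TD) V ∧ ∀ y ∈ K, fing (T ∘ Sc d h) y = V 1 (fing T y)) ∧
      ∀ (x y : N) (β : FundamentalGroupoid.mk x ⟶ FundamentalGroupoid.mk y),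
        PC (fun t => T (0, t)) β → PC (fun t => (T ∘ Sc d h) (0, t)) β := by
  have hTi := hT.cht.inj
  -- the open set
  have hO' : IsOpen (TD ∩ T ⁻¹' O) := hT.cht.contOn.isOpen_inter_preimage isOpen_TD hO
  obtain ⟨d₀, hd₀, hd₀1, hCT⟩ := exists_CT hO' (fun x hx => ⟨by
    refine ⟨?_, ?_, ?_⟩
    · change ‖(0 : ℂ)‖ < 1; simp
    · change -(1 / 4) < x; linarith [hx.1]
    · change x < 5 / 4; linarith [hx.2], hc x hx⟩)
  refine ⟨d₀, hd₀, ?_⟩
  intro d hd hdd
  have hd1 : d < 1 := lt_of_le_of_lt hdd hd₀1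
  obtain ⟨h, H⟩ := exists_Hei hd hd1.le
  have hScCT : ∀ q ∈ TD, Sc d h q ∈ CT d := by
    rintro q ⟨h1, h2, h3⟩
    refine ⟨?_, (H.low h2).le, (H.up h3).le⟩
    rw [mem_closedBall_zero_iff]
    change ‖(d : ℂ) * q.1‖ ≤ d
    rw [norm_mul, Complex.norm_real, Real.norm_eq_abs, abs_of_pos hd]
    calc d * ‖q.1‖ ≤ d * 1 := by gcongr
      _ = d := mul_one d
  refine ⟨h, H, thin_chd hT H hd hd1.le, ?_, ?_, ?_, ?_⟩
  · rintro _ ⟨q, hq, rfl⟩
    exact (hCT d hdd (hScCT q hq)).2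
  · refine ⟨T '' CT d, (CT_compact d).image_of_continuousOn (hT.cht.contOn.mono (CT_TD hd1)),
      image_mono (CT_TD hd1), ?_, ?_⟩
    · rintro _ ⟨q, hq, rfl⟩
      exact (hCT d hdd hq).2
    · rintro _ ⟨q, hq, rfl⟩
      exact ⟨_, hScCT q hq, rfl⟩
  · -- the shear
    let h₀ : ℝ → ℝ := fun u => 9 / 8 * bmp u
    let h₁ : ℝ → ℝ := fun u => h (9 / 8 * bmp (u / d))
    have hh₀ : ContDiff ℝ ∞ h₀ := contDiff_const.mul bmp_smooth
    have hh₁ : ContDiff ℝ ∞ h₁ := H.smooth.comp (contDiff_const.mul (bmp_smooth.comp (contDiff_id.div_const d)))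
    let a : ℂ → ℝ := fun w => h₁ w.re - h₀ w.re
    have ha : ContDiff ℝ ∞ a := (hh₁.comp Complex.reCLM.contDiff).sub (hh₀.comp Complex.reCLM.contDiff)
    have hout : ∀ u : ℝ, 1 / 8 ≤ |u| → h₀ u = 0 ∧ h₁ u = 0 := by
      intro u hu
      have h2 : 1 / 8 ≤ |u / d| := by
        rw [abs_div, abs_of_pos hd, le_div_iff₀ hd]
        nlinarith [abs_nonneg u]
      constructor
      · change 9 / 8 * bmp u = 0; rw [bmp_zero hu, mul_zero]
      · change h (9 / 8 * bmp (u / d)) = 0; rw [bmp_zero h2, mul_zero, H.zero]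
    have hb₀ : ∀ u, 0 ≤ h₀ u ∧ h₀ u ≤ 9 / 8 := fun u =>
      ⟨mul_nonneg (by norm_num) (bmp_nonneg u), by change 9 / 8 * bmp u ≤ 9 / 8; linarith [bmp_le_one u]⟩
    have hb₁ : ∀ u, 0 ≤ h₁ u ∧ h₁ u ≤ 9 / 8 := by
      intro u
      constructor
      · have := H.mono.monotone (mul_nonneg (by norm_num : (0 : ℝ) ≤ 9 / 8) (bmp_nonneg (u / d)))
        rwa [H.zero] at this
      · have h2 : 9 / 8 * bmp (u / d) ≤ 9 / 8 := by linarith [bmp_le_one (u / d)]
        have := H.mono.monotone h2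
        rw [H.tip (9 / 8) (by norm_num)] at this
        exact this.trans (by linarith)
    let S : Set E := (fun u : ℝ => ((u : ℂ), h₀ u)) '' Icc (-(1 / 8)) (1 / 8)
    have hS : IsCompact S := isCompact_Icc.image (by have := hh₀.continuous; fun_prop)
    let P : Set E := {q | q.1.re = 0 ∧ q.2 = 1}
    have hP : IsClosed P := by
      have e1 : IsClosed {q : E | q.1.re = 0} := isClosed_eq (by fun_prop) continuous_const
      have e2 : IsClosed {q : E | q.2 = 1} := isClosed_eq (by fun_prop) continuous_const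
      exact e1.inter e2
    have hsw : ∀ q ∈ S, ∀ r ∈ Icc (0 : ℝ) 1, (q.1, q.2 + r * a q.1) ∈ TD \ P := by
      rintro _ ⟨u, hu, rfl⟩ r hr
      have hu' : |u| ≤ 1 / 8 := abs_le.2 hu
      have e1 : (((u : ℂ), h₀ u) : E).2 + r * a (((u : ℂ), h₀ u) : E).1 = (1 - r) * h₀ u + r * h₁ u := by
        change h₀ u + r * (h₁ (u : ℂ).re - h₀ (u : ℂ).re) = _
        rw [Complex.ofReal_re]; ring
      rw [e1]
      have h2 := hb₀ u
      have h3 := hb₁ u
      have h4 : 0 ≤ (1 - r) * h₀ u := mul_nonneg (by linarith [hr.2]) h2.1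
      have h5 : 0 ≤ r * h₁ u := mul_nonneg hr.1 h3.1
      have h6 : (1 - r) * h₀ u ≤ (1 - r) * (9 / 8) := mul_le_mul_of_nonneg_left h2.2 (by linarith [hr.2])
      have h7 : r * h₁ u ≤ r * (9 / 8) := mul_le_mul_of_nonneg_left h3.2 hr.1
      refine ⟨foot_TD (by linarith) (by linarith) (by linarith), ?_⟩
      rintro ⟨h8, h9⟩
      change (u : ℂ).re = 0 at h8
      change (1 - r) * h₀ u + r * h₁ u = 1 at h9
      rw [Complex.ofReal_re] at h8
      subst h8
      have e2 : h₀ 0 = 9 / 8 := by change 9 / 8 * bmp 0 = 9 / 8; rw [bmp_zero_eq, mul_one]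
      have e3 : h₁ 0 = 1 + d / 8 := by
        change h (9 / 8 * bmp (0 / d)) = _
        rw [zero_div, bmp_zero_eq, mul_one, H.tip (9 / 8) (by norm_num)]; ring
      rw [e2, e3] at h9
      have h10 : 0 ≤ r * (1 - d) := mul_nonneg hr.1 (by linarith)
      nlinarith [hr.1, hr.2]
    obtain ⟨V, hV, hV1, -⟩ := vshear isOpen_TD hP ha hS hsw
    obtain ⟨V', hV', hV'1, hV'2⟩ := push_chart hT.cht (hV.mono sdiff_subset)
    refine ⟨V', hV', ?_⟩
    have hstp : stp 0 1 (1 : ℝ) = 1 := stp_one one_pos le_rfl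
    intro y hy
    by_cases hyT : y ∈ T '' TD
    · have hyS : y ∈ T '' TS := by rw [← hT.hit]; exact ⟨hy, hyT⟩
      obtain ⟨⟨w, x⟩, ⟨hq, hq'⟩, rfl⟩ := hyS
      rcases hq' with ⟨h1, h2⟩ | ⟨h1, h2⟩
      · -- foot
        change x = 0 at h1
        change w.im = 0 at h2
        subst h1
        obtain ⟨u, rfl⟩ : ∃ u : ℝ, w = (u : ℂ) := ⟨w.re, by apply Complex.ext <;> simp [h2]⟩
        have hu : |u| < 1 := by
          have := hq.1
          change ‖(u : ℂ)‖ < 1 at this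
          rwa [Complex.norm_real, Real.norm_eq_abs] at this
        rw [fing_foot hTi hu]
        have hmem : ((u : ℂ), h₀ u) ∈ TD := foot_TD hu (by linarith [(hb₀ u).1]) (by linarith [(hb₀ u).2])
        have h3 : ((u : ℂ), h₀ u) ∈ S ∨ a (((u : ℂ), h₀ u) : E).1 = 0 := by
          by_cases h4 : |u| ≤ 1 / 8
          · exact Or.inl ⟨u, abs_le.1 h4, rfl⟩
          · right
            change h₁ (u : ℂ).re - h₀ (u : ℂ).re = 0
            obtain ⟨h5, h6⟩ := hout u (not_le.1 h4).le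
            rw [Complex.ofReal_re, h5, h6, sub_zero]
        have h7 : V' 1 (T ((u : ℂ), 9 / 8 * bmp u)) = T ((u : ℂ), h₁ u) := by
          change V' 1 (T ((u : ℂ), h₀ u)) = _
          rw [hV'1 1 _ hmem, hV1 _ h3, hstp]
          congr 1
          refine Prod.ext rfl ?_
          change h₀ u + 1 * (h₁ (u : ℂ).re - h₀ (u : ℂ).re) = h₁ u
          rw [Complex.ofReal_re]; ring
        rw [h7]
        have hi' : InjOn (T ∘ Sc d h) TD := (thin_chd hT H hd hd1.le).cht.inj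
        by_cases h8 : |u| < d
        · have h9 : |u / d| < 1 := by rw [abs_div, abs_of_pos hd, div_lt_one hd]; exact h8
          have hcm : (d : ℂ) * ((u / d : ℝ) : ℂ) = (u : ℂ) := by
            rw [← Complex.ofReal_mul, mul_div_cancel₀ _ hd.ne']
          have h10 : T ((u : ℂ), 0) = (T ∘ Sc d h) (((u / d : ℝ) : ℂ), 0) := by
            change _ = T ((d : ℂ) * ((u / d : ℝ) : ℂ), h 0)
            rw [H.zero, hcm]
          rw [h10, fing_foot hi' h9]
          change T ((d : ℂ) * ((u / d : ℝ) : ℂ), h (9 / 8 * bmp (u / d))) = _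
          rw [hcm]
        · have h9 : 1 / 8 ≤ |u / d| := by
            rw [abs_div, abs_of_pos hd, le_div_iff₀ hd]
            linarith [not_lt.1 h8]
          have h10 : h₁ u = 0 := by
            change h (9 / 8 * bmp (u / d)) = 0
            rw [bmp_zero h9, mul_zero, H.zero]
          rw [h10]
          refine fing_fix hi' (fun u' hu' he => ?_)
          have h11 : T ((d : ℂ) * (u' : ℂ), h 0) = T ((u : ℂ), 0) := he
          rw [H.zero] at h11
          have h12 : ((d : ℂ) * (u' : ℂ)) = (((d * u' : ℝ)) : ℂ) := by push_cast; rfl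
          rw [h12] at h11
          have h13 : |d * u'| < 1 := by
            rw [abs_mul, abs_of_pos hd]
            nlinarith [abs_nonneg u']
          have h14 := hTi (foot_TD h13 (by norm_num) (by norm_num)) (foot_TD hu (by norm_num) (by norm_num)) h11
          have h15 : (((d * u' : ℝ)) : ℂ) = ((u : ℝ) : ℂ) := congrArg Prod.fst h14
          have h16 : d * u' = u := by exact_mod_cast h15
          rw [← h16, abs_mul, abs_of_pos hd] at h8
          apply h8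
          nlinarith [abs_nonneg u']
      · -- tip
        change x = 1 at h1
        change w.re = 0 at h2
        subst h1
        rw [fing_tip hTi hq.1 (by norm_num) (by norm_num) one_ne_zero, hV'1 1 _ hq]
        have h3 : V 1 (w, 1) = (w, 1) := hV.out 1 (fun h4 => h4.2 ⟨h2, rfl⟩)
        rw [h3]
        refine fing_fix (thin_chd hT H hd hd1.le).cht.inj (fun u' hu' he => ?_)
        have h11 : T ((d : ℂ) * (u' : ℂ), h 0) = T (w, 1) := he
        rw [H.zero] at h11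
        have h12 : ((d : ℂ) * (u' : ℂ)) = (((d * u' : ℝ)) : ℂ) := by push_cast; rfl
        rw [h12] at h11
        have h13 : |d * u'| < 1 := by
          rw [abs_mul, abs_of_pos hd]
          nlinarith [abs_nonneg u']
        have h14 := hTi (foot_TD h13 (by norm_num) (by norm_num)) hq h11
        have h15 : (0 : ℝ) = 1 := congrArg Prod.snd h14
        norm_num at h15
    · rw [fing_off hTi hyT, hV'2 1 y hyT]
      refine fing_off (thin_chd hT H hd hd1.le).cht.inj ?_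
      rintro ⟨q, hq, rfl⟩
      exact hyT ⟨_, H.TD_of hd hd1.le hq, rfl⟩
  · intro x y β hβ
    have hcont : ContinuousOn (fun t : ℝ => T (0, t)) (Icc 0 1) := by
      refine hT.cht.contOn.comp (by fun_prop) ?_
      intro t ht
      refine ⟨?_, ?_, ?_⟩
      · change ‖(0 : ℂ)‖ < 1; simp
      · change -(1 / 4) < t; linarith [ht.1]
      · change t < 5 / 4; linarith [ht.2]
    have h1 := PC.convex (C := Icc (0 : ℝ) 1) (convex_Icc 0 1) (F := fun t : ℝ => T (0, t)) hcont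
      (u := fun t => t) (v := h) continuousOn_id H.smooth.continuous.continuousOn (fun t ht => ht)
      (fun t ht => ⟨by have := H.mono.monotone ht.1; rwa [H.zero] at this,
        by have := H.mono.monotone ht.2; rwa [H.one] at this⟩) H.zero.symm H.one.symm hβ
    refine h1.congr (fun t _ => ?_)
    change T ((d : ℂ) * 0, h t) = T (0, h t)
    rw [mul_zero]

end Pool.Agent.NHQ
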