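import Mathlib
import Pool.Agent.NHQ.Cnj
import Pool.Agent.NHQ.FgC
import Pool.Agent.NHQ.Lbl
import Pool.Agent.NHQ.Thn
import Pool.Agent.NHP.Grp

/-!
# NHQ/Lab: labels under pushes, fingers along other chords, thinning
-/

open scoped Manifold ContDiff Topology
open Set Filter CategoryTheory
open Pool.Agent.RSG (E3 ex Thick)
open Pool.Agent.KNT (bmp)
open Pool.Agent.NHP

namespace Pool.Agent.NHQ

variable {N : Type*} [TopologicalSpace N] [ChartedSpace E3 N]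

theorem PC.push {x y : N} {f : ℝ → N} {γ : FundamentalGroupoid.mk x ⟶ FundamentalGroupoid.mk y} (h : PC f γ) {O : Set N}
    {V : ℝ → Equiv.Perm N} (hV : Push O V) (hx : ∀ s, V s x = x) (hy : ∀ s, V s y = y) : PC (fun t => V 1 (f t)) γ := by
  have h1 : PC (fun s => V s x) (𝟙 (FundamentalGroupoid.mk x)) := (PC.const x).congr (fun s _ => hx s)
  have h2 : PC (fun s => V s y) (𝟙 (FundamentalGroupoid.mk y)) := (PC.const y).congr (fun s _ => hy s)
  have h3 := h.pushG hV h1 h2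
  simpa using h3

theorem ChL.push {x : N} {k : ℝ → N} {T : E → N} {p q : ℝ} {c : FundamentalGroupoid.mk x ⟶ FundamentalGroupoid.mk x}
    (h : ChL x k T p q c) {V : ℝ → Equiv.Perm N} (hV : Push {x}ᶜ V) : ChL x (V 1 ∘ k) (V 1 ∘ T) p q c where
  chd := by rw [range_comp]; exact chd_img h.chd hV 1
  pos := h.pos
  lt := h.lt
  one := h.one
  off := by
    rintro ⟨q, hq, he⟩
    have h1 : V 1 (T q) = V 1 x := by rw [push_fix hV 1]; exact he
    exact h.off ⟨q, hq, (V 1).injective h1⟩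
  lab := h.lab.push hV

/-- change of the parameter of the curve -/
theorem ChL.repar {x : N} {k : ℝ → N} {T : E → N} {p q p' q' : ℝ} {c : FundamentalGroupoid.mk x ⟶ FundamentalGroupoid.mk x}
    {φ : ℝ → ℝ} (hk : Continuous k) (hφ : Continuous φ) (hs : Function.Surjective φ) (h0 : φ 0 = 0) (h1 : φ 1 = 1)
    (hm : StrictMono φ) (h : ChL x (k ∘ φ) T p q c) (hp : φ p = p') (hq : φ q = q') : ChL x k T p' q' c where
  chd := by rw [← hs.range_comp k]; exact h.chd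
  pos := by rw [← hp, ← h0]; exact hm h.pos
  lt := by rw [← hp, ← hq]; exact hm h.lt
  one := by rw [← hq, ← h1]; exact hm h.one
  off := h.off
  lab := by
    subst hp; subst hq
    obtain ⟨y, z, α, β, δ, g1, g2, g3, rfl⟩ := lab_iff.1 h.lab
    have key : ∀ (r : ℝ) (w : N) (ε : FundamentalGroupoid.mk x ⟶ FundamentalGroupoid.mk w),
        PC (fun t => (k ∘ φ) (r * t)) ε → PC (fun t => k (φ r * t)) ε := by
      intro r w ε hε
      refine PC.convex (C := univ) convex_univ hk.continuousOn (u := fun t => φ (r * t)) (v := fun t => φ r * t)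
        (by fun_prop) (by fun_prop) (fun _ _ => mem_univ _) (fun _ _ => mem_univ _) ?_ ?_ hε
      · simp [h0]
      · simp
    exact lab_iff.2 ⟨y, z, α, β, δ, key p y α g1, g2, key q z δ g3, rfl⟩

/-- `Mv` is an equivalence relation -/
theorem Mv.refl (x : N) (k : ℝ → N) : Mv x k k := ⟨_, push_refl _, fun _ => rfl⟩

theorem Mv.symm {x : N} {k k' : ℝ → N} (h : Mv x k k') : Mv x k' k := by
  obtain ⟨V, hV, h1⟩ := h
  refine ⟨_, hV.inv, fun t => ?_⟩
  change k t = (V 1).symm (k' t)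
  rw [h1 t, Equiv.symm_apply_apply]

theorem Mv.trans {x : N} {k k' k'' : ℝ → N} (h : Mv x k k') (h' : Mv x k' k'') : Mv x k k'' := by
  obtain ⟨V, hV, h1⟩ := h
  obtain ⟨W, hW, h2⟩ := h'
  refine ⟨_, hV.comp hW, fun t => ?_⟩
  change k'' t = W 1 (V 1 (k t))
  rw [h2 t, h1 t]

theorem Mv.leq {x : N} {k k' : ℝ → N} (h : Mv x k k') : LEqN (range k) (range k') := by
  obtain ⟨V, hV, h1⟩ := h
  have h2 : range k' = V 1 '' range k := by
    have h3 : k' = V 1 ∘ k := funext h1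
    rw [h3, range_comp]
  rw [h2]
  exact LEqN.diff _ (hV.mono (subset_univ _))

/-- the push applied to a moved curve -/
theorem Mv.push {x : N} {k k' : ℝ → N} (h : Mv x k k') {V : ℝ → Equiv.Perm N} (hV : Push {x}ᶜ V) :
    Mv x (V 1 ∘ k) (V 1 ∘ k') := by
  have h1 : Mv x (V 1 ∘ k) k := Mv.symm ⟨V, hV, fun _ => rfl⟩
  exact (h1.trans h).trans ⟨V, hV, fun _ => rfl⟩

variable [T2Space N]

theorem ChL.fing {x : N} {k : ℝ → N} {T : E → N} {p q : ℝ} {c : FundamentalGroupoid.mk x ⟶ FundamentalGroupoid.mk x}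
    (hk : Continuous k) (h : ChL x k T p q c) {T' : E → N} (hT' : Chd (range k) T') (hx : x ∉ T' '' TD)
    (hd : Disjoint (T '' TD) (T' '' TD)) : ChL x (NHQ.fing T' ∘ k) T p q c where
  chd := by
    refine chd_congr h.chd ?_
    rw [range_fing hT']
    unfold kn
    ext y
    constructor
    · rintro ⟨h1, h2⟩
      exact ⟨Or.inl ⟨h1, fun h3 => (disjoint_left.1 hd) h2 h3⟩, h2⟩
    · rintro ⟨h1, h2⟩
      rcases h1 with h1 | h1
      · exact ⟨h1.1, h2⟩
      · exact absurd (image_mono TF_sub h1) (fun h3 => (disjoint_left.1 hd) h2 h3)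
  pos := h.pos
  lt := h.lt
  one := h.one
  off := h.off
  lab := by
    have h0 : k 0 = x := by
      obtain ⟨α, β, δ, h1, -, -, -⟩ := h.lab
      have := h1.zero
      simpa using this
    have hp : k p ∈ T '' TD := by
      rw [← h.lab.foot]
      exact mem_image_of_mem T (TS_sub (by simpa using foot_TS (u := 0) (by norm_num)))
    have hq : k q ∈ T '' TD := by
      rw [← h.lab.tip]
      exact mem_image_of_mem T ⟨by simp, by norm_num, by norm_num⟩
    exact h.lab.fing hk hT' (by rw [h0]; exact hx) (fun h3 => (disjoint_left.1 hd) hp h3)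
      (fun h3 => (disjoint_left.1 hd) hq h3)

theorem ChL.thin {x : N} {k : ℝ → N} {T : E → N} {p q : ℝ} {c : FundamentalGroupoid.mk x ⟶ FundamentalGroupoid.mk x}
    (h : ChL x k T p q c) {O : Set N} (hO : IsOpen O) (hc : ∀ t ∈ Icc (0 : ℝ) 1, T (0, t) ∈ O) :
    ∃ T' : E → N, ChL x k T' p q c ∧ T' '' TD ⊆ O ∧ T' '' TD ⊆ T '' TD ∧
      (∃ C : Set N, IsCompact C ∧ C ⊆ T '' TD ∧ C ⊆ O ∧ T' '' TD ⊆ C) ∧
      (∀ t ∈ Icc (0 : ℝ) 1, ∃ t' ∈ Icc (0 : ℝ) 1, T' (0, t) = T (0, t')) ∧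
      ∃ V : ℝ → Equiv.Perm N, Push (T '' TD) V ∧ ∀ t, NHQ.fing T' (k t) = V 1 (NHQ.fing T (k t)) := by
  obtain ⟨d₀, hd₀, hd⟩ := thin_chord h.chd hO hc
  obtain ⟨h', H, h1, h2, ⟨C, h3, h4, h5, h6⟩, ⟨V, hV, h7⟩, h8⟩ := hd d₀ hd₀ le_rfl
  refine ⟨T ∘ Sc d₀ h', ⟨h1, h.pos, h.lt, h.one, fun h9 => h.off (h4 (h6 h9)), ?_⟩, h2, h6.trans h4,
    ⟨C, h3, h4, h5, h6⟩, ?_, V, hV, fun t => h7 _ (mem_range_self t)⟩
  · obtain ⟨α, β, δ, g1, g2, g3, rfl⟩ := h.lab
    exact (show Lab x k T p q (α ≫ β ≫ inv δ) from ⟨α, β, δ, g1, g2, g3, rfl⟩).core g2 (h8 _ _ β g2)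
  · intro t ht
    refine ⟨h' t, ⟨?_, ?_⟩, ?_⟩
    · rw [← H.zero]; exact H.mono.monotone ht.1
    · rw [← H.one]; exact H.mono.monotone ht.2
    · change T ((d₀ : ℂ) * 0, h' t) = T (0, h' t)
      rw [mul_zero]

omit [T2Space N] in
theorem St.push {x : N} {k k' : ℝ → N} {c : FundamentalGroupoid.mk x ⟶ FundamentalGroupoid.mk x} (h : St x c k k')
    {V : ℝ → Equiv.Perm N} (hV : Push {x}ᶜ V) : St x c (V 1 ∘ k) (V 1 ∘ k') := by
  obtain ⟨T, p, q, h1, h2⟩ := h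
  refine ⟨V 1 ∘ T, p, q, h1.push hV, ?_⟩
  have h3 : NHQ.fing (V 1 ∘ T) ∘ (V 1 ∘ k) = V 1 ∘ (NHQ.fing T ∘ k) := by
    funext t
    exact fing_img h1.chd.cht.inj (V 1) (k t)
  rw [h3]
  exact h2.push hV

omit [T2Space N] in
theorem St.mv {x : N} {k k' k'' : ℝ → N} {c : FundamentalGroupoid.mk x ⟶ FundamentalGroupoid.mk x} (h : St x c k k')
    (h' : Mv x k' k'') : St x c k k'' := by
  obtain ⟨T, p, q, h1, h2⟩ := h
  exact ⟨T, p, q, h1, h2.trans h'⟩

omit [T2Space N] in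
theorem St.mv_left {x : N} {k k' k'' : ℝ → N} {c : FundamentalGroupoid.mk x ⟶ FundamentalGroupoid.mk x} (h : St x c k k')
    (h' : Mv x k k'') : St x c k'' k' := by
  obtain ⟨V, hV, h1⟩ := h'
  have h2 : k'' = V 1 ∘ k := funext h1
  rw [h2]
  exact (h.push hV).mv (Mv.symm ⟨V, hV, fun _ => rfl⟩)

end Pool.Agent.NHQ
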