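import Mathlib
import Pool.Agent.CSG.LDa
import Pool.Agent.NHQ.Lab
import Pool.Agent.NHQ.Shr
import Pool.Agent.NHP.Tra

/-!
# NHQ/Thk: the curve with a finger is the core of a thick knot
-/

open scoped Manifold ContDiff Topology
open Set Filter CategoryTheory
open Pool.Agent.CSG (stp stp_smooth stp_zero stp_one stp_nonneg stp_le_one)
open Pool.Agent.RSG (E3 ex Thick)
open Pool.Agent.KNT (bmp)
open Pool.Agent.NHP

namespace Pool.Agent.NHQ

variable {N : Type*} [TopologicalSpace N] [ChartedSpace E3 N]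

theorem thick_contAt {κ : ℝ × ℂ → N} (hκ : Thick κ) {q : ℝ × ℂ} (hq : ‖q.2‖ < 1) : ContinuousAt κ q :=
  CSG.ld_continuousAt (hκ.loc q.1 q.2 hq)

theorem thick_core {κ : ℝ × ℂ → N} (hκ : Thick κ) : Continuous fun l : ℝ => κ (l, 0) := by
  rw [continuous_iff_continuousAt]
  intro l
  exact (thick_contAt hκ (q := (l, 0)) (by simp)).comp (f := fun l : ℝ => (l, (0 : ℂ))) (by fun_prop)

theorem thick_int {κ : ℝ × ℂ → N} (hκ : Thick κ) (l : ℝ) (v : ℂ) (n : ℤ) : κ (l + n, v) = κ (l, v) := by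
  have hper : Function.Periodic (fun l => κ (l, v)) 1 := fun l => hκ.per l v
  have := hper.int_mul n l
  simpa using this

theorem thick_fract {κ : ℝ × ℂ → N} (hκ : Thick κ) (l : ℝ) (v : ℂ) : κ (Int.fract l, v) = κ (l, v) := by
  have h := thick_int hκ (Int.fract l) v ⌊l⌋
  rw [Int.fract_add_floor] at h
  exact h.symm

theorem core_compact {κ : ℝ × ℂ → N} (hκ : Thick κ) : IsCompact (core κ) := by
  have h : core κ = (fun l : ℝ => κ (l, 0)) '' Icc 0 1 := by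
    ext y
    constructor
    · rintro ⟨l, rfl⟩
      exact ⟨Int.fract l, ⟨Int.fract_nonneg l, (Int.fract_lt_one l).le⟩, thick_fract hκ l 0⟩
    · rintro ⟨l, -, rfl⟩
      exact ⟨l, rfl⟩
  rw [h]
  exact isCompact_Icc.image (thick_core hκ)

/-- thin tubes around a part of the core -/
theorem exists_rho {κ : ℝ × ℂ → N} (hκ : Thick κ) {A U : Set N} (hA : IsClosed A) (hU : IsOpen U)
    (h : ∀ l, κ (l, 0) ∈ A → κ (l, 0) ∈ U) :
    ∃ ρ : ℝ, 0 < ρ ∧ ρ ≤ 1 ∧ ∀ l v, κ (l, 0) ∈ A → ‖v‖ < ρ → κ (l, v) ∈ U := by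
  let s : Set ℝ := Icc 0 1 ∩ (fun l : ℝ => κ (l, 0)) ⁻¹' A
  have hs : IsCompact s := isCompact_Icc.inter_right (hA.preimage (thick_core hκ))
  let n : Set (ℝ × ℂ) := {q | ‖q.2‖ < 1 ∧ κ q ∈ U}
  have hn : IsOpen n := by
    rw [isOpen_iff_mem_nhds]
    rintro q ⟨hq1, hq2⟩
    have h1 : ∀ᶠ q' in 𝓝 q, κ q' ∈ U := (thick_contAt hκ hq1).eventually (hU.mem_nhds hq2)
    have h2 : ∀ᶠ q' : ℝ × ℂ in 𝓝 q, ‖q'.2‖ < 1 :=
      (isOpen_lt (by fun_prop) continuous_const : IsOpen {q' : ℝ × ℂ | ‖q'.2‖ < 1}).mem_nhds hq1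
    filter_upwards [h1, h2] with q' h1 h2
    exact ⟨h2, h1⟩
  have hp : s ×ˢ ({0} : Set ℂ) ⊆ n := by
    rintro ⟨l, v⟩ ⟨hl, hv⟩
    rw [mem_singleton_iff] at hv
    change v = 0 at hv
    subst hv
    exact ⟨by simp, h l hl.2⟩
  obtain ⟨u, w, hu, hw, hsu, htw, huw⟩ := generalized_tube_lemma hs isCompact_singleton hn hp
  obtain ⟨ρ, hρ, hρw⟩ := Metric.isOpen_iff.1 hw 0 (htw rfl)
  refine ⟨min ρ 1, lt_min hρ one_pos, min_le_right _ _, ?_⟩
  intro l v hl hv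
  have h1 : Int.fract l ∈ s := ⟨⟨Int.fract_nonneg l, (Int.fract_lt_one l).le⟩, by
    change κ (Int.fract l, 0) ∈ A
    rw [thick_fract hκ]; exact hl⟩
  have h2 : v ∈ w := hρw (by rw [mem_ball_zero_iff]; exact lt_of_lt_of_le hv (min_le_left _ _))
  have h3 : (Int.fract l, v) ∈ n := huw ⟨hsu h1, h2⟩
  have h4 := h3.2
  rwa [thick_fract hκ] at h4

/-- a thinner tube -/
theorem loc_thin {κ : ℝ × ℂ → N} (hκ : Thick κ) {ρ : ℝ} (hρ : 0 < ρ) (hρ1 : ρ ≤ 1) (l : ℝ) {v : ℂ} (hv : ‖v‖ < 1) :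
    IsLocalDiffeomorphAt 𝓘(ℝ, ℝ × ℂ) (𝓡 3) ∞ (fun q : ℝ × ℂ => κ (q.1, (ρ : ℂ) * q.2)) (l, v) := by
  have hn : ‖(ρ : ℂ) * v‖ < 1 := by
    rw [norm_mul, Complex.norm_real, Real.norm_eq_abs, abs_of_pos hρ]
    nlinarith [norm_nonneg v]
  have h1 : IsLocalDiffeomorphAt 𝓘(ℝ, ℝ × ℂ) 𝓘(ℝ, ℝ × ℂ) ∞ (fun q : ℝ × ℂ => (q.1, (ρ : ℂ) * q.2)) (l, v) := by
    have hc : ContDiff ℝ ∞ (fun q : ℝ × ℂ => (q.1, (ρ : ℂ) * q.2)) := by fun_prop
    refine CSG.ld_of_fderiv (Filter.Eventually.of_forall fun q => hc.contDiffAt) rfl fun u hu => ?_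
    have h2 : HasFDerivAt (fun q : ℝ × ℂ => (q.1, (ρ : ℂ) * q.2)) ((ContinuousLinearMap.fst ℝ ℝ ℂ).prod
        ((ρ : ℂ) • ContinuousLinearMap.snd ℝ ℝ ℂ)) (l, v) :=
      hasFDerivAt_fst.prodMk (hasFDerivAt_snd.const_mul (ρ : ℂ))
    rw [h2.fderiv] at hu
    have h3 : u.1 = 0 := congrArg Prod.fst hu
    have h4 : (ρ : ℂ) * u.2 = 0 := congrArg Prod.snd hu
    refine Prod.ext h3 ?_
    exact (mul_eq_zero.1 h4).resolve_left (by exact_mod_cast hρ.ne')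
  exact IsLocalDiffeomorphAt.comp (hf := h1) (hg := hκ.loc l ((ρ : ℂ) * v) hn)

variable [T2Space N]

/-- **The curve with a finger is the core of a thick knot.** -/
theorem thick_fing {κ : ℝ × ℂ → N} (hκ : Thick κ) {T : E → N} (hT : Chd (core κ) T) :
    ∃ κ' : ℝ × ℂ → N, Thick κ' ∧ ∀ l, κ' (l, 0) = fing T (κ (l, 0)) := by
  classical
  have hi := hT.cht.inj
  have hcT := hT.cht.contOn
  -- the push
  let a : ℂ → ℝ := fun w => 9 / 8 * bmp w.re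
  have ha : ContDiff ℝ ∞ a := contDiff_const.mul (bmp_smooth.comp Complex.reCLM.contDiff)
  let S : Set E := (fun u : ℝ => ((u : ℂ), (0 : ℝ))) '' Icc (-(1 / 8)) (1 / 8)
  have hS : IsCompact S := isCompact_Icc.image (by fun_prop)
  have hsw : ∀ q ∈ S, ∀ r ∈ Icc (0 : ℝ) 1, (q.1, q.2 + r * a q.1) ∈ TD \ (∅ : Set E) := by
    rintro _ ⟨u, hu, rfl⟩ r hr
    rw [sdiff_empty]
    have hu' : |u| ≤ 1 / 8 := abs_le.2 hu
    change ((u : ℂ), 0 + r * (9 / 8 * bmp (u : ℂ).re)) ∈ TD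
    rw [Complex.ofReal_re]
    have h1 := bmp_nonneg u
    have h2 := bmp_le_one u
    have h3 : 0 ≤ r * bmp u := mul_nonneg hr.1 h1
    have h4 : r * bmp u ≤ 1 := by
      calc r * bmp u ≤ 1 * 1 := mul_le_mul hr.2 h2 h1 zero_le_one
        _ = 1 := one_mul 1
    exact foot_TD (by linarith) (by linarith) (by linarith)
  obtain ⟨V, hV, hV1, -⟩ := vshear TD_open isClosed_empty ha hS hsw
  rw [sdiff_empty] at hV
  obtain ⟨V', hV', hV'1, hV'2⟩ := push_chart hT.cht hV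
  obtain ⟨C, hC, hCT, hCV⟩ := hV.supp
  have hstp : stp 0 1 (1 : ℝ) = 1 := stp_one one_pos le_rfl
  have hVfoot : ∀ u : ℝ, |u| < 1 → V' 1 (T ((u : ℂ), 0)) = fing T (T ((u : ℂ), 0)) := by
    intro u hu
    rw [fing_foot hi hu, hV'1 1 _ (foot_TD hu (by norm_num) (by norm_num))]
    have h4 : ((u : ℂ), (0 : ℝ)) ∈ S ∨ a (((u : ℂ), (0 : ℝ)) : E).1 = 0 := by
      by_cases h4 : |u| ≤ 1 / 8
      · exact Or.inl ⟨u, abs_le.1 h4, rfl⟩
      · right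
        change 9 / 8 * bmp (u : ℂ).re = 0
        rw [Complex.ofReal_re, bmp_zero (not_le.1 h4).le, mul_zero]
    rw [hV1 _ h4, hstp]
    congr 1
    refine Prod.ext rfl ?_
    change 0 + 1 * (9 / 8 * bmp (u : ℂ).re) = 9 / 8 * bmp u
    rw [Complex.ofReal_re]; ring
  -- the moving region
  let R : Set E := C ∩ {q | |q.1.re| ≤ 1 / 8}
  have hR : IsCompact R := hC.inter_right (isClosed_le (by fun_prop) continuous_const)
  have hRT : IsCompact (T '' R) := hR.image_of_continuousOn (hcT.mono (inter_subset_left.trans hCT))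
  have hfix : ∀ y, y ∉ T '' R → V' 1 y = y := by
    intro y hy
    by_cases h1 : y ∈ T '' TD
    · obtain ⟨q, hq, rfl⟩ := h1
      rw [hV'1 1 q hq]
      by_cases h2 : q ∈ C
      · have h3 : 1 / 8 < |q.1.re| := not_le.1 fun h3 => hy ⟨q, ⟨h2, h3⟩, rfl⟩
        have h4 : a q.1 = 0 := by
          change 9 / 8 * bmp q.1.re = 0
          rw [bmp_zero h3.le, mul_zero]
        rw [hV1 q (Or.inr h4), h4, mul_zero, add_zero]
      · rw [hCV 1 q h2]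
    · exact hV'2 1 y h1
  -- foot segments
  let seg : Set ℝ → Set N := fun J => (fun u : ℝ => T ((u : ℂ), 0)) '' J
  have hsegc : ∀ J : Set ℝ, IsCompact J → (∀ u ∈ J, |u| < 1) → IsCompact (seg J) := by
    intro J hJ hJ1
    refine hJ.image_of_continuousOn (hcT.comp (f := fun u : ℝ => ((u : ℂ), (0 : ℝ))) (by fun_prop) ?_)
    intro u hu
    exact foot_TD (hJ1 u hu) (by norm_num) (by norm_num)
  let Box : Set E := {q | ‖q.1‖ < 1 / 4 ∧ |q.2| < 1 / 4}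
  have hBoxo : IsOpen Box := by
    have h1 : IsOpen {q : E | ‖q.1‖ < 1 / 4} := isOpen_lt (by fun_prop) continuous_const
    have h2 : IsOpen {q : E | |q.2| < 1 / 4} := isOpen_lt (by fun_prop) continuous_const
    exact h1.inter h2
  have hBoxT : Box ⊆ TD := by
    rintro q ⟨h1, h2⟩
    obtain ⟨h3, h4⟩ := abs_lt.1 h2
    exact ⟨by linarith, h3, by linarith⟩
  have hBN : IsOpen (T '' Box) := hT.cht.img hBoxo hBoxT
  have hBox : ∀ l, κ (l, 0) ∈ T '' Box → ∃ u : ℝ, |u| < 1 / 4 ∧ κ (l, 0) = T ((u : ℂ), 0) := by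
    rintro l ⟨q, hq, he⟩
    have h1 : T q ∈ T '' TS := by rw [← hT.hit]; exact ⟨⟨l, he.symm⟩, ⟨q, hBoxT hq, rfl⟩⟩
    obtain ⟨q', hq', he'⟩ := h1
    have h2 : q' = q := hi (TS_sub hq') (hBoxT hq) he'
    subst h2
    rcases hq'.2 with ⟨h3, h4⟩ | ⟨h3, h4⟩
    · refine ⟨q'.1.re, ?_, ?_⟩
      · exact lt_of_le_of_lt (Complex.abs_re_le_norm _) hq.1
      · rw [← he]
        congr 1
        refine Prod.ext ?_ h3
        apply Complex.ext <;> simp [h4]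
    · have h5 := hq.2
      rw [h3] at h5
      norm_num at h5
  have hBox' : ∀ u : ℝ, |u| < 1 / 4 → T ((u : ℂ), 0) ∈ T '' Box := by
    intro u hu
    refine ⟨_, ⟨?_, ?_⟩, rfl⟩
    · change ‖(u : ℂ)‖ < 1 / 4
      rw [Complex.norm_real, Real.norm_eq_abs]; exact hu
    · change |(0 : ℝ)| < 1 / 4
      norm_num
  let J₁ : Set ℝ := {u | |u| ≤ 3 / 16}
  have hJ₁ : IsCompact J₁ := by
    have : J₁ = Icc (-(3 / 16)) (3 / 16) := by ext u; exact abs_le (a := u)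
    rw [this]; exact isCompact_Icc
  let J₃ : Set ℝ := {u | 3 / 16 ≤ |u| ∧ |u| ≤ 1 / 4}
  have hJ₃ : IsCompact J₃ := by
    have h1 : J₃ = Icc (-(1 / 4)) (1 / 4) ∩ {u | 3 / 16 ≤ |u|} := by
      ext u
      constructor
      · rintro ⟨h1, h2⟩
        exact ⟨abs_le.1 h2, h1⟩
      · rintro ⟨h1, h2⟩
        exact ⟨h2, abs_le.2 h1⟩
    rw [h1]
    exact isCompact_Icc.inter_right (isClosed_le continuous_const (by fun_prop))
  have hA₁ : IsCompact (seg J₁) := hsegc J₁ hJ₁ (fun u (hu : |u| ≤ 3 / 16) => by linarith)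
  have hA₃ : IsCompact (seg J₃) := hsegc J₃ hJ₃ (fun u hu => by linarith [hu.2])
  -- ρ for the consistency
  obtain ⟨ρ₁, hρ₁, hρ₁1, hc1⟩ := exists_rho hκ hA₃.isClosed hRT.isClosed.isOpen_compl (by
    rintro l ⟨u, hu, he⟩
    rw [← he]
    rintro ⟨q, hq, he'⟩
    have h1 : q = ((u : ℂ), 0) := hi (hCT hq.1) (foot_TD (by linarith [hu.2]) (by norm_num) (by norm_num)) he'
    have h2 := hq.2
    rw [h1] at h2
    change |(u : ℂ).re| ≤ 1 / 8 at h2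
    rw [Complex.ofReal_re] at h2
    linarith [hu.1])
  -- separation
  have hcV : Continuous (V' 1) := hV'.cont.comp (Continuous.prodMk continuous_const continuous_id)
  let M₁ : Set N := V' 1 '' seg J₁
  let M₂ : Set N := core κ ∩ (T '' Box)ᶜ
  have hM₁ : IsCompact M₁ := hA₁.image hcV
  have hM₂ : IsCompact M₂ := (core_compact hκ).inter_right hBN.isClosed_compl
  have hM : Disjoint M₁ M₂ := by
    rw [disjoint_left]
    rintro _ ⟨_, ⟨u, hu, rfl⟩, rfl⟩ ⟨h1, h2⟩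
    change |u| ≤ 3 / 16 at hu
    have hu1 : |u| < 1 := by linarith
    change V' 1 (T ((u : ℂ), 0)) ∈ core κ at h1
    change V' 1 (T ((u : ℂ), 0)) ∉ T '' Box at h2
    rw [hVfoot u hu1, fing_foot hi hu1] at h1 h2
    have hb0 := bmp_nonneg u
    have hb1 := bmp_le_one u
    have hmem : ((u : ℂ), 9 / 8 * bmp u) ∈ TD := foot_TD hu1 (by linarith) (by linarith)
    have h3 : T ((u : ℂ), 9 / 8 * bmp u) ∈ T '' TS := by rw [← hT.hit]; exact ⟨h1, ⟨_, hmem, rfl⟩⟩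
    obtain ⟨q', hq', he'⟩ := h3
    have h4 : q' = ((u : ℂ), 9 / 8 * bmp u) := hi (TS_sub hq') hmem he'
    subst h4
    rcases hq'.2 with ⟨h5, -⟩ | ⟨h5, h6⟩
    · change 9 / 8 * bmp u = 0 at h5
      rw [h5] at h2
      exact h2 (hBox' u (by linarith))
    · change 9 / 8 * bmp u = 1 at h5
      change (u : ℂ).re = 0 at h6
      rw [Complex.ofReal_re] at h6
      rw [h6, bmp_zero_eq] at h5
      norm_num at h5
  obtain ⟨U₁, U₂, hU₁, hU₂, hMU₁, hMU₂, hU⟩ := SeparatedNhds.of_isCompact_isCompact hM₁ hM₂ hM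
  obtain ⟨ρ₂, hρ₂, hρ₂1, hc2⟩ := exists_rho hκ hA₁.isClosed (hU₁.preimage hcV) (by
    intro l hl
    exact hMU₁ ⟨_, hl, rfl⟩)
  obtain ⟨ρ₃, hρ₃, hρ₃1, hc3⟩ := exists_rho hκ hBN.isClosed_compl hU₂ (by
    intro l hl
    exact hMU₂ ⟨⟨l, rfl⟩, hl⟩)
  let ρ : ℝ := min ρ₁ (min ρ₂ ρ₃)
  have hρ : 0 < ρ := lt_min hρ₁ (lt_min hρ₂ hρ₃)
  have hρ1 : ρ ≤ 1 := (min_le_left _ _).trans hρ₁1
  have hn : ∀ v : ℂ, ‖v‖ < 1 → ‖(ρ : ℂ) * v‖ < ρ := by
    intro v hv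
    rw [norm_mul, Complex.norm_real, Real.norm_eq_abs, abs_of_pos hρ]
    nlinarith
  have hr1 : ∀ v : ℂ, ‖v‖ < 1 → ‖(ρ : ℂ) * v‖ < ρ₁ := fun v hv => (hn v hv).trans_le (min_le_left _ _)
  have hr2 : ∀ v : ℂ, ‖v‖ < 1 → ‖(ρ : ℂ) * v‖ < ρ₂ := fun v hv =>
    (hn v hv).trans_le ((min_le_right _ _).trans (min_le_left _ _))
  have hr3 : ∀ v : ℂ, ‖v‖ < 1 → ‖(ρ : ℂ) * v‖ < ρ₃ := fun v hv =>
    (hn v hv).trans_le ((min_le_right _ _).trans (min_le_right _ _))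
  have hr0 : ∀ v : ℂ, ‖v‖ < 1 → ‖(ρ : ℂ) * v‖ < 1 := fun v hv => (hn v hv).trans_le hρ1
  -- the two regions
  let D₁ : Set ℝ := {l | κ (l, 0) ∈ T '' Box}
  let D₂ : Set ℝ := {l | κ (l, 0) ∉ seg J₁}
  have hD₁ : IsOpen D₁ := hBN.preimage (thick_core hκ)
  have hD₂ : IsOpen D₂ := hA₁.isClosed.isOpen_compl.preimage (thick_core hκ)
  have hD : ∀ l, l ∉ D₁ → l ∈ D₂ := by
    rintro l h1 ⟨u, hu, he⟩
    apply h1
    change κ (l, 0) ∈ T '' Box
    change |u| ≤ 3 / 16 at hu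
    rw [← he]
    exact hBox' u (by linarith)
  have hcons : ∀ l ∈ D₁, l ∈ D₂ → ∀ v : ℂ, ‖v‖ < 1 → V' 1 (κ (l, (ρ : ℂ) * v)) = κ (l, (ρ : ℂ) * v) := by
    intro l h1 h2 v hv
    apply hfix
    refine hc1 l _ ?_ (hr1 v hv)
    obtain ⟨u, hu, he⟩ := hBox l h1
    refine ⟨u, ⟨?_, hu.le⟩, he.symm⟩
    by_contra h3
    exact h2 ⟨u, (not_le.1 h3).le, he.symm⟩
  let κ' : ℝ × ℂ → N := fun q => if q.1 ∈ D₁ then V' 1 (κ (q.1, (ρ : ℂ) * q.2)) else κ (q.1, (ρ : ℂ) * q.2)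
  have h₁ : ∀ l ∈ D₁, ∀ v : ℂ, κ' (l, v) = V' 1 (κ (l, (ρ : ℂ) * v)) := by
    intro l hl v
    exact if_pos hl
  have h₂ : ∀ l ∈ D₂, ∀ v : ℂ, ‖v‖ < 1 → κ' (l, v) = κ (l, (ρ : ℂ) * v) := by
    intro l hl v hv
    by_cases h3 : l ∈ D₁
    · rw [h₁ l h3, hcons l h3 hl v hv]
    · exact if_neg h3
  refine ⟨κ', ⟨?_, ?_, ?_⟩, ?_⟩
  · -- periodic
    intro l v
    have h3 : l + 1 ∈ D₁ ↔ l ∈ D₁ := by
      change κ (l + 1, 0) ∈ T '' Box ↔ κ (l, 0) ∈ T '' Box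
      rw [hκ.per]
    change (if l + 1 ∈ D₁ then V' 1 (κ (l + 1, (ρ : ℂ) * v)) else κ (l + 1, (ρ : ℂ) * v))
      = if l ∈ D₁ then V' 1 (κ (l, (ρ : ℂ) * v)) else κ (l, (ρ : ℂ) * v)
    by_cases h4 : l ∈ D₁
    · rw [if_pos h4, if_pos (h3.2 h4), hκ.per]
    · rw [if_neg h4, if_neg (fun h => h4 (h3.1 h)), hκ.per]
  · -- local diffeomorphism
    intro l v hv
    by_cases h4 : l ∈ D₁
    · refine CSG.ld_congr (f := V' 1 ∘ (fun q : ℝ × ℂ => κ (q.1, (ρ : ℂ) * q.2))) ?_ ?_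
      · exact IsLocalDiffeomorphAt.comp (hf := loc_thin hκ hρ hρ1 l hv) (hg := hV'.loc 1 _)
      · have h5 : ∀ᶠ q : ℝ × ℂ in 𝓝 (l, v), q.1 ∈ D₁ := continuous_fst.continuousAt.eventually (hD₁.mem_nhds h4)
        filter_upwards [h5] with q hq
        exact h₁ q.1 hq q.2
    · refine CSG.ld_congr (f := fun q : ℝ × ℂ => κ (q.1, (ρ : ℂ) * q.2)) (loc_thin hκ hρ hρ1 l hv) ?_
      have h5 : ∀ᶠ q : ℝ × ℂ in 𝓝 (l, v), q.1 ∈ D₂ :=
        continuous_fst.continuousAt.eventually (hD₂.mem_nhds (hD l h4))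
      have h6 : ∀ᶠ q : ℝ × ℂ in 𝓝 (l, v), ‖q.2‖ < 1 := by
        have : Continuous fun q : ℝ × ℂ => ‖q.2‖ := by fun_prop
        exact this.continuousAt.eventually (IsOpen.mem_nhds isOpen_Iio (show ‖((l, v) : ℝ × ℂ).2‖ ∈ Iio 1 from hv))
      filter_upwards [h5, h6] with q hq hq'
      exact h₂ q.1 hq q.2 hq'
  · -- injectivity
    intro l v l' v' hv hv' he
    have hfin : κ (l, (ρ : ℂ) * v) = κ (l', (ρ : ℂ) * v') → v = v' ∧ ∃ m : ℤ, l' = l + m := by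
      intro h3
      obtain ⟨h4, h5⟩ := hκ.inj _ _ _ _ (hr0 v hv) (hr0 v' hv') h3
      exact ⟨mul_left_cancel₀ (by exact_mod_cast hρ.ne') h4, h5⟩
    have hsep : ∀ l v l' v', ‖v‖ < 1 → ‖v'‖ < 1 → κ' (l, v) = κ' (l', v') → l ∉ D₂ → l' ∉ D₁ → False := by
      intro l v l' v' hv hv' he h3 h4
      have h5 : l ∈ D₁ := by
        by_contra h5
        exact h3 (hD l h5)
      rw [h₁ l h5, h₂ l' (hD l' h4) v' hv'] at he
      have h6 : V' 1 (κ (l, (ρ : ℂ) * v)) ∈ U₁ := hc2 l _ (by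
        by_contra h7
        exact h3 h7) (hr2 v hv)
      have h7 : κ (l', (ρ : ℂ) * v') ∈ U₂ := hc3 l' _ h4 (hr3 v' hv')
      rw [he] at h6
      exact (disjoint_left.1 hU) h6 h7
    by_cases h3 : l ∈ D₂
    · by_cases h4 : l' ∈ D₂
      · rw [h₂ l h3 v hv, h₂ l' h4 v' hv'] at he
        exact hfin he
      · by_cases h5 : l ∈ D₁
        · have h6 : l' ∈ D₁ := by
            by_contra h6
            exact h4 (hD l' h6)
          rw [h₁ l h5, h₁ l' h6] at he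
          exact hfin ((V' 1).injective he)
        · exact (hsep l' v' l v hv' hv he.symm h4 h5).elim
    · by_cases h4 : l' ∈ D₁
      · have h5 : l ∈ D₁ := by
          by_contra h5
          exact h3 (hD l h5)
        rw [h₁ l h5, h₁ l' h4] at he
        exact hfin ((V' 1).injective he)
      · exact (hsep l v l' v' hv hv' he h3 h4).elim
  · -- core
    intro l
    by_cases h4 : l ∈ D₁
    · rw [h₁ l h4, mul_zero]
      obtain ⟨u, hu, he⟩ := hBox l h4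
      rw [he]
      exact hVfoot u (by linarith)
    · rw [h₂ l (hD l h4) 0 (by simp), mul_zero]
      refine (fing_fix hi (fun u hu he => h4 ?_)).symm
      change κ (l, 0) ∈ T '' Box
      rw [← he]
      exact hBox' u (by linarith)

theorem Crv.cont {x : N} {o : FundamentalGroupoid.mk x ⟶ FundamentalGroupoid.mk x} {k : ℝ → N} (hk : Crv x o k) :
    Continuous k := by
  obtain ⟨κ, h1, h2⟩ := hk.thick
  have h3 : k = fun l : ℝ => κ (l, 0) := funext fun l => (h2 l).symm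
  rw [h3]
  exact thick_core h1

theorem Crv.mv {x : N} {o : FundamentalGroupoid.mk x ⟶ FundamentalGroupoid.mk x} {k k' : ℝ → N} (hk : Crv x o k)
    (h : Mv x k k') : Crv x o k' := by
  obtain ⟨V, hV, h1⟩ := h
  refine ⟨?_, ?_, ?_⟩
  · obtain ⟨κ, h2, h3⟩ := hk.thick
    refine ⟨fun q => V 1 (κ q), ⟨fun l v => ?_, fun l v hv => ?_, fun l v l' v' hv hv' he => ?_⟩, fun l => ?_⟩
    · rw [h2.per]
    · exact IsLocalDiffeomorphAt.comp (hf := h2.loc l v hv) (hg := hV.loc 1 _)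
    · exact h2.inj l v l' v' hv hv' ((V 1).injective he)
    · rw [h1, ← h3]
  · rw [h1, hk.zero, push_fix hV]
  · exact (hk.cls.push hV (push_fix hV) (push_fix hV)).congr (fun t _ => (h1 t))

theorem Crv.fing {x : N} {o : FundamentalGroupoid.mk x ⟶ FundamentalGroupoid.mk x} {k : ℝ → N} (hk : Crv x o k)
    {T : E → N} (hT : Chd (range k) T) (hx : x ∉ T '' TD) : Crv x o (NHQ.fing T ∘ k) where
  thick := by
    obtain ⟨κ, h1, h2⟩ := hk.thick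
    have h3 : k = fun l : ℝ => κ (l, 0) := funext fun l => (h2 l).symm
    have h4 : Chd (core κ) T := by
      have h5 : core κ = range k := by rw [h3]; rfl
      rw [h5]; exact hT
    obtain ⟨κ', h5, h6⟩ := thick_fing h1 h4
    exact ⟨κ', h5, fun l => by rw [h6, h2]; rfl⟩
  zero := by
    change NHQ.fing T (k 0) = x
    rw [hk.zero]
    exact fing_off hT.cht.inj hx
  cls := hk.cls.fing_curve hk.cont hT hx

theorem Crv.st {x : N} {o c : FundamentalGroupoid.mk x ⟶ FundamentalGroupoid.mk x} {k k' : ℝ → N} (hk : Crv x o k)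
    (h : St x c k k') : Crv x o k' := by
  obtain ⟨T, p, q, h1, h2⟩ := h
  exact (hk.fing h1.chd h1.off).mv h2

end Pool.Agent.NHQ
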