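import Mathlib
import Pool.Agent.NHQ.Cnj
import Pool.Agent.NHP.Gld

/-!
# NHQ/Lin: linear maps preserving a line: path to the identity, up to the symmetries (difficulty 3)

`e₁ = (1, 0)`, `P = {(i y, x)}`, identified with `ℂ` by `(i y, x) ↔ z = x + i y`: every `q ∈ E` is `u e₁ + z`, `u = re w`, `z = x + i im w`.
`A (u e₁ + z) = (a u + b z) e₁ + B z` with `b : ℂ →L[ℝ] ℝ`, `B : ℂ →L[ℝ] ℂ` (no component of `A e₁` in `P`), `a ≠ 0`, `B` bijective.  Composing with `sy e f` (`e = sign a`; `sy 1 (-1)` is `z ↦ conj z` on `P`,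
it changes the sign of `det B`) we may assume `a > 0` and `det B > 0`, i.e. (write `B z = α z + β conj z`, `α = (B 1 - i B i)/2`, `β = (B 1 + i B i)/2`, `det B = |α|² - |β|²`) `|α| > |β|`; so `α ≠ 0`, `α = exp λ` (`Complex.log`).
With `t = stp (1/8) (7/8) s`:  `D s (u e₁ + z) = ((1 + t (a - 1)) u + t b z) e₁ + exp (t λ) (z + t (β / α) conj z)`.
It is smooth in `s` with values in `E →L[ℝ] E` (sum of smooth scalar functions times constant linear maps), bijective (injective: second component: `|t β / α| < 1`, so `z = 0`; then `(1 + t (a - 1)) u = 0`, `u = 0`;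
finite dimension), `= id` for `t = 0`, `= A ∘ sy e f` for `t = 1`, and `D s e₁ = (1 + t (a - 1)) e₁`.
-/

open scoped Manifold ContDiff Topology
open Set Filter
open Pool.Agent.CSG (stp)
open Pool.Agent.RSG (E3 ex Thick)
open Pool.Agent.KNT (bmp)
open Pool.Agent.NHP

namespace Pool.Agent.NHQ

/-- `z = x + i im w` -/
noncomputable def linZ : E →L[ℝ] ℂ :=
  (Complex.equivRealProdCLM.symm : ℝ × ℝ →L[ℝ] ℂ).comp
    ((ContinuousLinearMap.snd ℝ ℂ ℝ).prod (Complex.imCLM.comp (ContinuousLinearMap.fst ℝ ℂ ℝ)))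

noncomputable def linU : E →L[ℝ] ℝ := Complex.reCLM.comp (ContinuousLinearMap.fst ℝ ℂ ℝ)

noncomputable def linJ : ℝ × ℂ →L[ℝ] E :=
  ((Complex.equivRealProdCLM.symm : ℝ × ℝ →L[ℝ] ℂ).comp
    ((ContinuousLinearMap.fst ℝ ℝ ℂ).prod (Complex.imCLM.comp (ContinuousLinearMap.snd ℝ ℝ ℂ)))).prod
      (Complex.reCLM.comp (ContinuousLinearMap.snd ℝ ℝ ℂ))

theorem linZ_apply (q : E) : linZ q = ⟨q.2, q.1.im⟩ := by
  apply Complex.ext <;> simp [linZ]

theorem linU_apply (q : E) : linU q = q.1.re := rfl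

theorem linJ_apply (u : ℝ) (z : ℂ) : linJ (u, z) = (⟨u, z.im⟩, z.re) := by
  refine Prod.ext (Complex.ext ?_ ?_) ?_ <;> simp [linJ]

theorem linJ_eq (q : E) : linJ (linU q, linZ q) = q := by
  rw [linJ_apply, linZ_apply, linU_apply]

theorem linU_J (u : ℝ) (z : ℂ) : linU (linJ (u, z)) = u := by
  rw [linJ_apply, linU_apply]

theorem linZ_J (u : ℝ) (z : ℂ) : linZ (linJ (u, z)) = z := by
  rw [linJ_apply, linZ_apply]

theorem linJ_inj {p q : ℝ × ℂ} (h : linJ p = linJ q) : p = q := by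
  obtain ⟨u, z⟩ := p
  obtain ⟨u', z'⟩ := q
  have h1 : u = u' := by rw [← linU_J u z, h, linU_J]
  have h2 : z = z' := by rw [← linZ_J u z, h, linZ_J]
  rw [h1, h2]

theorem linJ_one (u : ℝ) : linJ (u, 0) = ((u : ℂ), 0) := by
  rw [linJ_apply]
  refine Prod.ext (Complex.ext ?_ ?_) ?_ <;> simp

/-- the path -/
noncomputable def linD (a : ℝ) (b : ℂ →L[ℝ] ℝ) (l c : ℂ) (t : ℝ) : E →L[ℝ] E :=
  linJ.comp (((1 + t * (a - 1)) • linU + t • b.comp linZ).prod
    (Complex.exp (t * l) • (linZ + ((t : ℂ) * c) • (Complex.conjCLE : ℂ →L[ℝ] ℂ).comp linZ)))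

theorem linD_apply (a : ℝ) (b : ℂ →L[ℝ] ℝ) (l c : ℂ) (t u : ℝ) (z : ℂ) :
    linD a b l c t (linJ (u, z)) = linJ ((1 + t * (a - 1)) * u + t * b z,
      Complex.exp (t * l) * (z + (t : ℂ) * c * (starRingEnd ℂ) z)) := by
  unfold linD
  rw [ContinuousLinearMap.comp_apply]
  congr 1

theorem linD_smooth (a : ℝ) (b : ℂ →L[ℝ] ℝ) (l c : ℂ) : ContDiff ℝ ∞ fun s => linD a b l c (stp (1 / 8) (7 / 8) s) := by
  rw [contDiff_clm_apply_iff]
  intro q
  rw [← linJ_eq q]
  simp only [linD_apply]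
  have h1 : ContDiff ℝ ∞ fun s : ℝ => stp (1 / 8) (7 / 8) s := Pool.Agent.CSG.stp_smooth _ _
  have h2 : ContDiff ℝ ∞ fun s : ℝ => ((stp (1 / 8) (7 / 8) s : ℝ) : ℂ) := Complex.ofRealCLM.contDiff.comp h1
  refine linJ.contDiff.comp ?_
  refine ContDiff.prodMk ?_ ?_
  · exact ((contDiff_const.add (h1.mul contDiff_const)).mul contDiff_const).add (h1.mul contDiff_const)
  · have h3 : ContDiff ℝ ∞ fun s : ℝ => Complex.exp (((stp (1 / 8) (7 / 8) s : ℝ) : ℂ) * l) :=
      (h2.mul contDiff_const).cexp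
    exact h3.mul (contDiff_const.add ((h2.mul contDiff_const).mul contDiff_const))

theorem lin_core {a : ℝ} (ha : 0 < a) (b : ℂ →L[ℝ] ℝ) {α β : ℂ} (hαβ : ‖β‖ < ‖α‖) :
    ∃ D : ℝ → E →L[ℝ] E, GLp D ∧ (∀ s, ∃ a : ℝ, D s (1, 0) = ((a : ℂ), 0)) ∧
      ∀ u z, D 1 (linJ (u, z)) = linJ (a * u + b z, α * z + β * (starRingEnd ℂ) z) := by
  have hα : α ≠ 0 := by
    rintro rfl
    rw [norm_zero] at hαβ
    exact absurd (norm_nonneg β) (not_le.2 hαβ)
  have h01 : (1 : E) = 1 := rfl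
  refine ⟨fun s => linD a b (Complex.log α) (β / α) (stp (1 / 8) (7 / 8) s), ⟨?_, ?_, ?_, ?_⟩, ?_, ?_⟩
  · exact linD_smooth a b _ _
  · intro s
    have h0 := Pool.Agent.CSG.stp_nonneg (1 / 8) (7 / 8) s
    have h1 := Pool.Agent.CSG.stp_le_one (1 / 8) (7 / 8) s
    generalize stp (1 / 8) (7 / 8) s = t at h0 h1
    have hinj : Function.Injective (linD a b (Complex.log α) (β / α) t) := by
      rw [injective_iff_map_eq_zero]
      intro q hq
      rw [← linJ_eq q, linD_apply] at hq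
      have h2 : linJ (0 : ℝ × ℂ) = 0 := map_zero _
      rw [← h2] at hq
      have h3 := linJ_inj hq
      have h4 : Complex.exp (t * Complex.log α) * (linZ q + (t : ℂ) * (β / α) * (starRingEnd ℂ) (linZ q)) = 0 :=
        congrArg Prod.snd h3
      have h5 : (1 + t * (a - 1)) * linU q + t * b (linZ q) = 0 := congrArg Prod.fst h3
      have h6 : linZ q = -((t : ℂ) * (β / α) * (starRingEnd ℂ) (linZ q)) := by
        rcases mul_eq_zero.1 h4 with h | h
        · exact absurd h (Complex.exp_ne_zero _)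
        · exact eq_neg_of_add_eq_zero_left h
      have h7 : ‖β / α‖ < 1 := by
        rw [norm_div, div_lt_one (norm_pos_iff.2 hα)]
        exact hαβ
      have h8 : linZ q = 0 := by
        by_contra hz
        have hz' : 0 < ‖linZ q‖ := norm_pos_iff.2 hz
        have h9 : ‖linZ q‖ = t * ‖β / α‖ * ‖linZ q‖ := by
          conv_lhs => rw [h6]
          rw [norm_neg, norm_mul, norm_mul, RCLike.norm_conj, Complex.norm_real, Real.norm_of_nonneg h0]
        have h10 : t * ‖β / α‖ < 1 := by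
          calc t * ‖β / α‖ ≤ 1 * ‖β / α‖ := mul_le_mul_of_nonneg_right h1 (norm_nonneg _)
            _ < 1 := by rw [one_mul]; exact h7
        nlinarith
      rw [h8, map_zero, mul_zero, add_zero] at h5
      have h11 : linU q = 0 := by
        rcases mul_eq_zero.1 h5 with h | h
        · exfalso
          have h12 : 0 ≤ t * a := mul_nonneg h0 ha.le
          have h13 : t = 1 := by linarith
          rw [h13] at h
          linarith
        · exact h
      have h12 := linJ_eq q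
      rw [h8, h11] at h12
      rw [← h12]
      exact h2
    refine ⟨hinj, ?_⟩
    exact (LinearMap.injective_iff_surjective (f := (linD a b (Complex.log α) (β / α) t : E →ₗ[ℝ] E))).1 hinj
  · intro s hs
    have h0 : stp (1 / 8) (7 / 8) s = 0 := Pool.Agent.CSG.stp_zero (by norm_num) hs
    refine ContinuousLinearMap.ext fun q => ?_
    change linD a b (Complex.log α) (β / α) (stp (1 / 8) (7 / 8) s) q = q
    rw [h0]
    conv_lhs => rw [← linJ_eq q]
    rw [linD_apply]
    simp [linJ_eq]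
  · intro s hs
    have h0 : stp (1 / 8) (7 / 8) s = 1 := Pool.Agent.CSG.stp_one (by norm_num) hs
    have h1 : stp (1 / 8) (7 / 8) 1 = 1 := Pool.Agent.CSG.stp_one (by norm_num) (by norm_num)
    change linD a b (Complex.log α) (β / α) (stp (1 / 8) (7 / 8) s) =
      linD a b (Complex.log α) (β / α) (stp (1 / 8) (7 / 8) 1)
    rw [h0, h1]
  · intro s
    refine ⟨1 + stp (1 / 8) (7 / 8) s * (a - 1), ?_⟩
    have h0 : ((1, 0) : E) = linJ (1, 0) := by rw [linJ_one]; simp
    change linD a b (Complex.log α) (β / α) (stp (1 / 8) (7 / 8) s) (1, 0) = _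
    rw [h0, linD_apply, ← linJ_one]
    simp
  · intro u z
    have h1 : stp (1 / 8) (7 / 8) 1 = 1 := Pool.Agent.CSG.stp_one (by norm_num) (by norm_num)
    change linD a b (Complex.log α) (β / α) (stp (1 / 8) (7 / 8) 1) (linJ (u, z)) = _
    rw [h1, linD_apply]
    have h2 : Complex.exp (((1 : ℝ) : ℂ) * Complex.log α) = α := by
      rw [Complex.ofReal_one, one_mul, Complex.exp_log hα]
    rw [h2]
    congr 2
    · ring
    · rw [Complex.ofReal_one]
      field_simp

/-- real linear maps of `ℂ` -/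
theorem lin_form (B : ℂ →L[ℝ] ℂ) (z : ℂ) :
    B z = (B 1 - Complex.I * B Complex.I) / 2 * z + (B 1 + Complex.I * B Complex.I) / 2 * (starRingEnd ℂ) z := by
  have h1 : z = z.re • (1 : ℂ) + z.im • Complex.I := by
    apply Complex.ext <;> simp
  have h2 : B z = z.re • B 1 + z.im • B Complex.I := by
    conv_lhs => rw [h1]
    rw [map_add, map_smul, map_smul]
  have key : ∀ x y : ℂ, x * B 1 + y * B Complex.I = (B 1 - Complex.I * B Complex.I) / 2 * (x + y * Complex.I)
      + (B 1 + Complex.I * B Complex.I) / 2 * (x - y * Complex.I) := by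
    intro x y
    linear_combination (y * B Complex.I) * Complex.I_mul_I
  have h3 : (starRingEnd ℂ) z = (z.re : ℂ) - z.im * Complex.I := by
    apply Complex.ext <;> simp
  have h4 : z = (z.re : ℂ) + z.im * Complex.I := by
    apply Complex.ext <;> simp
  have h5 := key (z.re : ℂ) (z.im : ℂ)
  rw [← h3, ← h4] at h5
  rw [← h5, h2, Complex.real_smul, Complex.real_smul]

theorem lin_ne {B : ℂ →L[ℝ] ℂ} {α β : ℂ} (hB : ∀ z, B z = α * z + β * (starRingEnd ℂ) z)
    (hi : ∀ z, B z = 0 → z = 0) : ‖α‖ ≠ ‖β‖ := by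
  intro h
  by_cases hα : α = 0
  · rw [hα, norm_zero] at h
    have hβ : β = 0 := norm_eq_zero.1 h.symm
    have := hi 1 (by rw [hB, hα, hβ]; ring)
    exact one_ne_zero this
  · obtain ⟨ζ, hζ⟩ : ∃ ζ : ℂ, ζ ^ 2 = -(β / α) := IsAlgClosed.exists_pow_nat_eq _ two_pos
    have hn : ‖ζ‖ = 1 := by
      have h1 : ‖ζ‖ ^ 2 = 1 := by
        rw [← norm_pow, hζ, norm_neg, norm_div, h, div_self]
        rw [← h]
        exact norm_ne_zero_iff.2 hα
      nlinarith [norm_nonneg ζ]
    have hc : ζ * (starRingEnd ℂ) ζ = 1 := by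
      rw [Complex.mul_conj, Complex.normSq_eq_norm_sq, hn]; simp
    have h2 : B ζ = 0 := by
      rw [hB]
      have h3 : ζ ≠ 0 := by
        rintro rfl
        rw [norm_zero] at hn
        exact zero_ne_one hn
      have h4 : ζ * (α * ζ + β * (starRingEnd ℂ) ζ) = 0 := by
        have : ζ * (α * ζ + β * (starRingEnd ℂ) ζ) = α * ζ ^ 2 + β * (ζ * (starRingEnd ℂ) ζ) := by ring
        rw [this, hζ, hc]
        field_simp
        ring
      exact (mul_eq_zero.1 h4).resolve_left h3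
    have h3 := hi ζ h2
    rw [h3, norm_zero] at hn
    exact zero_ne_one hn

theorem lin_path {A : E →L[ℝ] E} (hA : Function.Bijective A) (ha : ∃ a : ℝ, A (1, 0) = ((a : ℂ), 0)) :
    ∃ (D : ℝ → E →L[ℝ] E) (e f : ℝ), (e = 1 ∨ e = -1) ∧ (f = 1 ∨ f = -1) ∧ GLp D ∧
      (∀ s, ∃ a : ℝ, D s (1, 0) = ((a : ℂ), 0)) ∧ ∀ q, D 1 q = A (sy e f q) := by
  obtain ⟨a, ha⟩ := ha
  let j : ℂ →L[ℝ] E := linJ.comp (ContinuousLinearMap.inr ℝ ℝ ℂ)
  have hj : ∀ z, j z = linJ (0, z) := fun z => rfl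
  let b : ℂ →L[ℝ] ℝ := linU.comp (A.comp j)
  let B : ℂ →L[ℝ] ℂ := linZ.comp (A.comp j)
  have hb : ∀ z, b z = linU (A (linJ (0, z))) := fun z => rfl
  have hBz : ∀ z, B z = linZ (A (linJ (0, z))) := fun z => rfl
  have h10 : ((1, 0) : E) = linJ (1, 0) := by rw [linJ_one]; simp
  have hAu : ∀ u : ℝ, A (linJ (u, 0)) = linJ (a * u, 0) := by
    intro u
    have h1 : linJ (u, 0) = u • ((1, 0) : E) := by
      rw [h10, ← map_smul]; simp
    rw [h1, map_smul, ha, linJ_one]
    refine Prod.ext (Complex.ext ?_ ?_) ?_ <;> simp [mul_comm]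
  have hAz : ∀ (u : ℝ) z, A (linJ (u, z)) = linJ (a * u + b z, B z) := by
    intro u z
    have h1 : linJ (u, z) = linJ (u, 0) + linJ (0, z) := by
      rw [← map_add]; simp
    have h2 : A (linJ (0, z)) = linJ (b z, B z) := by
      rw [hb, hBz, linJ_eq]
    rw [h1, map_add, hAu, h2, ← map_add]
    simp
  have h00 : linJ (0 : ℝ × ℂ) = 0 := map_zero _
  have hinj : ∀ u z, linJ (a * u + b z, B z) = 0 → u = 0 ∧ z = 0 := by
    intro u z h
    rw [← hAz] at h
    have h1 : linJ (u, z) = 0 := by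
      apply hA.1
      rw [h, map_zero]
    rw [← h00] at h1
    have h2 := linJ_inj h1
    exact ⟨congrArg Prod.fst h2, congrArg Prod.snd h2⟩
  have ha0 : a ≠ 0 := by
    intro h0
    have := (hinj 1 0 (by rw [h0, map_zero, map_zero, zero_mul, add_zero]; exact h00)).1
    exact one_ne_zero this
  have hBi : ∀ z, B z = 0 → z = 0 := by
    intro z hz
    refine (hinj (-(b z / a)) z ?_).2
    rw [hz]
    have : a * -(b z / a) + b z = 0 := by field_simp; ring
    rw [this]
    exact h00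
  obtain ⟨e, he, hae⟩ : ∃ e : ℝ, (e = 1 ∨ e = -1) ∧ 0 < a * e := by
    rcases lt_or_gt_of_ne ha0 with h | h
    · exact ⟨-1, Or.inr rfl, by linarith⟩
    · exact ⟨1, Or.inl rfl, by linarith⟩
  have hBf := lin_form B
  generalize (B 1 - Complex.I * B Complex.I) / 2 = α at hBf
  generalize (B 1 + Complex.I * B Complex.I) / 2 = β at hBf
  have hne := lin_ne hBf hBi
  have hsy1 : ∀ (u : ℝ) z, sy e 1 (linJ (u, z)) = linJ (e * u, z) := by
    intro u z
    rw [linJ_apply, linJ_apply]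
    simp [sy]
  have hsy2 : ∀ (u : ℝ) z, sy e (-1) (linJ (u, z)) = linJ (e * u, (starRingEnd ℂ) z) := by
    intro u z
    rw [linJ_apply, linJ_apply]
    simp [sy]
  rcases lt_or_gt_of_ne hne with h | h
  · obtain ⟨D, hD, hD1, hD2⟩ := lin_core hae (b.comp (Complex.conjCLE : ℂ →L[ℝ] ℂ)) h
    refine ⟨D, e, -1, he, Or.inr rfl, hD, hD1, ?_⟩
    intro q
    rw [← linJ_eq q, hD2, hsy2, hAz, hBf]
    congr 2
    · simp only [ContinuousLinearMap.comp_apply]
      change a * e * linU q + b ((starRingEnd ℂ) (linZ q)) = a * (e * linU q) + b ((starRingEnd ℂ) (linZ q))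
      ring
    · rw [Complex.conj_conj]; ring
  · obtain ⟨D, hD, hD1, hD2⟩ := lin_core hae b h
    refine ⟨D, e, 1, he, Or.inl rfl, hD, hD1, ?_⟩
    intro q
    rw [← linJ_eq q, hD2, hsy1, hAz, hBf]
    congr 2
    ring

end Pool.Agent.NHQ
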