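import Mathlib
import Pool.Agent.NHQ.Lin
import Pool.Agent.NHQ.Lil
import Pool.Agent.NHP.Sma
import Pool.Agent.NHP.Grp

/-!
# NHQ/Grm: matching of germs preserving a line (difficulty 3)

As `NHP/Ger` (`germ_match`; see its header and `/team-store/nhp_Ger.lean` when it is delivered), with a line.  `A = fderiv ψ 0`: `A e₁` is a limit of `ψ (u e₁) / u`, so it is a multiple of `e₁` (`Ln` is closed).
`D, e, f` from `lin_path`, `L` from `exists_lift_line` (radius `δ`).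
`M s q = q + (stp 0 1 s * bum δ' q) • (A⁻¹ (ψ q) - q)` by `small_fam` (`G (s, q) = (stp 0 1 s * bum δ' q) • (A⁻¹ (ψ q) - q)`, extended by `0` where `bum δ' = 0`, is smooth for small `δ'`; `A⁻¹ (ψ q) - q` and its derivative vanish at `0`, so
the partial derivative in `q` is `≤ ‖d bum‖ o(|q|) + o(1) ≤ 1/2` for small `δ'`, `exists_bum_bound`; only the values for `stp 0 1 s ∈ [0, 1]` matter); `M 0 = id`, `M s = id` where `nr q ≥ δ'²/4`, `M s 0 = 0`, `M 1 q = A⁻¹ (ψ q)` near `0`;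
`M s` maps `Ln` into `Ln` (for small `δ'`: `ψ` maps `Ln` into `Ln` near `0`, `A⁻¹ e₁` is a multiple of `e₁`).
Let `r = sy e f` (involution, linear, `nr (r q) = nr q`, `bum δ (r q) = bum δ q`, preserves `Ln`); `M' s = r ∘ M s ∘ r` (a permutation, `PushE (Bl δ)`).  `U s = (L s).symm.trans (M' s).symm`: near `0`:
`L 1 (M' 1 (r q)) = A (r (r (M 1 q))) = A (M 1 q) = ψ q`, so `U 1 (ψ q) = r q`.  `U s 0 = 0`.  `ln_iff` for `L s`, `M' s` gives the statement for `U s`.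
-/

open scoped Manifold ContDiff Topology
open Set Filter
open Pool.Agent.CSG (stp)
open Pool.Agent.RSG (E3 ex Thick)
open Pool.Agent.KNT (bmp)
open Pool.Agent.NHP

namespace Pool.Agent.NHQ

theorem grm_fam {r : E → E} (hr : ∀ᶠ q in 𝓝 (0 : E), ContDiffAt ℝ ∞ r q) (h0 : r 0 = 0)
    (hd : fderiv ℝ r 0 = 0) {δ : ℝ} (hδ : 0 < δ) : ∃ δ' : ℝ, 0 < δ' ∧ δ' ≤ δ ∧ ∃ M : ℝ → Equiv.Perm E,
      ContDiff ℝ ∞ (fun p : ℝ × E => M p.1 p.2) ∧ ContDiff ℝ ∞ (fun p : ℝ × E => (M p.1).symm p.2) ∧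
      ∀ u q, M u q = q + stp 0 1 u • bum δ' q • r q := by
  obtain ⟨C, hC, hb⟩ := exists_bum_bound
  set ε : ℝ := 1 / (2 * (C + 1)) with hε
  have hε0 : 0 < ε := by positivity
  have hr0 : ContDiffAt ℝ ∞ r 0 := hr.self_of_nhds
  have hcf : ContinuousAt (fderiv ℝ r) 0 := (hr0.fderiv_right (m := 0) (by simp)).continuousAt
  have h1 : ∀ᶠ q in 𝓝 (0 : E), ‖fderiv ℝ r q‖ < ε := by
    have h2 : ‖fderiv ℝ r 0‖ < ε := by rw [hd, norm_zero]; exact hε0
    exact hcf.norm.eventually (gt_mem_nhds h2)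
  obtain ⟨ρ, hρ, hball⟩ := Metric.eventually_nhds_iff_ball.mp (h1.and hr)
  obtain ⟨δ1, hδ1, hsub⟩ := exists_Bl (Metric.ball_mem_nhds (0 : E) hρ)
  set δ' := min δ δ1 with hδ'
  have hδ'0 : 0 < δ' := lt_min hδ hδ1
  have hsub' : ∀ q : E, nr q ≤ δ' ^ 2 → q ∈ Metric.ball (0 : E) ρ := by
    intro q hq
    apply hsub
    have h2 : δ' ^ 2 ≤ δ1 ^ 2 := by
      have := min_le_right δ δ1
      nlinarith
    exact le_trans hq h2
  have hrle : ∀ q ∈ Metric.ball (0 : E) ρ, ‖r q‖ ≤ ε * ‖q‖ := by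
    intro q hq
    have h2 := (convex_ball (0 : E) ρ).norm_image_sub_le_of_norm_fderiv_le (𝕜 := ℝ) (f := r) (C := ε)
      (fun x hx => (hball x hx).2.differentiableAt (by simp)) (fun x hx => (hball x hx).1.le)
      (Metric.mem_ball_self hρ) hq
    simpa [h0] using h2
  set h : E → E := fun q => bum δ' q • r q with hh
  have hzero : ∀ q : E, δ' ^ 2 / 4 < nr q → h =ᶠ[𝓝 q] fun _ => 0 := by
    intro q hq
    have h2 : ∀ᶠ x in 𝓝 q, δ' ^ 2 / 4 < nr x := nr_smooth.continuous.continuousAt.eventually (lt_mem_nhds hq)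
    filter_upwards [h2] with x hx
    show bum δ' x • r x = 0
    rw [bum_zero hδ'0 hx.le, zero_smul]
  have hdich : ∀ q : E, nr q ≤ δ' ^ 2 ∨ δ' ^ 2 / 4 < nr q := by
    intro q
    rcases le_or_gt (nr q) (δ' ^ 2) with h2 | h2
    · exact Or.inl h2
    · exact Or.inr (by nlinarith [sq_nonneg δ'])
  have hsm : ContDiff ℝ ∞ h := by
    rw [contDiff_iff_contDiffAt]
    intro q
    rcases hdich q with h2 | h2
    · exact (bum_smooth δ').contDiffAt.smul (hball q (hsub' q h2)).2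
    · exact contDiffAt_const.congr_of_eventuallyEq (hzero q h2)
  have hder : ∀ q, ‖fderiv ℝ h q‖ ≤ 1 / 2 := by
    intro q
    rcases hdich q with h2 | h2
    · have h3 := hball q (hsub' q h2)
      have hdb : DifferentiableAt ℝ (bum δ') q := (bum_smooth δ').differentiable (by simp) q
      have hdr : DifferentiableAt ℝ r q := h3.2.differentiableAt (by simp)
      have h4 : fderiv ℝ h q = bum δ' q • fderiv ℝ r q + (fderiv ℝ (bum δ') q).smulRight (r q) :=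
        (hdb.hasFDerivAt.smul hdr.hasFDerivAt).fderiv
      rw [h4]
      have h5 := bum_mem δ' q
      have h6 : ‖bum δ' q • fderiv ℝ r q‖ ≤ ε := by
        rw [norm_smul, Real.norm_of_nonneg h5.1]
        calc bum δ' q * ‖fderiv ℝ r q‖ ≤ 1 * ε :=
              mul_le_mul h5.2 h3.1.le (norm_nonneg _) zero_le_one
          _ = ε := one_mul _
      have h7 : ‖(fderiv ℝ (bum δ') q).smulRight (r q)‖ ≤ C * ε := by
        rw [ContinuousLinearMap.norm_smulRight_apply]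
        calc ‖fderiv ℝ (bum δ') q‖ * ‖r q‖ ≤ ‖fderiv ℝ (bum δ') q‖ * (ε * ‖q‖) :=
              mul_le_mul_of_nonneg_left (hrle q (hsub' q h2)) (norm_nonneg _)
          _ = (‖q‖ * ‖fderiv ℝ (bum δ') q‖) * ε := by ring
          _ ≤ C * ε := mul_le_mul_of_nonneg_right (hb δ' hδ'0 q) hε0.le
      calc ‖bum δ' q • fderiv ℝ r q + (fderiv ℝ (bum δ') q).smulRight (r q)‖ ≤ ε + C * ε :=
            (norm_add_le _ _).trans (add_le_add h6 h7)
        _ = 1 / 2 := by rw [hε]; field_simp; ring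
    · rw [(hzero q h2).fderiv_eq]
      simp
  set G : ℝ × E → E := fun p => stp 0 1 p.1 • h p.2 with hG
  have hGs : ContDiff ℝ ∞ G :=
    ((Pool.Agent.CSG.stp_smooth 0 1).comp contDiff_fst).smul (hsm.comp contDiff_snd)
  obtain ⟨F, hF1, hF2, hF3⟩ := small_fam hGs (fun p => by
    have e1 : HasFDerivAt (fun q => G (p.1, q)) ((fderiv ℝ G p).comp (ContinuousLinearMap.inr ℝ ℝ E)) p.2 :=
      HasFDerivAt.comp (g := G) p.2 (f := fun q => (p.1, q))
        (show HasFDerivAt G (fderiv ℝ G p) (p.1, p.2) from (hGs.differentiable (by simp) p).hasFDerivAt)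
        (hasFDerivAt_prodMk_right p.1 p.2)
    have e2 : HasFDerivAt (fun q => G (p.1, q)) (stp 0 1 p.1 • fderiv ℝ h p.2) p.2 :=
      (hsm.differentiable (by simp) p.2).hasFDerivAt.const_smul (stp 0 1 p.1)
    rw [e1.unique e2, norm_smul, Real.norm_of_nonneg (Pool.Agent.CSG.stp_nonneg _ _ _)]
    calc stp 0 1 p.1 * ‖fderiv ℝ h p.2‖ ≤ 1 * (1 / 2) :=
          mul_le_mul (Pool.Agent.CSG.stp_le_one _ _ _) (hder p.2) (norm_nonneg _) zero_le_one
      _ = 1 / 2 := one_mul _)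
  exact ⟨δ', hδ'0, min_le_left _ _, F, hF1, hF2, hF3⟩

theorem grm_add {q q' : E} (h : q ∈ Ln) (h' : q' ∈ Ln) : q + q' ∈ Ln := by
  constructor
  · show (q.1 + q'.1).im = 0
    rw [Complex.add_im, h.1, h'.1, add_zero]
  · show q.2 + q'.2 = 0
    rw [h.2, h'.2, add_zero]

theorem grm_sub {q q' : E} (h : q ∈ Ln) (h' : q' ∈ Ln) : q - q' ∈ Ln := by
  constructor
  · show (q.1 - q'.1).im = 0
    rw [Complex.sub_im, h.1, h'.1, sub_zero]
  · show q.2 - q'.2 = 0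
    rw [h.2, h'.2, sub_zero]

theorem grm_smul (a : ℝ) {q : E} (h : q ∈ Ln) : a • q ∈ Ln := by
  constructor
  · show (a • q.1).im = 0
    rw [Complex.smul_im, h.1, smul_zero]
  · show a • q.2 = 0
    rw [h.2, smul_zero]

theorem grm_mem {q : E} : q ∈ Ln ↔ ∃ a : ℝ, q = a • ((1, 0) : E) := by
  constructor
  · intro h
    refine ⟨q.1.re, Prod.ext (Complex.ext ?_ ?_) ?_⟩
    · simp
    · simpa using h.1
    · simpa using h.2
  · rintro ⟨a, rfl⟩
    exact grm_smul a ⟨by simp, rfl⟩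

/-- the inverse of a linear map which preserves the line preserves the line -/
theorem grm_inv {A : E →L[ℝ] E} {A' : E → E} (hA' : ∀ v, A' (A v) = v) (ha : ∃ a : ℝ, A (1, 0) = ((a : ℂ), 0)) {q : E}
    (hq : q ∈ Ln) : A' q ∈ Ln := by
  obtain ⟨a, ha⟩ := ha
  obtain ⟨b, rfl⟩ := grm_mem.1 hq
  have ha0 : a ≠ 0 := by
    rintro rfl
    have h1 : A (1, 0) = A 0 := by
      rw [ha, map_zero]
      simp
    have h2 := (Function.LeftInverse.injective hA') h1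
    have h3 := congrArg Prod.fst h2
    exact one_ne_zero h3
  have h1 : b • ((1, 0) : E) = A ((b / a) • ((1, 0) : E)) := by
    rw [map_smul, ha]
    refine Prod.ext (Complex.ext ?_ ?_) ?_
    · simp [div_mul_cancel₀ _ ha0]
    · simp
    · simp
  rw [h1, hA']
  exact grm_smul _ ⟨by simp, rfl⟩

theorem grm_deriv {ψ : E → E} (hs : DifferentiableAt ℝ ψ 0) (hl : ∀ᶠ q in 𝓝 (0 : E), q ∈ Ln → ψ q ∈ Ln) :
    ∃ a : ℝ, fderiv ℝ ψ 0 (1, 0) = ((a : ℂ), 0) := by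
  have h1 : HasDerivAt (fun t : ℝ => t • ((1, 0) : E)) ((1, 0) : E) 0 := by
    have := (hasDerivAt_id (0 : ℝ)).smul_const ((1, 0) : E)
    simpa using this
  have h2 : HasFDerivAt ψ (fderiv ℝ ψ 0) ((0 : ℝ) • ((1, 0) : E)) := by
    rw [zero_smul]
    exact hs.hasFDerivAt
  have h3 : HasDerivAt (fun t : ℝ => ψ (t • ((1, 0) : E))) (fderiv ℝ ψ 0 (1, 0)) 0 :=
    HasFDerivAt.comp_hasDerivAt (0 : ℝ) h2 h1
  have hev : ∀ᶠ t : ℝ in 𝓝 0, ψ (t • ((1, 0) : E)) ∈ Ln := by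
    have h4 : Tendsto (fun t : ℝ => t • ((1, 0) : E)) (𝓝 0) (𝓝 0) := by
      have := h1.continuousAt.tendsto
      rwa [zero_smul] at this
    filter_upwards [h4.eventually hl] with t ht
    exact ht (grm_mem.2 ⟨t, rfl⟩)
  have h5 : HasDerivAt (fun t : ℝ => (ψ (t • ((1, 0) : E))).1.im) (fderiv ℝ ψ 0 (1, 0)).1.im 0 := by
    have h9 := HasFDerivAt.comp_hasDerivAt (0 : ℝ)
      ((Complex.imCLM.comp (ContinuousLinearMap.fst ℝ ℂ ℝ)).hasFDerivAt (x := ψ ((0 : ℝ) • ((1, 0) : E)))) h3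
    exact h9
  have h6 : HasDerivAt (fun t : ℝ => (ψ (t • ((1, 0) : E))).2) (fderiv ℝ ψ 0 (1, 0)).2 0 := by
    have h9 := HasFDerivAt.comp_hasDerivAt (0 : ℝ)
      ((ContinuousLinearMap.snd ℝ ℂ ℝ).hasFDerivAt (x := ψ ((0 : ℝ) • ((1, 0) : E)))) h3
    exact h9
  have h7 : (fderiv ℝ ψ 0 (1, 0)).1.im = 0 := by
    refine h5.unique ((hasDerivAt_const (0 : ℝ) (0 : ℝ)).congr_of_eventuallyEq ?_)
    filter_upwards [hev] with t ht
    exact ht.1
  have h8 : (fderiv ℝ ψ 0 (1, 0)).2 = 0 := by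
    refine h6.unique ((hasDerivAt_const (0 : ℝ) (0 : ℝ)).congr_of_eventuallyEq ?_)
    filter_upwards [hev] with t ht
    exact ht.2
  refine ⟨(fderiv ℝ ψ 0 (1, 0)).1.re, Prod.ext (Complex.ext ?_ ?_) h8⟩
  · simp
  · rw [h7]
    simp

theorem grm_nr_sy {e f : ℝ} (he : e = 1 ∨ e = -1) (hf : f = 1 ∨ f = -1) (q : E) : nr (sy e f q) = nr q := by
  have h1 : ∀ z : ℂ, ‖z‖ ^ 2 = z.re ^ 2 + z.im ^ 2 := fun z => by
    rw [Complex.sq_norm, Complex.normSq_apply]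
    ring
  unfold nr sy
  rw [h1, h1]
  rcases he with rfl | rfl <;> rcases hf with rfl | rfl <;> simp

theorem grm_sy_ln {e f : ℝ} {q : E} (hq : q ∈ Ln) : sy e f q ∈ Ln :=
  ⟨by show f * q.1.im = 0; rw [hq.1, mul_zero], hq.2⟩

theorem grm_sy_zero (e f : ℝ) : sy e f 0 = 0 := by
  refine Prod.ext (Complex.ext ?_ ?_) ?_
  · show e * (0 : ℝ) = 0
    rw [mul_zero]
  · show f * (0 : ℝ) = 0
    rw [mul_zero]
  · rfl

/-- the permutation `sy e f` -/
noncomputable def grmR {e f : ℝ} (he : e = 1 ∨ e = -1) (hf : f = 1 ∨ f = -1) : Equiv.Perm E :=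
  ⟨sy e f, sy e f, sy_sy he hf, sy_sy he hf⟩

theorem grm_symm_ln {V : Equiv.Perm E} (h : ∀ q, V q ∈ Ln ↔ q ∈ Ln) (q : E) : V.symm q ∈ Ln ↔ q ∈ Ln := by
  rw [← h (V.symm q), V.apply_symm_apply]

theorem germ_line {ψ : E → E} (h0 : ψ 0 = 0) (hs : ∀ᶠ q in 𝓝 (0 : E), ContDiffAt ℝ ∞ ψ q)
    (hb : Function.Bijective (fderiv ℝ ψ 0)) (hl : ∀ᶠ q in 𝓝 (0 : E), q ∈ Ln → ψ q ∈ Ln) {δ : ℝ} (hδ : 0 < δ) :
    ∃ (U : ℝ → Equiv.Perm E) (e f : ℝ), (e = 1 ∨ e = -1) ∧ (f = 1 ∨ f = -1) ∧ PushE (Bl δ) U ∧ (∀ s, U s 0 = 0) ∧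
      (∀ s q, U s q ∈ Ln ↔ q ∈ Ln) ∧ ∀ᶠ q in 𝓝 (0 : E), U 1 (ψ q) = sy e f q := by
  have hψ0 : ContDiffAt ℝ ∞ ψ 0 := hs.self_of_nhds
  have hline := grm_deriv (hψ0.differentiableAt (by simp)) hl
  obtain ⟨D, e, f, he, hf, hD, hDl, hD1⟩ := lin_path hb hline
  obtain ⟨L, hL, hLl⟩ := exists_lift_line hD hDl hδ
  obtain ⟨ρL, hρL, hLg⟩ := hL.germ
  set Ae : E ≃L[ℝ] E := (LinearEquiv.ofBijective (fderiv ℝ ψ 0 : E →ₗ[ℝ] E) hb).toContinuousLinearEquiv with hAe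
  have hAe1 : ∀ v, Ae v = fderiv ℝ ψ 0 v := fun v => rfl
  have hAe2 : ∀ v, fderiv ℝ ψ 0 (Ae.symm v) = v := fun v => by rw [← hAe1]; exact Ae.apply_symm_apply v
  have hAe3 : ∀ v, Ae.symm (fderiv ℝ ψ 0 v) = v := fun v => by rw [← hAe1]; exact Ae.symm_apply_apply v
  have hAel : ∀ q ∈ Ln, Ae.symm q ∈ Ln := fun q hq => grm_inv hAe3 hline hq
  set r : E → E := fun q => Ae.symm (ψ q) - q with hr
  have hrs : ∀ᶠ q in 𝓝 (0 : E), ContDiffAt ℝ ∞ r q := by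
    filter_upwards [hs] with q hq
    exact (Ae.symm.contDiff.contDiffAt.comp q hq).sub contDiffAt_id
  have hr0 : r 0 = 0 := by simp [hr, h0]
  have hrd : fderiv ℝ r 0 = 0 := by
    have h1 : HasFDerivAt ψ (fderiv ℝ ψ 0) 0 := (hψ0.differentiableAt (by simp)).hasFDerivAt
    have h2 : HasFDerivAt r (((Ae.symm : E ≃L[ℝ] E) : E →L[ℝ] E).comp (fderiv ℝ ψ 0) - ContinuousLinearMap.id ℝ E) 0 :=
      (((Ae.symm : E ≃L[ℝ] E) : E →L[ℝ] E).hasFDerivAt.comp 0 h1).sub (hasFDerivAt_id 0)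
    rw [h2.fderiv]
    refine ContinuousLinearMap.ext fun v => ?_
    show Ae.symm (fderiv ℝ ψ 0 v) - v = 0
    rw [← hAe1, Ae.symm_apply_apply, sub_self]
  -- the ball where the line is preserved
  obtain ⟨δl, hδl, hsubl⟩ := exists_Bl hl
  obtain ⟨δ', hδ'0, hδ'', M, hM1, hM2, hM3⟩ := grm_fam hrs hr0 hrd (lt_min hδ hδl)
  have hδ' : δ' ≤ δ := hδ''.trans (min_le_left _ _)
  have hδ'l : δ' ≤ δl := hδ''.trans (min_le_right _ _)
  have hMz : ∀ u, M u 0 = 0 := fun u => by rw [hM3, hr0]; simp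
  have hM0 : M 0 = Equiv.refl E := by
    ext1 q
    rw [hM3, Pool.Agent.CSG.stp_zero (by norm_num) le_rfl]
    simp
  have hMout : ∀ u, ∀ q : E, q ∉ {q : E | nr q ≤ (δ' / 2) ^ 2} → M u q = q := by
    intro u q hq
    have h1 : δ' ^ 2 / 4 ≤ nr q := by
      have h2 : ¬ nr q ≤ (δ' / 2) ^ 2 := hq
      nlinarith [not_le.mp h2]
    rw [hM3, bum_zero hδ'0 h1]
    simp
  have hCsub : {q : E | nr q ≤ (δ' / 2) ^ 2} ⊆ Bl δ := by
    intro q hq
    have h2 : nr q ≤ (δ' / 2) ^ 2 := hq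
    show nr q < δ ^ 2
    nlinarith
  have hMl : ∀ s, ∀ q ∈ Ln, M s q ∈ Ln := by
    intro s q hq
    by_cases hqs : nr q ≤ (δ' / 2) ^ 2
    · have h1 : ψ q ∈ Ln := by
        refine hsubl (show nr q ≤ δl ^ 2 from ?_) hq
        nlinarith
      rw [hM3]
      exact grm_add hq (grm_smul _ (grm_smul _ (grm_sub (hAel _ h1) hq)))
    · rw [hMout s q hqs]
      exact hq
  have hMone : ∀ q : E, nr q ≤ δ' ^ 2 / 16 → M 1 q = Ae.symm (ψ q) := by
    intro q hq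
    rw [hM3, bum_one hδ'0 hq, Pool.Agent.CSG.stp_one (by norm_num) le_rfl, one_smul, one_smul, hr]
    exact add_sub_cancel q _
  have hLz : ∀ s, L s 0 = 0 := fun s => by rw [hLg s 0 (zero_mem_Bl hρL)]; simp
  -- the small ball
  have hcont : ContinuousAt (fun q => nr (Ae.symm (ψ q))) 0 :=
    (nr_smooth.continuous.comp Ae.symm.continuous).continuousAt.comp hψ0.continuousAt
  have h3 : ∀ᶠ q in 𝓝 (0 : E), nr (Ae.symm (ψ q)) < ρL ^ 2 := by
    have h4 : nr (Ae.symm (ψ 0)) < ρL ^ 2 := by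
      rw [h0, map_zero, (nr_zero 0).mpr rfl]
      positivity
    exact hcont.eventually (gt_mem_nhds h4)
  have h4 : ∀ᶠ q in 𝓝 (0 : E), nr q < δ' ^ 2 / 16 := by
    have h5 : nr (0 : E) < δ' ^ 2 / 16 := by
      rw [(nr_zero 0).mpr rfl]
      positivity
    exact nr_smooth.continuous.continuousAt.eventually (gt_mem_nhds h5)
  set M' : ℝ → Equiv.Perm E := fun s => (grmR he hf).trans ((M s).trans (grmR he hf)) with hM'
  have hM'1 : ∀ s q, M' s q = sy e f (M s (sy e f q)) := fun s q => rfl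
  have hM'p : PushE (Bl δ) M' := by
    refine ⟨?_, ?_, ?_, _, isCompact_Bl (δ' / 2), hCsub, fun u q hq' => ?_⟩
    · exact (sy_smooth e f).comp (hM1.comp (contDiff_fst.prodMk ((sy_smooth e f).comp contDiff_snd)))
    · exact (sy_smooth e f).comp (hM2.comp (contDiff_fst.prodMk ((sy_smooth e f).comp contDiff_snd)))
    · ext1 q
      rw [hM'1, hM0]
      exact sy_sy he hf q
    · rw [hM'1, hMout u (sy e f q) (fun h4 => hq' (by
        have h5 : nr (sy e f q) ≤ (δ' / 2) ^ 2 := h4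
        rwa [grm_nr_sy he hf] at h5)), sy_sy he hf]
  have hMc : ∀ s, Continuous (M' s) := fun s => hM'p.smooth.continuous.comp (Continuous.prodMk_right s)
  have hLc : ∀ s, Continuous (L s) := fun s => hL.push.smooth.continuous.comp (Continuous.prodMk_right s)
  obtain ⟨C1, hC1, -, hC1s⟩ := hM'p.supp
  obtain ⟨C2, hC2, -, hC2s⟩ := hL.push.supp
  have hMi : ∀ s q, M' s q ∈ Ln ↔ q ∈ Ln := fun s => ln_iff (hMc s) hC1 (hC1s s) fun q hq => by
    rw [hM'1]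
    exact grm_sy_ln (hMl s _ (grm_sy_ln hq))
  have hLi : ∀ s q, L s q ∈ Ln ↔ q ∈ Ln := fun s => ln_iff (hLc s) hC2 (hC2s s) (hLl s)
  refine ⟨fun s => (L s).symm.trans (M' s).symm, e, f, he, hf, hL.push.inv.comp hM'p.inv, fun s => ?_, fun s q => ?_, ?_⟩
  · show (M' s).symm ((L s).symm 0) = 0
    rw [Equiv.symm_apply_eq, Equiv.symm_apply_eq, hM'1, grm_sy_zero, hMz, grm_sy_zero, hLz]
  · show (M' s).symm ((L s).symm q) ∈ Ln ↔ q ∈ Ln
    rw [grm_symm_ln (hMi s), grm_symm_ln (hLi s)]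
  · filter_upwards [h3, h4] with q hq1 hq2
    show (M' 1).symm ((L 1).symm (ψ q)) = sy e f q
    rw [Equiv.symm_apply_eq, Equiv.symm_apply_eq, hM'1, sy_sy he hf, hMone q hq2.le,
      hLg 1 _ (by show nr _ < ρL ^ 2; rw [grm_nr_sy he hf]; exact hq1), hD1, sy_sy he hf, hAe2]

end Pool.Agent.NHQ
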