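import Mathlib
import Pool.Agent.NHQ.Grm
import Pool.Agent.NHP.Tra

/-!
# NHQ/Gkn: matching of germs at a point of a thick knot (difficulty 3)

`F q = footT κ p 1 q = κ (p + re w, ⟨x, im w⟩)` (`q = (w, x)`) is a chart on `O₁ = {q | |re w| < 1/2, nr-distance |x + i im w| < 1}` (composition of the linear isomorphism `(w, x) ↦ (re w, ⟨x, im w⟩)` with the local diffeomorphism
`κ`; injective by `Thick.inj`, because `|l - l'| < 1`): `foot_cht`.  `F q ∈ core κ ↔ q ∈ Ln` for `q ∈ O₁` (`Thick.inj`): `foot_core`.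
`germ_knot`: let `G` be the inverse of the chart `F` (`Cht.inv`, smooth on `F '' O₁`), `ψ = G ∘ T` near `0`: smooth near `0`, `ψ 0 = 0`, bijective derivative (`T` and `G` are local diffeomorphisms; the composition with the smooth local
inverse), and near `0`: `q ∈ Ln → T q ∈ core κ → ψ q ∈ Ln`.  Choose `δ` with `{nr ≤ δ²} ⊆ O₁` and `F '' {nr ≤ δ²} ⊆ W` (`exists_Bl`).  `germ_line` gives `U`; transport by `push_chart` (chart `F` restricted to `Bl δ`): `U'`.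
`U' s (F q) = F (U s q)` for `q ∈ Bl δ`, identity elsewhere: `U' s` preserves `core κ` (points off `F '' Bl δ` are fixed; `F q ∈ core κ ↔ q ∈ Ln ↔ U s q ∈ Ln ↔ F (U s q) ∈ core κ`).
Near `0`: `U' 1 (T q) = U' 1 (F (ψ q)) = F (U 1 (ψ q)) = F (sy e f q)`.
-/

open scoped Manifold ContDiff Topology
open Set Filter
open Pool.Agent.CSG (stp)
open Pool.Agent.RSG (E3 ex Thick)
open Pool.Agent.KNT (bmp)
open Pool.Agent.NHP

namespace Pool.Agent.NHQ

variable {N : Type*} [TopologicalSpace N] [ChartedSpace E3 N] [IsManifold (𝓡 3) ∞ N] [T2Space N]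

/-- the domain of the chart `footT κ p 1` -/
def O1 : Set E := {q | |q.1.re| < 1 / 2 ∧ q.2 ^ 2 + q.1.im ^ 2 < 1}

theorem gkn_norm {z : ℂ} (h : z.re ^ 2 + z.im ^ 2 < 1) : ‖z‖ < 1 := by
  have h1 : ‖z‖ ^ 2 < 1 := by
    rw [Complex.sq_norm, Complex.normSq_apply]
    nlinarith
  have h2 := norm_nonneg z
  nlinarith

theorem gkn_foot (κ : ℝ × ℂ → N) (p : ℝ) (q : E) :
    footT κ p 1 q = κ (p + q.1.re, (⟨q.2, q.1.im⟩ : ℂ)) := by
  unfold footT
  have h1 : ((1 : ℝ) : ℂ) * (⟨q.2, q.1.im⟩ : ℂ) = (⟨q.2, q.1.im⟩ : ℂ) := by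
    rw [Complex.ofReal_one, one_mul]
  rw [h1, one_mul]

/-- the linear part of the foot coordinates -/
noncomputable def gkn_lin : E →L[ℝ] ℝ × ℂ :=
  LinearMap.toContinuousLinearMap
    { toFun := fun q => (q.1.re, (⟨q.2, q.1.im⟩ : ℂ))
      map_add' := fun a b => by
        refine Prod.ext ?_ (Complex.ext ?_ ?_)
        · simp
        · simp
        · simp
      map_smul' := fun c a => by
        refine Prod.ext ?_ (Complex.ext ?_ ?_)
        · simp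
        · simp
        · simp }

theorem gkn_lin_apply (q : E) : gkn_lin q = (q.1.re, (⟨q.2, q.1.im⟩ : ℂ)) := rfl

theorem gkn_lin_inj {q : E} (h : gkn_lin q = 0) : q = 0 := by
  rw [gkn_lin_apply] at h
  have h1 : q.1.re = 0 := congrArg Prod.fst h
  have h2 : (⟨q.2, q.1.im⟩ : ℂ) = 0 := congrArg Prod.snd h
  have h3 : q.2 = 0 := congrArg Complex.re h2
  have h4 : q.1.im = 0 := congrArg Complex.im h2
  exact Prod.ext (Complex.ext h1 h4) h3

theorem foot_cht {κ : ℝ × ℂ → N} (hκ : Thick κ) (p : ℝ) : Cht O1 (footT κ p 1) := by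
  refine ⟨?_, fun q hq => ?_, fun q hq q' hq' he => ?_⟩
  · have h1 : IsOpen {q : E | |q.1.re| < 1 / 2} :=
      isOpen_lt (Complex.continuous_re.comp continuous_fst).abs continuous_const
    have h2 : IsOpen {q : E | q.2 ^ 2 + q.1.im ^ 2 < 1} :=
      isOpen_lt ((continuous_snd.pow 2).add ((Complex.continuous_im.comp continuous_fst).pow 2))
        continuous_const
    exact h1.inter h2
  · have e1 : footT κ p 1 = κ ∘ fun q : E => (p, (0 : ℂ)) + gkn_lin q := by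
      funext z
      rw [gkn_foot, Function.comp_apply, gkn_lin_apply, Prod.mk_add_mk, zero_add]
    have hd : ∀ z : E, HasFDerivAt (fun q : E => (p, (0 : ℂ)) + gkn_lin q) gkn_lin z := fun z =>
      gkn_lin.hasFDerivAt.const_add _
    have hld : IsLocalDiffeomorphAt 𝓘(ℝ, ℂ × ℝ) 𝓘(ℝ, ℝ × ℂ) ∞
        (fun q : E => (p, (0 : ℂ)) + gkn_lin q) q := by
      refine CSG.ld_of_fderiv ?_ ?_ fun v hv => ?_
      · exact Filter.Eventually.of_forall fun z =>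
          (contDiff_const.add gkn_lin.contDiff).contDiffAt
      · simp [Module.finrank_prod, Complex.finrank_real_complex]
      · rw [(hd q).fderiv] at hv
        exact gkn_lin_inj hv
    have hκq : IsLocalDiffeomorphAt 𝓘(ℝ, ℝ × ℂ) (𝓡 3) ∞ κ ((p, (0 : ℂ)) + gkn_lin q) := by
      have h1 : (p, (0 : ℂ)) + gkn_lin q = (p + q.1.re, (⟨q.2, q.1.im⟩ : ℂ)) := by
        rw [gkn_lin_apply, Prod.mk_add_mk, zero_add]
      rw [h1]
      exact hκ.loc _ _ (gkn_norm hq.2)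
    rw [e1]
    exact IsLocalDiffeomorphAt.comp (hf := hld) (hg := hκq)
  · rw [gkn_foot, gkn_foot] at he
    obtain ⟨h1, m, hm⟩ := hκ.inj _ _ _ _ (gkn_norm hq.2) (gkn_norm hq'.2) he
    have h2' := congrArg Complex.re h1
    have h3' := congrArg Complex.im h1
    have h2 : q.2 = q'.2 := h2'
    have h3 : q.1.im = q'.1.im := h3'
    have h4 := abs_lt.1 hq.1
    have h5 := abs_lt.1 hq'.1
    have h6 : (m : ℝ) = 0 := by
      have h7 : (m : ℝ) < 1 := by linarith [h4.1, h5.2]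
      have h8 : (-1 : ℝ) < m := by linarith [h4.2, h5.1]
      have h9 : m < 1 := by exact_mod_cast h7
      have h10 : -1 < m := by exact_mod_cast h8
      have h11 : m = 0 := by omega
      rw [h11]
      simp
    have h7 : q.1.re = q'.1.re := by
      rw [h6] at hm
      linarith
    exact Prod.ext (Complex.ext h7 h3) h2

theorem foot_core {κ : ℝ × ℂ → N} (hκ : Thick κ) (p : ℝ) {q : E} (hq : q ∈ O1) : footT κ p 1 q ∈ core κ ↔ q ∈ Ln := by
  rw [gkn_foot]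
  constructor
  · rintro ⟨l, hl⟩
    have hl' : κ (l, 0) = κ (p + q.1.re, (⟨q.2, q.1.im⟩ : ℂ)) := hl
    obtain ⟨h1, -⟩ := hκ.inj _ _ _ _ (by simp) (gkn_norm hq.2) hl'
    exact ⟨(congrArg Complex.im h1).symm, (congrArg Complex.re h1).symm⟩
  · rintro ⟨h1, h2⟩
    refine ⟨p + q.1.re, ?_⟩
    show κ (p + q.1.re, 0) = κ (p + q.1.re, (⟨q.2, q.1.im⟩ : ℂ))
    rw [h1, h2]
    rfl

theorem gkn_zero_mem : (0 : E) ∈ O1 := by
  refine ⟨?_, ?_⟩
  · show |(0 : ℂ).re| < 1 / 2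
    rw [Complex.zero_re, abs_zero]
    norm_num
  · show (0 : ℝ) ^ 2 + (0 : ℂ).im ^ 2 < 1
    rw [Complex.zero_im]
    norm_num

/-- change of charts at a common point -/
theorem gkn_trans {O O' : Set E} {β β' : E → N} (h : Cht O β) (h' : Cht O' β') (h0 : (0 : E) ∈ O)
    (h0' : (0 : E) ∈ O') (he : β 0 = β' 0) {g : N → E} (hg : ∀ q ∈ O', g (β' q) = q)
    (hgs : ∀ x ∈ β' '' O', ContMDiffAt (𝓡 3) 𝓘(ℝ, ℂ × ℝ) ∞ g x) :
    g (β 0) = 0 ∧ ∀ᶠ q in 𝓝 (0 : E), ContDiffAt ℝ ∞ (fun q => g (β q)) q ∧ g (β q) ∈ O' ∧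
      β' (g (β q)) = β q := by
  refine ⟨by rw [he, hg 0 h0'], ?_⟩
  have h1 : IsOpen (β' '' O') := h'.img h'.opn subset_rfl
  have h2 : β ⁻¹' (β' '' O') ∈ 𝓝 (0 : E) :=
    (h.contOn.continuousAt (h.opn.mem_nhds h0)).preimage_mem_nhds
      (h1.mem_nhds (he ▸ mem_image_of_mem β' h0'))
  filter_upwards [h.opn.mem_nhds h0, h2] with q hq hq2
  obtain ⟨z, hz, hz2⟩ := hq2
  refine ⟨?_, ?_, ?_⟩
  · rw [← contMDiffAt_iff_contDiffAt]
    exact ContMDiffAt.comp (I := 𝓘(ℝ, ℂ × ℝ)) (I' := 𝓡 3) (I'' := 𝓘(ℝ, ℂ × ℝ)) q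
      (hgs (β q) ⟨z, hz, hz2⟩) (h.loc q hq).contMDiffAt
  · rw [← hz2, hg z hz]
    exact hz
  · rw [← hz2, hg z hz]

/-- the change of charts has a bijective derivative -/
theorem gkn_bij {O O' : Set E} {β β' : E → N} (h : Cht O β) (h' : Cht O' β') (h0 : (0 : E) ∈ O)
    (h0' : (0 : E) ∈ O') (he : β 0 = β' 0) {g : N → E} (hg : ∀ q ∈ O', g (β' q) = q)
    (hgs : ∀ x ∈ β' '' O', ContMDiffAt (𝓡 3) 𝓘(ℝ, ℂ × ℝ) ∞ g x) :
    Function.Bijective (fderiv ℝ (fun q => g (β q)) 0) := by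
  obtain ⟨g', hg', hgs'⟩ := h.inv
  obtain ⟨a1, a2⟩ := gkn_trans h h' h0 h0' he hg hgs
  obtain ⟨b1, b2⟩ := gkn_trans h' h h0' h0 he.symm hg' hgs'
  have c1 : DifferentiableAt ℝ (fun q => g (β q)) 0 :=
    a2.self_of_nhds.1.differentiableAt (by simp)
  have c2 : DifferentiableAt ℝ (fun q => g' (β' q)) 0 :=
    b2.self_of_nhds.1.differentiableAt (by simp)
  have d1 : ∀ᶠ q in 𝓝 (0 : E), g' (β' (g (β q))) = q := by
    filter_upwards [a2, h.opn.mem_nhds h0] with q hq hqO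
    rw [hq.2.2, hg' q hqO]
  have d2 : ∀ᶠ q in 𝓝 (0 : E), g (β (g' (β' q))) = q := by
    filter_upwards [b2, h'.opn.mem_nhds h0'] with q hq hqO
    rw [hq.2.2, hg q hqO]
  have e1 : (fderiv ℝ (fun q => g' (β' q)) 0).comp (fderiv ℝ (fun q => g (β q)) 0) =
      ContinuousLinearMap.id ℝ E := by
    have f1 : HasFDerivAt (fun q => g' (β' q)) (fderiv ℝ (fun q => g' (β' q)) 0) (g (β 0)) := by
      rw [a1]
      exact c2.hasFDerivAt
    have f2 := f1.comp (0 : E) c1.hasFDerivAt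
    have f3 : HasFDerivAt (fun q : E => q) (ContinuousLinearMap.id ℝ E) 0 := hasFDerivAt_id 0
    exact f2.unique (f3.congr_of_eventuallyEq d1)
  have e2 : (fderiv ℝ (fun q => g (β q)) 0).comp (fderiv ℝ (fun q => g' (β' q)) 0) =
      ContinuousLinearMap.id ℝ E := by
    have f1 : HasFDerivAt (fun q => g (β q)) (fderiv ℝ (fun q => g (β q)) 0) (g' (β' 0)) := by
      rw [b1]
      exact c1.hasFDerivAt
    have f2 := f1.comp (0 : E) c2.hasFDerivAt
    have f3 : HasFDerivAt (fun q : E => q) (ContinuousLinearMap.id ℝ E) 0 := hasFDerivAt_id 0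
    exact f2.unique (f3.congr_of_eventuallyEq d2)
  refine Function.bijective_iff_has_inverse.2 ⟨fderiv ℝ (fun q => g' (β' q)) 0, ?_, ?_⟩
  · intro v
    have := congrArg (fun L : E →L[ℝ] E => L v) e1
    exact this
  · intro v
    have := congrArg (fun L : E →L[ℝ] E => L v) e2
    exact this

theorem germ_knot {κ : ℝ × ℂ → N} (hκ : Thick κ) {p : ℝ} {T : E → N} {O : Set E} (hT : Cht O T) (h0 : (0 : E) ∈ O)
    (hp : T 0 = κ (p, 0)) (hl : ∀ᶠ q in 𝓝 (0 : E), q ∈ Ln → T q ∈ core κ) {W : Set N} (hW : IsOpen W) (hpW : κ (p, 0) ∈ W) :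
    ∃ (U : ℝ → Equiv.Perm N) (e f : ℝ), (e = 1 ∨ e = -1) ∧ (f = 1 ∨ f = -1) ∧ Push W U ∧ (∀ s, U s (κ (p, 0)) = κ (p, 0)) ∧
      (∀ s y, U s y ∈ core κ ↔ y ∈ core κ) ∧ ∀ᶠ q in 𝓝 (0 : E), U 1 (T q) = footT κ p 1 (sy e f q) := by
  have hF : Cht O1 (footT κ p 1) := foot_cht hκ p
  have hF0 : footT κ p 1 0 = κ (p, 0) := by
    rw [gkn_foot]
    have h1 : p + (0 : E).1.re = p := by
      show p + (0 : ℂ).re = p
      rw [Complex.zero_re, add_zero]
    rw [h1]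
    rfl
  obtain ⟨g, hg, hgs⟩ := hF.inv
  have he : T 0 = footT κ p 1 0 := hp.trans hF0.symm
  obtain ⟨a1, a2⟩ := gkn_trans hT hF h0 gkn_zero_mem he hg hgs
  have a3 := gkn_bij hT hF h0 gkn_zero_mem he hg hgs
  have a4 : ∀ᶠ q in 𝓝 (0 : E), q ∈ Ln → g (T q) ∈ Ln := by
    filter_upwards [a2, hl] with q hq hlq hqL
    refine (foot_core hκ p hq.2.1).1 ?_
    rw [hq.2.2]
    exact hlq hqL
  have hU : O1 ∩ footT κ p 1 ⁻¹' W ∈ 𝓝 (0 : E) := by
    refine Filter.inter_mem (hF.opn.mem_nhds gkn_zero_mem) ?_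
    exact (hF.contOn.continuousAt (hF.opn.mem_nhds gkn_zero_mem)).preimage_mem_nhds
      (hW.mem_nhds (hF0 ▸ hpW))
  obtain ⟨δ, hδ, hδ2⟩ := exists_Bl hU
  have hBl : Bl δ ⊆ O1 ∩ footT κ p 1 ⁻¹' W := fun q hq =>
    hδ2 (show nr q ≤ δ ^ 2 from le_of_lt (show nr q < δ ^ 2 from hq))
  obtain ⟨U, e, f, he1, hf1, hU1, hU2, hU3, hU4⟩ := germ_line a1 (a2.mono fun q hq => hq.1) a3 a4 hδ
  obtain ⟨V, hV1, hV2, hV3⟩ := push_chart (hF.mono (isOpen_Bl δ) fun q hq => (hBl hq).1) hU1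
  have h0B : (0 : E) ∈ Bl δ := zero_mem_Bl hδ
  refine ⟨V, e, f, he1, hf1, hV1.mono ?_, ?_, ?_, ?_⟩
  · rintro _ ⟨q, hq, rfl⟩
    exact (hBl hq).2
  · intro s
    rw [← hF0, hV2 s 0 h0B, hU2 s]
  · intro s y
    by_cases hy : y ∈ footT κ p 1 '' Bl δ
    · obtain ⟨q, hq, rfl⟩ := hy
      rw [hV2 s q hq, foot_core hκ p (hBl hq).1, foot_core hκ p (hBl (hU1.mem s hq)).1]
      exact hU3 s q
    · rw [hV3 s y hy]
  · have h5 : ∀ᶠ q in 𝓝 (0 : E), g (T q) ∈ Bl δ := by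
      have h6 : ContinuousAt (fun q => g (T q)) 0 := a2.self_of_nhds.1.continuousAt
      refine h6.preimage_mem_nhds ?_
      rw [a1]
      exact (isOpen_Bl δ).mem_nhds h0B
    filter_upwards [a2, hU4, h5] with q hq hq4 hq5
    rw [← hq.2.2, hV2 1 _ hq5, hq4]

end Pool.Agent.NHQ
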