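import Mathlib
import Pool.Agent.NHQ.Cnj
import Pool.Agent.NHE.TwA
import Pool.Agent.NHP.TrL

/-!
# NHQ/Hlf: a half twist of a chord (the crossing sign): ONE 4-move

`NHE.half_turn` (`LEqO TD TF (rt m '' TF)`), transported by the chord (`leqN_of_leqO`); `rh = rt 1`, `rt m '' TD = TD`, `rt m '' TS = TS`.
`turns`: all half turns.
-/

open scoped Manifold ContDiff Topology
open Set Filter
open Pool.Agent.CSG (stp)
open Pool.Agent.RSG (E3 ex Thick)
open Pool.Agent.KNT (bmp)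
open Pool.Agent.NHP

namespace Pool.Agent.NHQ

/-- half turn around the core, `rh (w, x) = (w, x)` for `x ≤ 1/4`, `(-w, x)` for `3/4 ≤ x` -/
noncomputable def rh (q : E) : E := (ex (1 / 2 * stp (1 / 4) (3 / 4) q.2) * q.1, q.2)

variable {N : Type*} [TopologicalSpace N] [ChartedSpace E3 N] [T2Space N]

theorem hlf_image (m : ℤ) : NHE.rt m '' TD = TD := by
  ext q
  constructor
  · rintro ⟨q', hq', rfl⟩
    exact (NHE.rt_TD m q').2 hq'
  · intro hq
    refine ⟨NHE.rt (-m) q, (NHE.rt_TD (-m) q).2 hq, ?_⟩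
    rw [NHE.rt_add, add_neg_cancel, NHE.rt_zero]

/-- all half turns of a chord -/
theorem turns {K : Set N} {T : E → N} (hT : Chd K T) (m : ℤ) :
    Chd K (T ∘ NHE.rt m) ∧ LEqN (kn K T) (kn K (T ∘ NHE.rt m)) := by
  have e1 : (T ∘ NHE.rt m) '' TD = T '' TD := by rw [Set.image_comp, hlf_image]
  refine ⟨⟨?_, ?_⟩, ?_⟩
  · exact hT.cht.comp hT.cht.opn (fun q _ => (NHE.rt_smooth m).contDiffAt) (fun q _ => NHE.rt_fderiv m q)
      (NHE.rt_bij m).injective.injOn (fun q hq => (NHE.rt_TD m q).2 hq)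
  · rw [e1, hT.hit, Set.image_comp, NHE.rt_TS]
  · have e2 : kn K (T ∘ NHE.rt m) = (K \ T '' TD) ∪ T '' (NHE.rt m '' TF) := by
      unfold kn
      rw [e1, Set.image_comp]
    rw [e2]
    refine leqN_of_leqO hT.cht disjoint_sdiff_self_left ?_ (NHE.half_turn m)
    exact fun q hq => hq.1

theorem half_twist {K : Set N} {T : E → N} (hT : Chd K T) : Chd K (T ∘ rh) ∧ LEqN (kn K T) (kn K (T ∘ rh)) := by
  have e : rh = NHE.rt 1 := by
    funext q
    unfold rh NHE.rt
    rw [Int.cast_one]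
  rw [e]
  exact turns hT 1

end Pool.Agent.NHQ
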