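import Mathlib
import Pool.Agent.NHQ.Gkn
import Pool.Agent.NHQ.Hlf
import Pool.Agent.NHQ.Thn

/-!
# NHQ/Enz: normalisation of the ends of a chord with respect to a thick knot (difficulty 3, assembly)

`K = core κ`.  A relation `Eqv T T'` between chords of `K` with the same foot and tip points: `LEqN (kn K T) (kn K T')` and the cores `T (0, ·)`, `T' (0, ·)` represent the same classes.
It is transitive, and it holds in the following cases.
(1) `T' = T ∘ sy e f` (`chd_sy`, `kn_sy`; same core).  (2) `T' = T ∘ rh` (`half_twist`; `rh (0, x) = (0, x)`).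
(3) `T' = U 1 ∘ T` if `Push univ U`, `U s` preserves `K` and fixes the points `κ (p, 0)`, `κ (q, 0)`: `chd_img` (with `U 1 '' K = K`), `kn_img` and `LEqN.diff`; the cores are homotopic by `(s, x) ↦ U s (T (0, x))`, fixed ends.
(4) `T' = T ∘ Sc d h` (`thin_chord`).
PROOF.  `germ_knot` for `T` on `TD` at the point `κ (p, 0)`, with `W = {κ (q, 0)}ᶜ`: `U, e, f`; `U 1 (T q) = footT κ p 1 (sy e f q)` near `0` (hypothesis `hl`: points of `Ln ∩ TD` near `0` are in `TS`, `hit`).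
`T₁ = U 1 ∘ T ∘ sy e f`: `T₁ q = footT κ p 1 q` near `0`.  Tip: let `si (w, x) = (i w, 1 - x)`, a linear involution up to sign, `si 0 = (0, 1)`; `T₁ ∘ si` is a chart near `0` which maps `Ln` near `0` to `K` (tip strand).
`germ_knot` for `T₁ ∘ si` at `κ (q, 0)`, `W` = complement of a compact neighbourhood of `κ (p, 0)`, namely `W = (T₁ '' {q | nr q ≤ ρ²})ᶜ` with `ρ` small (so that `κ (q, 0) = T₁ (0, 1) ∉ T₁ '' ..`, closed because it is compact and `N` is T2): `U', e', f'`;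
`U' 1 (T₁ (si q)) = footT κ q 1 (sy e' f' q)` near `0`, i.e. for `(w, x)` near `(0, 1)`: `U' 1 (T₁ (w, x)) = κ (q + e' im w, ⟨1 - x, -f' re w⟩)` (`si⁻¹ (w, x) = (-i w, 1 - x)`).  `T₂ = U' 1 ∘ T₁`; near `0` still `T₂ = footT κ p 1`
(`U' s` is the identity on `T₁ '' {nr ≤ ρ²}`).  If `f' = -1`: near `(0, 1)` `T₂ = tipT κ q 1 e'`; put `T₃ = T₂`, `σ = e'`.  If `f' = 1`: `T₃ = T₂ ∘ rh`: near `(0, 1)` `rh (w, x) = (-w, x)`, `T₃ (w, x) = κ (q - e' im w, ⟨1 - x, re w⟩) = tipT κ q 1 (-e')`,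
and near `0` `rh = id`; `σ = -e'`.
Finally `T₄ = T₃ ∘ Sc d h` for small `d`: for `(w, x) ∈ TD`, `x < 1/4`: `Sc d h (w, x) = (d w, d x)` is near `0`, `T₄ (w, x) = footT κ p 1 (d w, d x) = footT κ p d (w, x)`; `x > 3/4`: `Sc d h (w, x) = (d w, 1 - d (1 - x))` is near `(0, 1)`:
`T₄ (w, x) = tipT κ q 1 σ (d w, 1 - d (1 - x)) = tipT κ q d σ (w, x)`.  `ε₀` = the bound for `d`.
-/

open scoped Manifold ContDiff Topology
open Set Filter CategoryTheory
open Pool.Agent.CSG (stp)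
open Pool.Agent.RSG (E3 ex Thick)
open Pool.Agent.KNT (bmp)
open Pool.Agent.NHP

namespace Pool.Agent.NHQ

variable {N : Type*} [TopologicalSpace N] [ChartedSpace E3 N] [IsManifold (𝓡 3) ∞ N] [T2Space N]

omit [ChartedSpace E3 N] [IsManifold (𝓡 3) ∞ N] [T2Space N] in
theorem enz_congr {x y : N} {f g : ℝ → N} {β : FundamentalGroupoid.mk x ⟶ FundamentalGroupoid.mk y}
    (h : PC f β) (hfg : ∀ t ∈ Icc (0 : ℝ) 1, f t = g t) : PC g β := by
  obtain ⟨c, hc, hb⟩ := h
  exact ⟨c, fun t => (hc t).trans (hfg t t.2), hb⟩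

omit [IsManifold (𝓡 3) ∞ N] [T2Space N] in
theorem enz_push {O : Set N} {V : ℝ → Equiv.Perm N} (hV : Push O V) {x y : N} (hx : ∀ s, V s x = x)
    (hy : ∀ s, V s y = y) {f : ℝ → N} {β : FundamentalGroupoid.mk x ⟶ FundamentalGroupoid.mk y}
    (h : PC f β) : PC (fun t => V 1 (f t)) β := by
  obtain ⟨c, hc, hb⟩ := h
  have hcont : Continuous (fun z : unitInterval × unitInterval => V z.1 (c z.2)) :=
    hV.cont.comp ((continuous_subtype_val.comp continuous_fst).prodMk (c.continuous.comp continuous_snd))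
  have hc' : Continuous (fun t : unitInterval => V 1 (c t)) := by
    have h1 : Continuous (fun t : unitInterval => ((1 : unitInterval), t)) := by fun_prop
    have h2 := hcont.comp h1
    exact h2
  let c' : Path x y :=
    { toFun := fun t => V 1 (c t)
      continuous_toFun := hc'
      source' := by rw [c.source, hx]
      target' := by rw [c.target, hy] }
  refine ⟨c', fun t => ?_, ?_⟩
  · change V 1 (c t) = V 1 (f t)
    rw [hc]
  · rw [← hb]
    symm
    refine Quotient.sound ⟨?_⟩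
    exact
      { toFun := fun z => V z.1 (c z.2)
        continuous_toFun := hcont
        map_zero_left := fun t => by
          change V 0 (c t) = c t
          rw [hV.zero]; rfl
        map_one_left := fun t => rfl
        prop' := fun s t ht => by
          rcases ht with ht | ht
          · subst ht
            change V s (c 0) = c 0
            rw [c.source, hx]
          · rw [Set.mem_singleton_iff] at ht
            subst ht
            change V s (c 1) = c 1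
            rw [c.target, hy] }

omit [TopologicalSpace N] [ChartedSpace E3 N] [IsManifold (𝓡 3) ∞ N] [T2Space N] in
theorem enz_image {K : Set N} {A : Equiv.Perm N} (h : ∀ y, A y ∈ K ↔ y ∈ K) : A '' K = K := by
  ext y
  constructor
  · rintro ⟨z, hz, rfl⟩
    exact (h z).2 hz
  · intro hy
    refine ⟨A.symm y, ?_, A.apply_symm_apply y⟩
    rw [← h, A.apply_symm_apply]
    exact hy

/-- the equivalence of chords -/
structure EnzEq (K : Set N) (x y : N) (T T' : E → N) : Prop where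
  chd : Chd K T'
  eqv : LEqN (kn K T) (kn K T')
  path : ∀ β : FundamentalGroupoid.mk x ⟶ FundamentalGroupoid.mk y,
    PC (fun t => T (0, t)) β → PC (fun t => T' (0, t)) β

omit [IsManifold (𝓡 3) ∞ N] [T2Space N] in
theorem EnzEq.enz_trans {K : Set N} {x y : N} {T T' T'' : E → N} (h : EnzEq K x y T T')
    (h' : EnzEq K x y T' T'') : EnzEq K x y T T'' :=
  ⟨h'.chd, h.eqv.trans h'.eqv, fun β hβ => h'.path β (h.path β hβ)⟩

omit [IsManifold (𝓡 3) ∞ N] [T2Space N] in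
theorem enz_pushEq {K : Set N} {x y : N} {T : E → N} (hT : Chd K T) {O : Set N} {V : ℝ → Equiv.Perm N}
    (hV : Push O V) (hx : ∀ s, V s x = x) (hy : ∀ s, V s y = y) (hK : ∀ s z, V s z ∈ K ↔ z ∈ K) :
    EnzEq K x y T (V 1 ∘ T) := by
  have e : V 1 '' K = K := enz_image (hK 1)
  refine ⟨?_, ?_, fun β hβ => enz_push hV hx hy hβ⟩
  · have := chd_img hT hV 1
    rwa [e] at this
  · have h1 : kn K (V 1 ∘ T) = V 1 '' kn K T := by
      have := kn_img (K := K) (T := T) (V 1)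
      rwa [e] at this
    rw [h1]
    exact LEqN.diff _ (hV.mono (subset_univ O))

theorem enz_sy0 (e f t : ℝ) : sy e f ((0 : ℂ), t) = (0, t) := by
  unfold sy
  refine Prod.ext (Complex.ext ?_ ?_) ?_ <;> simp

omit [IsManifold (𝓡 3) ∞ N] [T2Space N] in
theorem enz_sy {K : Set N} {x y : N} {T : E → N} (hT : Chd K T) {e f : ℝ} (he : e = 1 ∨ e = -1)
    (hf : f = 1 ∨ f = -1) : EnzEq K x y T (T ∘ sy e f) := by
  refine ⟨chd_sy hT he hf, ?_, fun β hβ => enz_congr hβ fun t _ => ?_⟩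
  · rw [kn_sy K T he hf]; exact LEqN.refl _
  · change T (0, t) = T (sy e f (0, t))
    rw [enz_sy0]

/-- exchange of the ends -/
noncomputable def enzsi (q : E) : E := (Complex.I * q.1, 1 - q.2)

theorem enz_si_fd (q : E) : HasFDerivAt enzsi
    ((Complex.I • (ContinuousLinearMap.fst ℝ ℂ ℝ)).prod (-(ContinuousLinearMap.snd ℝ ℂ ℝ))) q := by
  have h1 : HasFDerivAt (fun q : E => Complex.I * q.1) (Complex.I • (ContinuousLinearMap.fst ℝ ℂ ℝ)) q :=
    hasFDerivAt_fst.const_mul Complex.I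
  have h2 : HasFDerivAt (fun q : E => 1 - q.2) (-(ContinuousLinearMap.snd ℝ ℂ ℝ)) q :=
    hasFDerivAt_snd.const_sub 1
  exact h1.prodMk h2

theorem enz_si_smooth : ContDiff ℝ ∞ enzsi := by
  unfold enzsi
  fun_prop

theorem enz_si_bij (q : E) : Function.Bijective (fderiv ℝ enzsi q) := by
  rw [(enz_si_fd q).fderiv]
  constructor
  · rintro ⟨w, x⟩ ⟨w', x'⟩ h
    change (Complex.I * w, -x) = (Complex.I * w', -x') at h
    rw [Prod.mk.injEq] at h
    rw [mul_right_injective₀ Complex.I_ne_zero h.1, neg_injective h.2]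
  · rintro ⟨w, x⟩
    refine ⟨(-(Complex.I * w), -x), ?_⟩
    change (Complex.I * (-(Complex.I * w)), - -x) = (w, x)
    refine Prod.ext ?_ (neg_neg x)
    change Complex.I * (-(Complex.I * w)) = w
    rw [mul_neg, ← mul_assoc, Complex.I_mul_I]; ring

theorem enz_si_inj : Function.Injective enzsi := by
  rintro ⟨w, x⟩ ⟨w', x'⟩ h
  unfold enzsi at h
  rw [Prod.mk.injEq] at h
  have h2 : x = x' := by
    have := h.2
    simp only at this
    linarith
  have h3 : w = w' := mul_right_injective₀ Complex.I_ne_zero h.1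
  rw [h3, h2]

omit [IsManifold (𝓡 3) ∞ N] in
theorem enz_thin {κ : ℝ × ℂ → N} {x y : N} {T : E → N} (hT : Chd (core κ) T) :
    ∃ d₀ : ℝ, 0 < d₀ ∧ ∀ d : ℝ, 0 < d → d ≤ d₀ → ∃ h : ℝ → ℝ, Hei d h ∧
      EnzEq (core κ) x y T (T ∘ Sc d h) := by
  obtain ⟨d₀, hd₀, H⟩ := thin_chord hT isOpen_univ (fun _ _ => Set.mem_univ _)
  refine ⟨d₀, hd₀, fun d hd hdd => ?_⟩
  obtain ⟨h, hh, hc, -, -, ⟨V, hV, hVf⟩, hp⟩ := H d hd hdd
  refine ⟨h, hh, hc, ?_, fun β hβ => hp x y β hβ⟩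
  have e1 : kn (core κ) T = range (fing T ∘ fun l : ℝ => κ (l, 0)) := (range_fing hT).symm
  have e2 : kn (core κ) (T ∘ Sc d h) = range (fing (T ∘ Sc d h) ∘ fun l : ℝ => κ (l, 0)) :=
    (range_fing hc).symm
  have e3 : kn (core κ) (T ∘ Sc d h) = V 1 '' kn (core κ) T := by
    rw [e1, e2, ← Set.range_comp]
    congr 1
    funext l
    exact hVf _ ⟨l, rfl⟩
  rw [e3]
  exact LEqN.diff _ (hV.mono (subset_univ _))

theorem enz_zero : (0 : E) ∈ TD := by
  refine ⟨?_, ?_, ?_⟩ <;> norm_num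

theorem enz_one : (((0 : ℂ), (1 : ℝ)) : E) ∈ TD := by
  refine ⟨?_, ?_, ?_⟩ <;> norm_num

/-- first normalisation: the two germs are standard -/
theorem enz_germs {κ : ℝ × ℂ → N} (hκ : Thick κ) {T : E → N} (hT : Chd (core κ) T) {p q : ℝ}
    (hp : T (0, 0) = κ (p, 0)) (hq : T (0, 1) = κ (q, 0)) :
    ∃ (σ : ℝ) (T' : E → N), (σ = 1 ∨ σ = -1) ∧ EnzEq (core κ) (κ (p, 0)) (κ (q, 0)) T T' ∧
      (∀ᶠ z in 𝓝 (0 : E), T' z = footT κ p 1 z) ∧
      (∀ᶠ z in 𝓝 (((0 : ℂ), (1 : ℝ)) : E), T' z = tipT κ q 1 σ z) := by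
  have hTS : ∀ z, z ∈ TS → T z ∈ core κ := by
    intro z hz
    have h1 : T z ∈ T '' TS := ⟨z, hz, rfl⟩
    rw [← hT.hit] at h1
    exact h1.1
  have hne : κ (p, 0) ≠ κ (q, 0) := by
    intro h
    have h1 : T (0, 0) = T (0, 1) := by rw [hp, hq, h]
    have h2 := hT.cht.inj enz_zero enz_one h1
    rw [Prod.mk.injEq] at h2
    exact zero_ne_one h2.2
  have hTDn : TD ∈ 𝓝 (0 : E) := isOpen_TD.mem_nhds enz_zero
  have hl : ∀ᶠ z in 𝓝 (0 : E), z ∈ Ln → T z ∈ core κ := by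
    filter_upwards [hTDn] with z hz hz'
    exact hTS z ⟨hz, Or.inl ⟨hz'.2, hz'.1⟩⟩
  obtain ⟨U, e, f, he, hf, hU, hUp, hUK, hUg⟩ := germ_knot hκ hT.cht enz_zero hp hl
    (W := {κ (q, 0)}ᶜ) isOpen_compl_singleton hne
  have hUq : ∀ s, U s (κ (q, 0)) = κ (q, 0) := fun s => hU.out s (fun h => h rfl)
  have E1 : EnzEq (core κ) (κ (p, 0)) (κ (q, 0)) T (U 1 ∘ T) := enz_pushEq hT hU hUp hUq hUK
  have E2 : EnzEq (core κ) (κ (p, 0)) (κ (q, 0)) T ((U 1 ∘ T) ∘ sy e f) :=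
    E1.enz_trans (enz_sy E1.chd he hf)
  obtain ⟨T₁, hT₁⟩ : ∃ T₁, T₁ = (U 1 ∘ T) ∘ sy e f := ⟨_, rfl⟩
  rw [← hT₁] at E2
  have hsy0 : sy e f (0 : E) = 0 := enz_sy0 e f 0
  have hsy1 : sy e f ((0 : ℂ), (1 : ℝ)) = (0, 1) := enz_sy0 e f 1
  have g1 : ∀ᶠ z in 𝓝 (0 : E), T₁ z = footT κ p 1 z := by
    have h1 : Filter.Tendsto (sy e f) (𝓝 (0 : E)) (𝓝 (0 : E)) := by
      have := ((sy_smooth e f).continuous.tendsto (0 : E))
      rwa [hsy0] at this
    filter_upwards [h1.eventually hUg] with z hz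
    rw [hT₁]
    change U 1 (T (sy e f z)) = _
    rw [hz, sy_sy he hf]
  have hT₁0 : T₁ 0 = κ (p, 0) := by
    rw [hT₁]
    change U 1 (T (sy e f 0)) = _
    rw [hsy0]
    change U 1 (T (0, 0)) = _
    rw [hp, hUp]
  have hT₁1 : T₁ (0, 1) = κ (q, 0) := by
    rw [hT₁]
    change U 1 (T (sy e f (0, 1))) = _
    rw [hsy1, hq, hUq]
  have hT₁S : ∀ z, z ∈ TS → T₁ z ∈ core κ := by
    intro z hz
    have h1 : T₁ z ∈ T₁ '' TS := ⟨z, hz, rfl⟩
    rw [← E2.chd.hit] at h1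
    exact h1.1
  -- the compact neighbourhood of the foot point
  have hball : Metric.closedBall (0 : E) (1 / 8) ⊆ TD := by
    intro z hz
    rw [mem_closedBall_zero_iff] at hz
    have h1 : ‖z.1‖ ≤ 1 / 8 := (norm_fst_le z).trans hz
    have h2 : |z.2| ≤ 1 / 8 := (norm_snd_le z).trans hz
    have h3 := abs_le.1 h2
    exact ⟨by linarith, by linarith, by linarith⟩
  have hCc : IsCompact (T₁ '' Metric.closedBall (0 : E) (1 / 8)) :=
    (isCompact_closedBall _ _).image_of_continuousOn (E2.chd.cht.contOn.mono hball)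
  have hW₂ : IsOpen (T₁ '' Metric.closedBall (0 : E) (1 / 8))ᶜ := hCc.isClosed.isOpen_compl
  have hqW : κ (q, 0) ∈ (T₁ '' Metric.closedBall (0 : E) (1 / 8))ᶜ := by
    rintro ⟨z, hz, hz2⟩
    rw [← hT₁1] at hz2
    have h1 := E2.chd.cht.inj (hball hz) enz_one hz2
    rw [h1, mem_closedBall_zero_iff] at hz
    have h2 : ‖(1 : ℝ)‖ ≤ 1 / 8 := (norm_snd_le (((0 : ℂ), (1 : ℝ)) : E)).trans hz
    rw [norm_one] at h2
    norm_num at h2
  -- the tip
  have hO₂ : IsOpen (enzsi ⁻¹' TD) := isOpen_TD.preimage enz_si_smooth.continuous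
  have hsi0 : enzsi 0 = (0, 1) := by
    unfold enzsi
    ext <;> simp
  have h0O₂ : (0 : E) ∈ enzsi ⁻¹' TD := by
    change enzsi 0 ∈ TD
    rw [hsi0]; exact enz_one
  have hcht₂ : Cht (enzsi ⁻¹' TD) (fun z => T₁ (enzsi z)) :=
    E2.chd.cht.comp hO₂ (fun z _ => enz_si_smooth.contDiffAt) (fun z _ => enz_si_bij z)
      enz_si_inj.injOn (fun z hz => hz)
  have hl₂ : ∀ᶠ z in 𝓝 (0 : E), z ∈ Ln → (fun z => T₁ (enzsi z)) z ∈ core κ := by
    filter_upwards [hO₂.mem_nhds h0O₂] with z hz hz'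
    refine hT₁S _ ⟨hz, Or.inr ⟨?_, ?_⟩⟩
    · change 1 - z.2 = 1
      rw [hz'.2]; simp
    · change (Complex.I * z.1).re = 0
      rw [Complex.mul_re, Complex.I_re, Complex.I_im, hz'.1]; simp
  have h02 : (fun z => T₁ (enzsi z)) 0 = κ (q, 0) := by
    change T₁ (enzsi 0) = _
    rw [hsi0, hT₁1]
  obtain ⟨U', e', f', he', hf', hU', hUq', hUK', hUg'⟩ := germ_knot hκ hcht₂ h0O₂ h02 hl₂ hW₂ hqW
  have hpC : κ (p, 0) ∈ T₁ '' Metric.closedBall (0 : E) (1 / 8) :=
    ⟨0, Metric.mem_closedBall_self (by norm_num), hT₁0⟩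
  have hUp' : ∀ s, U' s (κ (p, 0)) = κ (p, 0) := fun s => hU'.out s (fun h => h hpC)
  have E3 : EnzEq (core κ) (κ (p, 0)) (κ (q, 0)) T (U' 1 ∘ T₁) :=
    E2.enz_trans (enz_pushEq E2.chd hU' hUp' hUq' hUK')
  obtain ⟨T₂, hT₂⟩ : ∃ T₂, T₂ = U' 1 ∘ T₁ := ⟨_, rfl⟩
  rw [← hT₂] at E3
  have g2 : ∀ᶠ z in 𝓝 (0 : E), T₂ z = footT κ p 1 z := by
    filter_upwards [g1, Metric.closedBall_mem_nhds (0 : E) (by norm_num : (0 : ℝ) < 1 / 8)] with z hz hz2
    rw [hT₂]
    change U' 1 (T₁ z) = _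
    rw [hU'.out 1 (fun h => h ⟨z, hz2, rfl⟩), hz]
  have g3 : ∀ᶠ z in 𝓝 (((0 : ℂ), (1 : ℝ)) : E),
      T₂ z = κ (q + e' * z.1.im, ⟨1 - z.2, -(f' * z.1.re)⟩) := by
    have h1 : Filter.Tendsto (fun z : E => ((-(Complex.I * z.1), 1 - z.2) : E))
        (𝓝 (((0 : ℂ), (1 : ℝ)) : E)) (𝓝 (0 : E)) := by
      have h2 : Continuous (fun z : E => ((-(Complex.I * z.1), 1 - z.2) : E)) := by fun_prop
      have h3 := h2.tendsto (((0 : ℂ), (1 : ℝ)) : E)
      have h4 : ((-(Complex.I * (0 : ℂ)), 1 - (1 : ℝ)) : E) = 0 := by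
        ext <;> simp
      simp only at h3
      rwa [h4] at h3
    filter_upwards [h1.eventually hUg'] with z hz
    have h2 : enzsi ((-(Complex.I * z.1), 1 - z.2) : E) = z := by
      unfold enzsi
      refine Prod.ext ?_ ?_
      · change Complex.I * (-(Complex.I * z.1)) = z.1
        rw [mul_neg, ← mul_assoc, Complex.I_mul_I]; ring
      · change 1 - (1 - z.2) = z.2
        ring
    rw [hT₂]
    simp only [h2] at hz
    change U' 1 (T₁ z) = _
    rw [hz]
    unfold footT sy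
    congr 2
    · simp
    · apply Complex.ext <;> simp
  rcases hf' with hf' | hf'
  · -- a half twist is needed
    have E4 : EnzEq (core κ) (κ (p, 0)) (κ (q, 0)) T (T₂ ∘ rh) := by
      have h1 := half_twist E3.chd
      refine E3.enz_trans ⟨h1.1, h1.2, fun β hβ => enz_congr hβ fun t _ => ?_⟩
      change T₂ (0, t) = T₂ (rh (0, t))
      unfold rh
      simp
    refine ⟨-e', T₂ ∘ rh, ?_, E4, ?_, ?_⟩
    · rcases he' with h | h
      · right; rw [h]
      · left; rw [h]; norm_num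
    · have h1 : {z : E | z.2 < 1 / 4} ∈ 𝓝 (0 : E) :=
        (isOpen_lt continuous_snd continuous_const).mem_nhds (by simp)
      filter_upwards [g2, h1] with z hz hz2
      have h2 : rh z = z := by
        unfold rh
        have h3 : stp (1 / 4) (3 / 4) z.2 = 0 := Pool.Agent.CSG.stp_zero (by norm_num) (le_of_lt hz2)
        rw [h3]
        simp [ex]
      change T₂ (rh z) = _
      rw [h2, hz]
    · have h1 : {z : E | 3 / 4 < z.2} ∈ 𝓝 (((0 : ℂ), (1 : ℝ)) : E) :=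
        (isOpen_lt continuous_const continuous_snd).mem_nhds (by norm_num)
      have hexh : ex (1 / 2 * 1) = -1 := by
        unfold ex
        rw [mul_one]
        have : ((2 * Real.pi * (1 / 2) : ℝ) : ℂ) * Complex.I = Real.pi * Complex.I := by
          push_cast; ring
        rw [this, Complex.exp_pi_mul_I]
      have h3 : Filter.Tendsto (fun z : E => ((-z.1, z.2) : E)) (𝓝 (((0 : ℂ), (1 : ℝ)) : E))
          (𝓝 (((0 : ℂ), (1 : ℝ)) : E)) := by
        have h2 : Continuous (fun z : E => ((-z.1, z.2) : E)) := by fun_prop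
        have h3 := h2.tendsto (((0 : ℂ), (1 : ℝ)) : E)
        simp only [neg_zero] at h3
        exact h3
      filter_upwards [h3.eventually g3, h1] with z hz hz2
      have h2 : rh z = (-z.1, z.2) := by
        unfold rh
        have h3 : stp (1 / 4) (3 / 4) z.2 = 1 := Pool.Agent.CSG.stp_one (by norm_num) (le_of_lt hz2)
        rw [h3, hexh]
        simp
      change T₂ (rh z) = _
      rw [h2, hz]
      unfold tipT
      rw [hf']
      congr 2
      · simp
      · apply Complex.ext <;> simp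
  · refine ⟨e', T₂, he', E3, g2, ?_⟩
    filter_upwards [g3] with z hz
    rw [hz]
    unfold tipT
    rw [hf']
    congr 2
    · simp
    · apply Complex.ext <;> simp

/-- every chord of the core of a thick knot can be replaced by a chord with standard ends, of any small size `ε` -/
theorem ends_std {κ : ℝ × ℂ → N} (hκ : Thick κ) {T : E → N} (hT : Chd (core κ) T) {p q : ℝ} (hp : T (0, 0) = κ (p, 0))
    (hq : T (0, 1) = κ (q, 0)) :
    ∃ ε₀ : ℝ, 0 < ε₀ ∧ ∀ ε : ℝ, 0 < ε → ε ≤ ε₀ → ∃ (σ : ℝ) (T' : E → N), (σ = 1 ∨ σ = -1) ∧ Chd (core κ) T' ∧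
      StdE κ p q ε σ T' ∧ LEqN (kn (core κ) T) (kn (core κ) T') ∧
      ∀ β : FundamentalGroupoid.mk (κ (p, 0)) ⟶ FundamentalGroupoid.mk (κ (q, 0)),
        PC (fun x => T (0, x)) β → PC (fun x => T' (0, x)) β := by
  obtain ⟨σ, T₃, hσ, E3, g1, g2⟩ := enz_germs hκ hT hp hq
  obtain ⟨d₀, hd₀, H⟩ := enz_thin (x := κ (p, 0)) (y := κ (q, 0)) E3.chd
  obtain ⟨r₁, hr₁, G1⟩ := Metric.eventually_nhds_iff.1 g1
  obtain ⟨r₂, hr₂, G2⟩ := Metric.eventually_nhds_iff.1 g2
  refine ⟨min d₀ (min (r₁ / 2) (r₂ / 2)), lt_min hd₀ (lt_min (by linarith) (by linarith)), ?_⟩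
  intro d hd hdd
  have hd1 : d ≤ d₀ := hdd.trans (min_le_left _ _)
  have hd2 : d ≤ r₁ / 2 := (hdd.trans (min_le_right _ _)).trans (min_le_left _ _)
  have hd3 : d ≤ r₂ / 2 := (hdd.trans (min_le_right _ _)).trans (min_le_right _ _)
  obtain ⟨h, hh, E4⟩ := H d hd hd1
  have E5 := E3.enz_trans E4
  refine ⟨σ, T₃ ∘ Sc d h, hσ, E5.chd, ⟨?_, ?_⟩, E5.eqv, E5.path⟩
  · rintro ⟨w, x⟩ ⟨hw, hx1, hx2⟩ hx3
    simp only at hw hx1 hx2 hx3
    have h1 : Sc d h (w, x) = ((d : ℂ) * w, d * x) := by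
      unfold Sc
      rw [hh.foot x hx3.le]
    change T₃ (Sc d h (w, x)) = _
    rw [h1, G1]
    · unfold footT
      congr 2
      · simp
      · apply Complex.ext <;> simp
    · rw [dist_zero_right]
      refine lt_of_le_of_lt (max_le (a := ‖(d : ℂ) * w‖) (b := ‖d * x‖) (c := d) ?_ ?_) (by linarith)
      · rw [norm_mul, Complex.norm_real, Real.norm_eq_abs, abs_of_pos hd]
        nlinarith [norm_nonneg w]
      · rw [norm_mul, Real.norm_eq_abs, Real.norm_eq_abs, abs_of_pos hd]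
        have h2 : |x| ≤ 1 := abs_le.2 ⟨by linarith, by linarith⟩
        nlinarith
  · rintro ⟨w, x⟩ ⟨hw, hx1, hx2⟩ hx3
    simp only at hw hx1 hx2 hx3
    have h1 : Sc d h (w, x) = ((d : ℂ) * w, 1 - d * (1 - x)) := by
      unfold Sc
      rw [hh.tip x hx3.le]
    change T₃ (Sc d h (w, x)) = _
    rw [h1, G2]
    · unfold tipT
      congr 2
      · simp; ring
      · apply Complex.ext <;> simp
    · rw [Prod.dist_eq]
      refine lt_of_le_of_lt (max_le (c := d) ?_ ?_) (by linarith)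
      · rw [dist_zero_right, norm_mul, Complex.norm_real, Real.norm_eq_abs, abs_of_pos hd]
        nlinarith [norm_nonneg w]
      · rw [Real.dist_eq]
        have e1 : 1 - d * (1 - x) - 1 = -(d * (1 - x)) := by ring
        simp only
        rw [e1, abs_neg, abs_mul, abs_of_pos hd]
        have h2 : |1 - x| ≤ 1 := abs_le.2 ⟨by linarith, by linarith⟩
        nlinarith

end Pool.Agent.NHQ
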