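import Mathlib
import Pool.Agent.NHP.Defs

/-!
# NHQ/AvA: cones over smooth arcs in `E = ℂ × ℝ` have dense complement (difficulty 2)

For fixed `i, j` the set `{p j + s • (f i t - p j) | s ∈ ℝ, t ∈ S i}` is the image of `univ ×ˢ S i ⊆ ℝ × ℝ` under a map which is smooth, hence locally Lipschitz, at its points: `dimH ≤ dimH (ℝ × ℝ) = 2`
(`dimH_image_le_of_locally_lipschitzOn`, `ContDiffAt.exists_lipschitzOnWith`, `Real.dimH_univ_eq_finrank` / `dimH_univ` of `ℝ × ℝ`; `dimH_mono`).  Countable union: `dimH_iUnion`, so `dimH ≤ 2 < 3 = finrank ℝ E`; the complement is dense: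
`dense_compl_of_dimH_lt_finrank`.
-/

open scoped Manifold ContDiff Topology
open Set Filter
open Pool.Agent.NHP

namespace Pool.Agent.NHQ

theorem ava_one {f : ℝ → E} {S : Set ℝ} (hf : ∀ t ∈ S, ContDiffAt ℝ ∞ f t) (p : E) :
    dimH ((fun z : ℝ × ℝ => p + z.1 • (f z.2 - p)) '' (univ ×ˢ S)) ≤ 2 := by
  have h1 : dimH ((fun z : ℝ × ℝ => p + z.1 • (f z.2 - p)) '' (univ ×ˢ S)) ≤
      dimH (univ ×ˢ S : Set (ℝ × ℝ)) := by
    apply dimH_image_le_of_locally_lipschitzOn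
    rintro ⟨s, t⟩ ⟨-, ht⟩
    have h2 : ContDiffAt ℝ ∞ (fun z : ℝ × ℝ => p + z.1 • (f z.2 - p)) (s, t) := by
      have h3 : ContDiffAt ℝ ∞ (fun z : ℝ × ℝ => f z.2) (s, t) :=
        ContDiffAt.comp (s, t) (hf t ht) contDiffAt_snd
      exact contDiffAt_const.add (contDiffAt_fst.smul (h3.sub contDiffAt_const))
    obtain ⟨K, U, hU, hK⟩ := (h2.of_le (by norm_num : (1 : WithTop ℕ∞) ≤ ∞)).exists_lipschitzOnWith
    exact ⟨K, U, mem_nhdsWithin_of_mem_nhds hU, hK⟩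
  refine h1.trans ?_
  refine (dimH_mono (subset_univ _)).trans ?_
  rw [Real.dimH_univ_eq_finrank]
  have : Module.finrank ℝ (ℝ × ℝ) = 2 := by simp
  rw [this]
  norm_num

theorem cone_dense {ι J : Type*} [Countable ι] [Countable J] {f : ι → ℝ → E} {S : ι → Set ℝ}
    (hf : ∀ i, ∀ t ∈ S i, ContDiffAt ℝ ∞ (f i) t) (p : J → E) :
    Dense {m : E | ∀ j i, ∀ t ∈ S i, ∀ s : ℝ, p j + s • (f i t - p j) ≠ m} := by
  have h1 : {m : E | ∀ j i, ∀ t ∈ S i, ∀ s : ℝ, p j + s • (f i t - p j) ≠ m} =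
      (⋃ j, ⋃ i, (fun z : ℝ × ℝ => p j + z.1 • (f i z.2 - p j)) '' (univ ×ˢ S i))ᶜ := by
    ext m
    simp only [mem_ofPred_eq, mem_compl_iff, mem_iUnion, not_exists]
    constructor
    · rintro h j i ⟨⟨s, t⟩, ⟨-, ht⟩, hm⟩
      exact h j i t ht s hm
    · intro h j i t ht s hm
      exact h j i ⟨(s, t), ⟨mem_univ _, ht⟩, hm⟩
  rw [h1]
  apply dense_compl_of_dimH_lt_finrank
  have h2 : Module.finrank ℝ E = 3 := by
    show Module.finrank ℝ (ℂ × ℝ) = 3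
    rw [Module.finrank_prod, Complex.finrank_real_complex, Module.finrank_self]
  rw [h2]
  refine lt_of_le_of_lt (b := 2) ?_ (by norm_num)
  rw [dimH_iUnion]
  refine iSup_le fun j => ?_
  rw [dimH_iUnion]
  exact iSup_le fun i => ava_one (hf i) (p j)

end Pool.Agent.NHQ
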