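import Mathlib
import Pool.Agent.NHQ.AvA
import Pool.Agent.NHQ.Defs
import Pool.Agent.NHP.Grp
import Pool.Agent.NHP.SmH

/-!
# NHQ/AvB: smooth arcs do not separate charts (difficulty 3)

`Arc A`: `A` is the image of a compact interval under a curve which is smooth near it.
`arc_core`: `f l = κ (l, 0)` on `[0, 1]` (`Thick.loc` gives smoothness, `Thick.per` the whole core).  `arc_chord`: `f x = T (0, x)`.  `Arc.compact`: image of a compact set under a map continuous on it.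
Let `β` be a chart on `ball 0 2`, `g` its inverse (`Cht.inv`), `A i = f i '' [a i, b i]`.  `S i = {t ∈ [a i, b i] | f i t ∈ β '' ball 0 2}`; `g ∘ f i` is smooth at the points of `S i` and `β⁻¹ (A i) ∩ ball 0 2 = (g ∘ f i) '' S i`.
`avoid_dense`: `W` open, `w ∈ W`: `exists_chart` at `w`; `β⁻¹ W ∩ ball 0 2` is open and contains `0`; `cone_dense` (with one point `p`, `s = 1`: `m ≠ g (f i t)`) gives `m` in it; `y = β m`.
`avoid_ball`: `y = β u`, `y' = β u'`, `u, u' ∈ ball 0 1`.  `cone_dense` with `p = ![u, u']` gives `m ∈ ball 0 1` off both cones.  The segment from `u` to `m`: if `u + s (m - u) = g (f i t)`, `t ∈ S i`, `0 < s ≤ 1`, then `m = u + s⁻¹ (g (f i t) - u)`, a point of the cone; `s = 0`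
is excluded since `u` is not on the arc.  Likewise `[m, u']`.  `c` = image under `β` of the two segments (in the convex ball).
-/

open scoped Manifold ContDiff Topology
open Set Filter CategoryTheory
open Pool.Agent.RSG (E3 ex Thick)
open Pool.Agent.KNT (bmp)
open Pool.Agent.NHP

namespace Pool.Agent.NHQ

variable {N : Type*} [TopologicalSpace N] [ChartedSpace E3 N]

/-- a smooth arc (not necessarily embedded) -/
def Arc (A : Set N) : Prop :=
  ∃ (f : ℝ → N) (a b : ℝ), a ≤ b ∧ (∀ t ∈ Icc a b, ContMDiffAt 𝓘(ℝ, ℝ) (𝓡 3) ∞ f t) ∧ A = f '' Icc a b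

theorem arc_core {κ : ℝ × ℂ → N} (hκ : Thick κ) : Arc (core κ) := by
  refine ⟨fun l => κ (l, 0), 0, 1, zero_le_one, ?_, ?_⟩
  · intro t _
    have h1 : ContMDiffAt 𝓘(ℝ, ℝ × ℂ) (𝓡 3) ∞ κ (t, 0) :=
      (hκ.loc t 0 (by simp)).contMDiffAt
    have h2 : ContMDiffAt 𝓘(ℝ, ℝ) 𝓘(ℝ, ℝ × ℂ) ∞ (fun l : ℝ => ((l, 0) : ℝ × ℂ)) t :=
      (contDiff_id.prodMk contDiff_const).contMDiff.contMDiffAt
    exact h1.comp t h2
  · have hper : Function.Periodic (fun l : ℝ => κ (l, 0)) 1 := fun l => hκ.per l 0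
    have := hper.image_Icc one_pos 0
    rw [zero_add] at this
    exact this.symm

theorem arc_chord {K : Set N} {T : E → N} (hT : Chd K T) : Arc ((fun x : ℝ => T (0, x)) '' Icc 0 1) := by
  refine ⟨fun x => T (0, x), 0, 1, zero_le_one, ?_, rfl⟩
  intro t ht
  have hm : ((0 : ℂ), t) ∈ TD := by
    refine ⟨?_, ?_, ?_⟩
    · show ‖(0 : ℂ)‖ < 1
      rw [norm_zero]
      exact one_pos
    · show -(1 / 4 : ℝ) < t
      linarith [ht.1]
    · show t < 5 / 4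
      linarith [ht.2]
  have h1 : ContMDiffAt 𝓘(ℝ, ℂ × ℝ) (𝓡 3) ∞ T (0, t) := (hT.cht.loc (0, t) hm).contMDiffAt
  have h2 : ContMDiffAt 𝓘(ℝ, ℝ) 𝓘(ℝ, ℂ × ℝ) ∞ (fun x : ℝ => ((0, x) : ℂ × ℝ)) t :=
    (contDiff_const.prodMk contDiff_id).contMDiff.contMDiffAt
  exact h1.comp t h2

theorem Arc.compact {A : Set N} (h : Arc A) : IsCompact A := by
  obtain ⟨f, a, b, _, hf, rfl⟩ := h
  exact isCompact_Icc.image_of_continuousOn fun t ht => (hf t ht).continuousAt.continuousWithinAt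

/-- the arcs in a chart -/
theorem avb_chart {ι : Type*} {f : ι → ℝ → N} {a b : ι → ℝ}
    (hf : ∀ i, ∀ t ∈ Icc (a i) (b i), ContMDiffAt 𝓘(ℝ, ℝ) (𝓡 3) ∞ (f i) t) {β : E → N} {g : N → E}
    (hg : ∀ x ∈ β '' Metric.ball 0 2, ContMDiffAt (𝓡 3) 𝓘(ℝ, ℂ × ℝ) ∞ g x) (i : ι) (t : ℝ)
    (ht : t ∈ {t | t ∈ Icc (a i) (b i) ∧ f i t ∈ β '' Metric.ball 0 2}) :
    ContDiffAt ℝ ∞ (fun t => g (f i t)) t := by
  have h1 : ContMDiffAt 𝓘(ℝ, ℝ) 𝓘(ℝ, ℂ × ℝ) ∞ (fun t => g (f i t)) t :=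
    (hg _ ht.2).comp t (hf i t ht.1)
  exact contMDiffAt_iff_contDiffAt.mp h1

theorem avoid_dense [IsManifold (𝓡 3) ∞ N] [T2Space N] {ι : Type*} [Finite ι] {A : ι → Set N} (hA : ∀ i, Arc (A i)) {W : Set N}
    (hW : IsOpen W) (hne : W.Nonempty) : ∃ y ∈ W, ∀ i, y ∉ A i := by
  obtain ⟨w, hw⟩ := hne
  obtain ⟨β, hβ, hβW, _⟩ := exists_chart hW hw
  obtain ⟨g, hgβ, hg⟩ := hβ.inv
  choose f a b hab hf hAe using hA
  have hd := cone_dense (J := Unit) (f := fun i t => g (f i t))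
    (S := fun i => {t | t ∈ Icc (a i) (b i) ∧ f i t ∈ β '' Metric.ball 0 2})
    (fun i t ht => avb_chart hf hg i t ht) (fun _ => (0 : E))
  obtain ⟨m, hm, hmb⟩ := hd.inter_open_nonempty (Metric.ball (0 : E) 2) Metric.isOpen_ball
    ⟨0, Metric.mem_ball_self two_pos⟩
  refine ⟨β m, hβW ⟨m, hm, rfl⟩, ?_⟩
  intro i hi
  rw [hAe i] at hi
  obtain ⟨t, ht, hte⟩ := hi
  apply hmb () i t ⟨ht, by rw [hte]; exact ⟨m, hm, rfl⟩⟩ 1
  show (0 : E) + (1 : ℝ) • (g (f i t) - 0) = m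
  rw [hte, hgβ m hm, sub_zero, one_smul, zero_add]

/-- a segment off the cone -/
theorem avb_seg {ι : Type*} {f : ι → ℝ → N} {a b : ι → ℝ} {β : E → N} {g : N → E}
    (hgβ : ∀ q ∈ Metric.ball (0 : E) 2, g (β q) = q) {u m : E} (hu : u ∈ Metric.ball (0 : E) 1)
    (hm : m ∈ Metric.ball (0 : E) 1) (huA : ∀ i, β u ∉ f i '' Icc (a i) (b i))
    (hmc : ∀ i, ∀ t ∈ {t | t ∈ Icc (a i) (b i) ∧ f i t ∈ β '' Metric.ball 0 2}, ∀ s : ℝ,
      u + s • (g (f i t) - u) ≠ m) :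
    ∃ γ : Path u m, ∀ t, γ t ∈ Metric.ball (0 : E) 1 ∧ ∀ i, β (γ t) ∉ f i '' Icc (a i) (b i) := by
  let γ : Path u m :=
    { toFun := fun t => u + (t : ℝ) • (m - u)
      continuous_toFun := continuous_const.add (continuous_subtype_val.smul continuous_const)
      source' := by simp
      target' := by simp }
  refine ⟨γ, fun t => ?_⟩
  have hγ : γ t = u + (t : ℝ) • (m - u) := rfl
  have hball : γ t ∈ Metric.ball (0 : E) 1 := by
    rw [hγ]
    exact (convex_ball (0 : E) 1).add_smul_sub_mem hu hm t.2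
  refine ⟨hball, ?_⟩
  rintro i ⟨t', ht', hte⟩
  have hb2 : γ t ∈ Metric.ball (0 : E) 2 := Metric.ball_subset_ball (by norm_num) hball
  have hgt : g (f i t') = γ t := by rw [hte, hgβ _ hb2]
  by_cases h0 : (t : ℝ) = 0
  · have : γ t = u := by rw [hγ, h0, zero_smul, add_zero]
    rw [this] at hte
    exact huA i ⟨t', ht', hte⟩
  · apply hmc i t' ⟨ht', by rw [hte]; exact ⟨_, hb2, rfl⟩⟩ (t : ℝ)⁻¹
    rw [hgt, hγ, add_sub_cancel_left, smul_smul, inv_mul_cancel₀ h0, one_smul, add_sub_cancel]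

theorem avoid_ball [IsManifold (𝓡 3) ∞ N] [T2Space N] {ι : Type*} [Finite ι] {A : ι → Set N} (hA : ∀ i, Arc (A i)) {β : E → N}
    (hβ : Cht (Metric.ball 0 2) β) {y y' : N} (hy : y ∈ β '' Metric.ball 0 1) (hy' : y' ∈ β '' Metric.ball 0 1)
    (hyA : ∀ i, y ∉ A i) (hyA' : ∀ i, y' ∉ A i) :
    ∃ c : Path y y', (∀ t, c t ∈ β '' Metric.ball 0 1) ∧ ∀ t i, c t ∉ A i := by
  obtain ⟨u, hu, rfl⟩ := hy
  obtain ⟨u', hu', rfl⟩ := hy'
  obtain ⟨g, hgβ, hg⟩ := hβ.inv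
  choose f a b hab hf hAe using hA
  have hd := cone_dense (J := Bool) (f := fun i t => g (f i t))
    (S := fun i => {t | t ∈ Icc (a i) (b i) ∧ f i t ∈ β '' Metric.ball 0 2})
    (fun i t ht => avb_chart hf hg i t ht) (fun j => if j then u else u')
  obtain ⟨m, hm, hmb⟩ := hd.inter_open_nonempty (Metric.ball (0 : E) 1) Metric.isOpen_ball
    ⟨0, Metric.mem_ball_self one_pos⟩
  obtain ⟨γ₁, h₁⟩ := avb_seg (f := f) (a := a) (b := b) hgβ hu hm (fun i => by rw [← hAe i]; exact hyA i)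
    (fun i t ht s => hmb true i t ht s)
  obtain ⟨γ₂, h₂⟩ := avb_seg (f := f) (a := a) (b := b) hgβ hu' hm (fun i => by rw [← hAe i]; exact hyA' i)
    (fun i t ht s => hmb false i t ht s)
  have hr : ∀ t, (γ₁.trans γ₂.symm) t ∈ Metric.ball (0 : E) 1 ∧
      ∀ i, β ((γ₁.trans γ₂.symm) t) ∉ f i '' Icc (a i) (b i) := by
    intro t
    have h3 : (γ₁.trans γ₂.symm) t ∈ range γ₁ ∪ range γ₂ := by
      have : (γ₁.trans γ₂.symm) t ∈ range (γ₁.trans γ₂.symm) := mem_range_self t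
      rw [Path.trans_range, Path.symm_range] at this
      exact this
    rcases h3 with ⟨s, hs⟩ | ⟨s, hs⟩
    · rw [← hs]
      exact h₁ s
    · rw [← hs]
      exact h₂ s
  have hcont : ContinuousOn β (range (γ₁.trans γ₂.symm)) := by
    apply hβ.contOn.mono
    rintro x ⟨t, rfl⟩
    exact Metric.ball_subset_ball (by norm_num) (hr t).1
  refine ⟨(γ₁.trans γ₂.symm).map' hcont, ?_, ?_⟩
  · intro t
    exact ⟨(γ₁.trans γ₂.symm) t, (hr t).1, rfl⟩
  · intro t i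
    rw [hAe i]
    exact (hr t).2 i

end Pool.Agent.NHQ
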