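import Mathlib
import Pool.Agent.NHQ.Thn
import Pool.Agent.NHQ.Sg
import Pool.Agent.NHE.Defs
import Pool.Agent.NHE.Thn

/-!
# NHQ/Stt: chords with standard thin ends (`StdR`, block E) and chords with standard ends (`StdE`) (difficulty 3)
-/

open scoped Manifold ContDiff Topology
open Set Filter CategoryTheory
open Pool.Agent.CSG (stp)
open Pool.Agent.RSG (E3 ex Thick)
open Pool.Agent.KNT (bmp)
open Pool.Agent.NHP
open Pool.Agent.NHE (StdR)

namespace Pool.Agent.NHQ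

variable {N : Type*} [TopologicalSpace N] [ChartedSpace E3 N] [T2Space N]

omit [TopologicalSpace N] [ChartedSpace E3 N] [T2Space N] in
theorem stt_foot (κ : ℝ × ℂ → N) {p ε₁ ε r e d : ℝ} (hre : r * e = d) (hd : ε₁ * d = ε) (w : ℂ) (x : ℝ) :
    footT κ p ε₁ ((r : ℂ) * ((e : ℂ) * w), d * x) = footT κ p ε (w, x) := by
  have e1 : (r : ℂ) * ((e : ℂ) * w) = (d : ℂ) * w := by
    rw [← mul_assoc, ← Complex.ofReal_mul, hre]
  unfold footT
  rw [e1]
  congr 1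
  refine Prod.ext ?_ ?_
  · show p + ε₁ * ((d : ℂ) * w).re = p + ε * w.re
    rw [Complex.re_ofReal_mul, ← hd]
    ring
  · show (ε₁ : ℂ) * ⟨d * x, ((d : ℂ) * w).im⟩ = (ε : ℂ) * ⟨x, w.im⟩
    rw [Complex.im_ofReal_mul, ← hd]
    apply Complex.ext
    · rw [Complex.re_ofReal_mul, Complex.re_ofReal_mul]
      show ε₁ * (d * x) = ε₁ * d * x
      ring
    · rw [Complex.im_ofReal_mul, Complex.im_ofReal_mul]
      show ε₁ * (d * w.im) = ε₁ * d * w.im
      ring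

omit [TopologicalSpace N] [ChartedSpace E3 N] [T2Space N] in
theorem stt_tip (κ : ℝ × ℂ → N) {p ε₁ ε r e d σ : ℝ} (hre : r * e = d) (hd : ε₁ * d = ε) (w : ℂ) (x : ℝ) :
    tipT κ p ε₁ σ ((r : ℂ) * ((e : ℂ) * w), 1 - d * (1 - x)) = tipT κ p ε σ (w, x) := by
  have e1 : (r : ℂ) * ((e : ℂ) * w) = (d : ℂ) * w := by
    rw [← mul_assoc, ← Complex.ofReal_mul, hre]
  unfold tipT
  rw [e1]
  congr 1
  refine Prod.ext ?_ ?_
  · show p + σ * ε₁ * ((d : ℂ) * w).im = p + σ * ε * w.im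
    rw [Complex.im_ofReal_mul, ← hd]
    ring
  · show (ε₁ : ℂ) * ⟨1 - (1 - d * (1 - x)), ((d : ℂ) * w).re⟩ = (ε : ℂ) * ⟨1 - x, w.re⟩
    rw [Complex.re_ofReal_mul, ← hd]
    apply Complex.ext
    · rw [Complex.re_ofReal_mul, Complex.re_ofReal_mul]
      show ε₁ * (1 - (1 - d * (1 - x))) = ε₁ * d * (1 - x)
      ring
    · rw [Complex.im_ofReal_mul, Complex.im_ofReal_mul]
      show ε₁ * (d * w.re) = ε₁ * d * w.re
      ring

theorem std_thin {κ : ℝ × ℂ → N} {p p' ε₁ σ r : ℝ} {T₁ : E → N} (hT : Chd (core κ) T₁) (hs : StdR κ p p' ε₁ σ r T₁)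
    (h1 : 0 < ε₁) {ε : ℝ} (h0 : 0 < ε) (hε : ε ≤ r * ε₁) :
    ∃ T : E → N, Chd (core κ) T ∧ StdE κ p p' ε σ T ∧ LEqN (kn (core κ) T₁) (kn (core κ) T) ∧ T '' TD ⊆ T₁ '' TD ∧
      (∀ t ∈ Icc (0 : ℝ) 1, ∃ t' ∈ Icc (0 : ℝ) 1, T (0, t) = T₁ (0, t')) ∧
      ∀ (x y : N) (β : FundamentalGroupoid.mk x ⟶ FundamentalGroupoid.mk y),
        PC (fun t => T₁ (0, t)) β → PC (fun t => T (0, t)) β := by
  have hr := hs.pos
  have hr8 := hs.le
  set d : ℝ := ε / ε₁ with hdef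
  set e : ℝ := ε / (r * ε₁) with hedef
  have hd : 0 < d := div_pos h0 h1
  have hdr : d ≤ r := by
    rw [hdef, div_le_iff₀ h1]
    exact hε
  have hd8 : d ≤ 1 / 8 := hdr.trans hr8
  have he : 0 < e := div_pos h0 (mul_pos hr h1)
  have he1 : e ≤ 1 := by
    rw [hedef, div_le_one (mul_pos hr h1)]
    exact hε
  have hre : r * e = d := by
    rw [hedef, hdef]
    field_simp
  have hεd : ε₁ * d = ε := by
    rw [hdef]
    field_simp
  obtain ⟨h, H⟩ := exists_Hei hd (by linarith)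
  obtain ⟨hC, hL⟩ := NHE.chd_repar hT he he1 H.smooth H.pos H.zero H.one
    (by rw [H.foot _ (by norm_num)]; linarith) (by rw [H.tip _ (by norm_num)]; linarith)
  have hmem : ∀ q ∈ TD, (((e : ℂ) * q.1, h q.2) : E) ∈ TD := by
    rintro q ⟨a1, a2, a3⟩
    refine ⟨?_, ?_, ?_⟩
    · show ‖(e : ℂ) * q.1‖ < 1
      rw [norm_mul, Complex.norm_real, Real.norm_eq_abs, abs_of_pos he]
      calc e * ‖q.1‖ ≤ 1 * ‖q.1‖ := mul_le_mul_of_nonneg_right he1 (norm_nonneg _)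
        _ < 1 := by rw [one_mul]; exact a1
    · show -(1 / 4) < h q.2
      have := H.low a2
      linarith
    · show h q.2 < 5 / 4
      have := H.up a3
      linarith
  have hIcc : ∀ t ∈ Icc (0 : ℝ) 1, h t ∈ Icc (0 : ℝ) 1 := by
    intro t ht
    have b1 := H.mono.monotone ht.1
    have b2 := H.mono.monotone ht.2
    rw [H.zero] at b1
    rw [H.one] at b2
    exact ⟨b1, b2⟩
  refine ⟨fun q => T₁ ((e : ℂ) * q.1, h q.2), hC, ⟨?_, ?_⟩, hL, ?_, ?_, ?_⟩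
  · rintro ⟨w, x⟩ hq hx
    have hx' : x < 1 / 4 := hx
    have b1 : h x = d * x := H.foot x hx'.le
    have b2 : h x < 1 / 4 := by
      rw [b1]
      nlinarith
    have b3 := hs.foot ((e : ℂ) * w, h x) (hmem _ hq) b2
    show T₁ ((e : ℂ) * w, h x) = _
    rw [b3]
    show footT κ p ε₁ ((r : ℂ) * ((e : ℂ) * w), h x) = _
    rw [b1]
    exact stt_foot κ hre hεd w x
  · rintro ⟨w, x⟩ hq hx
    have hx' : 3 / 4 < x := hx
    have b1 : h x = 1 - d * (1 - x) := H.tip x hx'.le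
    have b2 : 3 / 4 < h x := by
      rw [b1]
      nlinarith
    have b3 := hs.tip ((e : ℂ) * w, h x) (hmem _ hq) b2
    show T₁ ((e : ℂ) * w, h x) = _
    rw [b3]
    show tipT κ p' ε₁ σ ((r : ℂ) * ((e : ℂ) * w), h x) = _
    rw [b1]
    exact stt_tip κ hre hεd w x
  · rintro _ ⟨q, hq, rfl⟩
    exact ⟨_, hmem q hq, rfl⟩
  · intro t ht
    refine ⟨h t, hIcc t ht, ?_⟩
    show T₁ ((e : ℂ) * 0, h t) = _
    rw [mul_zero]
  · intro x y β hβ
    have hcont : ContinuousOn (fun t : ℝ => T₁ (0, t)) (Icc 0 1) := by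
      refine hT.cht.contOn.comp (by fun_prop) ?_
      intro t ht
      refine ⟨?_, ?_, ?_⟩
      · show ‖(0 : ℂ)‖ < 1
        simp
      · show -(1 / 4) < t
        linarith [ht.1]
      · show t < 5 / 4
        linarith [ht.2]
    have b1 := PC.convex (C := Icc (0 : ℝ) 1) (convex_Icc 0 1) (F := fun t : ℝ => T₁ (0, t)) hcont
      (u := fun t => t) (v := h) continuousOn_id H.smooth.continuous.continuousOn (fun t ht => ht)
      hIcc H.zero.symm H.one.symm hβ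
    refine b1.congr (fun t _ => ?_)
    show T₁ ((e : ℂ) * 0, h t) = T₁ (0, h t)
    rw [mul_zero]

theorem std_fat {κ : ℝ × ℂ → N} {p p' ε σ : ℝ} (hσ : σ = 1 ∨ σ = -1) {T₁ : E → N} (hT : Chd (core κ) T₁)
    (hs : StdE κ p p' ε σ T₁) :
    Chd (core κ) (fun q => T₁ ((1 / 8 : ℂ) * q.1, q.2)) ∧ StdR κ p p' ε σ (1 / 8) (fun q => T₁ ((1 / 8 : ℂ) * q.1, q.2)) ∧
      LEqN (kn (core κ) T₁) (kn (core κ) fun q => T₁ ((1 / 8 : ℂ) * q.1, q.2)) := by
  have e8 : (((1 / 8 : ℝ)) : ℂ) = 1 / 8 := by norm_num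
  have key := NHE.chd_thin hT (e := 1 / 8) (by norm_num) (by norm_num)
  rw [e8] at key
  have hmem : ∀ q ∈ TD, (((1 / 8 : ℂ) * q.1, q.2) : E) ∈ TD := by
    rintro q ⟨a1, a2, a3⟩
    refine ⟨?_, a2, a3⟩
    show ‖(1 / 8 : ℂ) * q.1‖ < 1
    rw [← e8, norm_mul, Complex.norm_real, Real.norm_eq_abs, abs_of_pos (by norm_num)]
    have := norm_nonneg q.1
    linarith
  refine ⟨key.1, ⟨hσ, by norm_num, le_rfl, ?_, ?_⟩, key.2⟩
  · intro q hq hx
    rw [e8]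
    exact hs.foot _ (hmem q hq) hx
  · intro q hq hx
    rw [e8]
    exact hs.tip _ (hmem q hq) hx

end Pool.Agent.NHQ
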