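import Mathlib
import Pool.Agent.NHX.Ext
import Pool.Agent.NHR.Mainp
import Pool.Agent.NHR.Grp
import Pool.Agent.NHQ.Cnj
import Pool.Agent.NHT.AlgE
import Pool.Agent.NHT.T1G

/-!
# NHQ/Ker: chords with the same ends, homotopic in `N`, give equivalent knots (difficulty 3, assembly of T1, block R, algebra)

WLOG `p < q < p + 1`: `Adm p q ε` says that `q - p` is not an integer; `n = ⌊q - p⌋`, `q' = q - n`, `p < q' < p + 1`; `κ (q + t, v) = κ (q' + t, v)` for all `t, v` (`thick_int`: `Thick.per`), so the hypotheses hold for `q'` (`tipT κ q ε σ = tipT κ q' ε σ`, `κ (q, 0) = κ (q', 0)`: transport `β`).  `σ₁ = σ₂ = 1` by `hO`.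
`ext_of_ori hO : Ext N`, `exists_GHom (NHT.pcn hκ)`: `Γ, G, hG`; `m = G.val (mer κ p (1/2))`, `l = G.val (fun t => κ (p + t, 1/2))`; `relationsP` gives `L`; `T1c` gives the generation; `l * m = m * l` (helper75: T1b; or from the square `(s, t) ↦ κ (p + s, (1/2) ex t)`: both sides are the value of a path homotopic to its diagonal);
`AlgE_main m l L` : `normalClosure {m} ≤ L`.
`FinE κ p q' 1 ε T_i`: `pos, le` (`η = 1`), `adm`, `chd`, `std`: `kap κ 1 = κ` (`(1 : ℂ) * v = v`).  `c_i = clV G κ p q' 1 ε T_i = u * G.val (cor T_i) * v` with `u, v` the values of the two radial segments; so `FinV G κ p q' c_i T_i`.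
`c₁ * c₂⁻¹ = u * (G.val (cor T₁) * (G.val (cor T₂))⁻¹) * u⁻¹`.  The paths `cor T_i` (`t ↦ T_i (0, 1/8 + 3/4 t)`) lie in `(core κ)ᶜ` (`NHR.cor_path`), they have the same ends (`cor_ends`), and they are homotopic in `N`:
`PC (T_i (0, ·)) β`, and the classes of `T_i (0, ·)` on `[0, 1/8]` and on `[7/8, 1]` are the same for `i = 1, 2` (the functions are equal there: `T_i (0, x) = κ (p, ε x)`, resp. `κ (q', ε (1 - x))`); `PC.add` gives `φ ≫ γ_i ≫ ψ = β`, so `γ₁ = γ₂`, and `Hmt univ (cor T₁) (cor T₂)` (from the homotopy of paths: `cl_exact`, extend by `projIcc`; `NHT.hmt_of_homotopic` with `Y = univ`).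
`T1a`: `G.val (cor T₁) * (G.val (cor T₂))⁻¹ ∈ normalClosure {m}`.  So `c₁ * c₂⁻¹ ∈ L`, i.e. `∈ Lset G κ p q'`; with `g = c₁ * c₂⁻¹`, `c = c₂`: `FinV G κ p q' (g * c₂) T₁` and `FinV G κ p q' c₂ T₂` give `LEqN`.
-/

open scoped Manifold ContDiff Topology
open Set Filter CategoryTheory
open Pool.Agent.RSG (E3 ex Thick)
open Pool.Agent.KNT (bmp)
open Pool.Agent.NHP
open Pool.Agent.NHR (PathOn Hmt cat rv seg mer GHom Full Lset FinE FinV clV kap cor)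

universe u

namespace Pool.Agent.NHQ

variable {N : Type u} [TopologicalSpace N] [ChartedSpace E3 N] [IsManifold (𝓡 3) ∞ N] [T2Space N] [ConnectedSpace N]

/-- functions of the same class are homotopic in `N` -/
theorem ker_hmt {M : Type u} [TopologicalSpace M] {x y : M} {f g : ℝ → M} {γ : FundamentalGroupoid.mk x ⟶ FundamentalGroupoid.mk y}
    (hf : PC f γ) (hg : PC g γ) : Hmt univ f g := by
  have f0 := hf.zero
  have f1 := hf.one
  obtain ⟨c, hc, h1⟩ := hf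
  obtain ⟨d, hd, h2⟩ := hg
  obtain ⟨F⟩ : c.Homotopic d := cl_exact (h1.trans h2.symm)
  have p0 : projIcc (0 : ℝ) 1 zero_le_one 0 = (0 : unitInterval) := by rw [projIcc_left]; rfl
  have p1 : projIcc (0 : ℝ) 1 zero_le_one 1 = (1 : unitInterval) := by rw [projIcc_right]; rfl
  refine ⟨fun q => F (projIcc 0 1 zero_le_one q.1, projIcc 0 1 zero_le_one q.2), ?_, fun _ _ => mem_univ _,
    fun t ht => ⟨?_, ?_⟩, fun t ht => ⟨?_, ?_⟩⟩
  · exact (F.continuous.comp ((continuous_projIcc.comp continuous_fst).prodMk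
      (continuous_projIcc.comp continuous_snd))).continuousOn
  · change F (projIcc 0 1 zero_le_one 0, projIcc 0 1 zero_le_one t) = _
    rw [p0, F.apply_zero]
    change c (projIcc 0 1 zero_le_one t) = f t
    rw [hc, projIcc_of_mem _ ht]
  · change F (projIcc 0 1 zero_le_one 1, projIcc 0 1 zero_le_one t) = _
    rw [p1, F.apply_one]
    change d (projIcc 0 1 zero_le_one t) = g t
    rw [hd, projIcc_of_mem _ ht]
  · change F (projIcc 0 1 zero_le_one t, projIcc 0 1 zero_le_one 0) = _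
    rw [p0, Path.Homotopy.source, f0]
  · change F (projIcc 0 1 zero_le_one t, projIcc 0 1 zero_le_one 1) = _
    rw [p1, Path.Homotopy.target, f1]

omit [IsManifold (𝓡 3) ∞ N] [T2Space N] [ConnectedSpace N] in
/-- the points of the core of a chord -/
theorem ker_cont {K : Set N} {T : E → N} (h : Chd K T) : ContinuousOn (fun x : ℝ => T (0, x)) (Ioo (-(1 / 4)) (5 / 4)) := by
  intro x hx
  have hx' : ((0 : ℂ), x) ∈ TD := ⟨by simp, hx.1, hx.2⟩
  have h1 : ContinuousAt T (0, x) := (h.cht.loc _ hx').contMDiffAt.continuousAt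
  have h2 : ContinuousAt (fun x : ℝ => ((0 : ℂ), x)) x := by fun_prop
  exact (ContinuousAt.comp (f := fun x : ℝ => ((0 : ℂ), x)) (g := T) h1 h2).continuousWithinAt

omit [IsManifold (𝓡 3) ∞ N] [T2Space N] [ConnectedSpace N] in
/-- the cores of two chords with the same ends and the same class are homotopic -/
theorem ker_cor {K : Set N} {T₁ T₂ : E → N} (h₁ : Chd K T₁) (h₂ : Chd K T₂)
    (hf : ∀ x : ℝ, -(1 / 4) < x → x < 1 / 4 → T₁ (0, x) = T₂ (0, x))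
    (ht : ∀ x : ℝ, 3 / 4 < x → x < 5 / 4 → T₁ (0, x) = T₂ (0, x))
    {x y : N} {β : FundamentalGroupoid.mk x ⟶ FundamentalGroupoid.mk y}
    (b₁ : PC (fun t => T₁ (0, t)) β) (b₂ : PC (fun t => T₂ (0, t)) β) : Hmt univ (cor T₁) (cor T₂) := by
  have hC : Convex ℝ (Ioo (-(1 / 4) : ℝ) (5 / 4)) := convex_Ioo _ _
  have m0 : (0 : ℝ) ∈ Ioo (-(1 / 4) : ℝ) (5 / 4) := by constructor <;> norm_num
  have m1 : (1 / 8 : ℝ) ∈ Ioo (-(1 / 4) : ℝ) (5 / 4) := by constructor <;> norm_num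
  have m2 : (7 / 8 : ℝ) ∈ Ioo (-(1 / 4) : ℝ) (5 / 4) := by constructor <;> norm_num
  have m3 : (1 : ℝ) ∈ Ioo (-(1 / 4) : ℝ) (5 / 4) := by constructor <;> norm_num
  have hsub : ∀ a b : ℝ, a ∈ Ioo (-(1 / 4) : ℝ) (5 / 4) → b ∈ Ioo (-(1 / 4) : ℝ) (5 / 4) → ∀ t ∈ Icc (0 : ℝ) 1,
      a + (b - a) * t ∈ Ioo (-(1 / 4) : ℝ) (5 / 4) := by
    intro a b ha hb t ht
    have := hC ha hb (by linarith [ht.2] : (0 : ℝ) ≤ 1 - t) ht.1 (by ring)
    have e : (1 - t) • a + t • b = a + (b - a) * t := by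
      simp only [smul_eq_mul]; ring
    rwa [e] at this
  have hex : ∀ {T : E → N}, Chd K T → ∀ a b : ℝ, a ∈ Ioo (-(1 / 4) : ℝ) (5 / 4) → b ∈ Ioo (-(1 / 4) : ℝ) (5 / 4) →
      ∀ {u v : N}, T (0, a) = u → T (0, b) = v →
      ∃ γ : FundamentalGroupoid.mk u ⟶ FundamentalGroupoid.mk v, PC (fun t => (fun z : ℝ => T (0, z)) (a + (b - a) * t)) γ := by
    intro T hT a b ha hb u v hu hv
    refine exists_PC ?_ ?_ ?_
    · refine (ker_cont hT).comp (by fun_prop) (fun t ht => hsub a b ha hb t ht)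
    · change T (0, a + (b - a) * 0) = u
      rw [← hu]; congr 2; ring
    · change T (0, a + (b - a) * 1) = v
      rw [← hv]; congr 2; ring
  have z0 := b₁.zero
  have z1 := b₁.one
  have e1 := hf (1 / 8) (by norm_num) (by norm_num)
  have e2 := ht (7 / 8) (by norm_num) (by norm_num)
  obtain ⟨φ, hφ⟩ := hex h₁ 0 (1 / 8) m0 m1 (u := x) (v := T₁ (0, 1 / 8)) z0 rfl
  obtain ⟨γ₁, hγ₁⟩ := hex h₁ (1 / 8) (7 / 8) m1 m2 (u := T₁ (0, 1 / 8)) (v := T₁ (0, 7 / 8)) rfl rfl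
  obtain ⟨γ₂, hγ₂⟩ := hex h₂ (1 / 8) (7 / 8) m1 m2 (u := T₁ (0, 1 / 8)) (v := T₁ (0, 7 / 8)) e1.symm e2.symm
  obtain ⟨ψ, hψ⟩ := hex h₁ (7 / 8) 1 m2 m3 (u := T₁ (0, 7 / 8)) (v := y) rfl z1
  have hφ' : PC (fun t => (fun z : ℝ => T₂ (0, z)) (0 + (1 / 8 - 0) * t)) φ := by
    refine hφ.congr (fun t ht' => ?_)
    change T₂ (0, 0 + (1 / 8 - 0) * t) = T₁ (0, 0 + (1 / 8 - 0) * t)
    exact (hf _ (by linarith [ht'.1]) (by linarith [ht'.2])).symm
  have hψ' : PC (fun t => (fun z : ℝ => T₂ (0, z)) (7 / 8 + (1 - 7 / 8) * t)) ψ := by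
    refine hψ.congr (fun t ht' => ?_)
    change T₂ (0, 7 / 8 + (1 - 7 / 8) * t) = T₁ (0, 7 / 8 + (1 - 7 / 8) * t)
    exact (ht _ (by linarith [ht'.1]) (by linarith [ht'.2])).symm
  have k1 := PC.add hC (ker_cont h₁) m0 m2 m3 (PC.add hC (ker_cont h₁) m0 m1 m2 hφ hγ₁) hψ
  have k2 := PC.add hC (ker_cont h₂) m0 m2 m3 (PC.add hC (ker_cont h₂) m0 m1 m2 hφ' hγ₂) hψ'
  have l1 : (φ ≫ γ₁) ≫ ψ = β := k1.unique (b₁.congr (fun t _ => by
    congr 2; ring))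
  have l2 : (φ ≫ γ₂) ≫ ψ = β := k2.unique (b₂.congr (fun t _ => by
    congr 2; ring))
  have l3 : γ₁ = γ₂ := by
    have h3 := l1.trans l2.symm
    rw [cancel_mono, cancel_epi] at h3
    exact h3
  subst l3
  refine ker_hmt (hγ₁.congr (fun t _ => ?_)) (hγ₂.congr (fun t _ => ?_))
  · change T₁ (0, 1 / 8 + 3 / 4 * t) = T₁ (0, 1 / 8 + (7 / 8 - 1 / 8) * t)
    congr 2; ring
  · change T₂ (0, 1 / 8 + 3 / 4 * t) = T₂ (0, 1 / 8 + (7 / 8 - 1 / 8) * t)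
    congr 2; ring

omit [IsManifold (𝓡 3) ∞ N] [T2Space N] [ConnectedSpace N] in
/-- meridian and longitude commute -/
theorem ker_comm {κ : ℝ × ℂ → N} (hκ : Thick κ) {Γ : Type*} [Group Γ] (G : GHom (core κ)ᶜ Γ) (p : ℝ) :
    G.val (fun t => κ (p + t, ((1 / 2 : ℝ) : ℂ))) * G.val (mer κ p (1 / 2)) =
      G.val (mer κ p (1 / 2)) * G.val (fun t => κ (p + t, ((1 / 2 : ℝ) : ℂ))) := by
  let F : ℝ × ℝ → N := fun q => κ (p + q.1, ((1 / 2 : ℝ) : ℂ) * ex q.2)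
  have hex1 : ∀ y : ℝ, ‖ex y‖ = 1 := by
    intro y
    unfold ex
    exact Complex.norm_exp_ofReal_mul_I _
  have hn : ∀ y : ℝ, ‖((1 / 2 : ℝ) : ℂ) * ex y‖ = 1 / 2 := by
    intro y
    rw [norm_mul, hex1, Complex.norm_real]
    norm_num
  have hexc : Continuous ex := by
    unfold ex
    fun_prop
  have hFc : ContinuousOn F univ := by
    refine (NHR.thick_cont hκ).comp (g := κ) (f := fun q : ℝ × ℝ => (p + q.1, ((1 / 2 : ℝ) : ℂ) * ex q.2)) ?_ ?_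
    · apply Continuous.continuousOn
      exact (continuous_const.add continuous_fst).prodMk (continuous_const.mul (hexc.comp continuous_snd))
    · intro q _
      change ‖((1 / 2 : ℝ) : ℂ) * ex q.2‖ < 1
      rw [hn]
      norm_num
  have hFY : ∀ q ∈ (univ : Set (ℝ × ℝ)), F q ∈ (core κ)ᶜ := by
    intro q _
    refine NHR.thick_off hκ ?_ ?_
    · rw [hn]; norm_num
    · intro h0
      have := hn q.2
      rw [h0, norm_zero] at this
      norm_num at this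
  have ex1 : ex 1 = 1 := by
    have := RSG.ex_int 1
    simpa using this
  have ex0 : ex 0 = 1 := by simp [ex]
  have t1 := NHR.seg_tri G convex_univ hFc hFY (mem_univ ((0 : ℝ), (0 : ℝ))) (mem_univ ((1 : ℝ), (0 : ℝ))) (mem_univ ((1 : ℝ), (1 : ℝ)))
  have t2 := NHR.seg_tri G convex_univ hFc hFY (mem_univ ((0 : ℝ), (0 : ℝ))) (mem_univ ((0 : ℝ), (1 : ℝ))) (mem_univ ((1 : ℝ), (1 : ℝ)))
  have s1 : seg F ((0 : ℝ), (0 : ℝ)) ((1 : ℝ), (0 : ℝ)) = fun t => κ (p + t, ((1 / 2 : ℝ) : ℂ)) := by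
    funext t
    change κ (p + ((1 - t) * 0 + t * 1), ((1 / 2 : ℝ) : ℂ) * ex ((1 - t) * 0 + t * 0)) = _
    rw [show (1 - t) * 0 + t * 0 = (0 : ℝ) by ring, show (1 - t) * 0 + t * 1 = t by ring, ex0, mul_one]
  have s2 : seg F ((1 : ℝ), (0 : ℝ)) ((1 : ℝ), (1 : ℝ)) = mer κ p (1 / 2) := by
    funext t
    change κ (p + ((1 - t) * 1 + t * 1), ((1 / 2 : ℝ) : ℂ) * ex ((1 - t) * 0 + t * 1)) = κ (p, ((1 / 2 : ℝ) : ℂ) * ex t)
    rw [show (1 - t) * 0 + t * 1 = t by ring, show (1 - t) * 1 + t * 1 = (1 : ℝ) by ring, hκ.per]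
  have s3 : seg F ((0 : ℝ), (0 : ℝ)) ((0 : ℝ), (1 : ℝ)) = mer κ p (1 / 2) := by
    funext t
    change κ (p + ((1 - t) * 0 + t * 0), ((1 / 2 : ℝ) : ℂ) * ex ((1 - t) * 0 + t * 1)) = κ (p, ((1 / 2 : ℝ) : ℂ) * ex t)
    rw [show (1 - t) * 0 + t * 1 = t by ring, show (1 - t) * 0 + t * 0 = (0 : ℝ) by ring, add_zero]
  have s4 : seg F ((0 : ℝ), (1 : ℝ)) ((1 : ℝ), (1 : ℝ)) = fun t => κ (p + t, ((1 / 2 : ℝ) : ℂ)) := by
    funext t
    change κ (p + ((1 - t) * 0 + t * 1), ((1 / 2 : ℝ) : ℂ) * ex ((1 - t) * 1 + t * 1)) = _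
    rw [show (1 - t) * 1 + t * 1 = (1 : ℝ) by ring, show (1 - t) * 0 + t * 1 = t by ring, ex1, mul_one]
  rw [s1, s2] at t1
  rw [s3, s4] at t2
  exact t1.trans t2.symm

/-- the case `p < q < p + 1`, sign 1, cores homotopic in `N` -/
theorem ker_core (hO : Ori N) {κ : ℝ × ℂ → N} (hκ : Thick κ) {o : FundamentalGroupoid.mk (κ (0, 0)) ⟶ FundamentalGroupoid.mk (κ (0, 0))}
    (ho : PC (fun l => κ (l, 0)) o) (hg : Gen2 o) {p q ε : ℝ} (hpq : p < q) (hq : q < p + 1) {T₁ T₂ : E → N}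
    (F₁ : FinE κ p q 1 ε T₁) (F₂ : FinE κ p q 1 ε T₂) (hh : Hmt univ (cor T₁) (cor T₂)) :
    LEqN (kn (core κ) T₁) (kn (core κ) T₂) := by
  have ext := NHX.ext_of_ori hO
  obtain ⟨Γ, _, G, hG⟩ := NHR.exists_GHom (NHT.pcn hκ)
  obtain ⟨L, hL, hmL, h0, h1, h3⟩ := NHR.relationsP ext hκ G hG hpq hq (m := G.val (mer κ p (1 / 2))) rfl
  have _ : LocallyPathConnectedSpace N := ChartedSpace.locallyPathConnectedSpace E3 N
  have _ : PathConnectedSpace N := pathConnectedSpace_iff_connectedSpace.2 inferInstance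
  have hgen := NHT.T1c hκ (p := p) (ρ := 1 / 2) (by norm_num) (by norm_num) G hG ho hg
  have hle := NHT.AlgE_main _ _ L hmL (ker_comm hκ G p) h0 h1 h3 hgen
  have hT := NHT.T1a hκ (p := p) (ρ := 1 / 2) (by norm_num) (by norm_num) G (NHR.cor_path F₁) (NHR.cor_path F₂) hh
  have hn := (Subgroup.normalClosure_normal (s := {G.val (mer κ p (1 / 2))})).conj_mem _ hT
    (G.val (seg κ (p, 1 / 2) (p, ((1 * ε / 8 : ℝ) : ℂ))))
  have hin := hle hn
  rw [hL] at hin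
  refine hin (clV G κ p q 1 ε T₂) T₁ T₂ ⟨1, ε, F₁, ?_⟩ ⟨1, ε, F₂, rfl⟩
  unfold clV
  group

theorem ker_main (hO : Ori N) {κ : ℝ × ℂ → N} (hκ : Thick κ) {o : FundamentalGroupoid.mk (κ (0, 0)) ⟶ FundamentalGroupoid.mk (κ (0, 0))}
    (ho : PC (fun l => κ (l, 0)) o) (hg : Gen2 o) {p q ε : ℝ} (ha : Adm p q ε) {σ₁ σ₂ : ℝ} (g₁ : σ₁ = 1 ∨ σ₁ = -1)
    (g₂ : σ₂ = 1 ∨ σ₂ = -1) {T₁ T₂ : E → N} (h₁ : Chd (core κ) T₁) (s₁ : StdE κ p q ε σ₁ T₁) (h₂ : Chd (core κ) T₂)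
    (s₂ : StdE κ p q ε σ₂ T₂) {β : FundamentalGroupoid.mk (κ (p, 0)) ⟶ FundamentalGroupoid.mk (κ (q, 0))}
    (b₁ : PC (fun t => T₁ (0, t)) β) (b₂ : PC (fun t => T₂ (0, t)) β) : LEqN (kn (core κ) T₁) (kn (core κ) T₂) := by
  have e₁ := hO κ p q ε σ₁ T₁ hκ ha.pos g₁ h₁ s₁
  have e₂ := hO κ p q ε σ₂ T₂ hκ ha.pos g₂ h₂ s₂
  subst e₁
  subst e₂
  have hh : Hmt univ (cor T₁) (cor T₂) := by
    refine ker_cor h₁ h₂ ?_ ?_ b₁ b₂
    · intro x hx hx'
      have hm : ((0 : ℂ), x) ∈ TD := ⟨by simp, hx, by linarith⟩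
      rw [s₁.foot _ hm hx', s₂.foot _ hm hx']
    · intro x hx hx'
      have hm : ((0 : ℂ), x) ∈ TD := ⟨by simp, by linarith, hx'⟩
      rw [s₁.tip _ hm hx, s₂.tip _ hm hx]
  have hint : ∀ (l : ℝ) (v : ℂ) (k : ℤ), κ (l + k, v) = κ (l, v) := by
    intro l v k
    have h3 := (show Function.Periodic (fun l => κ (l, v)) 1 from fun l => hκ.per l v).int_mul k l
    rwa [mul_one] at h3
  have hkap : kap κ 1 = κ := by
    funext z
    change κ (z.1, ((1 : ℝ) : ℂ) * z.2) = κ z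
    rw [Complex.ofReal_one, one_mul]
  set n : ℤ := ⌊q - p⌋ with hn
  have hn1 : (n : ℝ) ≤ q - p := Int.floor_le _
  have hn2 : q - p < n + 1 := Int.lt_floor_add_one _
  have hne : q - p ≠ n := by
    intro h4
    have h5 := ha.far n
    rw [show p - q + (n : ℝ) = 0 by rw [← h4]; ring, abs_zero] at h5
    linarith [ha.pos]
  have hp1 : p < q - n := by
    rcases lt_or_eq_of_le hn1 with h4 | h4
    · linarith
    · exact absurd h4.symm hne
  have hp2 : q - n < p + 1 := by linarith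
  have hadm : Adm p (q - n) ε := by
    refine ⟨ha.pos, ha.lt, fun k => ?_⟩
    have h5 := ha.far (n + k)
    have h6 : p - (q - (n : ℝ)) + (k : ℝ) = p - q + ((n + k : ℤ) : ℝ) := by push_cast; ring
    rw [h6]
    exact h5
  have hstd : ∀ {T : E → N}, StdE κ p q ε 1 T → StdE (kap κ 1) p (q - n) ε 1 T := by
    intro T hT
    rw [hkap]
    refine ⟨hT.foot, fun z hz hz' => ?_⟩
    rw [hT.tip z hz hz']
    unfold tipT
    have h6 : q + 1 * ε * z.1.im = (q - n + 1 * ε * z.1.im) + (n : ℝ) := by ring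
    rw [h6, hint]
  exact ker_core hO hκ ho hg hp1 hp2 ⟨one_pos, le_rfl, hadm, h₁, hstd s₁⟩ ⟨one_pos, le_rfl, hadm, h₂, hstd s₂⟩ hh

end Pool.Agent.NHQ
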