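import Mathlib
import Pool.Agent.NHQ.Cnj
import Pool.Agent.NHQ.Shr
import Pool.Agent.NHP.Tra

/-!
# NHQ/Sld: sliding the foot and the tip of a chord along the knot (difficulty 3)

`axs_cht`: `β (w, x) = κ (x, w)` is a chart on `Ox = {‖w‖ < 1, 0 < x < 1}` (`Thick.loc` composed with the linear swap; `Thick.inj` with `|x - x'| < 1`), and for `(w, x) ∈ Ox`: `β (w, x) ∈ core κ ↔ w = 0`; `κ (0, 0) ∉ β '' Ox`.
`slide1` (one point): for `0 < a < 1`, `0 < a' < 1` and a finite set of parameters `F ⊆ (0, 1)` not in the interval between `a` and `a'`: `vshear` with `O = Ox`, `P = {(0, b) | b ∈ F}`, constant `a' - a`, `S = {(0, a)}`: `V s` preserves the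
lines `w = const`, fixes `(0, b)`, `b ∈ F`, `V 1 (0, a) = (0, a')`.  Transport by `push_chart` to `V'`: supported in `β '' (Ox \ P)`, in particular in `{κ (0, 0)}ᶜ`; `V' s` maps `core κ` onto itself (points `β (w, x) ↦ β (w, x')`, the rest fixed).
`φ`: for `t ∈ (0, 1)`: `V s (0, t) = (0, φ s t)`; `φ s t = t` for `t ∈ {0, 1}`, extended by `φ s (t + n) = φ s t + n` (`Int.floor`/`Int.fract`): `φ s t = ⌊t⌋ + g (s, fract t)` with `g (s, u) = (V s (0, u)).2`, where `V s (0, u) = (0, u)` for `u` near `0` and `1` (compact support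
in `Ox`), so `φ (s, t) = t + P (s, t)`, with `P (s, t) = g (s, fract t) - fract t` smooth / continuous and `1`-periodic in `t` (near integers it is `0`).  `φ s` is strictly monotone: `g (s, ·)` is a continuous injection of `ℝ` (the line `w = 0`), the identity near infinity, hence
strictly increasing.
`slide`: three steps: `m = min p p'`; (1) `p ↦ m`, `F = {q}`; (2) `q ↦ q'`, `F = {m}` (`q, q' > m`); (3) `m ↦ p'`, `F = {q'}` (`m ≤ p' < q'`).  Composition (`Push.comp`, in this order at each time `s`; `φ s` is the composition of the three maps).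
-/

open scoped Manifold ContDiff Topology
open Set Filter
open Pool.Agent.CSG (stp stp_one)
open Pool.Agent.RSG (E3 ex Thick)
open Pool.Agent.KNT (bmp)
open Pool.Agent.NHP

namespace Pool.Agent.NHQ

variable {N : Type*} [TopologicalSpace N] [ChartedSpace E3 N] [IsManifold (𝓡 3) ∞ N] [T2Space N]

/-- domain of the chart along the knot -/
def Ox : Set E := {q | ‖q.1‖ < 1 ∧ 0 < q.2 ∧ q.2 < 1}

theorem sld_open : IsOpen Ox := by
  have h1 : IsOpen {q : E | ‖q.1‖ < 1} := isOpen_lt (by fun_prop) continuous_const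
  have h2 : IsOpen {q : E | 0 < q.2} := isOpen_lt continuous_const continuous_snd
  have h3 : IsOpen {q : E | q.2 < 1} := isOpen_lt continuous_snd continuous_const
  exact h1.inter (h2.inter h3)

omit [IsManifold (𝓡 3) ∞ N] [T2Space N] in
theorem sld_loc {κ : ℝ × ℂ → N} (hκ : Thick κ) {q : E} (hq : ‖q.1‖ < 1) :
    IsLocalDiffeomorphAt 𝓘(ℝ, ℂ × ℝ) (𝓡 3) ∞ (fun q : E => κ (q.2, q.1)) q := by
  have h1 : IsLocalDiffeomorphAt 𝓘(ℝ, ℂ × ℝ) 𝓘(ℝ, ℝ × ℂ) ∞
      (ContinuousLinearEquiv.prodComm ℝ ℂ ℝ).toDiffeomorph q :=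
    (ContinuousLinearEquiv.prodComm ℝ ℂ ℝ).toDiffeomorph.isLocalDiffeomorph q
  have h2 : IsLocalDiffeomorphAt 𝓘(ℝ, ℝ × ℂ) (𝓡 3) ∞ κ
      ((ContinuousLinearEquiv.prodComm ℝ ℂ ℝ).toDiffeomorph q) := hκ.loc q.2 q.1 hq
  exact IsLocalDiffeomorphAt.comp (hf := h1) (hg := h2)

omit [IsManifold (𝓡 3) ∞ N] [T2Space N] in
theorem sld_per {κ : ℝ × ℂ → N} (hκ : Thick κ) (m : ℤ) (l : ℝ) (v : ℂ) : κ (l + m, v) = κ (l, v) := by
  have h : Function.Periodic (fun l : ℝ => κ (l, v)) 1 := fun l => hκ.per l v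
  have := h.int_mul m l
  simpa using this

theorem axs_cht {κ : ℝ × ℂ → N} (hκ : Thick κ) : Cht Ox (fun q => κ (q.2, q.1)) ∧
    (∀ q ∈ Ox, κ (q.2, q.1) ∈ core κ ↔ q.1 = 0) ∧ κ (0, 0) ∉ (fun q : E => κ (q.2, q.1)) '' Ox := by
  refine ⟨⟨sld_open, fun q hq => sld_loc hκ hq.1, ?_⟩, ?_, ?_⟩
  · rintro ⟨w, x⟩ ⟨h1, h2, h3⟩ ⟨w', x'⟩ ⟨h1', h2', h3'⟩ he
    simp only at h1 h2 h3 h1' h2' h3' he
    obtain ⟨e1, m, e2⟩ := hκ.inj x w x' w' h1 h1' he
    have h4 : (-1 : ℝ) < m := by linarith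
    have h5 : (m : ℝ) < 1 := by linarith
    have h6 : m = 0 := by
      have h7 : (-1 : ℤ) < m := by exact_mod_cast h4
      have h8 : m < (1 : ℤ) := by exact_mod_cast h5
      omega
    rw [h6] at e2
    simp only [Int.cast_zero, add_zero] at e2
    rw [e1, e2]
  · rintro ⟨w, x⟩ ⟨h1, h2, h3⟩
    simp only at h1 h2 h3 ⊢
    constructor
    · rintro ⟨l, hl⟩
      simp only at hl
      exact ((hκ.inj l 0 x w (by simp) h1 hl).1).symm
    · intro h
      rw [h]
      exact ⟨x, rfl⟩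
  · rintro ⟨⟨w, x⟩, ⟨h1, h2, h3⟩, he⟩
    simp only at h1 h2 h3 he
    obtain ⟨e1, m, e2⟩ := hκ.inj x w 0 0 h1 (by simp) he
    have h4 : (-1 : ℝ) < m := by linarith
    have h5 : (m : ℝ) < 0 := by linarith
    have h7 : (-1 : ℤ) < m := by exact_mod_cast h4
    have h8 : m < (0 : ℤ) := by exact_mod_cast h5
    omega

/-- a push along the knot with its effect on the parameters -/
structure SldP (κ : ℝ × ℂ → N) (V : ℝ → Equiv.Perm N) (φ : ℝ → ℝ → ℝ) : Prop where
  push : Push {κ (0, 0)}ᶜ V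
  eq : ∀ s t, V s (κ (t, 0)) = κ (φ s t, 0)
  cont : Continuous (fun z : ℝ × ℝ => φ z.1 z.2)
  per : ∀ s t, φ s (t + 1) = φ s t + 1
  zero : ∀ s, φ s 0 = 0
  start : ∀ t, φ 0 t = t
  mono : ∀ s, StrictMono (φ s)
  core : ∀ s y, V s y ∈ core κ ↔ y ∈ core κ

omit [IsManifold (𝓡 3) ∞ N] [T2Space N] in
theorem SldP.sld_comp {κ : ℝ × ℂ → N} {V W : ℝ → Equiv.Perm N} {φ ψ : ℝ → ℝ → ℝ} (h : SldP κ V φ)
    (h' : SldP κ W ψ) : SldP κ (fun s => (V s).trans (W s)) (fun s t => ψ s (φ s t)) where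
  push := h.push.comp h'.push
  eq s t := by
    rw [Equiv.trans_apply, h.eq, h'.eq]
  cont := by
    have h1 : Continuous (fun z : ℝ × ℝ => (z.1, φ z.1 z.2)) := continuous_fst.prodMk h.cont
    exact h'.cont.comp h1
  per s t := by rw [h.per, h'.per]
  zero s := by rw [h.zero, h'.zero]
  start t := by rw [h.start, h'.start]
  mono s := (h'.mono s).comp (h.mono s)
  core s y := by
    rw [Equiv.trans_apply, h'.core, h.core]

theorem sld_one {κ : ℝ × ℂ → N} (hκ : Thick κ) {a a' b : ℝ} (ha : 0 < a) (ha1 : a < 1) (ha' : 0 < a')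
    (ha1' : a' < 1) (hb : 0 < b) (hb1 : b < 1) (hab : (a < b ∧ a' < b) ∨ (b < a ∧ b < a')) :
    ∃ (V : ℝ → Equiv.Perm N) (φ : ℝ → ℝ → ℝ), SldP κ V φ ∧ φ 1 a = a' ∧ φ 1 b = b := by
  obtain ⟨hC, hcore, hzero⟩ := axs_cht hκ
  have hmemO : ∀ u : ℝ, 0 < u → u < 1 → ((0 : ℂ), u) ∈ Ox := fun u h1 h2 => ⟨by simp, h1, h2⟩
  obtain ⟨V, hV, hV1, hV2⟩ := vshear (O := Ox) sld_open (P := {((0 : ℂ), b)}) isClosed_singleton
    (a := fun _ => a' - a) contDiff_const (S := {((0 : ℂ), a)}) isCompact_singleton (by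
      rintro q hq r ⟨hr0, hr1⟩
      rw [Set.mem_singleton_iff] at hq
      subst hq
      have e : a + r * (a' - a) = (1 - r) * a + r * a' := by ring
      have hlo : 0 < a + r * (a' - a) := by
        rcases hr0.eq_or_lt with h | h
        · rw [← h]; linarith
        · rw [e]
          have h1 := mul_pos h ha'
          have h2 := mul_nonneg (sub_nonneg.2 hr1) ha.le
          linarith
      have hup : a + r * (a' - a) < 1 := by
        rcases hr0.eq_or_lt with h | h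
        · rw [← h]; linarith
        · rw [e]
          have h1 := mul_lt_mul_of_pos_left ha1' h
          have h2 := mul_le_mul_of_nonneg_left ha1.le (sub_nonneg.2 hr1)
          linarith
      refine ⟨hmemO _ hlo hup, ?_⟩
      intro hh
      rw [Set.mem_singleton_iff, Prod.mk.injEq] at hh
      have h3 := hh.2
      simp only at h3
      rw [e] at h3
      rcases hab with ⟨h4, h5⟩ | ⟨h4, h5⟩
      · rcases hr0.eq_or_lt with h | h
        · rw [← h] at h3; linarith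
        · have h6 := mul_lt_mul_of_pos_left h5 h
          have h7 := mul_le_mul_of_nonneg_left h4.le (sub_nonneg.2 hr1)
          linarith
      · rcases hr0.eq_or_lt with h | h
        · rw [← h] at h3; linarith
        · have h6 := mul_lt_mul_of_pos_left h5 h
          have h7 := mul_le_mul_of_nonneg_left h4.le (sub_nonneg.2 hr1)
          linarith)
  have hVO : PushE Ox V := hV.mono sdiff_subset
  obtain ⟨V', hV', hVq, hVo⟩ := push_chart hC hVO
  -- the height function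
  obtain ⟨g, hg⟩ : ∃ g : ℝ → ℝ → ℝ, ∀ s u, g s u = (V s ((0 : ℂ), u)).2 := ⟨_, fun _ _ => rfl⟩
  have hVg : ∀ s u, V s ((0 : ℂ), u) = (0, g s u) := by
    intro s u
    refine Prod.ext ?_ ?_
    · exact hV2 s (0, u)
    · exact (hg s u).symm
  have hgc : Continuous (fun z : ℝ × ℝ => g z.1 z.2) := by
    have h1 : Continuous (fun z : ℝ × ℝ => ((z.1, ((0 : ℂ), z.2)) : ℝ × E)) := by fun_prop
    have h2 := (hVO.smooth.continuous.comp h1).snd
    have e : (fun z : ℝ × ℝ => g z.1 z.2) = fun z : ℝ × ℝ => (V z.1 ((0 : ℂ), z.2)).2 := by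
      funext z; exact hg z.1 z.2
    rw [e]
    exact h2
  have hgout : ∀ s u, ¬ (0 < u ∧ u < 1) → g s u = u := by
    intro s u hu
    rw [hg, hVO.out s (fun hh => hu hh.2)]
  have hgin : ∀ s u, 0 < u → u < 1 → 0 < g s u ∧ g s u < 1 := by
    intro s u h1 h2
    have h3 := hVO.mem s (hmemO u h1 h2)
    rw [hVg] at h3
    exact h3.2
  have hginj : ∀ s u u', g s u = g s u' → u = u' := by
    intro s u u' h
    have h1 : V s ((0 : ℂ), u) = V s ((0 : ℂ), u') := by rw [hVg, hVg, h]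
    have h2 := (V s).injective h1
    exact (Prod.mk.injEq _ _ _ _ ▸ h2 : (0 : ℂ) = 0 ∧ u = u').2
  have hg0 : ∀ s, g s 0 = 0 := fun s => hgout s 0 (by simp)
  have hg1 : ∀ s, g s 1 = 1 := fun s => hgout s 1 (by simp)
  have hgI : ∀ s u, 0 ≤ u → u < 1 → 0 ≤ g s u ∧ g s u < 1 := by
    intro s u h1 h2
    rcases h1.eq_or_lt with h | h
    · rw [← h, hg0]; simp
    · exact ⟨(hgin s u h h2).1.le, (hgin s u h h2).2⟩
  obtain ⟨φ, hφ⟩ : ∃ φ : ℝ → ℝ → ℝ, ∀ s t, φ s t = ⌊t⌋ + g s (Int.fract t) := ⟨_, fun _ _ => rfl⟩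
  have hφI : ∀ s t, 0 < t → t < 1 → φ s t = g s t := by
    intro s t h1 h2
    have h3 : ⌊t⌋ = 0 := Int.floor_eq_zero_iff.2 ⟨h1.le, h2⟩
    have h4 : Int.fract t = t := Int.fract_eq_self.2 ⟨h1.le, h2⟩
    rw [hφ, h3, h4]; simp
  have hφc : Continuous (fun z : ℝ × ℝ => φ z.1 z.2) := by
    have h1 : Continuous (fun z : ℝ × ℝ =>
        (fun (p : ℝ × ℝ) (u : ℝ) => g p.1 u - u) z (Int.fract z.2)) := by
      refine ContinuousOn.comp_fract (s := fun z : ℝ × ℝ => z.2)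
        (f := fun (p : ℝ × ℝ) (u : ℝ) => g p.1 u - u) ?_ continuous_snd ?_
      · refine Continuous.continuousOn ?_
        have h2 : Continuous (fun x : (ℝ × ℝ) × ℝ => g x.1.1 x.2) := by
          have h3 : Continuous (fun x : (ℝ × ℝ) × ℝ => (x.1.1, x.2)) := by fun_prop
          exact hgc.comp h3
        exact h2.sub continuous_snd
      · intro p
        show g p.1 0 - 0 = g p.1 1 - 1
        rw [hg0, hg1]; simp
    have e : (fun z : ℝ × ℝ => φ z.1 z.2) = fun z : ℝ × ℝ => z.2 + (g z.1 (Int.fract z.2) - Int.fract z.2) := by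
      funext z
      rw [hφ]
      have := Int.floor_add_fract z.2
      linarith
    rw [e]
    exact continuous_snd.add h1
  have hφfl : ∀ s t, ⌊φ s t⌋ = ⌊t⌋ ∧ Int.fract (φ s t) = g s (Int.fract t) := by
    intro s t
    have h1 := hgI s (Int.fract t) (Int.fract_nonneg t) (Int.fract_lt_one t)
    have h2 : ⌊φ s t⌋ = ⌊t⌋ := by
      rw [hφ, Int.floor_intCast_add, Int.floor_eq_zero_iff.2 ⟨h1.1, h1.2⟩, add_zero]
    refine ⟨h2, ?_⟩
    unfold Int.fract
    rw [h2, hφ]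
    unfold Int.fract
    ring
  refine ⟨V', φ, ⟨hV'.mono ?_, ?_, hφc, ?_, ?_, ?_, ?_, ?_⟩, ?_, ?_⟩
  · intro y hy hy0
    rw [Set.mem_singleton_iff] at hy0
    rw [hy0] at hy
    exact hzero hy
  · intro s t
    have e1 : κ (t, 0) = κ (Int.fract t, 0) := by
      have := sld_per hκ ⌊t⌋ (Int.fract t) 0
      rw [Int.fract_add_floor] at this
      exact this
    have e2 : κ (φ s t, 0) = κ (g s (Int.fract t), 0) := by
      have := sld_per hκ ⌊t⌋ (g s (Int.fract t)) 0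
      rw [← this, hφ, add_comm]
    rw [e1, e2]
    rcases (Int.fract_nonneg t).eq_or_lt with h | h
    · rw [← h, hg0]
      exact hVo s _ hzero
    · have h1 := hmemO _ h (Int.fract_lt_one t)
      have h2 := hVq s _ h1
      simp only [hVg] at h2
      exact h2
  · intro s t
    rw [hφ, hφ, Int.floor_add_one, Int.fract_add_one]
    push_cast
    ring
  · intro s
    rw [hφ]; simp [hg0]
  · intro t
    rw [hφ]
    have h1 : g 0 (Int.fract t) = Int.fract t := by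
      rw [hg, hV.zero]; rfl
    rw [h1]
    exact Int.floor_add_fract t
  · intro s
    have h1 : Continuous (φ s) := by
      have h2 : Continuous (fun t : ℝ => (s, t)) := by fun_prop
      exact hφc.comp h2
    have h2 : Function.Injective (φ s) := by
      intro t t' he
      have h3 := hφfl s t
      have h4 := hφfl s t'
      rw [he] at h3
      have h5 : ⌊t⌋ = ⌊t'⌋ := h3.1.symm.trans h4.1
      have h6 : Int.fract t = Int.fract t' := hginj s _ _ (h3.2.symm.trans h4.2)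
      have h7 := Int.floor_add_fract t
      have h8 := Int.floor_add_fract t'
      rw [h5, h6] at h7
      exact h7.symm.trans h8
    rcases h1.strictMono_of_inj h2 with h3 | h3
    · exact h3
    · exfalso
      have h4 := h3 (zero_lt_one (α := ℝ))
      have h5 : φ s 0 = 0 := by rw [hφ]; simp [hg0]
      have h6 : φ s 1 = 1 := by rw [hφ]; simp [hg0]
      rw [h5, h6] at h4
      linarith
  · intro s y
    by_cases hy : y ∈ (fun q : E => κ (q.2, q.1)) '' Ox
    · obtain ⟨q, hq, rfl⟩ := hy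
      rw [hVq s q hq]
      simp only
      rw [hcore q hq, hcore _ (hVO.mem s hq), hV2]
    · rw [hVo s y hy]
  · rw [hφI 1 a ha ha1, hg, hV1 _ (Or.inl rfl) 1, stp_one zero_lt_one le_rfl]
    simp
  · rw [hφI 1 b hb hb1, hg, hV.out 1 (fun hh => hh.2 rfl)]

theorem slide {κ : ℝ × ℂ → N} (hκ : Thick κ) {p q p' q' : ℝ} (hp : 0 < p) (hpq : p < q) (hq : q < 1) (hp' : 0 < p')
    (hpq' : p' < q') (hq' : q' < 1) :
    ∃ (V : ℝ → Equiv.Perm N) (φ : ℝ → ℝ → ℝ), Push {κ (0, 0)}ᶜ V ∧ (∀ s t, V s (κ (t, 0)) = κ (φ s t, 0)) ∧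
      Continuous (fun z : ℝ × ℝ => φ z.1 z.2) ∧ (∀ s t, φ s (t + 1) = φ s t + 1) ∧ (∀ s, φ s 0 = 0) ∧ (∀ t, φ 0 t = t) ∧
      (∀ s, StrictMono (φ s)) ∧ φ 1 p = p' ∧ φ 1 q = q' ∧ ∀ s y, V s y ∈ core κ ↔ y ∈ core κ := by
  have hm : 0 < min p p' := lt_min hp hp'
  have hmp := min_le_left p p'
  have hmp' := min_le_right p p'
  obtain ⟨V₁, φ₁, h₁, a₁, b₁⟩ := sld_one hκ hp (hpq.trans hq) hm (by linarith) (hp.trans hpq) hq
    (Or.inl ⟨hpq, by linarith⟩)
  obtain ⟨V₂, φ₂, h₂, a₂, b₂⟩ := sld_one hκ (hp.trans hpq) hq (hp'.trans hpq') hq' hm (by linarith)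
    (Or.inr ⟨by linarith, by linarith⟩)
  obtain ⟨V₃, φ₃, h₃, a₃, b₃⟩ := sld_one hκ hm (by linarith) hp' (hpq'.trans hq') (hp'.trans hpq') hq'
    (Or.inl ⟨by linarith, hpq'⟩)
  have h := (h₁.sld_comp h₂).sld_comp h₃
  refine ⟨_, _, h.push, h.eq, h.cont, h.per, h.zero, h.start, h.mono, ?_, ?_, h.core⟩
  · rw [a₁, b₂, a₃]
  · rw [b₁, a₂, b₃]

end Pool.Agent.NHQ
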