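import Mathlib
import Pool.Agent.NHQ.Enz
import Pool.Agent.NHQ.Sld
import Pool.Agent.NHQ.Lab
import Pool.Agent.NHQ.Ker

/-!
# NHQ/AxA: axiom (A) of the label calculus: equal labels give equivalent knots (difficulty 3, assembly)

`chl_slide`: `V, φ` from `slide` with `κ`; `ChL.push`: `ChL x (V 1 ∘ k) (V 1 ∘ T) p q c`, `V 1 ∘ k = k ∘ φ 1`; `ChL.repar` (`φ 1` is surjective: continuous, `φ (t + n) = φ t + n`; `φ 1 1 = φ 1 0 + 1 = 1`).
`kn (range k) (V 1 ∘ T) = V 1 '' kn (range k) T` (`kn_img`, `V 1 '' range k = range k`), `LEqN.diff`.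
`axiom_A`: `St x c k k₁`: `T₁, p₁, q₁`, `LEqN (range k₁) (kn (range k) T₁)` (`Mv.leq`, `range_fing`); the same for `T₂, p₂, q₂`.  By `chl_slide` replace `T₁` by a chord with foot `k p₂`, tip `k q₂`, label `c`.
`ends_std` for both chords (foot `κ (p₂, 0)`, tip `κ (q₂, 0)`), `ε ≤` both `ε₀` and so small that `Adm p₂ q₂ ε` (`0 < q₂ - p₂ < 1`): `S₁, S₂` with standard ends, `LEqN`, and `PC (S_i (0, ·)) β_i` where `β_i` is the class of the core of `T_i` (field `lab`).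
`c = α ≫ β₁ ≫ inv δ = α' ≫ β₂ ≫ inv δ'`, `α = α'`, `δ = δ'` (`PC.unique`), so `β₁ = β₂`.  `ker_main`.
(`core κ = range k`; `x = κ (0, 0)`: `subst`.)
-/

open scoped Manifold ContDiff Topology
open Set Filter CategoryTheory
open Pool.Agent.RSG (E3 ex Thick)
open Pool.Agent.KNT (bmp)
open Pool.Agent.NHP

namespace Pool.Agent.NHQ

variable {N : Type*} [TopologicalSpace N] [ChartedSpace E3 N] [IsManifold (𝓡 3) ∞ N] [T2Space N]

theorem axa_int {φ : ℝ → ℝ} (h0 : φ 0 = 0) (hφ : ∀ t, φ (t + 1) = φ t + 1) (n : ℤ) : φ n = n := by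
  induction n using Int.induction_on with
  | zero => simpa using h0
  | succ i ih =>
    push_cast at ih ⊢
    rw [hφ, ih]
  | pred i ih =>
    push_cast at ih ⊢
    have := hφ (-(i : ℝ) - 1)
    rw [sub_add_cancel, ih] at this
    linarith

theorem axa_surj {φ : ℝ → ℝ} (hc : Continuous φ) (h0 : φ 0 = 0) (hφ : ∀ t, φ (t + 1) = φ t + 1) :
    Function.Surjective φ := by
  intro y
  have h1 : φ (⌊y⌋ : ℤ) = (⌊y⌋ : ℤ) := axa_int h0 hφ _
  have h2 : φ ((⌊y⌋ : ℤ) + 1) = (⌊y⌋ : ℤ) + 1 := by rw [hφ, h1]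
  have h3 := intermediate_value_Icc (a := ((⌊y⌋ : ℤ) : ℝ)) (b := ((⌊y⌋ : ℤ) : ℝ) + 1) (by linarith)
    (f := φ) hc.continuousOn
  have h4 : y ∈ Icc (φ ((⌊y⌋ : ℤ) : ℝ)) (φ (((⌊y⌋ : ℤ) : ℝ) + 1)) := by
    rw [h1, h2]
    exact ⟨Int.floor_le y, (Int.lt_floor_add_one y).le⟩
  obtain ⟨t, -, ht⟩ := h3 h4
  exact ⟨t, ht⟩

theorem axa_cont {κ : ℝ × ℂ → N} (hκ : Thick κ) {k : ℝ → N} (hk : ∀ l, κ (l, 0) = k l) : Continuous k := by
  have h1 : k = fun l => κ (l, 0) := funext fun l => (hk l).symm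
  rw [h1, continuous_iff_continuousAt]
  intro l
  have h2 : ContinuousAt κ (l, 0) := (hκ.loc l 0 (by simp)).contMDiffAt.continuousAt
  exact ContinuousAt.comp (f := fun l : ℝ => (l, (0 : ℂ))) (g := κ) h2 (by fun_prop)

theorem chl_slide {κ : ℝ × ℂ → N} (hκ : Thick κ) {k : ℝ → N} (hk : ∀ l, κ (l, 0) = k l) {x : N} (hx : k 0 = x) {T : E → N}
    {p q p' q' : ℝ} {c : FundamentalGroupoid.mk x ⟶ FundamentalGroupoid.mk x} (h : ChL x k T p q c) (hp' : 0 < p')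
    (hpq' : p' < q') (hq' : q' < 1) :
    ∃ T' : E → N, ChL x k T' p' q' c ∧ LEqN (kn (range k) T) (kn (range k) T') := by
  obtain ⟨V, φ, hV, hVk, hφc, hφ1, hφ0, hφi, hφm, hφp, hφq, hVK⟩ := slide hκ h.pos h.lt h.one hp' hpq' hq'
  have hx' : κ (0, 0) = x := (hk 0).trans hx
  rw [hx'] at hV
  have e1 : V 1 ∘ k = k ∘ φ 1 := by
    funext t
    show V 1 (k t) = k (φ 1 t)
    rw [← hk t, hVk, hk]
  have hcφ : Continuous (φ 1) := hφc.comp (Continuous.prodMk_right (1 : ℝ))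
  have h11 : φ 1 1 = 1 := by
    have := hφ1 1 0
    rw [zero_add, hφ0, zero_add] at this
    exact this
  have h2 := h.push hV
  rw [e1] at h2
  refine ⟨V 1 ∘ T, h2.repar (axa_cont hκ hk) hcφ (axa_surj hcφ (hφ0 1) (hφ1 1)) (hφ0 1) h11 (hφm 1) hφp hφq, ?_⟩
  have hcore : core κ = range k := by
    unfold core
    exact congrArg range (funext hk)
  have e2 : V 1 '' range k = range k := by
    rw [← hcore]
    ext y
    constructor
    · rintro ⟨z, hz, rfl⟩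
      exact (hVK 1 z).mpr hz
    · intro hy
      refine ⟨(V 1).symm y, ?_, Equiv.apply_symm_apply _ _⟩
      rw [← hVK 1, Equiv.apply_symm_apply]
      exact hy
  have e3 := kn_img (K := range k) (T := T) (V 1)
  rw [e2] at e3
  rw [e3]
  exact LEqN.diff _ (hV.mono (subset_univ _))

theorem axa_adm {p q : ℝ} (hpq : p < q) (hp : 0 < p) (hq : q < 1) {ε : ℝ} (h0 : 0 < ε) (h1 : ε ≤ 1 / 8)
    (h2 : ε ≤ (q - p) / 4) (h3 : ε ≤ (1 - (q - p)) / 4) : Adm p q ε := by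
  refine ⟨h0, by linarith, ?_⟩
  intro k
  rcases le_or_gt k 0 with hk | hk
  · have hk' : (k : ℝ) ≤ 0 := by exact_mod_cast hk
    have : p - q + k ≤ -(q - p) := by linarith
    rw [lt_abs]
    right
    linarith
  · have hk' : (1 : ℝ) ≤ k := by exact_mod_cast hk
    rw [lt_abs]
    left
    linarith

theorem axiom_A [ConnectedSpace N] (hO : Ori N) {x : N} {o c : FundamentalGroupoid.mk x ⟶ FundamentalGroupoid.mk x} {k k₁ k₂ : ℝ → N}
    (hk : Crv x o k) (hg : Gen2 o) (h1 : St x c k k₁) (h2 : St x c k k₂) : LEqN (range k₁) (range k₂) := by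
  obtain ⟨κ, hκ, hk'⟩ := hk.thick
  have hkk : k = fun l => κ (l, 0) := funext fun l => (hk' l).symm
  obtain ⟨T₁, p₁, q₁, hT₁, hM₁⟩ := h1
  obtain ⟨T₂, p₂, q₂, hT₂, hM₂⟩ := h2
  have g1 : LEqN (kn (range k) T₁) (range k₁) := by
    rw [← range_fing hT₁.chd]
    exact hM₁.leq
  have g2 : LEqN (kn (range k) T₂) (range k₂) := by
    rw [← range_fing hT₂.chd]
    exact hM₂.leq
  obtain ⟨T₃, hT₃, g3⟩ := chl_slide hκ hk' hk.zero hT₁ hT₂.pos hT₂.lt hT₂.one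
  have hx : κ (0, 0) = x := (hk' 0).trans hk.zero
  subst hkk
  subst hx
  have hcore : core κ = range (fun l : ℝ => κ (l, 0)) := rfl
  obtain ⟨α, β₃, δ, hα, hβ₃, hδ, hc₃⟩ := hT₃.lab
  obtain ⟨α', β₂, δ', hα', hβ₂, hδ', hc₂⟩ := hT₂.lab
  have ea : α = α' := hα.unique hα'
  have ed : δ = δ' := hδ.unique hδ'
  subst ea
  subst ed
  have eb : β₃ = β₂ := by
    rw [hc₃] at hc₂
    have h5 := (cancel_epi α).mp hc₂
    exact (cancel_mono (inv δ)).mp h5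
  subst eb
  obtain ⟨ε₁, hε₁, E₁⟩ := ends_std hκ (T := T₃) hT₃.chd (p := p₂) (q := q₂) hβ₃.zero hβ₃.one
  obtain ⟨ε₂, hε₂, E₂⟩ := ends_std hκ (T := T₂) hT₂.chd (p := p₂) (q := q₂) hβ₂.zero hβ₂.one
  have hl := hT₂.lt
  have hp := hT₂.pos
  have hq := hT₂.one
  let ε : ℝ := min (min ε₁ ε₂) (min (1 / 8) (min ((q₂ - p₂) / 4) ((1 - (q₂ - p₂)) / 4)))
  have hε : 0 < ε := by
    refine lt_min (lt_min hε₁ hε₂) (lt_min (by norm_num) (lt_min (by linarith) (by linarith)))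
  have k1 : ε ≤ ε₁ := (min_le_left _ _).trans (min_le_left _ _)
  have k2 : ε ≤ ε₂ := (min_le_left _ _).trans (min_le_right _ _)
  have k3 : ε ≤ 1 / 8 := (min_le_right _ _).trans (min_le_left _ _)
  have k4 : ε ≤ (q₂ - p₂) / 4 := (min_le_right _ _).trans ((min_le_right _ _).trans (min_le_left _ _))
  have k5 : ε ≤ (1 - (q₂ - p₂)) / 4 := (min_le_right _ _).trans ((min_le_right _ _).trans (min_le_right _ _))
  obtain ⟨σ₁, S₁, gs₁, hS₁, hs₁, l₁, b₁⟩ := E₁ ε hε k1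
  obtain ⟨σ₂, S₂, gs₂, hS₂, hs₂, l₂, b₂⟩ := E₂ ε hε k2
  have key := ker_main hO hκ hk.cls hg (axa_adm hl hp hq hε k3 k4 k5) gs₁ gs₂ hS₁ hs₁ hS₂ hs₂ (b₁ _ hβ₃) (b₂ _ hβ₂)
  exact g1.symm.trans (g3.trans (l₁.trans (key.trans (l₂.symm.trans g2))))

end Pool.Agent.NHQ
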