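import Mathlib
import Pool.Agent.NHQ.AvB
import Pool.Agent.NHQ.Sg

/-!
# NHQ/Avd: general position of paths with respect to finitely many arcs (difficulty 3)

PROOF of `avoid`.  `γ = cl g`, `g : Path y y'`.  For every point of `N` `exists_chart` gives a chart on `ball 0 2`, `β 0` = the point.  Lebesgue number (`exists_monotone_Icc_subset_open_cover_unitInterval` or `lebesgue_number_lemma`): `0 = t₀ ≤ t₁ ≤ .. ≤ t_n = 1` and
charts `β_i` with `g '' [t_i, t_{i+1}] ⊆ B_i = β_i '' ball 0 1`.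
Induction on `i`: for every `y_i ∈ B_{i-1} ∩ B_i` (for `i = 0`: `y_0 = y`) off the arcs, such that there is a path `e_i` from `g t_i` to `y_i` inside `B_{i-1} ∩ B_i` ...: CLAIM (i): there are a point `y_i ∈ B_i` off the arcs, a path `c_i` from `y` to `y_i` off the arcs,
and a path `e_i` from `g t_i` to `y_i` inside `B_i` (and inside `B_{i-1}`) with `cl c_i = [g | 0 → t_i] ≫ cl e_i`.  i = 0: constant paths.  Step: `B_i ∩ B_{i+1}` is an open neighbourhood of `g t_{i+1}`; it contains a chart ball around `g t_{i+1}` (`exists_chart` with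
`Y = B_i ∩ B_{i+1}`); `avoid_dense` gives `y_{i+1}` in `β '' ball 0 1` of this small ball, off the arcs, and the straight path `e_{i+1}` in it.  `avoid_ball` gives a path `d` from `y_i` to `y_{i+1}` in `B_i` off the arcs.  All paths in `B_i` with the same end points
are homotopic in `N` (`PC.convex` with `C = ball 0 1`, `F = β_i`): `cl d = inv (cl e_i) ≫ [g | t_i → t_{i+1}] ≫ cl e_{i+1}`.  `c_{i+1} = c_i.trans d`.  At the end take `y_n = y'`, `e_n` constant (`y'` is off the arcs).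
(Alternatively use the subdivision principle `path_ind` of `/team-store/NHT_FG.lean` for the property P (g): for all `y₁` near... the explicit induction is fine.)
-/

open scoped Manifold ContDiff Topology
open Set Filter CategoryTheory
open Pool.Agent.RSG (E3 ex Thick)
open Pool.Agent.KNT (bmp)
open Pool.Agent.NHP

namespace Pool.Agent.NHQ

variable {N : Type*} [TopologicalSpace N] [ChartedSpace E3 N]

/-- paths in a chart ball are homotopic -/
theorem avd_ball {β : E → N} (hβ : Cht (Metric.ball 0 2) β) {a b : N} (p q : Path a b)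
    (hp : ∀ t, p t ∈ β '' Metric.ball 0 1) (hq : ∀ t, q t ∈ β '' Metric.ball 0 1) : cl p = cl q := by
  obtain ⟨g, hgβ, hg⟩ := hβ.inv
  have hsub : Metric.ball (0 : E) 1 ⊆ Metric.ball 0 2 := Metric.ball_subset_ball (by norm_num)
  have h1 : ∀ r : Path a b, (∀ t, r t ∈ β '' Metric.ball 0 1) → ∀ t ∈ Icc (0 : ℝ) 1,
      r.extend t ∈ β '' Metric.ball 0 1 := by
    intro r hr t ht
    rw [Path.extend_apply r ht]
    exact hr _
  have h2 : ∀ r : Path a b, (∀ t, r t ∈ β '' Metric.ball 0 1) → ContinuousOn (fun t => g (r.extend t)) (Icc 0 1) := by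
    intro r hr t ht
    have h3 : r.extend t ∈ β '' Metric.ball 0 2 := image_mono hsub (h1 r hr t ht)
    exact ((hg _ h3).continuousAt.comp (f := fun t : ℝ => r.extend t) r.continuous_extend.continuousAt).continuousWithinAt
  have h4 : ∀ r : Path a b, (∀ t, r t ∈ β '' Metric.ball 0 1) → ∀ t ∈ Icc (0 : ℝ) 1,
      g (r.extend t) ∈ Metric.ball (0 : E) 1 ∧ β (g (r.extend t)) = r.extend t := by
    intro r hr t ht
    obtain ⟨z, hz, hz2⟩ := h1 r hr t ht
    rw [← hz2, hgβ z (hsub hz)]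
    exact ⟨hz, rfl⟩
  have h5 : ∀ r : Path a b, (∀ t, r t ∈ β '' Metric.ball 0 1) → PC (fun t => β (g (r.extend t))) (cl r) := by
    intro r hr
    refine PC.congr (f := fun t => r.extend t) ⟨r, fun t => (Path.extend_apply r t.2).symm, rfl⟩ ?_
    intro t ht
    exact (h4 r hr t ht).2
  refine PC.unique (PC.convex (F := β) (convex_ball (0 : E) 1) (hβ.contOn.mono hsub) (h2 p hp) (h2 q hq)
    (fun t ht => (h4 p hp t ht).1) (fun t ht => (h4 q hq t ht).1) ?_ ?_ (h5 p hp)) (h5 q hq)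
  · show g (p.extend 0) = g (q.extend 0)
    rw [p.extend_zero, q.extend_zero]
  · show g (p.extend 1) = g (q.extend 1)
    rw [p.extend_one, q.extend_one]

/-- the claim of the induction -/
def avd_P {ι : Type*} (A : ι → Set N) {y y' : N} (g : Path y y') (s : unitInterval) : Prop :=
  ∀ O : Set N, IsOpen O → g s ∈ O → ∃ z ∈ O, (∀ i, z ∉ A i) ∧ ∃ (c : Path (g 0) z) (e : Path (g s) z),
    (∀ t i, c t ∉ A i) ∧ (∀ t, e t ∈ O) ∧ cl c = cl (g.subpath 0 s) ≫ cl e

theorem avd_trans {a b c : N} (p : Path a b) (q : Path b c) {S : Set N} (hp : ∀ t, p t ∈ S)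
    (hq : ∀ t, q t ∈ S) (t : unitInterval) : (p.trans q) t ∈ S := by
  have h3 : (p.trans q) t ∈ range p ∪ range q := by
    have : (p.trans q) t ∈ range (p.trans q) := mem_range_self t
    rw [Path.trans_range] at this
    exact this
  rcases h3 with ⟨s, hs⟩ | ⟨s, hs⟩
  · rw [← hs]
    exact hp s
  · rw [← hs]
    exact hq s

theorem avd_step [IsManifold (𝓡 3) ∞ N] [T2Space N] {ι : Type*} [Finite ι] {A : ι → Set N}
    (hA : ∀ i, Arc (A i)) {y y' : N} (g : Path y y') {s s' : unitInterval} (hs : avd_P A g s)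
    {β : E → N} (hβ : Cht (Metric.ball 0 2) β) (hgβ : ∀ t ∈ uIcc s s', g t ∈ β '' Metric.ball 0 1) :
    avd_P A g s' := by
  intro O hO hsO
  have hB : IsOpen (β '' Metric.ball 0 1) :=
    hβ.img Metric.isOpen_ball (Metric.ball_subset_ball (by norm_num))
  obtain ⟨β', hβ', hβO, hβ0⟩ := exists_chart (hO.inter hB) (y := g s') ⟨hsO, hgβ s' right_mem_uIcc⟩
  obtain ⟨z', ⟨u, hu, hu2⟩, hz'⟩ := avoid_dense hA (W := β' '' Metric.ball 0 2)
    (hβ'.img Metric.isOpen_ball subset_rfl) ⟨β' 0, mem_image_of_mem _ (Metric.mem_ball_self two_pos)⟩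
  obtain ⟨e', he'⟩ : JoinedIn (β' '' Metric.ball 0 2) (g s') z' := by
    have h1 : IsPathConnected (β' '' Metric.ball 0 2) :=
      ((convex_ball (0 : E) 2).isPathConnected ⟨0, Metric.mem_ball_self two_pos⟩).image' hβ'.contOn
    exact h1.joinedIn (g s') ⟨0, Metric.mem_ball_self two_pos, hβ0⟩ z' ⟨u, hu, hu2⟩
  have hz'B : z' ∈ β '' Metric.ball 0 1 := (hβO ⟨u, hu, hu2⟩).2
  obtain ⟨z, hzO, hzA, c, e, hcA, heO, hcl⟩ := hs _ hB (hgβ s left_mem_uIcc)
  obtain ⟨d, hd1, hd2⟩ := avoid_ball hA hβ hzO hz'B hzA hz'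
  refine ⟨z', (hβO ⟨u, hu, hu2⟩).1, hz', c.trans d, e', ?_, fun t => (hβO (he' t)).1, ?_⟩
  · intro t i
    have h2 : (c.trans d) t ∈ (A i)ᶜ := avd_trans c d (fun t => hcA t i) (fun t => hd2 t i) t
    exact h2
  · have h3 : cl e ≫ cl d = cl (g.subpath s s') ≫ cl e' := by
      rw [← cl_trans, ← cl_trans]
      refine avd_ball hβ _ _ (avd_trans e d heO hd1) (avd_trans _ e' ?_ fun t => (hβO (he' t)).2)
      intro t
      have h4 : (g.subpath s s') t ∈ range (g.subpath s s') := mem_range_self t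
      rw [Path.range_subpath] at h4
      obtain ⟨r, hr, hr2⟩ := h4
      rw [← hr2]
      exact hgβ r hr
    rw [cl_trans, hcl, Category.assoc, h3, ← Category.assoc, ← cl_trans]
    rw [cl_eq ⟨Path.Homotopy.subpathTransSubpath g 0 s s'⟩]

theorem avd_cast {a b a' b' : N} (ha : a' = a) (hb : b' = b) (c : Path a b) (d : Path a' b')
    (h : cl c = cl (d.cast ha.symm hb.symm)) : cl (c.cast ha hb) = cl d := by
  subst ha
  subst hb
  exact h

/-- every path class with end points off finitely many arcs is represented by a path off the arcs -/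
theorem avoid [IsManifold (𝓡 3) ∞ N] [T2Space N] {ι : Type*} [Finite ι] {A : ι → Set N} (hA : ∀ i, Arc (A i)) {y y' : N}
    (hy : ∀ i, y ∉ A i) (hy' : ∀ i, y' ∉ A i) (γ : FundamentalGroupoid.mk y ⟶ FundamentalGroupoid.mk y') :
    ∃ c : Path y y', cl c = γ ∧ ∀ t i, c t ∉ A i := by
  classical
  obtain ⟨g, rfl⟩ := cl_surj γ
  have hch : ∀ t : unitInterval, ∃ β : E → N, Cht (Metric.ball 0 2) β ∧
      β '' Metric.ball 0 2 ⊆ univ ∧ β 0 = g t := fun t => exists_chart isOpen_univ (mem_univ _)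
  choose β hβ _ hβ0 using hch
  have hopen : ∀ i : unitInterval, IsOpen (g ⁻¹' (β i '' Metric.ball 0 1)) := fun i =>
    ((hβ i).img Metric.isOpen_ball (Metric.ball_subset_ball (by norm_num))).preimage g.continuous
  have hcov : (univ : Set unitInterval) ⊆ ⋃ i, g ⁻¹' (β i '' Metric.ball 0 1) := fun i _ =>
    mem_iUnion.2 ⟨i, ⟨0, Metric.mem_ball_self one_pos, hβ0 i⟩⟩
  obtain ⟨δ, hδ, hδ2⟩ := lebesgue_number_lemma_of_metric isCompact_univ hopen hcov
  obtain ⟨n, hn⟩ := exists_nat_one_div_lt hδ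
  have hn0 : (0 : ℝ) < (n : ℝ) + 1 := by positivity
  have h0A : ∀ i, g 0 ∉ A i := fun i => by
    rw [g.source]
    exact hy i
  have h1A : ∀ i, g 1 ∉ A i := fun i => by
    rw [g.target]
    exact hy' i
  have hP0 : avd_P A g 0 := by
    intro O _ hgO
    refine ⟨g 0, hgO, h0A, Path.refl _, Path.refl _, fun t i => h0A i, fun t => hgO, ?_⟩
    rw [Path.subpath_self, cl_refl, Category.comp_id]
  have hk : ∀ k : ℕ, avd_P A g (projIcc (0 : ℝ) 1 zero_le_one ((k : ℝ) / ((n : ℝ) + 1))) := by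
    intro k
    induction k with
    | zero =>
      have h1 : projIcc (0 : ℝ) 1 zero_le_one (((0 : ℕ) : ℝ) / ((n : ℝ) + 1)) = 0 := by
        rw [Nat.cast_zero, zero_div]
        exact projIcc_left zero_le_one
      rw [h1]
      exact hP0
    | succ k ih =>
      obtain ⟨i, hi⟩ := hδ2 (projIcc (0 : ℝ) 1 zero_le_one ((k : ℝ) / ((n : ℝ) + 1))) (mem_univ _)
      refine avd_step hA g ih (hβ i) ?_
      intro t ht
      refine hi ?_
      rw [Metric.mem_ball]
      have h2 : dist t (projIcc (0 : ℝ) 1 zero_le_one ((k : ℝ) / ((n : ℝ) + 1))) ≤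
          dist (projIcc (0 : ℝ) 1 zero_le_one (((k + 1 : ℕ) : ℝ) / ((n : ℝ) + 1)))
            (projIcc (0 : ℝ) 1 zero_le_one ((k : ℝ) / ((n : ℝ) + 1))) := by
        rw [Subtype.dist_eq, Subtype.dist_eq, Real.dist_eq, Real.dist_eq]
        rcases mem_uIcc.1 ht with ⟨h3, h4⟩ | ⟨h3, h4⟩
        · have h3' : ((projIcc (0 : ℝ) 1 zero_le_one ((k : ℝ) / ((n : ℝ) + 1)) : unitInterval) : ℝ) ≤ t := h3
          have h4' : (t : ℝ) ≤ (projIcc (0 : ℝ) 1 zero_le_one (((k + 1 : ℕ) : ℝ) / ((n : ℝ) + 1)) : unitInterval) := h4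
          rw [abs_of_nonneg (by linarith), abs_of_nonneg (by linarith)]
          linarith
        · have h3' : ((projIcc (0 : ℝ) 1 zero_le_one (((k + 1 : ℕ) : ℝ) / ((n : ℝ) + 1)) : unitInterval) : ℝ) ≤ t := h3
          have h4' : (t : ℝ) ≤ (projIcc (0 : ℝ) 1 zero_le_one ((k : ℝ) / ((n : ℝ) + 1)) : unitInterval) := h4
          rw [abs_of_nonpos (by linarith), abs_of_nonpos (by linarith)]
          linarith
      refine lt_of_le_of_lt (h2.trans ?_) hn
      rw [Subtype.dist_eq, Real.dist_eq]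
      refine (abs_projIcc_sub_projIcc zero_le_one).trans (le_of_eq ?_)
      rw [← sub_div, Nat.cast_add, Nat.cast_one, add_sub_cancel_left]
      exact abs_of_pos (by positivity)
  have hP1 : avd_P A g 1 := by
    have h1 := hk (n + 1)
    have h2 : projIcc (0 : ℝ) 1 zero_le_one (((n + 1 : ℕ) : ℝ) / ((n : ℝ) + 1)) = 1 := by
      rw [Nat.cast_add, Nat.cast_one, div_self hn0.ne']
      exact projIcc_right zero_le_one
    rw [h2] at h1
    exact h1
  have hB : IsOpen (β 1 '' Metric.ball 0 1) :=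
    (hβ 1).img Metric.isOpen_ball (Metric.ball_subset_ball (by norm_num))
  have h1B : g 1 ∈ β 1 '' Metric.ball 0 1 := ⟨0, Metric.mem_ball_self one_pos, hβ0 1⟩
  obtain ⟨z, hzO, hzA, c, e, hcA, heO, hcl⟩ := hP1 _ hB h1B
  obtain ⟨d, hd1, hd2⟩ := avoid_ball hA (hβ 1) hzO h1B hzA h1A
  refine ⟨(c.trans d).cast g.source.symm g.target.symm, ?_, ?_⟩
  · refine avd_cast _ _ _ _ ?_
    have h3 : cl e ≫ cl d = 𝟙 _ := by
      rw [← cl_trans, ← cl_refl]
      exact avd_ball (hβ 1) _ _ (avd_trans e d heO hd1) fun t => h1B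
    rw [cl_trans, hcl, Category.assoc, h3, Category.comp_id, Path.subpath_zero_one]
  · intro t i
    have h2 : (c.trans d) t ∈ (A i)ᶜ := avd_trans c d (fun t => hcA t i) (fun t => hd2 t i) t
    exact h2

end Pool.Agent.NHQ
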