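import Mathlib
import Pool.Agent.NHQ.Cnj
import Pool.Agent.NHQ.Stt
import Pool.Agent.NHE.Exf
import Pool.Agent.NHE.Pth

/-!
# NHQ/Exi: existence of chords with standard ends in prescribed classes, all small sizes (difficulty 3)

From `exists_chord` (`NHE/Exf`, block E1) and `std_thin`.  `O ∩ (core κ)ᶜ`: the path `c` of `N` with values in `O \ core κ` is a path `c'` of the subtype.  `exists_chord` gives `σ, r, T₁` with `StdR κ p q ε₁ σ r T₁`, `T₁ '' TD ⊆ O`,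
`RepI (fun x => T₁ (0, x)) (1/8) (7/8) c'`.  `ε₀ = r ε₁` (`≤ ε₁`); for `ε ≤ ε₀` `std_thin` gives `T`.
Class of the core of `T₁` on `[0, 1]`: `T₁ (0, t) = κ (p, ε₁ t)` for `t < 1/4`, `T₁ (0, 1 - t) = κ (q, ε₁ t)`, so `[0, 1/8]` is `φ`, `[7/8, 1]` is `inv ψ`, the middle part is `cl c` (by `RepI`, `Rep`: `γ'` homotopic to `c'` in the subtype, mapped to `N`):
`PC.add` twice (`T₁ (0, ·)` is continuous on the convex set `Ioo (-1/4) (5/4)`).  This computation is done in the old proof of `NHQ/Exl` (helper12, /team-store/nhq_Exl.lean, last 80 lines): copy it.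
(`a = κ (p, 0)`, `b = κ (q, 0)` follow from `PC.zero`.)
-/

open scoped Manifold ContDiff Topology
open Set Filter CategoryTheory
open Pool.Agent.RSG (E3 ex Thick)
open Pool.Agent.KNT (bmp)
open Pool.Agent.NHP
open Pool.Agent.NHE (eb)

namespace Pool.Agent.NHQ

variable {N : Type*} [TopologicalSpace N] [ChartedSpace E3 N] [IsManifold (𝓡 3) ∞ N] [T2Space N]

theorem exists_chd {κ : ℝ × ℂ → N} (hκ : Thick κ) {p q ε₁ : ℝ} (ha : Adm p q ε₁) {O : Set N} (hO : IsOpen O)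
    (hOp : eb κ p ε₁ ⊆ O) (hOq : eb κ q ε₁ ⊆ O) {y y' : N} (hy : y = κ (p, ((ε₁ * (1 / 8) : ℝ) : ℂ)))
    (hy' : y' = κ (q, ((ε₁ * (1 / 8) : ℝ) : ℂ))) (c : Path y y') (hc : ∀ t, c t ∈ O \ core κ) :
    ∃ ε₀ : ℝ, 0 < ε₀ ∧ ε₀ ≤ ε₁ ∧ ∀ ε : ℝ, 0 < ε → ε ≤ ε₀ → ∃ (σ : ℝ) (T : E → N), (σ = 1 ∨ σ = -1) ∧ Chd (core κ) T ∧
      StdE κ p q ε σ T ∧ T '' TD ⊆ O ∧
      ∀ (a b : N) (φ : FundamentalGroupoid.mk a ⟶ FundamentalGroupoid.mk y) (ψ : FundamentalGroupoid.mk b ⟶ FundamentalGroupoid.mk y'),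
        PC (fun t => κ (p, ((ε₁ * (t / 8) : ℝ) : ℂ))) φ → PC (fun t => κ (q, ((ε₁ * (t / 8) : ℝ) : ℂ))) ψ →
        PC (fun t => T (0, t)) (φ ≫ cl c ≫ inv ψ) := by
  have h1 : 0 < ε₁ := ha.pos
  have hycase : y = κ (p, ((ε₁ / 8 : ℝ) : ℂ)) := by
    rw [hy]
    have : ε₁ * (1 / 8) = ε₁ / 8 := by ring
    rw [this]
  have hycase' : y' = κ (q, ((ε₁ / 8 : ℝ) : ℂ)) := by
    rw [hy']
    have : ε₁ * (1 / 8) = ε₁ / 8 := by ring
    rw [this]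
  have hc' : ∀ t, c t ∈ O ∩ (core κ)ᶜ := fun t => ⟨(hc t).1, (hc t).2⟩
  have hym : y ∈ O ∩ (core κ)ᶜ := by
    have := hc' 0
    rwa [c.source] at this
  have hym' : y' ∈ O ∩ (core κ)ᶜ := by
    have := hc' 1
    rwa [c.target] at this
  obtain ⟨c₂, hc₂⟩ : ∃ c₂ : Path (⟨y, hym⟩ : (O ∩ (core κ)ᶜ : Set N)) ⟨y', hym'⟩, ∀ t, (c₂ t : N) = c t :=
    ⟨⟨⟨fun t => ⟨c t, hc' t⟩, Continuous.subtype_mk c.continuous _⟩,
      Subtype.ext c.source, Subtype.ext c.target⟩, fun t => rfl⟩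
  obtain ⟨σ, r, T₁, hchd, hstd, hTO, hrep⟩ := NHE.exists_chord hκ ha hO hOp hOq c₂ hycase hycase'
  have hr := hstd.pos
  have hr8 := hstd.le
  refine ⟨r * ε₁, mul_pos hr h1, ?_, ?_⟩
  · nlinarith
  intro ε hε0 hε
  obtain ⟨T, hT, hTs, -, hTsub, -, hcl⟩ := std_thin hchd hstd h1 hε0 hε
  refine ⟨σ, T, hstd.sgn, hT, hTs, hTsub.trans hTO, ?_⟩
  intro a b φ ψ hφ hψ
  apply hcl
  have hTD : ∀ r : ℝ, -(1 / 4) < r → r < 5 / 4 → ((0 : ℂ), r) ∈ TD := by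
    intro r hr1 hr2
    exact ⟨by simp, hr1, hr2⟩
  have hTc : ContinuousOn (fun r : ℝ => T₁ (0, r)) (Ioo (-(1 / 4)) (5 / 4)) := by
    refine hchd.cht.contOn.comp (f := fun r : ℝ => ((0 : ℂ), r)) (by fun_prop) ?_
    intro r hr
    exact hTD r hr.1 hr.2
  have hC : Convex ℝ (Ioo (-(1 / 4) : ℝ) (5 / 4)) := convex_Ioo _ _
  have g1 : PC (fun t => T₁ (0, 0 + (1 / 8 - 0) * t)) φ := by
    refine hφ.congr ?_
    intro t ht1
    have h1 := hstd.foot ((0 : ℂ), 0 + (1 / 8 - 0) * t)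
      (hTD _ (by linarith [ht1.1]) (by linarith [ht1.2])) (by
        change 0 + (1 / 8 - 0) * t < 1 / 4
        linarith [ht1.2])
    rw [h1]
    unfold footT
    have e0 : ((r : ℂ) * ((0 : ℂ), 0 + (1 / 8 - 0) * t).1) = 0 := by simp
    rw [e0]
    have e1 : p + ε₁ * ((0 : ℂ), 0 + (1 / 8 - 0) * t).1.re = p := by simp
    have e2 : (ε₁ : ℂ) * (⟨((0 : ℂ), 0 + (1 / 8 - 0) * t).2,
        ((0 : ℂ), 0 + (1 / 8 - 0) * t).1.im⟩ : ℂ) = ((ε₁ * (t / 8) : ℝ) : ℂ) := by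
      apply Complex.ext
      · rw [Complex.re_ofReal_mul, Complex.ofReal_re]; ring
      · rw [Complex.im_ofReal_mul, Complex.ofReal_im]; simp
    rw [← e2]
    congr 1
    refine Prod.ext ?_ ?_
    · show p + ε₁ * (0 : ℂ).re = p
      simp
    · rfl
  have g3 : PC (fun t => T₁ (0, 7 / 8 + (1 - 7 / 8) * t)) (inv ψ) := by
    refine hψ.symm.congr ?_
    intro t ht1
    have h1 := hstd.tip ((0 : ℂ), 7 / 8 + (1 - 7 / 8) * t)
      (hTD _ (by linarith [ht1.1]) (by linarith [ht1.2])) (by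
        change 3 / 4 < 7 / 8 + (1 - 7 / 8) * t
        linarith [ht1.1])
    rw [h1]
    unfold tipT
    have e0 : ((r : ℂ) * ((0 : ℂ), 7 / 8 + (1 - 7 / 8) * t).1) = 0 := by simp
    rw [e0]
    have e2 : (ε₁ : ℂ) * (⟨1 - ((0 : ℂ), 7 / 8 + (1 - 7 / 8) * t).2,
        (0 : ℂ).re⟩ : ℂ) = ((ε₁ * ((1 - t) / 8) : ℝ) : ℂ) := by
      apply Complex.ext
      · rw [Complex.re_ofReal_mul, Complex.ofReal_re]; ring
      · rw [Complex.im_ofReal_mul, Complex.ofReal_im]; simp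
    rw [← e2]
    congr 1
    refine Prod.ext ?_ ?_
    · show q + σ * ε₁ * (0 : ℂ).im = q
      simp
    · rfl
  have g2 : PC (fun t => T₁ (0, 1 / 8 + (7 / 8 - 1 / 8) * t)) (cl c) := by
    obtain ⟨γ', hγ', hom⟩ := hrep
    refine ⟨γ'.map continuous_subtype_val, ?_, ?_⟩
    · intro t
      change (γ' t : N) = _
      rw [hγ' t]
      have e1 : (1 / 8 : ℝ) + (t : ℝ) * (7 / 8 - 1 / 8) = 1 / 8 + (7 / 8 - 1 / 8) * (t : ℝ) := by ring
      change T₁ (0, 1 / 8 + (t : ℝ) * (7 / 8 - 1 / 8)) = T₁ (0, 1 / 8 + (7 / 8 - 1 / 8) * (t : ℝ))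
      rw [e1]
    · have h1 := cl_eq (hom.map ⟨Subtype.val, continuous_subtype_val⟩)
      refine Eq.trans h1 ?_
      have h2 : c₂.map continuous_subtype_val = c := by
        ext t
        exact hc₂ t
      exact congrArg cl h2
  have g23 := PC.add hC hTc (by norm_num) (by norm_num) (by norm_num) g2 g3
  have g123 := PC.add hC hTc (by norm_num) (by norm_num) (by norm_num) g1 g23
  refine g123.congr ?_
  intro t _
  have e1 : (0 : ℝ) + (1 - 0) * t = t := by ring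
  change T₁ (0, t) = T₁ (0, 0 + (1 - 0) * t)
  rw [e1]

end Pool.Agent.NHQ
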