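import Mathlib
import Pool.Agent.NHQ.Exi
import Pool.Agent.NHQ.Avd
import Pool.Agent.NHQ.Sg
import Pool.Agent.NHP.Fol

/-!
# NHQ/Exl: existence of chords with given foot, tip and label, off finitely many arcs: axiom (B) (difficulty 3)

`K = range k = core κ`.  Arcs are compact, hence closed (`N` is T2).  Choose `ε₀` with `Adm p q ε` for `0 < ε ≤ ε₀` (`2 ε < q - p`, `2 ε < 1 - (q - p)`, `ε < 1/4`), `2 ε₀ < p`, `2 ε₀ < 1 - q`, and `κ (l, v) ∉ A i` for `|l - p| ≤ ε₀`, `‖v‖ ≤ 2 ε₀` and for `|l - q| ≤ ε₀`, `‖v‖ ≤ 2 ε₀`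
(continuity of `κ` at `(p, 0)`, `(q, 0)`; `κ (p, 0) = k p ∉ A i`); so the foot tube and the tip tube (`footT`, `tipT` on the end parts of `TD`) are in `O = (⋃ i, A i)ᶜ`.
Let `y = κ (p, ε/8)`, `y' = κ (q, ε/8)`: not in `K` (`Thick.inj`).  Classes (all by `exists_PC`): `α : x ⟶ k p`, `δ : x ⟶ k q` along `k`; `φ : k p ⟶ y` of `t ↦ κ (p, ε t/8)`, `ψ : k q ⟶ y'` of `t ↦ κ (q, ε t/8)`.
`γ = inv φ ≫ inv α ≫ c ≫ δ ≫ ψ : y ⟶ y'`.  `avoid` with the arcs `A i` and `core κ` (index `Option ι`) gives a path `c₁` of class `γ` off `K` and off all `A i`; it is a path of `O \ core κ`, `O = (⋃ i, A i)ᶜ`.  `exists_chd` gives `σ, T`.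
Core: `StdE` gives `T (0, r) = κ (p, ε r)` for `0 ≤ r ≤ 1/8` (indeed for `r < 1/4`) and `T (0, 1 - r) = κ (q, ε r)`; the class of `T (0, ·)` on `[0, 1]` is `φ ≫ γ ≫ inv ψ` (`PC.add` on `[0, 1/8]`, `[1/8, 7/8]`, `[7/8, 1]`; `T (0, ·)` is continuous on the convex set
`(-1/4, 5/4)`; the middle part by `Rep`), which is `inv α ≫ c ≫ δ`; so the label is `α ≫ (inv α ≫ c ≫ δ) ≫ inv δ = c`.
`x = κ (0, 0) ∉ T '' TD`: it is in `K`, so it would be in `T '' TS` (`hit`), i.e. `κ (p + ε u, 0)` or `κ (q + σ ε u, 0)` with `|u| < 1` (the strands are in the regions `x < 1/4`, `x > 3/4` of `StdE`): impossible by `Thick.inj` (`0 < p - ε`, `q + ε < 1`).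
-/

open scoped Manifold ContDiff Topology
open Set Filter CategoryTheory
open Pool.Agent.RSG (E3 ex Thick)
open Pool.Agent.KNT (bmp)
open Pool.Agent.NHP
open Pool.Agent.NHE (eb)

namespace Pool.Agent.NHQ

variable {N : Type*} [TopologicalSpace N] [ChartedSpace E3 N] [IsManifold (𝓡 3) ∞ N] [T2Space N]

omit [IsManifold (𝓡 3) ∞ N] [T2Space N] in
private theorem exl_thick_cont {κ : ℝ × ℂ → N} (hκ : Thick κ) (l : ℝ) {v : ℂ} (hv : ‖v‖ < 1) :
    ContinuousAt κ (l, v) :=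
  (hκ.loc l v hv).contMDiffAt.continuousAt

omit [IsManifold (𝓡 3) ∞ N] in
private theorem exl_arc_closed {A : Set N} (hA : Arc A) : IsClosed A := by
  obtain ⟨f, a, b, hab, hf, rfl⟩ := hA
  exact (isCompact_Icc.image_of_continuousOn
    (fun t ht => (hf t ht).continuousAt.continuousWithinAt)).isClosed

private theorem exl_small (s : List ℝ) (h : ∀ a ∈ s, 0 < a) : ∃ e : ℝ, 0 < e ∧ ∀ a ∈ s, e < a := by
  induction s with
  | nil => exact ⟨1, one_pos, by simp⟩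
  | cons b s ih =>
    obtain ⟨e, he, h'⟩ := ih (fun a ha => h a (List.mem_cons_of_mem _ ha))
    refine ⟨min e (b / 2), lt_min he (half_pos (h b List.mem_cons_self)), ?_⟩
    intro a ha
    rcases List.mem_cons.1 ha with rfl | ha
    · exact lt_of_le_of_lt (min_le_right _ _) (half_lt_self (h a List.mem_cons_self))
    · exact lt_of_le_of_lt (min_le_left _ _) (h' a ha)

theorem exists_chl {κ : ℝ × ℂ → N} (hκ : Thick κ) {k : ℝ → N} (hk : ∀ l, κ (l, 0) = k l) {x : N} (hx : k 0 = x) {p q : ℝ}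
    (hp : 0 < p) (hpq : p < q) (hq : q < 1) (c : FundamentalGroupoid.mk x ⟶ FundamentalGroupoid.mk x) {ι : Type*} [Finite ι]
    {A : ι → Set N} (hA : ∀ i, Arc (A i)) (hpA : ∀ i, k p ∉ A i) (hqA : ∀ i, k q ∉ A i) :
    ∃ ε₀ : ℝ, 0 < ε₀ ∧ ∀ ε : ℝ, 0 < ε → ε ≤ ε₀ → Adm p q ε ∧ ∃ (σ : ℝ) (T : E → N), (σ = 1 ∨ σ = -1) ∧
      ChL x k T p q c ∧ StdE κ p q ε σ T ∧ ∀ i, ∀ t ∈ Icc (0 : ℝ) 1, T (0, t) ∉ A i := by
  set O : Set N := (⋃ i, A i)ᶜ with hOdef
  have hOo : IsOpen O := (isClosed_iUnion_of_finite (fun i => exl_arc_closed (hA i))).isOpen_compl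
  have hmO : ∀ z, z ∈ O ↔ ∀ i, z ∉ A i := by
    intro z
    simp [hOdef]
  have hpO : κ (p, 0) ∈ O := by
    rw [hmO, hk]; exact hpA
  have hqO : κ (q, 0) ∈ O := by
    rw [hmO, hk]; exact hqA
  have hnear : ∀ l : ℝ, κ (l, 0) ∈ O → ∃ r : ℝ, 0 < r ∧ ∀ (l' : ℝ) (v : ℂ), |l'| < r → ‖v‖ < r →
      κ (l + l', v) ∈ O := by
    intro l hl
    have h1 : ContinuousAt κ (l, 0) := exl_thick_cont hκ l (by simp)
    have h2 := h1.eventually (hOo.mem_nhds hl)
    obtain ⟨r, hr, h3⟩ := Metric.eventually_nhds_iff.1 h2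
    refine ⟨r, hr, fun l' v hl' hv => h3 ?_⟩
    rw [Prod.dist_eq]
    refine max_lt ?_ ?_
    · change dist (l + l') l < r
      rw [Real.dist_eq]
      have : l + l' - l = l' := by ring
      rw [this]; exact hl'
    · change dist v 0 < r
      rw [dist_zero_right]; exact hv
  obtain ⟨rp, hrp, hP⟩ := hnear p hpO
  obtain ⟨rq, hrq, hQ⟩ := hnear q hqO
  obtain ⟨ε₀, h0, hl⟩ := exl_small [rp / 2, rq / 2, p, 1 - q, (q - p) / 2, (1 - (q - p)) / 2, 1 / 4] (by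
    intro a ha
    simp only [List.mem_cons, List.not_mem_nil, or_false] at ha
    rcases ha with rfl | rfl | rfl | rfl | rfl | rfl | rfl <;> linarith)
  have l1 : ε₀ < rp / 2 := hl _ (by simp)
  have l2 : ε₀ < rq / 2 := hl _ (by simp)
  have l3 : ε₀ < p := hl _ (by simp)
  have l4 : ε₀ < 1 - q := hl _ (by simp)
  have l5 : ε₀ < (q - p) / 2 := hl _ (by simp)
  have l6 : ε₀ < (1 - (q - p)) / 2 := hl _ (by simp)
  have l7 : ε₀ < 1 / 4 := hl _ (by simp)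
  have hAdm : ∀ ε : ℝ, 0 < ε → ε ≤ ε₀ → Adm p q ε := by
    intro ε hε hε0
    refine ⟨hε, by linarith, fun m => ?_⟩
    rcases le_or_gt m 0 with hm | hm
    · have hm' : (m : ℝ) ≤ 0 := by exact_mod_cast hm
      have := neg_le_abs (p - q + m)
      linarith
    · have hm' : (1 : ℝ) ≤ (m : ℝ) := by exact_mod_cast hm
      have := le_abs_self (p - q + m)
      linarith
  -- norms
  have hnr : ∀ r : ℝ, 0 ≤ r → r ≤ 1 / 8 → ‖((ε₀ * r : ℝ) : ℂ)‖ ≤ ε₀ / 8 := by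
    intro r hr0 hr1
    rw [Complex.norm_real, Real.norm_eq_abs, abs_of_nonneg (by positivity)]
    nlinarith
  have h8 : (1 / 8 : ℝ) ∈ Icc (0 : ℝ) (1 / 8) := ⟨by norm_num, le_rfl⟩
  have hPy : κ (p, ((ε₀ * (1 / 8) : ℝ) : ℂ)) ∈ O := by
    have h1 := hP 0 ((ε₀ * (1 / 8) : ℝ) : ℂ) (by simpa using hrp)
      (lt_of_le_of_lt (hnr _ h8.1 h8.2) (by linarith))
    rwa [add_zero] at h1
  have hQy : κ (q, ((ε₀ * (1 / 8) : ℝ) : ℂ)) ∈ O := by
    have h1 := hQ 0 ((ε₀ * (1 / 8) : ℝ) : ℂ) (by simpa using hrq)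
      (lt_of_le_of_lt (hnr _ h8.1 h8.2) (by linarith))
    rwa [add_zero] at h1
  have heb : ∀ z : ℝ × ℂ, ∀ l : ℝ, (z.1 - l) ^ 2 + ‖z.2‖ ^ 2 < ε₀ ^ 2 → |z.1 - l| < ε₀ ∧ ‖z.2‖ < ε₀ := by
    intro z l hz
    constructor
    · exact abs_lt_of_sq_lt_sq (by nlinarith [sq_nonneg ‖z.2‖]) h0.le
    · have h1 : |‖z.2‖| < ε₀ := abs_lt_of_sq_lt_sq (by nlinarith [sq_nonneg (z.1 - l)]) h0.le
      rwa [abs_of_nonneg (norm_nonneg _)] at h1
  have hOp : eb κ p ε₀ ⊆ O := by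
    rintro _ ⟨z, hz, rfl⟩
    obtain ⟨h1, h2⟩ := heb z p hz
    have h3 := hP (z.1 - p) z.2 (by linarith) (by linarith)
    rw [add_sub_cancel] at h3
    exact h3
  have hOq : eb κ q ε₀ ⊆ O := by
    rintro _ ⟨z, hz, rfl⟩
    obtain ⟨h1, h2⟩ := heb z q hz
    have h3 := hQ (z.1 - q) z.2 (by linarith) (by linarith)
    rw [add_sub_cancel] at h3
    exact h3
  have hnc : ∀ l : ℝ, κ (l, ((ε₀ * (1 / 8) : ℝ) : ℂ)) ∉ core κ := by
    rintro l ⟨l', hl'⟩
    have h1 := (hκ.inj l' 0 l ((ε₀ * (1 / 8) : ℝ) : ℂ) (by simp)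
      (lt_of_le_of_lt (hnr _ h8.1 h8.2) (by linarith)) hl').1
    have h2 : ε₀ * (1 / 8) = 0 := by
      exact_mod_cast h1.symm
    linarith
  have hkc : Continuous k := by
    rw [continuous_iff_continuousAt]
    intro l
    have h1 : ContinuousAt (fun l : ℝ => κ (l, 0)) l :=
      ContinuousAt.comp (f := fun l : ℝ => (l, (0 : ℂ))) (g := κ) (exl_thick_cont hκ l (by simp))
        (by fun_prop)
    have h2 : (fun l : ℝ => κ (l, 0)) = k := funext hk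
    rwa [h2] at h1
  have hrad : ∀ l : ℝ, ContinuousOn (fun t : ℝ => κ (l, ((ε₀ * (t / 8) : ℝ) : ℂ))) (Icc 0 1) := by
    intro l t ht1
    refine ContinuousAt.continuousWithinAt ?_
    refine ContinuousAt.comp (f := fun t : ℝ => (l, ((ε₀ * (t / 8) : ℝ) : ℂ))) (g := κ)
      (exl_thick_cont hκ l (lt_of_le_of_lt (hnr _ (by linarith [ht1.1]) (by linarith [ht1.2]))
        (by linarith))) ?_
    exact Continuous.continuousAt (by fun_prop)
  set y : N := κ (p, ((ε₀ * (1 / 8) : ℝ) : ℂ)) with hydef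
  set y' : N := κ (q, ((ε₀ * (1 / 8) : ℝ) : ℂ)) with hy'def
  obtain ⟨α, hα⟩ := exists_PC (x := x) (y := k p) (f := fun t => k (p * t))
    (hkc.comp (by fun_prop)).continuousOn (by simp [hx]) (by simp)
  obtain ⟨δ, hδ⟩ := exists_PC (x := x) (y := k q) (f := fun t => k (q * t))
    (hkc.comp (by fun_prop)).continuousOn (by simp [hx]) (by simp)
  obtain ⟨φ, hφ⟩ := exists_PC (x := k p) (y := y) (f := fun t : ℝ => κ (p, ((ε₀ * (t / 8) : ℝ) : ℂ)))
    (hrad p) (by simp [hk]) (by simp [hydef])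
  obtain ⟨ψ, hψ⟩ := exists_PC (x := k q) (y := y') (f := fun t : ℝ => κ (q, ((ε₀ * (t / 8) : ℝ) : ℂ)))
    (hrad q) (by simp [hk]) (by simp [hy'def])
  set γ : FundamentalGroupoid.mk y ⟶ FundamentalGroupoid.mk y' := inv φ ≫ inv α ≫ c ≫ δ ≫ ψ with hγdef
  have hyO : y ∈ O := hPy
  have hy'O : y' ∈ O := hQy
  obtain ⟨c₁, hc₁, hc₁'⟩ := avoid (ι := Option ι) (A := fun o => o.elim (core κ) A)
    (by
      intro o
      cases o with
      | none => exact arc_core hκ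
      | some i => exact hA i)
    (y := y) (y' := y')
    (by
      intro o
      cases o with
      | none => exact hnc p
      | some i => exact (hmO _).1 hyO i)
    (by
      intro o
      cases o with
      | none => exact hnc q
      | some i => exact (hmO _).1 hy'O i) γ
  have hmem : ∀ t, c₁ t ∈ O \ core κ := by
    intro t
    exact ⟨(hmO _).2 (fun i => hc₁' t (some i)), hc₁' t none⟩
  obtain ⟨ε', he0, he1, hex⟩ := exists_chd hκ (hAdm ε₀ h0 le_rfl) hOo hOp hOq rfl rfl c₁ hmem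
  refine ⟨ε', he0, fun ε hε hεe => ?_⟩
  have hε0 : ε ≤ ε₀ := hεe.trans he1
  refine ⟨hAdm ε hε hε0, ?_⟩
  obtain ⟨σ, T, hσ, hchd, hstd, hTO, hcls⟩ := hex ε hε hεe
  refine ⟨σ, T, hσ, ⟨?_, hp, hpq, hq, ?_, ?_⟩, hstd, fun i t ht' => (hmO _).1
    (hTO ⟨((0 : ℂ), t), ⟨by simp, by linarith [ht'.1], by linarith [ht'.2]⟩, rfl⟩) i⟩
  · have h2 : range k = core κ := by
      have h3 : k = fun l : ℝ => κ (l, 0) := funext (fun l => (hk l).symm)
      rw [h3]; rfl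
    rw [h2]; exact hchd
  · intro hxT
    have hxK : x ∈ core κ := ⟨0, by rw [← hx]; exact hk 0⟩
    have h1 : x ∈ T '' TS := by
      rw [← hchd.hit]; exact ⟨hxK, hxT⟩
    obtain ⟨s, ⟨hsD, hs⟩, hsx⟩ := h1
    have hx0 : x = κ (0, 0) := by rw [hk, hx]
    have hn1 : ‖s.1‖ < 1 := hsD.1
    rcases hs with ⟨h2, h3⟩ | ⟨h2, h3⟩
    · rw [hstd.foot s hsD (by rw [h2]; norm_num), hx0] at hsx
      unfold footT at hsx
      have e1 : (ε : ℂ) * (⟨s.2, s.1.im⟩ : ℂ) = 0 := by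
        rw [h2, h3]
        have : (⟨0, 0⟩ : ℂ) = 0 := rfl
        rw [this, mul_zero]
      rw [e1] at hsx
      obtain ⟨-, m, hm⟩ := hκ.inj _ _ _ _ (by simp) (by simp) hsx.symm
      have h4 : |s.1.re| < 1 := lt_of_le_of_lt (Complex.abs_re_le_norm _) hn1
      have h5 := abs_lt.1 h4
      have h6 : 0 < p + ε * s.1.re := by nlinarith
      have h7 : p + ε * s.1.re < 1 := by nlinarith
      rw [hm, zero_add] at h6 h7
      have h8' : (0 : ℤ) < m := by exact_mod_cast h6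
      have h9 : m < (1 : ℤ) := by exact_mod_cast h7
      omega
    · rw [hstd.tip s hsD (by rw [h2]; norm_num), hx0] at hsx
      unfold tipT at hsx
      have e1 : (ε : ℂ) * (⟨1 - s.2, s.1.re⟩ : ℂ) = 0 := by
        rw [h2, h3]
        have : (⟨1 - 1, 0⟩ : ℂ) = 0 := by
          apply Complex.ext <;> simp
        rw [this, mul_zero]
      rw [e1] at hsx
      obtain ⟨-, m, hm⟩ := hκ.inj _ _ _ _ (by simp) (by simp) hsx.symm
      have h4 : |s.1.im| < 1 := lt_of_le_of_lt (Complex.abs_im_le_norm _) hn1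
      have h5 := abs_lt.1 h4
      have h6 : 0 < q + σ * ε * s.1.im := by
        rcases hσ with rfl | rfl <;> nlinarith
      have h7 : q + σ * ε * s.1.im < 1 := by
        rcases hσ with rfl | rfl <;> nlinarith
      rw [hm, zero_add] at h6 h7
      have h8' : (0 : ℤ) < m := by exact_mod_cast h6
      have h9 : m < (1 : ℤ) := by exact_mod_cast h7
      omega
  · refine ⟨α, φ ≫ cl c₁ ≫ inv ψ, δ, hα, hcls _ _ φ ψ hφ hψ, hδ, ?_⟩
    rw [hc₁, hγdef]
    simp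

end Pool.Agent.NHQ
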