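import Mathlib
import Pool.Agent.NHQ.Exl
import Pool.Agent.NHQ.Lab

/-!
# NHQ/AxC: axiom (C) of the label calculus: two fingers and a third one (difficulty 3)

`K = range k`, `κ` thick with `κ (l, 0) = k l`.  `St x c k k₁`: chord `T₁` (`p₁, q₁`), `k₁ = V₁ ∘ fing T₁ ∘ k` (`V₁ = V 1` of a push of `{x}ᶜ`); `St x d k k₂`: `T₂`, `V₂`.  Cores `A₁ = T₁ '' {(0, t) | 0 ≤ t ≤ 1}`, `A₂` (`arc_chord`).
`A_i ∩ K = {k p_i, k q_i}` (`hit`: `(0, t) ∈ TS` iff `t = 0` or `t = 1`).  Choose `0 < p < q < 1` different from `p₁, q₁, p₂, q₂` (`Set.Infinite` / finite set): `k p, k q ∉ A_i` (`Thick.inj`: `k` is injective on `[0, 1)`).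
`exists_chl` gives a chord `S` of label `e`, core off `A₁ ∪ A₂`.  `ChL.thin` for `S` with `O = (A₁ ∪ A₂)ᶜ` (arcs are closed): `S'`, contained in a compact set `C ⊆ O`.  `ChL.thin` for `T_i` with `O = Cᶜ`: `T_i'`, `T_i' '' TD ∩ S' '' TD = ∅`,
and `fing T_i' (k t) = U_i 1 (fing T_i (k t))`, `U_i` a push of `T_i '' TD ⊆ {x}ᶜ`.
`k' = fing S' ∘ k`: `St x e k k'` (`Mv.refl`).  `k_i' = fing T_i' ∘ k'`: `St x c k' k₁'` by `ChL.fing` (chord `T₁'` of `k'`).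
`St x e k₁ k₁'`: `ĵ = fing T₁' ∘ k`; `S'` is a chord of `ĵ` with label `e` (`ChL.fing`), `fing S' ∘ ĵ = fing T₁' ∘ fing S' ∘ k = k₁'` (`fing_comm`): `St x e ĵ k₁'`.  `k₁ = V₁ ∘ U₁⁻¹ ∘ ĵ`.  `St.push` with the push `W = (U₁)⁻¹ then V₁` of `{x}ᶜ`:
`St x e (W 1 ∘ ĵ) (W 1 ∘ k₁')`, i.e. `St x e k₁ (W 1 ∘ k₁')`; and `Mv x (W 1 ∘ k₁') k₁'` by the inverse push: `St` composed with `Mv` on the right (unfold `St`, `Mv.trans`).  The same for `2`.
-/

open scoped Manifold ContDiff Topology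
open Set Filter CategoryTheory
open Pool.Agent.RSG (E3 ex Thick)
open Pool.Agent.KNT (bmp)
open Pool.Agent.NHP

namespace Pool.Agent.NHQ

variable {N : Type*} [TopologicalSpace N] [ChartedSpace E3 N] [IsManifold (𝓡 3) ∞ N] [T2Space N]

theorem axc_cont {x : N} {o : FundamentalGroupoid.mk x ⟶ FundamentalGroupoid.mk x} {k : ℝ → N} (hk : Crv x o k) :
    Continuous k := by
  obtain ⟨κ, hκ, hkκ⟩ := hk.thick
  rw [continuous_iff_continuousAt]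
  intro l
  have h1 : ContinuousAt κ (l, 0) := (hκ.loc l 0 (by simp)).contMDiffAt.continuousAt
  have h2 : ContinuousAt (fun l : ℝ => κ (l, (0 : ℂ))) l :=
    ContinuousAt.comp_of_eq (f := fun l : ℝ => (l, (0 : ℂ))) h1 (by fun_prop) rfl
  have h3 : (fun l : ℝ => κ (l, (0 : ℂ))) = k := funext hkκ
  rwa [h3] at h2

theorem axc_mem {t : ℝ} (ht : t ∈ Icc (0 : ℝ) 1) : ((0 : ℂ), t) ∈ TD := by
  refine ⟨by simp, ?_, ?_⟩
  · change -(1 / 4) < t
    linarith [ht.1]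
  · change t < 5 / 4
    linarith [ht.2]

/-- the core of the chord -/
def axcA (T : E → N) : Set N := (fun t : ℝ => T (0, t)) '' Icc 0 1

omit [IsManifold (𝓡 3) ∞ N] in
theorem axc_closed {K : Set N} {T : E → N} (hT : Chd K T) : IsClosed (axcA T) := by
  have h1 : IsCompact (axcA T) := by
    refine isCompact_Icc.image_of_continuousOn ?_
    exact hT.cht.contOn.comp (by fun_prop) (fun t ht => axc_mem ht)
  exact h1.isClosed

omit [IsManifold (𝓡 3) ∞ N] [T2Space N] in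
/-- points of the knot on the core of the chord -/
theorem axc_hit {κ : ℝ × ℂ → N} (hκ : Thick κ) {k : ℝ → N} (hk : ∀ l, κ (l, 0) = k l) {x : N} {T : E → N} {p q : ℝ}
    {c : FundamentalGroupoid.mk x ⟶ FundamentalGroupoid.mk x} (hT : ChL x k T p q c) {r : ℝ} (h0 : 0 < r) (h1 : r < 1)
    (hp : r ≠ p) (hq : r ≠ q) : k r ∉ axcA T := by
  have hinj : ∀ s, 0 < s → s < 1 → k r = k s → r = s := by
    intro s hs0 hs1 h
    rw [← hk, ← hk] at h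
    obtain ⟨-, m, hm⟩ := hκ.inj r 0 s 0 (by simp) (by simp) h
    have h3 : (m : ℝ) < 1 := by linarith
    have h4 : (-1 : ℝ) < m := by linarith
    have h5 : m < 1 := by exact_mod_cast h3
    have h6 : -1 < m := by exact_mod_cast h4
    have h7 : m = 0 := by omega
    rw [h7] at hm
    simp only [Int.cast_zero, add_zero] at hm
    exact hm.symm
  obtain ⟨α, β, δ, -, hβ, -, -⟩ := hT.lab
  rintro ⟨t, ht, h⟩
  have h2 : T (0, t) ∈ T '' TS := by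
    rw [← hT.chd.hit]
    exact ⟨⟨r, h.symm⟩, _, axc_mem ht, rfl⟩
  obtain ⟨s, hs, h3⟩ := h2
  have h4 := hT.chd.cht.inj hs.1 (axc_mem ht) h3
  rw [h4] at hs
  rcases hs.2 with ⟨h5, -⟩ | ⟨h5, -⟩
  · change t = 0 at h5
    rw [h5] at h
    exact hp (hinj p hT.pos (hT.lt.trans hT.one) (h.symm.trans hβ.zero))
  · change t = 1 at h5
    rw [h5] at h
    exact hq (hinj q (hT.pos.trans hT.lt) hT.one (h.symm.trans hβ.one))

omit [IsManifold (𝓡 3) ∞ N] in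
theorem axc_half {x : N} {c e : FundamentalGroupoid.mk x ⟶ FundamentalGroupoid.mk x} {k k₁ : ℝ → N} (hkc : Continuous k)
    {S T : E → N} {p q p₁ q₁ : ℝ} (hS : ChL x k S p q e) (hT : ChL x k T p₁ q₁ c) (m : Mv x (fing T ∘ k) k₁) {C : Set N}
    (hC : IsClosed C) (hSC : S '' TD ⊆ C) (hTC : ∀ t ∈ Icc (0 : ℝ) 1, T (0, t) ∉ C) :
    ∃ k₁' : ℝ → N, St x c (fing S ∘ k) k₁' ∧ St x e k₁ k₁' := by
  obtain ⟨T', hT', hT'C, -, -, -, U, hU, hUk⟩ := hT.thin hC.isOpen_compl hTC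
  obtain ⟨V, hV, hVk⟩ := m
  have hd : Disjoint (T' '' TD) (S '' TD) := disjoint_left.2 (fun y h1 h2 => hT'C h1 (hSC h2))
  refine ⟨fing T' ∘ fing S ∘ k, ⟨T', p₁, q₁, ?_, Mv.refl x _⟩, ?_⟩
  · exact ChL.fing hkc hT' hS.chd hS.off hd
  · have h1 : ChL x (fing T' ∘ k) S p q e := ChL.fing hkc hS hT'.chd hT'.off hd.symm
    have h2 : St x e (fing T' ∘ k) (fing T' ∘ fing S ∘ k) := by
      refine ⟨S, p, q, h1, ?_⟩
      have h3 : fing S ∘ fing T' ∘ k = fing T' ∘ fing S ∘ k := by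
        funext t
        exact fing_comm hS.chd.cht.inj hT'.chd.cht.inj hd.symm _
      rw [h3]
      exact Mv.refl x _
    have hU' : Push {x}ᶜ U := hU.mono (by
      intro y hy hxy
      rw [mem_singleton_iff] at hxy
      rw [hxy] at hy
      exact hT.off hy)
    have hW : Push {x}ᶜ fun s => ((U s).symm).trans (V s) := hU'.inv.comp hV
    have h4 := h2.push hW
    have h5 : (((U 1).symm).trans (V 1)) ∘ (fing T' ∘ k) = k₁ := by
      funext t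
      change V 1 ((U 1).symm (fing T' (k t))) = k₁ t
      rw [hUk, Equiv.symm_apply_apply]
      exact (hVk t).symm
    change St x e ((((U 1).symm).trans (V 1)) ∘ (fing T' ∘ k)) _ at h4
    rw [h5] at h4
    obtain ⟨T₀, p₀, q₀, h6, h7⟩ := h4
    refine ⟨T₀, p₀, q₀, h6, h7.trans ?_⟩
    apply Mv.symm
    exact ⟨_, hW, fun t => rfl⟩

theorem axiom_B {x : N} {o c : FundamentalGroupoid.mk x ⟶ FundamentalGroupoid.mk x} {k : ℝ → N} (hk : Crv x o k) :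
    ∃ k' : ℝ → N, St x c k k' := by
  obtain ⟨κ, hκ, hkκ⟩ := hk.thick
  obtain ⟨ε₀, hε₀, h1⟩ := exists_chl hκ hkκ hk.zero (p := 1 / 3) (q := 2 / 3) (by norm_num) (by norm_num) (by norm_num) c
    (ι := Empty) (A := fun i => i.elim) (fun i => i.elim) (fun i => i.elim) (fun i => i.elim)
  obtain ⟨-, σ, T, -, h2, -, -⟩ := h1 ε₀ hε₀ le_rfl
  exact ⟨fing T ∘ k, T, _, _, h2, Mv.refl x _⟩

theorem axiom_C {x : N} {o c d e : FundamentalGroupoid.mk x ⟶ FundamentalGroupoid.mk x} {k k₁ k₂ : ℝ → N} (hk : Crv x o k)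
    (h1 : St x c k k₁) (h2 : St x d k k₂) :
    ∃ k' k₁' k₂' : ℝ → N, St x e k k' ∧ St x c k' k₁' ∧ St x e k₁ k₁' ∧ St x d k' k₂' ∧ St x e k₂ k₂' := by
  have hkc := axc_cont hk
  obtain ⟨κ, hκ, hkκ⟩ := hk.thick
  obtain ⟨T₁, p₁, q₁, hT₁, m₁⟩ := h1
  obtain ⟨T₂, p₂, q₂, hT₂, m₂⟩ := h2
  have hF : ({p₁, q₁, p₂, q₂} : Set ℝ).Finite := by simp
  obtain ⟨p, hp, hpF⟩ := ((Ioo_infinite (by norm_num : (0 : ℝ) < 1 / 2)).sdiff hF).nonempty
  obtain ⟨q, hq, hqF⟩ := ((Ioo_infinite (by norm_num : (1 / 2 : ℝ) < 1)).sdiff hF).nonempty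
  simp only [mem_insert_iff, mem_singleton_iff, not_or] at hpF hqF
  have hp1 : p < 1 := by linarith [hp.2]
  have hq0 : 0 < q := by linarith [hq.1]
  obtain ⟨ε₀, hε₀, h3⟩ := exists_chl hκ hkκ hk.zero (p := p) (q := q) hp.1 (by linarith [hp.2, hq.1]) hq.2 e
    (ι := Bool) (A := fun b => cond b (axcA T₁) (axcA T₂))
    (fun b => by
      cases b
      · exact arc_chord hT₂.chd
      · exact arc_chord hT₁.chd)
    (fun b => by
      cases b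
      · exact axc_hit hκ hkκ hT₂ hp.1 hp1 hpF.2.2.1 hpF.2.2.2
      · exact axc_hit hκ hkκ hT₁ hp.1 hp1 hpF.1 hpF.2.1)
    (fun b => by
      cases b
      · exact axc_hit hκ hkκ hT₂ hq0 hq.2 hqF.2.2.1 hqF.2.2.2
      · exact axc_hit hκ hkκ hT₁ hq0 hq.2 hqF.1 hqF.2.1)
  obtain ⟨-, σ, S₀, -, hS₀, -, hSA⟩ := h3 ε₀ hε₀ le_rfl
  have hO : IsOpen (axcA T₁ ∪ axcA T₂)ᶜ := ((axc_closed hT₁.chd).union (axc_closed hT₂.chd)).isOpen_compl
  obtain ⟨S, hS, -, -, ⟨C, hC, -, hCO, hSC⟩, -, -⟩ := hS₀.thin hO (by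
    intro t ht
    rintro (h4 | h4)
    · exact hSA true t ht h4
    · exact hSA false t ht h4)
  obtain ⟨k₁', h5, h6⟩ := axc_half hkc hS hT₁ m₁ hC.isClosed hSC
    (fun t ht h4 => hCO h4 (Or.inl ⟨t, ht, rfl⟩))
  obtain ⟨k₂', h7, h8⟩ := axc_half hkc hS hT₂ m₂ hC.isClosed hSC
    (fun t ht h4 => hCO h4 (Or.inr ⟨t, ht, rfl⟩))
  exact ⟨fing S ∘ k, k₁', k₂', ⟨S, p, q, hS, Mv.refl x _⟩, h5, h6, h7, h8⟩

end Pool.Agent.NHQ
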