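import Mathlib
import Pool.Agent.NHQ.Cnj
import Pool.Agent.NHR.Exip
import Pool.Agent.NHR.Rib
import Pool.Agent.NHR.Grp
import Pool.Agent.NHX.Ext
import Pool.Agent.NHX.Esa
import Pool.Agent.NHX.Esb

/-!
# NHQ/Esp: special configurations with PARALLEL strands and prescribed labels

From the special configurations of block R (`NHR.exists_configP`), with the labels computed in `N` (`NHX.esa_lba`, `NHX.esb_lbe`).
-/

open scoped Manifold ContDiff Topology
open Set Filter CategoryTheory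
open Pool.Agent.RSG (E3 ex Thick)
open Pool.Agent.KNT (bmp)
open Pool.Agent.NHP
open Pool.Agent.NHR (TS2 TF2 KW SP Lnk PathOn Hmt)

universe u

namespace Pool.Agent.NHQ

variable {N : Type u} [TopologicalSpace N] [ChartedSpace E3 N] [IsManifold (𝓡 3) ∞ N] [T2Space N] [ConnectedSpace N]

omit [IsManifold (𝓡 3) ∞ N] [ConnectedSpace N] in
theorem esp_loop {κ : ℝ × ℂ → N} (hκ : Thick κ) {x : N} {ρ : FundamentalGroupoid.mk x ⟶ FundamentalGroupoid.mk (κ (0, 1 / 2))}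
    (γ : FundamentalGroupoid.mk x ⟶ FundamentalGroupoid.mk x) :
    ∃ f : ℝ → N, PathOn (core κ)ᶜ f ∧ f 0 = κ (0, 1 / 2) ∧ f 1 = κ (0, 1 / 2) ∧ PC f (inv ρ ≫ γ ≫ ρ) := by
  have hb : κ (0, 1 / 2) ∈ (core κ)ᶜ := by
    refine NHR.thick_off hκ ?_ ?_
    · norm_num
    · norm_num
  obtain ⟨c, hc⟩ := cl_surj (inv ρ ≫ γ ≫ ρ)
  obtain ⟨s, hs⟩ := NHT.exists_path_compl hκ (a := ⟨κ (0, 1 / 2), hb⟩) (b := ⟨κ (0, 1 / 2), hb⟩) c
  refine ⟨NHT.fn s, NHT.fn_pathOn s, NHT.fn_zero s, NHT.fn_one s, NHT.incl s, fun t => (NHT.fn_coe s t).symm, ?_⟩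
  rw [cl_eq hs]
  exact hc

theorem exists_sp (hO : Ori N) {κ : ℝ × ℂ → N} (hκ : Thick κ) {k : ℝ → N} (hk : ∀ l, κ (l, 0) = k l) {x : N} (hx : k 0 = x)
    (X c : FundamentalGroupoid.mk x ⟶ FundamentalGroupoid.mk x) :
    ∃ (B W : E → N) (P P₂ D H H' : ℝ), SP (core κ) B W ∧ Lnk κ B P P₂ D H H' 1 ∧ 0 < P - D ∧ P + D < P₂ - D ∧ P₂ + D < 1 ∧
      Lab x k B P P₂ c ∧ Lab x k W P (P + 5 / 16 * D) X ∧ LEqN (core κ) (KW (core κ) W) := by
  have ext := NHX.ext_of_ori hO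
  obtain ⟨Γ, iG, G, hG⟩ := NHR.exists_GHom (NHT.pcn hκ)
  have hkc : Continuous k := by
    have h1 : Continuous fun l : ℝ => κ (l, 0) := by
      rw [continuous_iff_continuousAt]
      intro l
      have h2 : ContinuousAt κ (l, 0) := (NHR.thick_cont hκ).continuousAt
        ((isOpen_lt (continuous_norm.comp continuous_snd) continuous_const).mem_nhds
          (show ‖(0 : ℂ)‖ < 1 by simp))
      exact h2.comp (f := fun l : ℝ => (l, (0 : ℂ))) (by fun_prop)
    have h3 : (fun l : ℝ => κ (l, 0)) = k := funext hk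
    rw [← h3]
    exact h1
  have hρc : ContinuousOn (fun t : ℝ => κ (0, ((t / 2 : ℝ) : ℂ))) (Icc 0 1) := by
    refine (NHR.thick_cont hκ).comp (by fun_prop) ?_
    intro t ht
    show ‖((t / 2 : ℝ) : ℂ)‖ < 1
    rw [Complex.norm_real, Real.norm_eq_abs, abs_of_nonneg (by linarith [ht.1])]
    linarith [ht.2]
  obtain ⟨ρ, hρ⟩ := exists_PC (x := x) (y := κ (0, 1 / 2)) hρc (by
    show κ (0, ((0 / 2 : ℝ) : ℂ)) = x
    rw [zero_div, Complex.ofReal_zero, hk, hx]) (by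
    show κ (0, ((1 / 2 : ℝ) : ℂ)) = κ (0, 1 / 2)
    congr 2
    push_cast
    ring)
  obtain ⟨fa, pa, a0, a1, ca⟩ := esp_loop hκ (ρ := ρ) c
  obtain ⟨fe, pe, e0, e1, ce⟩ := esp_loop hκ (ρ := ρ) X
  obtain ⟨T₁, hT₁⟩ := NHR.finV_ex ext hκ G hG (p := 0) (p' := 1 / 2) (by norm_num) (by norm_num) 1
  obtain ⟨P, p₀, P₂, D, H, H', B, W, -, -, hpos, hL, hS, hva, hve, -⟩ :=
    NHR.exists_configP ext hκ G hG (p := 0) (p' := 1 / 2) (by norm_num) (by norm_num) (G.val fa) (G.val fe) hT₁ hT₁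
  have hD := hL.Dpos
  have hp1 := hpos.h1
  have hp2 := hpos.h2
  have hp3 := hpos.h3
  have hp4 := hpos.h4
  have hB0 : B (0, 0) = k P := by
    rw [hL.foot (0, 0) ⟨by simp, by norm_num, by norm_num⟩ (by norm_num), ← hk]
    congr 1
    refine Prod.ext (by simp) (Complex.ext (by simp) (by simp))
  have hB1 : B (0, 1) = k P₂ := by
    rw [hL.tip (0, 1) ⟨by simp, by norm_num, by norm_num⟩ (by norm_num), ← hk]
    congr 1
    refine Prod.ext (by simp) (Complex.ext (by simp) (by simp))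
  have hW0 : W (0, 0) = k P := by
    rw [hS.relA (0, 0) ⟨by simp, by norm_num, by norm_num⟩ (by norm_num) (by norm_num) (by norm_num)]
    have : NHR.ja ((0 : ℂ), (0 : ℝ)) = (0, 0) := by
      unfold NHR.ja
      refine Prod.ext (Complex.ext (by simp) (by simp)) (by simp)
    rw [this, hB0]
  have hW1 : W (0, 1) = k (P + 5 / 16 * D) := by
    rw [hS.relB (0, 1) ⟨by simp, by norm_num, by norm_num⟩ (by norm_num) (by norm_num) (by norm_num)]
    have : NHR.jb ((0 : ℂ), (1 : ℝ)) = (⟨5 / 16, 0⟩, 0) := by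
      unfold NHR.jb
      refine Prod.ext (Complex.ext (by simp) (by simp)) (by simp)
    rw [this, hL.foot _ ⟨?_, by norm_num, by norm_num⟩ (by norm_num), ← hk]
    · congr 1
      refine Prod.ext ?_ (Complex.ext (by simp) (by simp))
      show P + D * (5 / 16) = P + 5 / 16 * D
      ring
    · show ‖(⟨5 / 16, 0⟩ : ℂ)‖ < 1
      have : (⟨5 / 16, 0⟩ : ℂ) = ((5 / 16 : ℝ) : ℂ) := rfl
      rw [this, Complex.norm_real, Real.norm_eq_abs]
      norm_num [abs_of_pos]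
  have hcurve : ∀ {β : E → N}, Cht TD β → ContinuousOn (fun t : ℝ => β (0, t)) (Icc 0 1) := by
    intro β hβ t ht
    have h1 : ((0 : ℂ), t) ∈ TD := ⟨by simp, by linarith [ht.1], by linarith [ht.2]⟩
    have h2 := (hβ.loc _ h1).contMDiffAt.continuousAt
    exact (ContinuousAt.comp (f := fun t : ℝ => ((0 : ℂ), t)) h2 (by fun_prop)).continuousWithinAt
  obtain ⟨α, hα⟩ := exists_PC (x := x) (y := k P) (f := fun t => k (P * t)) (by fun_prop) (by simp [hx]) (by simp)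
  obtain ⟨β, hβ⟩ := exists_PC (x := k P) (y := k P₂) (hcurve hS.chtB) hB0 hB1
  obtain ⟨δ, hδ⟩ := exists_PC (x := x) (y := k P₂) (f := fun t => k (P₂ * t)) (by fun_prop) (by simp [hx]) (by simp)
  obtain ⟨β', hβ'⟩ := exists_PC (x := k P) (y := k (P + 5 / 16 * D)) (hcurve hS.chtW) hW0 hW1
  obtain ⟨δ', hδ'⟩ := exists_PC (x := x) (y := k (P + 5 / 16 * D)) (f := fun t => k ((P + 5 / 16 * D) * t)) (by fun_prop)
    (by simp [hx]) (by simp)
  have k1 := NHX.esa_lba hκ hL hS G hG pa a0 a1 hva hρ (α := α) (β := β) (δ := δ) (by simpa only [hk] using hα) hβ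
    (by simpa only [hk] using hδ)
  have k2 := NHX.esb_lbe hκ hL hS G hG pe e0 e1 hve hρ (α := α) (β := β') (δ := δ') (by simpa only [hk] using hα) hβ'
    (by simpa only [hk] using hδ')
  have cancel : ∀ {γ γ' : FundamentalGroupoid.mk x ⟶ FundamentalGroupoid.mk x},
      inv ρ ≫ γ ≫ ρ = inv ρ ≫ γ' ≫ ρ → γ = γ' := by
    intro γ γ' h
    exact (cancel_mono ρ).1 ((cancel_epi (inv ρ)).1 h)
  have q1 : c = α ≫ β ≫ inv δ := cancel (by
    have := ca.unique k1
    simpa only [Category.assoc] using this)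
  have q2 : X = α ≫ β' ≫ inv δ' := cancel (by
    have := ce.unique k2
    simpa only [Category.assoc] using this)
  exact ⟨B, W, P, P₂, D, H, H', hS, hL, by linarith, by linarith, by linarith, ⟨α, β, δ, hα, hβ, hδ, q1⟩,
    ⟨α, β', δ', hα, hβ', hδ', q2⟩, NHR.rib_K hS⟩

end Pool.Agent.NHQ
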