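import Mathlib
import Pool.Agent.NHQ.Cnj
import Pool.Agent.NHQ.Shr
import Pool.Agent.NHR.Defs
import Pool.Agent.NHP.Tra

/-!
# NHQ/Ffr: two strands passed through two strands = four fingers (difficulty 3)

`K ∩ W '' TD = W '' TS2` (`NHR.Defs`: horizontal pair `x = 0`, `im w ∈ {0, -1/32}`; vertical pair `x = 1`, `re w ∈ {0, -1/32}`).  `sub r s (w, x) = (r + i s + w / 128, x)`, `r, s ∈ {0, -1/32}`: a thin tube around the vertical
segment over `r + i s`, from the horizontal strand `im w = s` to the vertical strand `re w = r`.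
* `ffr_chd`: `sub r s` is an injective affine map of `TD` into `TD` (`‖r + i s + w / 128‖ ≤ 1/32 + 1/32 + 1/128 < 1`), `Cht.comp`.  `TS2 ∩ sub r s '' TD = sub r s '' TS`: `s + im w / 128 ∈ {0, -1/32}` and `|im w| < 1` imply `im w = 0`; the same for `re`.
* `ffr_disj`: the centres have distance `≥ 1/32` in one of the two coordinates, the tubes have radius `1/128` (`W` is injective on `TD`).
* `ffr_val`: for `y = W (u + i s, 0)`, `s ∈ {0, -1/32}`, `(u, s)` in the disc: the composition `F` of the four maps `fing` gives `W (u + i s, g u)`, `g u = 9/8 (bmp (128 u) + bmp (128 (u + 1/32)))` (the supports of the two bumps are disjoint, `bmp = 0` for `|y| ≥ 1/8`;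
  a map `fing T` with centre `(r, s')`, `s' ≠ s` fixes these points, and it fixes the points not of the form `W (r + u' / 128 + i s', 0)`).  All other points of `K` are fixed by `F`.  So `F '' K = (K \ W '' TD) ∪ W '' TG`,
  `TG = {q ∈ TD | im w ∈ {0, -1/32}, x = g (re w)} ∪ {q ∈ TD | x = 1, re w ∈ {0, -1/32}}`.
* `ffr_main`: `vshear` with `O = TD`, `P = {x = 1, re w ∈ {0, -1/32}}`, `a w = 9/8 bmp (re w) - g (re w)`, `S = {(u + i s, g u) | |u| ≤ 1/8, s ∈ {0, -1/32}}` (for `|u| ≥ 1/8` `a = 0`): the heights `(1 - r) g + r 9/8 bmp` are in `[0, 9/8]`, and for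
  `re w = 0` or `-1/32` they are `9/8 ≠ 1` (`bmp 0 = 1`, `bmp (-1/32) = 1`, `bmp (±4) = 0`).  So `V 1` maps `TG` onto `TF2` (`V` is the identity on `P`; injectivity/`(V s q).1 = q.1`), transport by `push_chart` (chart `W`): it maps `F '' K` onto `KW K W`; `LEqN.diff`.
-/

open scoped Manifold ContDiff Topology
open Set Filter CategoryTheory
open Pool.Agent.RSG (E3 ex Thick)
open Pool.Agent.KNT (bmp)
open Pool.Agent.NHP
open Pool.Agent.NHR (TS2 TF2 KW)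

namespace Pool.Agent.NHQ

/-- thin tube around the vertical segment over `r + i s` -/
noncomputable def sub (r s : ℝ) (q : E) : E := (⟨r + q.1.re / 128, s + q.1.im / 128⟩, q.2)

variable {N : Type*} [TopologicalSpace N] [ChartedSpace E3 N]

theorem ffr_abs {r : ℝ} (hr : r = 0 ∨ r = -(1 / 32)) : |r| ≤ 1 / 32 := by
  rcases hr with h | h
  · rw [h, abs_zero]; norm_num
  · rw [h, abs_neg, abs_of_nonneg (by norm_num)]

theorem ffr_TD {r s : ℝ} (hr : r = 0 ∨ r = -(1 / 32)) (hs : s = 0 ∨ s = -(1 / 32)) {q : E} (hq : q ∈ TD) : sub r s q ∈ TD := by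
  obtain ⟨h1, h2, h3⟩ := hq
  refine ⟨?_, h2, h3⟩
  have h4 := (Complex.norm_le_abs_re_add_abs_im (sub r s q).1)
  have h5 : (sub r s q).1.re = r + q.1.re / 128 := rfl
  have h6 : (sub r s q).1.im = s + q.1.im / 128 := rfl
  have h7 : |q.1.re| < 1 := (Complex.abs_re_le_norm q.1).trans_lt h1
  have h8 : |q.1.im| < 1 := (Complex.abs_im_le_norm q.1).trans_lt h1
  have h9 : |r + q.1.re / 128| ≤ |r| + |q.1.re / 128| := abs_add_le _ _
  have h10 : |s + q.1.im / 128| ≤ |s| + |q.1.im / 128| := abs_add_le _ _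
  have h11 : |q.1.re / 128| = |q.1.re| / 128 := by rw [abs_div, abs_of_pos (by norm_num : (0 : ℝ) < 128)]
  have h12 : |q.1.im / 128| = |q.1.im| / 128 := by rw [abs_div, abs_of_pos (by norm_num : (0 : ℝ) < 128)]
  have h13 := ffr_abs hr
  have h14 := ffr_abs hs
  rw [h5, h6] at h4
  rw [h11] at h9
  rw [h12] at h10
  linarith

/-- the linear part -/
noncomputable def ffr_L : E →L[ℝ] E :=
  (((1 / 128 : ℝ) • ContinuousLinearMap.fst ℝ ℂ ℝ).prod (ContinuousLinearMap.snd ℝ ℂ ℝ))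

theorem ffr_L_apply (q : E) : ffr_L q = (((1 / 128 : ℝ) • q.1 : ℂ), q.2) := rfl

theorem ffr_sub (r s : ℝ) (q : E) : sub r s q = ffr_L q + ((⟨r, s⟩ : ℂ), (0 : ℝ)) := by
  rw [ffr_L_apply]
  refine Prod.ext (Complex.ext ?_ ?_) ?_
  · change r + q.1.re / 128 = ((1 / 128 : ℝ) • q.1).re + r
    rw [Complex.smul_re, smul_eq_mul]
    ring
  · change s + q.1.im / 128 = ((1 / 128 : ℝ) • q.1).im + s
    rw [Complex.smul_im, smul_eq_mul]
    ring
  · change q.2 = q.2 + 0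
    rw [add_zero]

theorem ffr_fderiv (r s : ℝ) (q : E) : HasFDerivAt (sub r s) ffr_L q := by
  have h : sub r s = fun q => ffr_L q + ((⟨r, s⟩ : ℂ), (0 : ℝ)) := funext (ffr_sub r s)
  rw [h]
  exact ffr_L.hasFDerivAt.add_const _

theorem ffr_smooth (r s : ℝ) : ContDiff ℝ ∞ (sub r s) := by
  have h : sub r s = fun q => ffr_L q + ((⟨r, s⟩ : ℂ), (0 : ℝ)) := funext (ffr_sub r s)
  rw [h]
  exact ffr_L.contDiff.add contDiff_const

theorem ffr_bij (r s : ℝ) (q : E) : Function.Bijective (fderiv ℝ (sub r s) q) := by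
  rw [(ffr_fderiv r s q).fderiv]
  constructor
  · intro a b h
    rw [ffr_L_apply, ffr_L_apply] at h
    have h1 : ((1 / 128 : ℝ) • a.1 : ℂ) = ((1 / 128 : ℝ) • b.1 : ℂ) := (Prod.ext_iff.1 h).1
    have h2 : a.2 = b.2 := (Prod.ext_iff.1 h).2
    have h3 : a.1 = b.1 := smul_right_injective ℂ (by norm_num : (1 / 128 : ℝ) ≠ 0) h1
    exact Prod.ext h3 h2
  · intro b
    refine ⟨((128 : ℝ) • b.1, b.2), ?_⟩
    rw [ffr_L_apply]
    refine Prod.ext ?_ rfl
    change (1 / 128 : ℝ) • ((128 : ℝ) • b.1) = b.1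
    rw [smul_smul]
    norm_num

theorem ffr_inj (r s : ℝ) : Function.Injective (sub r s) := by
  intro a b h
  have h1 : r + a.1.re / 128 = r + b.1.re / 128 := congrArg (fun q : E => q.1.re) h
  have h2 : s + a.1.im / 128 = s + b.1.im / 128 := congrArg (fun q : E => q.1.im) h
  have h3 : a.2 = b.2 := (Prod.ext_iff.1 h).2
  refine Prod.ext (Complex.ext ?_ ?_) h3
  · linarith
  · linarith

/-- `s + y / 128 ∈ {0, -1/32}` and `|y| < 1` imply `y = 0` -/
theorem ffr_zero {s y : ℝ} (hs : s = 0 ∨ s = -(1 / 32)) (hy : |y| < 1) (h : s + y / 128 = 0 ∨ s + y / 128 = -(1 / 32)) :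
    y = 0 := by
  have h1 := abs_lt.1 hy
  rcases hs with rfl | rfl <;> rcases h with h | h <;> linarith [h1.1, h1.2]

theorem ffr_chd {K : Set N} {W : E → N} (hW : Cht TD W) (hit : K ∩ W '' TD = W '' TS2) {r s : ℝ} (hr : r = 0 ∨ r = -(1 / 32))
    (hs : s = 0 ∨ s = -(1 / 32)) : Chd K (W ∘ sub r s) := by
  refine ⟨?_, ?_⟩
  · exact hW.comp isOpen_TD (fun q _ => (ffr_smooth r s).contDiffAt) (fun q _ => ffr_bij r s q)
      (fun p _ q _ h => ffr_inj r s h) (fun q hq => ffr_TD hr hs hq)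
  · apply Subset.antisymm
    · rintro y ⟨hyK, q, hq, rfl⟩
      have h1 : W (sub r s q) ∈ W '' TS2 := by
        rw [← hit]
        exact ⟨hyK, _, ffr_TD hr hs hq, rfl⟩
      obtain ⟨q', hq', h2⟩ := h1
      have h3 : q' = sub r s q := hW.inj hq'.1 (ffr_TD hr hs hq) h2
      rw [h3] at hq'
      have h7 : |q.1.re| < 1 := (Complex.abs_re_le_norm q.1).trans_lt hq.1
      have h8 : |q.1.im| < 1 := (Complex.abs_im_le_norm q.1).trans_lt hq.1
      refine ⟨q, ⟨hq, ?_⟩, rfl⟩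
      rcases hq'.2 with ⟨h4, h5⟩ | ⟨h4, h5⟩
      · exact Or.inl ⟨h4, ffr_zero hs h8 h5⟩
      · exact Or.inr ⟨h4, ffr_zero hr h7 h5⟩
    · rintro _ ⟨q, hq, rfl⟩
      have h1 : sub r s q ∈ TS2 := by
        refine ⟨ffr_TD hr hs hq.1, ?_⟩
        rcases hq.2 with ⟨h4, h5⟩ | ⟨h4, h5⟩
        · left
          refine ⟨h4, ?_⟩
          change s + q.1.im / 128 = 0 ∨ s + q.1.im / 128 = -(1 / 32)
          rw [h5, zero_div, add_zero]
          exact hs
        · right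
          refine ⟨h4, ?_⟩
          change r + q.1.re / 128 = 0 ∨ r + q.1.re / 128 = -(1 / 32)
          rw [h5, zero_div, add_zero]
          exact hr
      have h2 : W (sub r s q) ∈ K ∩ W '' TD := by
        rw [hit]
        exact ⟨_, h1, rfl⟩
      exact ⟨h2.1, q, hq.1, rfl⟩

theorem ffr_far {r r' y y' : ℝ} (hr : r = 0 ∨ r = -(1 / 32)) (hr' : r' = 0 ∨ r' = -(1 / 32)) (hy : |y| < 1) (hy' : |y'| < 1)
    (h : r + y / 128 = r' + y' / 128) : r = r' := by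
  have h1 := abs_lt.1 hy
  have h2 := abs_lt.1 hy'
  rcases hr with rfl | rfl <;> rcases hr' with rfl | rfl
  · rfl
  · linarith [h1.1, h1.2, h2.1, h2.2]
  · linarith [h1.1, h1.2, h2.1, h2.2]
  · rfl

theorem ffr_disj {W : E → N} (hW : InjOn W TD) {r s r' s' : ℝ} (hr : r = 0 ∨ r = -(1 / 32)) (hs : s = 0 ∨ s = -(1 / 32))
    (hr' : r' = 0 ∨ r' = -(1 / 32)) (hs' : s' = 0 ∨ s' = -(1 / 32)) (h : r ≠ r' ∨ s ≠ s') :
    Disjoint ((W ∘ sub r s) '' TD) ((W ∘ sub r' s') '' TD) := by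
  rw [Set.disjoint_left]
  rintro y ⟨q, hq, rfl⟩ ⟨q', hq', h1⟩
  have h2 : sub r' s' q' = sub r s q := hW (ffr_TD hr' hs' hq') (ffr_TD hr hs hq) h1
  have h3 : r' + q'.1.re / 128 = r + q.1.re / 128 := congrArg (fun q : E => q.1.re) h2
  have h4 : s' + q'.1.im / 128 = s + q.1.im / 128 := congrArg (fun q : E => q.1.im) h2
  have a1 : |q.1.re| < 1 := (Complex.abs_re_le_norm q.1).trans_lt hq.1
  have a2 : |q.1.im| < 1 := (Complex.abs_im_le_norm q.1).trans_lt hq.1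
  have a3 : |q'.1.re| < 1 := (Complex.abs_re_le_norm q'.1).trans_lt hq'.1
  have a4 : |q'.1.im| < 1 := (Complex.abs_im_le_norm q'.1).trans_lt hq'.1
  rcases h with h | h
  · exact h (ffr_far hr' hr a3 a1 h3).symm
  · exact h (ffr_far hs' hs a4 a2 h4).symm

/-! ### values of the fingers -/

theorem ffr_injW {W : E → N} (hW : InjOn W TD) {r s : ℝ} (hr : r = 0 ∨ r = -(1 / 32)) (hs : s = 0 ∨ s = -(1 / 32)) :
    InjOn (W ∘ sub r s) TD := fun _ ha _ hb h =>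
  ffr_inj r s (hW (ffr_TD hr hs ha) (ffr_TD hr hs hb) h)

theorem ffr_sub_real (r s u x : ℝ) : sub r s ((u : ℂ), x) = ((⟨r + u / 128, s⟩ : ℂ), x) := by
  refine Prod.ext (Complex.ext ?_ ?_) rfl
  · change r + (u : ℂ).re / 128 = r + u / 128
    rw [Complex.ofReal_re]
  · change s + (u : ℂ).im / 128 = s
    rw [Complex.ofReal_im, zero_div, add_zero]

/-- on the strand `im w = s` -/
theorem ffr_on {W : E → N} (hW : InjOn W TD) {r s : ℝ} (hr : r = 0 ∨ r = -(1 / 32)) (hs : s = 0 ∨ s = -(1 / 32)) {u : ℝ}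
    (hu : ((⟨u, s⟩ : ℂ), (0 : ℝ)) ∈ TD) :
    fing (W ∘ sub r s) (W (⟨u, s⟩, 0)) = W (⟨u, s⟩, 9 / 8 * bmp (128 * (u - r))) := by
  have hi := ffr_injW hW hr hs
  by_cases h : |128 * (u - r)| < 1
  · have h1 : W ((⟨u, s⟩ : ℂ), (0 : ℝ)) = (W ∘ sub r s) (((128 * (u - r) : ℝ) : ℂ), 0) := by
      change _ = W (sub r s (((128 * (u - r) : ℝ) : ℂ), 0))
      rw [ffr_sub_real]
      have : r + 128 * (u - r) / 128 = u := by ring
      rw [this]
    rw [h1, fing_foot hi h]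
    change W (sub r s (((128 * (u - r) : ℝ) : ℂ), _)) = _
    rw [ffr_sub_real]
    have : r + 128 * (u - r) / 128 = u := by ring
    rw [this]
  · rw [bmp_zero (by linarith [not_lt.1 h]), mul_zero]
    apply fing_of_not
    intro v hv h1
    change W (sub r s ((v : ℂ), 0)) = _ at h1
    have h2 := hW (ffr_TD hr hs (foot_TD hv (by norm_num) (by norm_num))) hu h1
    rw [ffr_sub_real] at h2
    have h3 : r + v / 128 = u := congrArg (fun q : E => q.1.re) h2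
    apply h
    have : 128 * (u - r) = v := by rw [← h3]; ring
    rw [this]
    exact hv

/-- off the strand `im w = s` -/
theorem ffr_ofs {W : E → N} (hW : InjOn W TD) {r s : ℝ} (hr : r = 0 ∨ r = -(1 / 32)) (hs : s = 0 ∨ s = -(1 / 32)) {q : E}
    (hq : q ∈ TD) (h : q.1.im ≠ s ∨ q.2 ≠ 0) : fing (W ∘ sub r s) (W q) = W q := by
  apply fing_of_not
  intro v hv h1
  change W (sub r s ((v : ℂ), 0)) = _ at h1
  have h2 := hW (ffr_TD hr hs (foot_TD hv (by norm_num) (by norm_num))) hq h1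
  rw [ffr_sub_real] at h2
  rcases h with h | h
  · exact h (congrArg (fun q : E => q.1.im) h2).symm
  · exact h (congrArg (fun q : E => q.2) h2).symm

theorem ffr_out {W : E → N} {r s : ℝ} (hr : r = 0 ∨ r = -(1 / 32)) (hs : s = 0 ∨ s = -(1 / 32)) {y : N}
    (h : y ∉ W '' TD) : fing (W ∘ sub r s) y = y := by
  apply fing_of_not
  intro v hv h1
  exact h ⟨_, ffr_TD hr hs (foot_TD hv (by norm_num) (by norm_num)), h1⟩

/-- the height of the two fingers -/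
noncomputable def ffr_g (u : ℝ) : ℝ := 9 / 8 * (bmp (128 * u) + bmp (128 * (u + 1 / 32)))

theorem ffr_cases (u : ℝ) : bmp (128 * u) = 0 ∨ bmp (128 * (u + 1 / 32)) = 0 := by
  by_cases h : |128 * u| < 1 / 8
  · right
    apply bmp_zero
    have h1 := abs_lt.1 h
    rw [abs_of_nonneg (by linarith [h1.1])]
    linarith [h1.1]
  · left
    exact bmp_zero (not_lt.1 h)

theorem ffr_g_nonneg (u : ℝ) : 0 ≤ ffr_g u := by
  have h1 := bmp_nonneg (128 * u)
  have h2 := bmp_nonneg (128 * (u + 1 / 32))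
  unfold ffr_g
  linarith

theorem ffr_g_le (u : ℝ) : ffr_g u ≤ 9 / 8 := by
  have h1 := bmp_le_one (128 * u)
  have h2 := bmp_le_one (128 * (u + 1 / 32))
  unfold ffr_g
  rcases ffr_cases u with h | h <;> rw [h] <;> linarith

theorem ffr_g_zero {u : ℝ} (h : 1 / 8 ≤ |u|) : ffr_g u = 0 := by
  have h1 : bmp (128 * u) = 0 := by
    apply bmp_zero
    rw [abs_mul, abs_of_pos (by norm_num : (0 : ℝ) < 128)]
    linarith
  have h2 : bmp (128 * (u + 1 / 32)) = 0 := by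
    apply bmp_zero
    rw [abs_mul, abs_of_pos (by norm_num : (0 : ℝ) < 128)]
    have h3 : |u| ≤ |u + 1 / 32| + |(1 / 32 : ℝ)| := by
      calc |u| = |(u + 1 / 32) - 1 / 32| := by ring_nf
        _ ≤ _ := abs_sub _ _
    rw [abs_of_pos (by norm_num : (0 : ℝ) < 1 / 32)] at h3
    linarith
  unfold ffr_g
  rw [h1, h2]
  norm_num

theorem ffr_g_one {u : ℝ} (h : u = 0 ∨ u = -(1 / 32)) : ffr_g u = 9 / 8 := by
  unfold ffr_g
  rcases h with rfl | rfl
  · rw [show (128 : ℝ) * 0 = 0 by norm_num, bmp_zero_eq, show (128 : ℝ) * (0 + 1 / 32) = 4 by norm_num,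
      bmp_zero (by rw [abs_of_pos] <;> norm_num)]
    norm_num
  · rw [show (128 : ℝ) * (-(1 / 32) + 1 / 32) = 0 by norm_num, bmp_zero_eq,
      show (128 : ℝ) * -(1 / 32) = -4 by norm_num, bmp_zero (by rw [abs_neg, abs_of_pos] <;> norm_num)]
    norm_num

/-- two fingers on one strand -/
theorem ffr_two {W : E → N} (hW : InjOn W TD) {s : ℝ} (hs : s = 0 ∨ s = -(1 / 32)) {u : ℝ}
    (hu : ((⟨u, s⟩ : ℂ), (0 : ℝ)) ∈ TD) :
    fing (W ∘ sub (-(1 / 32)) s) (fing (W ∘ sub 0 s) (W (⟨u, s⟩, 0))) = W (⟨u, s⟩, ffr_g u) := by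
  rw [ffr_on hW (Or.inl rfl) hs hu, sub_zero]
  rcases ffr_cases u with h | h
  · rw [h, mul_zero, ffr_on hW (Or.inr rfl) hs hu]
    unfold ffr_g
    rw [h, zero_add, sub_neg_eq_add]
  · by_cases h0 : bmp (128 * u) = 0
    · rw [h0, mul_zero, ffr_on hW (Or.inr rfl) hs hu]
      unfold ffr_g
      rw [h0, zero_add, sub_neg_eq_add]
    · have h1 := bmp_nonneg (128 * u)
      have h2 := bmp_le_one (128 * u)
      have hmem : ((⟨u, s⟩ : ℂ), (9 / 8 * bmp (128 * u) : ℝ)) ∈ TD := by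
        refine ⟨hu.1, ?_, ?_⟩
        · change -(1 / 4 : ℝ) < 9 / 8 * bmp (128 * u)
          linarith
        · change 9 / 8 * bmp (128 * u) < 5 / 4
          linarith
      rw [ffr_ofs hW (Or.inr rfl) hs hmem (Or.inr (mul_ne_zero (by norm_num) h0))]
      unfold ffr_g
      rw [h, add_zero]

/-- the four fingers -/
noncomputable def ffr_F (W : E → N) (y : N) : N :=
  fing (W ∘ sub (-(1 / 32)) (-(1 / 32))) (fing (W ∘ sub 0 (-(1 / 32)))
    (fing (W ∘ sub (-(1 / 32)) 0) (fing (W ∘ sub 0 0) y)))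

theorem ffr_F_out {W : E → N} {y : N} (h : y ∉ W '' TD) : ffr_F W y = y := by
  unfold ffr_F
  rw [ffr_out (Or.inl rfl) (Or.inl rfl) h, ffr_out (Or.inr rfl) (Or.inl rfl) h, ffr_out (Or.inl rfl) (Or.inr rfl) h,
    ffr_out (Or.inr rfl) (Or.inr rfl) h]

theorem ffr_F_top {W : E → N} (hW : InjOn W TD) {q : E} (hq : q ∈ TD) (h : q.2 ≠ 0) : ffr_F W (W q) = W q := by
  unfold ffr_F
  rw [ffr_ofs hW (Or.inl rfl) (Or.inl rfl) hq (Or.inr h), ffr_ofs hW (Or.inr rfl) (Or.inl rfl) hq (Or.inr h),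
    ffr_ofs hW (Or.inl rfl) (Or.inr rfl) hq (Or.inr h), ffr_ofs hW (Or.inr rfl) (Or.inr rfl) hq (Or.inr h)]

theorem ffr_mem_g {u s : ℝ} (hu : ((⟨u, s⟩ : ℂ), (0 : ℝ)) ∈ TD) : ((⟨u, s⟩ : ℂ), ffr_g u) ∈ TD := by
  have h1 := ffr_g_nonneg u
  have h2 := ffr_g_le u
  refine ⟨hu.1, ?_, ?_⟩
  · change -(1 / 4 : ℝ) < ffr_g u
    linarith
  · change ffr_g u < 5 / 4
    linarith

theorem ffr_F_low {W : E → N} (hW : InjOn W TD) {s : ℝ} (hs : s = 0 ∨ s = -(1 / 32)) {u : ℝ}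
    (hu : ((⟨u, s⟩ : ℂ), (0 : ℝ)) ∈ TD) : ffr_F W (W (⟨u, s⟩, 0)) = W (⟨u, s⟩, ffr_g u) := by
  unfold ffr_F
  rcases hs with rfl | rfl
  · rw [ffr_two hW (Or.inl rfl) hu]
    have hne : (((⟨u, 0⟩ : ℂ), ffr_g u) : E).1.im ≠ -(1 / 32) := by
      change (0 : ℝ) ≠ -(1 / 32)
      norm_num
    rw [ffr_ofs hW (Or.inl rfl) (Or.inr rfl) (ffr_mem_g hu) (Or.inl hne),
      ffr_ofs hW (Or.inr rfl) (Or.inr rfl) (ffr_mem_g hu) (Or.inl hne)]
  · have hne : (((⟨u, -(1 / 32)⟩ : ℂ), (0 : ℝ)) : E).1.im ≠ 0 := by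
      change (-(1 / 32) : ℝ) ≠ 0
      norm_num
    rw [ffr_ofs hW (Or.inl rfl) (Or.inl rfl) hu (Or.inl hne), ffr_ofs hW (Or.inr rfl) (Or.inl rfl) hu (Or.inl hne)]
    exact ffr_two hW (Or.inr rfl) hu

/-- the shear which separates the four fingers -/
theorem ffr_shear : ∃ V : ℝ → Equiv.Perm E, PushE TD V ∧
    (∀ (u s : ℝ), (s = 0 ∨ s = -(1 / 32)) → V 1 (⟨u, s⟩, ffr_g u) = (⟨u, s⟩, 9 / 8 * bmp u)) ∧
    ∀ q : E, q.2 = 1 → (q.1.re = 0 ∨ q.1.re = -(1 / 32)) → V 1 q = q := by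
  let a : ℂ → ℝ := fun w => 9 / 8 * bmp w.re - ffr_g w.re
  have ha : ContDiff ℝ ∞ a := by
    have h1 : ContDiff ℝ ∞ fun w : ℂ => bmp w.re := bmp_smooth.comp Complex.reCLM.contDiff
    have h2 : ContDiff ℝ ∞ fun w : ℂ => bmp (128 * w.re) :=
      bmp_smooth.comp (contDiff_const.mul Complex.reCLM.contDiff)
    have h3 : ContDiff ℝ ∞ fun w : ℂ => bmp (128 * (w.re + 1 / 32)) :=
      bmp_smooth.comp (contDiff_const.mul (Complex.reCLM.contDiff.add contDiff_const))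
    exact (contDiff_const.mul h1).sub (contDiff_const.mul (h2.add h3))
  let P : Set E := {q | q.2 = 1 ∧ (q.1.re = 0 ∨ q.1.re = -(1 / 32))}
  have hP : IsClosed P := by
    have c1 : Continuous fun q : E => q.1.re := Complex.continuous_re.comp continuous_fst
    have h1 : IsClosed {q : E | q.2 = 1} := isClosed_eq continuous_snd continuous_const
    have h2 : IsClosed {q : E | q.1.re = 0} := isClosed_eq c1 continuous_const
    have h3 : IsClosed {q : E | q.1.re = -(1 / 32)} := isClosed_eq c1 continuous_const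
    exact h1.inter (h2.union h3)
  let S₁ : Set E := (fun u : ℝ => ((⟨u, 0⟩ : ℂ), ffr_g u)) '' Icc (-(1 / 8)) (1 / 8)
  let S₂ : Set E := (fun u : ℝ => ((⟨u, -(1 / 32)⟩ : ℂ), ffr_g u)) '' Icc (-(1 / 8)) (1 / 8)
  have hg : Continuous ffr_g := by
    have := bmp_smooth.continuous
    unfold ffr_g
    fun_prop
  have hmk : ∀ s : ℝ, Continuous fun u : ℝ => (⟨u, s⟩ : ℂ) := by
    intro s
    have h1 : (fun u : ℝ => (⟨u, s⟩ : ℂ)) = fun u : ℝ => (u : ℂ) + (s : ℂ) * Complex.I := by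
      funext u
      apply Complex.ext <;> simp
    rw [h1]
    fun_prop
  have hS₁ : IsCompact S₁ := isCompact_Icc.image ((hmk 0).prodMk hg)
  have hS₂ : IsCompact S₂ := isCompact_Icc.image ((hmk (-(1 / 32))).prodMk hg)
  have key : ∀ u s : ℝ, |u| ≤ 1 / 8 → |s| ≤ 1 / 32 → ∀ r ∈ Icc (0 : ℝ) 1,
      ((⟨u, s⟩ : ℂ), ffr_g u + r * a ⟨u, s⟩) ∈ TD \ P := by
    intro u s hu hs r hr
    have e1 : ffr_g u + r * a ⟨u, s⟩ = (1 - r) * ffr_g u + r * (9 / 8 * bmp u) := by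
      change ffr_g u + r * (9 / 8 * bmp u - ffr_g u) = _
      ring
    rw [e1]
    have g1 := ffr_g_nonneg u
    have g2 := ffr_g_le u
    have b1 := bmp_nonneg u
    have b2 := bmp_le_one u
    have r1 : 0 ≤ 1 - r := by linarith [hr.2]
    have m1 : 0 ≤ (1 - r) * ffr_g u := mul_nonneg r1 g1
    have m2 : 0 ≤ r * (9 / 8 * bmp u) := mul_nonneg hr.1 (by linarith)
    have m3 : (1 - r) * ffr_g u ≤ (1 - r) * (9 / 8) := mul_le_mul_of_nonneg_left g2 r1
    have m4 : r * (9 / 8 * bmp u) ≤ r * (9 / 8) := mul_le_mul_of_nonneg_left (by linarith) hr.1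
    refine ⟨⟨?_, ?_, ?_⟩, ?_⟩
    · have h4 := Complex.norm_le_abs_re_add_abs_im (⟨u, s⟩ : ℂ)
      change ‖(⟨u, s⟩ : ℂ)‖ < 1
      have h5 : ‖(⟨u, s⟩ : ℂ)‖ ≤ |u| + |s| := h4
      linarith
    · change -(1 / 4 : ℝ) < (1 - r) * ffr_g u + r * (9 / 8 * bmp u)
      linarith
    · change (1 - r) * ffr_g u + r * (9 / 8 * bmp u) < 5 / 4
      linarith
    · rintro ⟨h1, h2⟩
      change (1 - r) * ffr_g u + r * (9 / 8 * bmp u) = 1 at h1
      change u = 0 ∨ u = -(1 / 32) at h2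
      have h3 : bmp u = 1 := by
        apply bmp_one
        rcases h2 with h2 | h2
        · rw [h2, abs_zero]; norm_num
        · rw [h2, abs_neg, abs_of_pos (by norm_num)]; norm_num
      rw [ffr_g_one h2, h3] at h1
      linarith
  have hsw : ∀ q ∈ S₁ ∪ S₂, ∀ r ∈ Icc (0 : ℝ) 1, (q.1, q.2 + r * a q.1) ∈ TD \ P := by
    intro q hq r hr
    rcases hq with ⟨u, hu, rfl⟩ | ⟨u, hu, rfl⟩
    · exact key u 0 (abs_le.2 hu) (by rw [abs_zero]; norm_num) r hr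
    · exact key u (-(1 / 32)) (abs_le.2 hu) (by rw [abs_neg, abs_of_pos (by norm_num)]) r hr
  obtain ⟨V, hV, hV1, -⟩ := vshear isOpen_TD hP ha (hS₁.union hS₂) hsw
  have hstp : Pool.Agent.CSG.stp 0 1 (1 : ℝ) = 1 := Pool.Agent.CSG.stp_one one_pos le_rfl
  refine ⟨V, ⟨hV.smooth, hV.smooth_symm, hV.zero, ?_⟩, ?_, ?_⟩
  · obtain ⟨C, hC, h1, h2⟩ := hV.supp
    exact ⟨C, hC, h1.trans sdiff_subset, h2⟩
  · intro u s hs
    have h3 : ((⟨u, s⟩ : ℂ), ffr_g u) ∈ S₁ ∪ S₂ ∨ a (((⟨u, s⟩ : ℂ), ffr_g u) : E).1 = 0 := by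
      by_cases h4 : |u| ≤ 1 / 8
      · left
        rcases hs with rfl | rfl
        · exact Or.inl ⟨u, abs_le.1 h4, rfl⟩
        · exact Or.inr ⟨u, abs_le.1 h4, rfl⟩
      · right
        change 9 / 8 * bmp u - ffr_g u = 0
        rw [bmp_zero (not_le.1 h4).le, ffr_g_zero (not_le.1 h4).le]
        ring
    rw [hV1 _ h3, hstp]
    refine Prod.ext rfl ?_
    change ffr_g u + 1 * (9 / 8 * bmp u - ffr_g u) = 9 / 8 * bmp u
    ring
  · intro q h1 h2
    obtain ⟨C, hC, h3, h4⟩ := hV.supp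
    apply h4
    intro hqC
    exact (h3 hqC).2 ⟨h1, h2⟩

theorem ffr_main [T2Space N] {K : Set N} {W : E → N} (hW : Cht TD W) (hit : K ∩ W '' TD = W '' TS2) :
    LEqN (KW K W) (fing (W ∘ sub (-(1 / 32)) (-(1 / 32))) '' (fing (W ∘ sub 0 (-(1 / 32))) ''
      (fing (W ∘ sub (-(1 / 32)) 0) '' (fing (W ∘ sub 0 0) '' K)))) := by
  have hF : fing (W ∘ sub (-(1 / 32)) (-(1 / 32))) '' (fing (W ∘ sub 0 (-(1 / 32))) ''
      (fing (W ∘ sub (-(1 / 32)) 0) '' (fing (W ∘ sub 0 0) '' K))) = ffr_F W '' K := by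
    rw [image_image, image_image, image_image]
    rfl
  rw [hF]
  obtain ⟨V, hV, hV1, hV2⟩ := ffr_shear
  obtain ⟨V', hV', hV'1, hV'2⟩ := push_chart hW hV
  have hi := hW.inj
  have hout : ∀ y, y ∉ W '' TD → V' 1 (ffr_F W y) = y := by
    intro y hy
    rw [ffr_F_out hy, hV'2 1 y hy]
  have htop : ∀ q ∈ TD, q.2 = 1 → (q.1.re = 0 ∨ q.1.re = -(1 / 32)) → V' 1 (ffr_F W (W q)) = W q := by
    intro q hq h1 h2
    rw [ffr_F_top hi hq (by rw [h1]; exact one_ne_zero), hV'1 1 q hq, hV2 q h1 h2]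
  have hlow : ∀ u s : ℝ, (s = 0 ∨ s = -(1 / 32)) → ((⟨u, s⟩ : ℂ), (0 : ℝ)) ∈ TD →
      V' 1 (ffr_F W (W (⟨u, s⟩, 0))) = W (⟨u, s⟩, 9 / 8 * bmp u) := by
    intro u s hs hu
    rw [ffr_F_low hi hs hu, hV'1 1 _ (ffr_mem_g hu), hV1 u s hs]
  have himg : V' 1 '' (ffr_F W '' K) = KW K W := by
    rw [image_image]
    apply Subset.antisymm
    · rintro _ ⟨y, hy, rfl⟩
      by_cases hyW : y ∈ W '' TD
      · have h1 : y ∈ W '' TS2 := by
          rw [← hit]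
          exact ⟨hy, hyW⟩
        obtain ⟨⟨w, x⟩, hq, rfl⟩ := h1
        right
        rcases hq.2 with ⟨h2, h3⟩ | ⟨h2, h3⟩
        · change x = 0 at h2
          subst h2
          change w.im = 0 ∨ w.im = -(1 / 32) at h3
          have h4 : w = ⟨w.re, w.im⟩ := rfl
          change V' 1 (ffr_F W (W (⟨w.re, w.im⟩, 0))) ∈ W '' TF2
          rw [hlow w.re w.im h3 hq.1]
          have b1 := bmp_nonneg w.re
          have b2 := bmp_le_one w.re
          refine ⟨(⟨w.re, w.im⟩, 9 / 8 * bmp w.re), ⟨⟨hq.1.1, ?_, ?_⟩, Or.inl ⟨rfl, h3⟩⟩, rfl⟩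
          · change -(1 / 4 : ℝ) < 9 / 8 * bmp w.re
            linarith
          · change 9 / 8 * bmp w.re < 5 / 4
            linarith
        · change V' 1 (ffr_F W (W (w, x))) ∈ W '' TF2
          rw [htop (w, x) hq.1 h2 h3]
          exact ⟨(w, x), ⟨hq.1, Or.inr ⟨h2, h3⟩⟩, rfl⟩
      · left
        change V' 1 (ffr_F W y) ∈ K \ W '' TD
        rw [hout y hyW]
        exact ⟨hy, hyW⟩
    · rintro y (⟨hy, hyW⟩ | ⟨⟨w, x⟩, hq, rfl⟩)
      · exact ⟨y, hy, hout y hyW⟩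
      · have hTS : W '' TS2 ⊆ K := by
          rw [← hit]
          exact inter_subset_left
        rcases hq.2 with ⟨h2, h3⟩ | ⟨h2, h3⟩
        · change x = 9 / 8 * bmp w.re at h2
          subst h2
          change w.im = 0 ∨ w.im = -(1 / 32) at h3
          have hmem : ((⟨w.re, w.im⟩ : ℂ), (0 : ℝ)) ∈ TD := by
            refine ⟨hq.1.1, ?_, ?_⟩
            · change -(1 / 4 : ℝ) < 0
              norm_num
            · change (0 : ℝ) < 5 / 4
              norm_num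
          refine ⟨W (⟨w.re, w.im⟩, 0), hTS ⟨_, ⟨hmem, Or.inl ⟨rfl, h3⟩⟩, rfl⟩, ?_⟩
          exact hlow w.re w.im h3 hmem
        · exact ⟨W (w, x), hTS ⟨_, ⟨hq.1, Or.inr ⟨h2, h3⟩⟩, rfl⟩, htop (w, x) hq.1 h2 h3⟩
  rw [← himg]
  exact (LEqN.diff _ (hV'.mono (subset_univ _))).symm

end Pool.Agent.NHQ
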