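import Pool.Agent.NHQ.Lbl
import Pool.Agent.NHQ.Shr
import Pool.Agent.NHP.Tra

/-!
# NHQ/Swp: foot and tip of a chord can be exchanged
-/

open scoped Manifold ContDiff Topology unitInterval
open Set Filter CategoryTheory
open Pool.Agent.CSG (stp stp_smooth stp_zero stp_one stp_nonneg stp_le_one)
open Pool.Agent.RSG (E3 ex Thick)
open Pool.Agent.KNT (bmp)
open Pool.Agent.NHP

namespace Pool.Agent.NHQ

/-- the involution of the model -/
noncomputable def rho (q : E) : E := (Complex.I * (starRingEnd ℂ) q.1, 1 - q.2)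

theorem rho_rho (q : E) : rho (rho q) = q := by
  obtain ⟨w, x⟩ := q
  unfold rho
  refine Prod.ext ?_ ?_
  · change Complex.I * (starRingEnd ℂ) (Complex.I * (starRingEnd ℂ) w) = w
    rw [map_mul, Complex.conj_I, Complex.conj_conj, ← mul_assoc]
    simp
  · change 1 - (1 - x) = x
    ring

theorem rho_TD {q : E} (h : q ∈ TD) : rho q ∈ TD := by
  obtain ⟨h1, h2, h3⟩ := h
  refine ⟨?_, ?_, ?_⟩
  · change ‖Complex.I * (starRingEnd ℂ) q.1‖ < 1
    rw [norm_mul, Complex.norm_I, one_mul, RCLike.norm_conj]; exact h1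
  · change -(1 / 4) < 1 - q.2; linarith
  · change 1 - q.2 < 5 / 4; linarith

theorem rho_TS {q : E} (h : q ∈ TS) : rho q ∈ TS := by
  obtain ⟨h1, h2⟩ := h
  refine ⟨rho_TD h1, ?_⟩
  rcases h2 with ⟨h3, h4⟩ | ⟨h3, h4⟩
  · right
    constructor
    · change 1 - q.2 = 1; rw [h3]; ring
    · change (Complex.I * (starRingEnd ℂ) q.1).re = 0
      simp [h4]
  · left
    constructor
    · change 1 - q.2 = 0; rw [h3]; ring
    · change (Complex.I * (starRingEnd ℂ) q.1).im = 0
      simp [h4]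

theorem rho_smooth : ContDiff ℝ ∞ rho := by
  have h1 : ContDiff ℝ ∞ fun w : ℂ => (starRingEnd ℂ) w := Complex.conjCLE.contDiff
  exact (contDiff_const.mul (h1.comp contDiff_fst)).prodMk (contDiff_const.sub contDiff_snd)

theorem rho_inj : Function.Injective rho := fun a b h => by rw [← rho_rho a, h, rho_rho]

section
variable {N : Type*} {T : E → N}

theorem rev_eq (T : E → N) : rev T = fun q => T (rho q) := rfl

theorem rev_TD (T : E → N) : rev T '' TD = T '' TD := by
  ext y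
  constructor
  · rintro ⟨q, hq, rfl⟩
    exact ⟨rho q, rho_TD hq, rfl⟩
  · rintro ⟨q, hq, rfl⟩
    exact ⟨rho q, rho_TD hq, by rw [rev_eq]; simp [rho_rho]⟩

theorem rev_TS (T : E → N) : rev T '' TS = T '' TS := by
  ext y
  constructor
  · rintro ⟨q, hq, rfl⟩
    exact ⟨rho q, rho_TS hq, rfl⟩
  · rintro ⟨q, hq, rfl⟩
    exact ⟨rho q, rho_TS hq, by rw [rev_eq]; simp [rho_rho]⟩

theorem rev_inj (hT : InjOn T TD) : InjOn (rev T) TD := fun a ha b hb h =>
  rho_inj (hT (rho_TD ha) (rho_TD hb) h)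

end

section
variable {N : Type*} [TopologicalSpace N] [ChartedSpace E3 N] {T : E → N}

theorem rho_bij (q : E) : Function.Bijective (fderiv ℝ rho q) := by
  have h1 : HasFDerivAt rho (fderiv ℝ rho q) q := (rho_smooth.differentiable (by simp) q).hasFDerivAt
  have h2 : HasFDerivAt rho (fderiv ℝ rho (rho q)) (rho q) :=
    (rho_smooth.differentiable (by simp) _).hasFDerivAt
  have h3 : HasFDerivAt rho (fderiv ℝ rho (rho (rho q))) (rho (rho q)) :=
    (rho_smooth.differentiable (by simp) _).hasFDerivAt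
  have e1 : (fderiv ℝ rho (rho q)).comp (fderiv ℝ rho q) = ContinuousLinearMap.id ℝ E := by
    have h4 := h2.comp q h1
    have h5 : rho ∘ rho = id := funext rho_rho
    rw [h5] at h4
    exact h4.unique (hasFDerivAt_id q)
  have e2 : (fderiv ℝ rho q).comp (fderiv ℝ rho (rho q)) = ContinuousLinearMap.id ℝ E := by
    have h4 := h3.comp (rho q) h2
    have h5 : rho ∘ rho = id := funext rho_rho
    rw [h5, rho_rho] at h4
    exact h4.unique (hasFDerivAt_id _)
  constructor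
  · intro a b h
    have := congrArg (fderiv ℝ rho (rho q)) h
    have ea : fderiv ℝ rho (rho q) (fderiv ℝ rho q a) = a := congrArg (fun L : E →L[ℝ] E => L a) e1
    have eb : fderiv ℝ rho (rho q) (fderiv ℝ rho q b) = b := congrArg (fun L : E →L[ℝ] E => L b) e1
    rw [ea, eb] at this
    exact this
  · intro b
    exact ⟨fderiv ℝ rho (rho q) b, congrArg (fun L : E →L[ℝ] E => L b) e2⟩

theorem chd_rev {K : Set N} (h : Chd K T) : Chd K (rev T) where
  cht := h.cht.comp (f := rho) (NHQ.TD_open) (fun q _ => rho_smooth.contDiffAt) (fun q _ => rho_bij q)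
    (fun a _ b _ h => rho_inj h) (fun q hq => rho_TD hq)
  hit := by rw [rev_TD, rev_TS]; exact h.hit

variable [T2Space N]

/-- **Swap.** -/
theorem swap {K : Set N} (h : Chd K T) :
    ∃ V : ℝ → Equiv.Perm N, Push (T '' TD) V ∧ ∀ y ∈ K, fing (rev T) y = V 1 (fing T y) := by
  let a : ℂ → ℝ := fun w => -(9 / 8) * (bmp w.re * bmp w.im)
  have ha : ContDiff ℝ ∞ a := by
    have h1 : ContDiff ℝ ∞ fun w : ℂ => bmp w.re := bmp_smooth.comp Complex.reCLM.contDiff
    have h2 : ContDiff ℝ ∞ fun w : ℂ => bmp w.im := bmp_smooth.comp Complex.imCLM.contDiff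
    exact contDiff_const.mul (h1.mul h2)
  let S₁ : Set E := (fun u : ℝ => ((u : ℂ), 9 / 8 * bmp u)) '' Icc (-(1 / 8)) (1 / 8)
  let S₂ : Set E := (fun u : ℝ => (Complex.I * (u : ℂ), (1 : ℝ))) '' Icc (-(1 / 8)) (1 / 8)
  have hS₁ : IsCompact S₁ := isCompact_Icc.image (by have := bmp_smooth.continuous; fun_prop)
  have hS₂ : IsCompact S₂ := isCompact_Icc.image (by fun_prop)
  have hsw : ∀ q ∈ S₁ ∪ S₂, ∀ r ∈ Icc (0 : ℝ) 1, (q.1, q.2 + r * a q.1) ∈ TD \ (∅ : Set E) := by
    intro q hq r hr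
    rw [sdiff_empty]
    rcases hq with ⟨u, hu, rfl⟩ | ⟨u, hu, rfl⟩
    · have hu' : |u| ≤ 1 / 8 := abs_le.2 hu
      change ((u : ℂ), 9 / 8 * bmp u + r * (-(9 / 8) * (bmp (u : ℂ).re * bmp (u : ℂ).im))) ∈ TD
      rw [Complex.ofReal_re, Complex.ofReal_im, bmp_zero_eq, mul_one]
      have h0 := bmp_nonneg u
      have h1 := bmp_le_one u
      have h2 : 0 ≤ (1 - r) * bmp u := mul_nonneg (by linarith [hr.2]) h0
      have h3 : (1 - r) * bmp u ≤ 1 := by
        calc (1 - r) * bmp u ≤ 1 * 1 := mul_le_mul (by linarith [hr.1]) h1 h0 zero_le_one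
          _ = 1 := one_mul 1
      refine foot_TD (by linarith) ?_ ?_
      · linarith
      · linarith
    · have hu' : |u| ≤ 1 / 8 := abs_le.2 hu
      have e1 : (Complex.I * (u : ℂ)).re = 0 := by simp
      have e2 : (Complex.I * (u : ℂ)).im = u := by simp
      change (Complex.I * (u : ℂ), 1 + r * (-(9 / 8) * (bmp (Complex.I * (u : ℂ)).re * bmp (Complex.I * (u : ℂ)).im))) ∈ TD
      rw [e1, e2, bmp_zero_eq, one_mul]
      have h0 := bmp_nonneg u
      have h1 := bmp_le_one u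
      have h2 : 0 ≤ r * bmp u := mul_nonneg hr.1 h0
      have h3 : r * bmp u ≤ 1 := by
        calc r * bmp u ≤ 1 * 1 := mul_le_mul hr.2 h1 h0 zero_le_one
          _ = 1 := one_mul 1
      refine ⟨?_, ?_, ?_⟩
      · change ‖Complex.I * (u : ℂ)‖ < 1
        rw [norm_mul, Complex.norm_I, one_mul, Complex.norm_real, Real.norm_eq_abs]; linarith
      · change -(1 / 4) < 1 + r * (-(9 / 8) * bmp u); linarith
      · change 1 + r * (-(9 / 8) * bmp u) < 5 / 4; linarith
  obtain ⟨V, hV, hV1, -⟩ := vshear TD_open isClosed_empty ha (hS₁.union hS₂) hsw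
  rw [sdiff_empty] at hV
  obtain ⟨V', hV', hV'1, hV'2⟩ := push_chart h.cht hV
  refine ⟨V', hV', ?_⟩
  have hT := h.cht.inj
  have hstp : stp 0 1 (1 : ℝ) = 1 := stp_one one_pos le_rfl
  intro y hy
  by_cases hyT : y ∈ T '' TD
  · have hyS : y ∈ T '' TS := by rw [← h.hit]; exact ⟨hy, hyT⟩
    obtain ⟨⟨w, x⟩, ⟨hq, hq'⟩, rfl⟩ := hyS
    rcases hq' with ⟨h1, h2⟩ | ⟨h1, h2⟩
    · -- foot
      change x = 0 at h1
      change w.im = 0 at h2
      subst h1
      obtain ⟨u, rfl⟩ : ∃ u : ℝ, w = (u : ℂ) := ⟨w.re, by apply Complex.ext <;> simp [h2]⟩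
      have hu : |u| < 1 := by have := hq.1; change ‖(u : ℂ)‖ < 1 at this; rwa [Complex.norm_real, Real.norm_eq_abs] at this
      rw [fing_foot hT hu]
      have hb0 := bmp_nonneg u
      have hb1 := bmp_le_one u
      have hmem : ((u : ℂ), 9 / 8 * bmp u) ∈ TD := foot_TD hu (by linarith) (by linarith)
      rw [hV'1 1 _ hmem]
      have h3 : ((u : ℂ), 9 / 8 * bmp u) ∈ S₁ ∪ S₂ ∨ a (((u : ℂ), 9 / 8 * bmp u) : E).1 = 0 := by
        by_cases h4 : |u| ≤ 1 / 8
        · exact Or.inl (Or.inl ⟨u, abs_le.1 h4, rfl⟩)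
        · right
          change -(9 / 8) * (bmp (u : ℂ).re * bmp (u : ℂ).im) = 0
          rw [Complex.ofReal_re, bmp_zero (not_le.1 h4).le]; ring
      rw [hV1 _ h3, hstp]
      have h5 : ((((u : ℂ), 9 / 8 * bmp u) : E).1, (((u : ℂ), 9 / 8 * bmp u) : E).2 +
          1 * a (((u : ℂ), 9 / 8 * bmp u) : E).1) = ((u : ℂ), (0 : ℝ)) := by
        change ((u : ℂ), 9 / 8 * bmp u + 1 * (-(9 / 8) * (bmp (u : ℂ).re * bmp (u : ℂ).im))) = _
        rw [Complex.ofReal_re, Complex.ofReal_im, bmp_zero_eq]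
        congr 1; ring
      rw [h5]
      -- the foot strand of `T` is the tip strand of `rev T`
      have h6 : T ((u : ℂ), 0) = rev T (rho ((u : ℂ), 0)) := by rw [rev_eq]; simp [rho_rho]
      rw [h6]
      have h7 : rho ((u : ℂ), (0 : ℝ)) ∈ TD := rho_TD (foot_TD hu (by norm_num) (by norm_num))
      have h8 : (rho ((u : ℂ), (0 : ℝ))).2 ≠ 0 := by change (1 : ℝ) - 0 ≠ 0; norm_num
      exact fing_tip (T := rev T) (rev_inj hT) h7.1 h7.2.1 h7.2.2 h8
    · -- tip
      change x = 1 at h1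
      change w.re = 0 at h2
      subst h1
      obtain ⟨u, rfl⟩ : ∃ u : ℝ, w = Complex.I * (u : ℂ) := ⟨w.im, by apply Complex.ext <;> simp [h2]⟩
      have hu : |u| < 1 := by
        have := hq.1
        change ‖Complex.I * (u : ℂ)‖ < 1 at this
        rwa [norm_mul, Complex.norm_I, one_mul, Complex.norm_real, Real.norm_eq_abs] at this
      rw [fing_tip hT hq.1 (by norm_num) (by norm_num) one_ne_zero, hV'1 1 _ hq]
      have e1 : (Complex.I * (u : ℂ)).re = 0 := by simp
      have e2 : (Complex.I * (u : ℂ)).im = u := by simp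
      have h3 : (Complex.I * (u : ℂ), (1 : ℝ)) ∈ S₁ ∪ S₂ ∨ a ((Complex.I * (u : ℂ), (1 : ℝ)) : E).1 = 0 := by
        by_cases h4 : |u| ≤ 1 / 8
        · exact Or.inl (Or.inr ⟨u, abs_le.1 h4, rfl⟩)
        · right
          change -(9 / 8) * (bmp (Complex.I * (u : ℂ)).re * bmp (Complex.I * (u : ℂ)).im) = 0
          rw [e2, bmp_zero (not_le.1 h4).le]; ring
      rw [hV1 _ h3, hstp]
      have h5 : T (Complex.I * (u : ℂ), 1) = rev T ((u : ℂ), 0) := by
        rw [rev_eq]
        change _ = T (Complex.I * (starRingEnd ℂ) (u : ℂ), 1 - 0)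
        rw [Complex.conj_ofReal, sub_zero]
      rw [h5, fing_foot (T := rev T) (rev_inj hT) hu, rev_eq]
      change T (Complex.I * (starRingEnd ℂ) (u : ℂ), 1 - 9 / 8 * bmp u)
        = T (Complex.I * (u : ℂ), 1 + 1 * (-(9 / 8) * (bmp (Complex.I * (u : ℂ)).re * bmp (Complex.I * (u : ℂ)).im)))
      rw [Complex.conj_ofReal, e1, e2, bmp_zero_eq]
      congr 2; ring
  · rw [fing_off hT hyT, hV'2 1 y hyT]
    exact fing_off (rev_inj hT) (by rw [rev_TD]; exact hyT)

end

end Pool.Agent.NHQ
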