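import Mathlib
import Pool.Agent.NHQ.Ffr
import Pool.Agent.NHQ.Lab
import Pool.Agent.NHQ.Swp

/-!
# NHQ/Lbf: the labels of the four fingers (difficulty 3)

Points: by `relA`, `relB` and `Lnk` (`foot`, `tip`, `τ = 1`): `W (a, 0) = κ (P + D a / 64, 0)`, `W (a - i/32, 0) = κ (P₂ + D a / 64, 0)` (`|a| < 1`-ish, `a` real), `W (i b, 1) = κ (P + D (5/16 + b/64), 0)`, `W (-1/32 + i b, 1) = κ (P₂ + D (5/16 + b/64), 0)`.
So the four vertical segments go: (0,0): `P → P + 5/16 D`; (-1/32, 0): `P - D/2048 → P₂ + 5/16 D`; (0, -1/32): `P₂ → P + D (5/16 - 1/2048)`; (-1/32, -1/32): `P₂ - D/2048 → P₂ + D (5/16 - 1/2048)`.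
LABELS (everything in `N`; all paths inside the convex domain `TD` of `W`, resp. of `B`, with the same ends are homotopic: `PC.convex` with `C = TD`): write `[a → b]` for the class of `k` from `a` to `b` (`PC.add`), `ω` for the class of `t ↦ W (0, t)`, `b₀` for the class of
`t ↦ B (0, t)`; `hc`: `[0 → P] b₀ [0 → P₂]⁻¹ = c`, `hX`: `[0 → P] ω [0 → P + 5/16 D]⁻¹ = X`.
* `t ↦ W (-t/32, 1)` is `t ↦ B (5/16, t)` (`relB`, `jb`), class `b₁ = [P + 5/16 D → P] b₀ [P₂ → P₂ + 5/16 D]` (in the domain of `B`: down the strand `x = 0`, along the core, up the strand `x = 1`; `Lnk` identifies the strands with `k`), so `[0 → P + 5/16 D] b₁ [0 → P₂ + 5/16 D]⁻¹ = c`.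
* `t ↦ W (-i t/32, 0)` is `t ↦ B (0, t)` (`relA`, `ja`), class `b₀`.
* (-1/32, 0): `t ↦ W (-1/32, t)` is homotopic in `W '' TD` to (strand `x = 0` from `-1/32` to `0`) `ω` (`t ↦ W (-t/32, 1)`): class `[P - D/2048 → P] ω b₁`: the label is `X c`.
* (0, -1/32): `t ↦ W (-i/32, t)`: `b₀⁻¹ ω` (strand `x = 1` from `0` to `-i/32`: `[P + 5/16 D → P + D (5/16 - 1/2048)]`): label (as `Lab` with foot `P₂`, tip `P + ..`) `c⁻¹ X`; reversed (`Lab.rev`, `rev` = `NHQ.rev`): `X⁻¹ c`.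
* (-1/32, -1/32): `t ↦ W (-1/32 - i/32, t)`: (strand `[P₂ - D/2048 → P₂]`) `b₀⁻¹ ω` (`t ↦ W (-t/32, 1)`, class `b₁`) (strand `[P₂ + 5/16 D → P₂ + D (5/16 - 1/2048)]`): label `c⁻¹ X c`.
The chords: `ffr_chd`, `chd_rev`; base point `x = k 0 ∉`: `W '' TD ∩ range k = W '' TS2` consists of points `k l` with `l` in `(P - D, P + D)` or `(P₂ - D, P₂ + D)`, inside `(0, 1)` (`Thick.inj`).
`(W ∘ sub r s) (0, t) = W (r + i s, t)`.
-/

open scoped Manifold ContDiff Topology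
open Set Filter CategoryTheory
open Pool.Agent.RSG (E3 ex Thick)
open Pool.Agent.KNT (bmp)
open Pool.Agent.NHP
open Pool.Agent.NHR (TS2 TF2 KW SP Lnk)

namespace Pool.Agent.NHQ

section
variable {N : Type*} [TopologicalSpace N] {k : ℝ → N}

/-- the class of `k` from `0` to `a` -/
noncomputable def lbf_A (hk : Continuous k) (a : ℝ) : FundamentalGroupoid.mk (k 0) ⟶ FundamentalGroupoid.mk (k a) :=
  (exists_PC (f := fun t => k (a * t)) (x := k 0) (y := k a)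
    (hk.comp (continuous_const.mul continuous_id)).continuousOn
    (by rw [mul_zero]) (by rw [mul_one])).choose

theorem lbf_A_spec (hk : Continuous k) (a : ℝ) : PC (fun t => k (a * t)) (lbf_A hk a) :=
  (exists_PC (f := fun t => k (a * t)) (x := k 0) (y := k a)
    (hk.comp (continuous_const.mul continuous_id)).continuousOn
    (by rw [mul_zero]) (by rw [mul_one])).choose_spec

/-- the class of `k` from `a` to `b` -/
noncomputable def lbf_K (hk : Continuous k) (a b : ℝ) : FundamentalGroupoid.mk (k a) ⟶ FundamentalGroupoid.mk (k b) :=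
  inv (lbf_A hk a) ≫ lbf_A hk b

theorem lbf_K_spec (hk : Continuous k) (a b : ℝ) : PC (fun t => k (a + (b - a) * t)) (lbf_K hk a b) := by
  obtain ⟨γ, hγ⟩ := exists_PC (f := fun t => k (a + (b - a) * t)) (x := k a) (y := k b)
    (hk.comp (continuous_const.add (continuous_const.mul continuous_id))).continuousOn
    (by rw [mul_zero, add_zero]) (by rw [mul_one]; congr 1; ring)
  have h1 : PC (fun t => k (0 + (a - 0) * t)) (lbf_A hk a) :=
    (lbf_A_spec hk a).congr (fun t _ => by rw [zero_add, sub_zero])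
  have h2 := PC.add convex_univ hk.continuousOn (mem_univ (0 : ℝ)) (mem_univ a) (mem_univ b) h1 hγ
  have h3 : PC (fun t => k (b * t)) (lbf_A hk a ≫ γ) := h2.congr (fun t _ => by rw [zero_add, sub_zero])
  have h4 : lbf_A hk a ≫ γ = lbf_A hk b := h3.unique (lbf_A_spec hk b)
  have h5 : γ = lbf_K hk a b := by
    unfold lbf_K
    rw [← h4, IsIso.inv_hom_id_assoc]
  rw [← h5]
  exact hγ

/-- a path given as a reparametrised piece of `k` -/
theorem lbf_K_spec' (hk : Continuous k) {a b : ℝ} {f : ℝ → N} (hf : ∀ t ∈ Icc (0 : ℝ) 1, f t = k (a + (b - a) * t)) :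
    PC f (lbf_K hk a b) := (lbf_K_spec hk a b).congr hf

/-- the label of a path from `k a` to `k b` -/
noncomputable def lbf_L (hk : Continuous k) {a b : ℝ} (γ : FundamentalGroupoid.mk (k a) ⟶ FundamentalGroupoid.mk (k b)) :
    FundamentalGroupoid.mk (k 0) ⟶ FundamentalGroupoid.mk (k 0) := lbf_A hk a ≫ γ ≫ inv (lbf_A hk b)

theorem lbf_L_comp (hk : Continuous k) {a b c : ℝ} (γ : FundamentalGroupoid.mk (k a) ⟶ FundamentalGroupoid.mk (k b))
    (δ : FundamentalGroupoid.mk (k b) ⟶ FundamentalGroupoid.mk (k c)) :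
    lbf_L hk (γ ≫ δ) = lbf_L hk γ ≫ lbf_L hk δ := by
  unfold lbf_L
  simp only [Category.assoc, IsIso.inv_hom_id_assoc]

theorem lbf_L_K (hk : Continuous k) (a b : ℝ) : lbf_L hk (lbf_K hk a b) = 𝟙 _ := by
  unfold lbf_L lbf_K
  simp only [Category.assoc, IsIso.hom_inv_id_assoc, IsIso.hom_inv_id]

theorem lbf_L_inv (hk : Continuous k) {a b : ℝ} (γ : FundamentalGroupoid.mk (k a) ⟶ FundamentalGroupoid.mk (k b)) :
    lbf_L hk (inv γ) = inv (lbf_L hk γ) := by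
  unfold lbf_L
  simp only [IsIso.inv_comp, IsIso.inv_inv, Category.assoc]

theorem lbf_Lab (hk : Continuous k) {T : E → N} {p q : ℝ} {c : FundamentalGroupoid.mk (k 0) ⟶ FundamentalGroupoid.mk (k 0)}
    (h : Lab (k 0) k T p q c) : ∃ β : FundamentalGroupoid.mk (k p) ⟶ FundamentalGroupoid.mk (k q),
      PC (fun t => T (0, t)) β ∧ c = lbf_L hk β := by
  obtain ⟨α, β, δ, h1, h2, h3, h4⟩ := h
  refine ⟨β, h2, ?_⟩
  rw [h4, h1.unique (lbf_A_spec hk p), h3.unique (lbf_A_spec hk q)]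
  rfl

theorem lbf_Lab' (hk : Continuous k) {T : E → N} {p q : ℝ} {β : FundamentalGroupoid.mk (k p) ⟶ FundamentalGroupoid.mk (k q)}
    (h : PC (fun t => T (0, t)) β) : Lab (k 0) k T p q (lbf_L hk β) :=
  ⟨_, β, _, lbf_A_spec hk p, h, lbf_A_spec hk q, rfl⟩

/-- a square in the domain of a chart -/
theorem lbf_sq {F : E → N} (hF : ContinuousOn F TD) {u : ℝ × ℝ → E} (hu : Continuous u)
    (hm : ∀ s ∈ Icc (0 : ℝ) 1, ∀ t ∈ Icc (0 : ℝ) 1, u (s, t) ∈ TD) {x y x' y' : N}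
    {γ₀ : FundamentalGroupoid.mk x ⟶ FundamentalGroupoid.mk y}
    {γ₁ : FundamentalGroupoid.mk x' ⟶ FundamentalGroupoid.mk y'}
    {α : FundamentalGroupoid.mk x ⟶ FundamentalGroupoid.mk x'}
    {β : FundamentalGroupoid.mk y ⟶ FundamentalGroupoid.mk y'} (h0 : PC (fun t => F (u (0, t))) γ₀)
    (h1 : PC (fun t => F (u (1, t))) γ₁) (ha : PC (fun s => F (u (s, 0))) α) (hb : PC (fun s => F (u (s, 1))) β) :
    γ₀ ≫ β = α ≫ γ₁ :=
  PC.square (H := fun q => F (u q)) (hF.comp hu.continuousOn (fun q hq => hm q.1 hq.1 q.2 hq.2)) h0 h1 ha hb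

end

theorem lbf_mem {a b x : ℝ} (ha : |a| ≤ 1 / 2) (hb : |b| ≤ 1 / 4) (h0 : 0 ≤ x) (h1 : x ≤ 1) : ((⟨a, b⟩ : ℂ), x) ∈ TD := by
  have h4 : ‖(⟨a, b⟩ : ℂ)‖ ≤ |a| + |b| := Complex.norm_le_abs_re_add_abs_im (⟨a, b⟩ : ℂ)
  refine ⟨?_, ?_, ?_⟩
  · change ‖(⟨a, b⟩ : ℂ)‖ < 1
    linarith
  · change -(1 / 4 : ℝ) < x
    linarith
  · change x < 5 / 4
    linarith

theorem lbf_mk (f g : ℝ × ℝ → ℝ) (hf : Continuous f) (hg : Continuous g) : Continuous fun q => (⟨f q, g q⟩ : ℂ) := by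
  have h1 : (fun q => (⟨f q, g q⟩ : ℂ)) = fun q => (f q : ℂ) + (g q : ℂ) * Complex.I := by
    funext u
    apply Complex.ext <;> simp
  rw [h1]
  exact (Complex.continuous_ofReal.comp hf).add ((Complex.continuous_ofReal.comp hg).mul continuous_const)

variable {N : Type*} [TopologicalSpace N] [ChartedSpace E3 N] [T2Space N]

section
variable {κ : ℝ × ℂ → N} {k : ℝ → N} {B W : E → N} {P P₂ D H H' : ℝ}

theorem lbf_B0 (hk : ∀ l, κ (l, 0) = k l) (hl : Lnk κ B P P₂ D H H' 1) {q : E} (hq : q ∈ TD) (h1 : q.1.im = 0)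
    (h2 : q.2 = 0) : B q = k (P + D * q.1.re) := by
  rw [hl.foot q hq (by rw [h2]; norm_num), ← hk, h1, h2]
  congr 2
  apply Complex.ext <;> simp

theorem lbf_B1 (hk : ∀ l, κ (l, 0) = k l) (hl : Lnk κ B P P₂ D H H' 1) {q : E} (hq : q ∈ TD) (h1 : q.1.im = 0)
    (h2 : q.2 = 1) : B q = k (P₂ + D * q.1.re) := by
  rw [hl.tip q hq (by rw [h2]; norm_num), ← hk, h1, h2, one_mul]
  congr 2
  apply Complex.ext <;> simp

theorem lbf_ja {q : E} (h1 : ‖q.1‖ < 1) (h2 : |q.2| ≤ 1 / 10) (h3 : -(9 / 64) ≤ -(32 * q.1.im)) (h4 : -(32 * q.1.im) ≤ 73 / 64) :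
    NHR.ja q ∈ TD := by
  have h5 : |q.1.re| < 1 := (Complex.abs_re_le_norm q.1).trans_lt h1
  have h6 : ‖(⟨q.1.re / 64, q.2 / 64⟩ : ℂ)‖ ≤ |q.1.re / 64| + |q.2 / 64| :=
    Complex.norm_le_abs_re_add_abs_im (⟨q.1.re / 64, q.2 / 64⟩ : ℂ)
  rw [abs_div, abs_div, abs_of_pos (by norm_num : (0 : ℝ) < 64)] at h6
  refine ⟨?_, ?_, ?_⟩
  · change ‖(⟨q.1.re / 64, q.2 / 64⟩ : ℂ)‖ < 1
    linarith
  · change -(1 / 4 : ℝ) < -(32 * q.1.im)
    linarith
  · change -(32 * q.1.im) < 5 / 4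
    linarith

theorem lbf_jb {q : E} (h1 : ‖q.1‖ < 1) (h2 : |q.2 - 1| ≤ 1 / 10) (h3 : -(9 / 64) ≤ -(32 * q.1.re))
    (h4 : -(32 * q.1.re) ≤ 73 / 64) : NHR.jb q ∈ TD := by
  have h5 : |q.1.im| < 1 := (Complex.abs_im_le_norm q.1).trans_lt h1
  have h6 : ‖(⟨5 / 16 + q.1.im / 64, (1 - q.2) / 64⟩ : ℂ)‖ ≤ |5 / 16 + q.1.im / 64| + |(1 - q.2) / 64| :=
    Complex.norm_le_abs_re_add_abs_im (⟨5 / 16 + q.1.im / 64, (1 - q.2) / 64⟩ : ℂ)
  have h7 : |5 / 16 + q.1.im / 64| ≤ |(5 / 16 : ℝ)| + |q.1.im / 64| := abs_add_le _ _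
  rw [abs_div q.1.im, abs_of_pos (by norm_num : (0 : ℝ) < 64), abs_of_pos (by norm_num : (0 : ℝ) < 5 / 16)] at h7
  rw [abs_div (1 - q.2), abs_of_pos (by norm_num : (0 : ℝ) < 64), abs_sub_comm] at h6
  refine ⟨?_, ?_, ?_⟩
  · change ‖(⟨5 / 16 + q.1.im / 64, (1 - q.2) / 64⟩ : ℂ)‖ < 1
    linarith
  · change -(1 / 4 : ℝ) < -(32 * q.1.re)
    linarith
  · change -(32 * q.1.re) < 5 / 4
    linarith

/-- the first horizontal strand -/
theorem lbf_W1 (hk : ∀ l, κ (l, 0) = k l) (h : SP (core κ) B W) (hl : Lnk κ B P P₂ D H H' 1) {q : E} (hq : q ∈ TD)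
    (h1 : q.1.im = 0) (h2 : q.2 = 0) : W q = k (P + D * (q.1.re / 64)) := by
  have a1 : |q.2| ≤ 1 / 10 := by rw [h2, abs_zero]; norm_num
  have a2 : -(9 / 64) ≤ -(32 * q.1.im) := by rw [h1]; norm_num
  have a3 : -(32 * q.1.im) ≤ 73 / 64 := by rw [h1]; norm_num
  rw [h.relA q hq a1 a2 a3, lbf_B0 hk hl (lbf_ja hq.1 a1 a2 a3)]
  · rfl
  · change q.2 / 64 = 0
    rw [h2, zero_div]
  · change -(32 * q.1.im) = 0
    rw [h1]; norm_num

/-- the second horizontal strand -/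
theorem lbf_W2 (hk : ∀ l, κ (l, 0) = k l) (h : SP (core κ) B W) (hl : Lnk κ B P P₂ D H H' 1) {q : E} (hq : q ∈ TD)
    (h1 : q.1.im = -(1 / 32)) (h2 : q.2 = 0) : W q = k (P₂ + D * (q.1.re / 64)) := by
  have a1 : |q.2| ≤ 1 / 10 := by rw [h2, abs_zero]; norm_num
  have a2 : -(9 / 64) ≤ -(32 * q.1.im) := by rw [h1]; norm_num
  have a3 : -(32 * q.1.im) ≤ 73 / 64 := by rw [h1]; norm_num
  rw [h.relA q hq a1 a2 a3, lbf_B1 hk hl (lbf_ja hq.1 a1 a2 a3)]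
  · rfl
  · change q.2 / 64 = 0
    rw [h2, zero_div]
  · change -(32 * q.1.im) = 1
    rw [h1]; norm_num

/-- the first vertical strand -/
theorem lbf_W3 (hk : ∀ l, κ (l, 0) = k l) (h : SP (core κ) B W) (hl : Lnk κ B P P₂ D H H' 1) {q : E} (hq : q ∈ TD)
    (h1 : q.1.re = 0) (h2 : q.2 = 1) : W q = k (P + D * (5 / 16 + q.1.im / 64)) := by
  have a1 : |q.2 - 1| ≤ 1 / 10 := by rw [h2, sub_self, abs_zero]; norm_num
  have a2 : -(9 / 64) ≤ -(32 * q.1.re) := by rw [h1]; norm_num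
  have a3 : -(32 * q.1.re) ≤ 73 / 64 := by rw [h1]; norm_num
  rw [h.relB q hq a1 a2 a3, lbf_B0 hk hl (lbf_jb hq.1 a1 a2 a3)]
  · rfl
  · change (1 - q.2) / 64 = 0
    rw [h2, sub_self, zero_div]
  · change -(32 * q.1.re) = 0
    rw [h1]; norm_num

/-- the second vertical strand -/
theorem lbf_W4 (hk : ∀ l, κ (l, 0) = k l) (h : SP (core κ) B W) (hl : Lnk κ B P P₂ D H H' 1) {q : E} (hq : q ∈ TD)
    (h1 : q.1.re = -(1 / 32)) (h2 : q.2 = 1) : W q = k (P₂ + D * (5 / 16 + q.1.im / 64)) := by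
  have a1 : |q.2 - 1| ≤ 1 / 10 := by rw [h2, sub_self, abs_zero]; norm_num
  have a2 : -(9 / 64) ≤ -(32 * q.1.re) := by rw [h1]; norm_num
  have a3 : -(32 * q.1.re) ≤ 73 / 64 := by rw [h1]; norm_num
  rw [h.relB q hq a1 a2 a3, lbf_B1 hk hl (lbf_jb hq.1 a1 a2 a3)]
  · rfl
  · change (1 - q.2) / 64 = 0
    rw [h2, sub_self, zero_div]
  · change -(32 * q.1.re) = 1
    rw [h1]; norm_num

/-- the base point is not in the domain of `W` -/
theorem lbf_off (hκ : Thick κ) (hk : ∀ l, κ (l, 0) = k l) (h : SP (core κ) B W) (hl : Lnk κ B P P₂ D H H' 1)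
    (h1 : 0 < P - D) (h2 : P + D < P₂ - D) (h3 : P₂ + D < 1) : k 0 ∉ W '' TD := by
  intro hc
  have hD := hl.Dpos
  have h0 : ∀ l, 0 < l → l < 1 → k l ≠ k 0 := by
    intro l hl0 hl1 he
    rw [← hk, ← hk] at he
    obtain ⟨-, m, hm⟩ := hκ.inj l 0 0 0 (by rw [norm_zero]; exact one_pos) (by rw [norm_zero]; exact one_pos) he
    have e1 : (m : ℝ) = -l := by linarith
    have e2 : (-1 : ℝ) < m := by linarith
    have e3 : (m : ℝ) < 0 := by linarith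
    have e4 : (-1 : ℤ) < m := by exact_mod_cast e2
    have e5 : m < (0 : ℤ) := by exact_mod_cast e3
    omega
  have h4 : k 0 ∈ W '' TS2 := by
    rw [← h.hitW]
    exact ⟨⟨0, hk 0⟩, hc⟩
  obtain ⟨q, hq, h5⟩ := h4
  have a1 : |q.1.re| < 1 := (Complex.abs_re_le_norm q.1).trans_lt hq.1.1
  have a2 : |q.1.im| < 1 := (Complex.abs_im_le_norm q.1).trans_lt hq.1.1
  have a3 := abs_lt.1 a1
  have a4 := abs_lt.1 a2
  have b1 : D * (-1) < D * q.1.re := mul_lt_mul_of_pos_left a3.1 hD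
  have b2 : D * q.1.re < D * 1 := mul_lt_mul_of_pos_left a3.2 hD
  have b3 : D * (-1) < D * q.1.im := mul_lt_mul_of_pos_left a4.1 hD
  have b4 : D * q.1.im < D * 1 := mul_lt_mul_of_pos_left a4.2 hD
  rcases hq.2 with ⟨h6, h7 | h7⟩ | ⟨h6, h7 | h7⟩
  · rw [lbf_W1 hk h hl hq.1 h7 h6] at h5
    refine h0 _ ?_ ?_ h5
    · have : D * (q.1.re / 64) = D * q.1.re / 64 := by ring
      rw [this]; linarith
    · have : D * (q.1.re / 64) = D * q.1.re / 64 := by ring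
      rw [this]; linarith
  · rw [lbf_W2 hk h hl hq.1 h7 h6] at h5
    refine h0 _ ?_ ?_ h5
    · have : D * (q.1.re / 64) = D * q.1.re / 64 := by ring
      rw [this]; linarith
    · have : D * (q.1.re / 64) = D * q.1.re / 64 := by ring
      rw [this]; linarith
  · rw [lbf_W3 hk h hl hq.1 h7 h6] at h5
    refine h0 _ ?_ ?_ h5
    · have : D * (5 / 16 + q.1.im / 64) = 5 / 16 * D + D * q.1.im / 64 := by ring
      rw [this]; linarith
    · have : D * (5 / 16 + q.1.im / 64) = 5 / 16 * D + D * q.1.im / 64 := by ring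
      rw [this]; linarith
  · rw [lbf_W4 hk h hl hq.1 h7 h6] at h5
    refine h0 _ ?_ ?_ h5
    · have : D * (5 / 16 + q.1.im / 64) = 5 / 16 * D + D * q.1.im / 64 := by ring
      rw [this]; linarith
    · have : D * (5 / 16 + q.1.im / 64) = 5 / 16 * D + D * q.1.im / 64 := by ring
      rw [this]; linarith

/-- the labels -/
theorem lbf_labels (hκ : Continuous k) (hk : ∀ l, κ (l, 0) = k l)
    {X c : FundamentalGroupoid.mk (k 0) ⟶ FundamentalGroupoid.mk (k 0)} (h : SP (core κ) B W)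
    (hl : Lnk κ B P P₂ D H H' 1) (hc : Lab (k 0) k B P P₂ c)
    (hX : Lab (k 0) k W P (P + 5 / 16 * D) X) :
    Lab (k 0) k (W ∘ sub (-(1 / 32)) 0) (P - D / 2048) (P₂ + 5 / 16 * D) (X ≫ c) ∧
    Lab (k 0) k (W ∘ sub 0 (-(1 / 32))) P₂ (P + D * (5 / 16 - 1 / 2048)) (inv c ≫ X) ∧
    Lab (k 0) k (W ∘ sub (-(1 / 32)) (-(1 / 32))) (P₂ - D / 2048) (P₂ + D * (5 / 16 - 1 / 2048)) (inv c ≫ X ≫ c) := by
  have cW := h.chtW.contOn
  have cB := h.chtB.contOn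
  obtain ⟨b₀, hb₀, hc'⟩ := lbf_Lab hκ hc
  obtain ⟨om, hom, hX'⟩ := lbf_Lab hκ hX
  -- points
  have pt : ∀ {F : E → N} (hF : ContinuousOn F TD) (a b : ℝ), |a| ≤ 1 / 2 → |b| ≤ 1 / 4 →
      ContinuousOn (fun t : ℝ => F ((⟨a, b⟩ : ℂ), t)) (Icc 0 1) := by
    intro F hF a b ha hb
    exact hF.comp (continuous_const.prodMk continuous_id).continuousOn (fun t ht => lbf_mem ha hb ht.1 ht.2)
  have n0 : |(0 : ℝ)| ≤ 1 / 2 := by rw [abs_zero]; norm_num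
  have n0' : |(0 : ℝ)| ≤ 1 / 4 := by rw [abs_zero]; norm_num
  have n1 : |(-(1 / 32) : ℝ)| ≤ 1 / 2 := by rw [abs_neg, abs_of_pos (by norm_num)]; norm_num
  have n1' : |(-(1 / 32) : ℝ)| ≤ 1 / 4 := by rw [abs_neg, abs_of_pos (by norm_num)]; norm_num
  have n5 : |(5 / 16 : ℝ)| ≤ 1 / 2 := by rw [abs_of_pos (by norm_num)]; norm_num
  have m0 : ∀ s ∈ Icc (0 : ℝ) 1, |(-(s / 32) : ℝ)| ≤ 1 / 2 := by
    intro s hs
    rw [abs_neg, abs_of_nonneg (by linarith [hs.1])]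
    linarith [hs.2]
  have m0' : ∀ s ∈ Icc (0 : ℝ) 1, |(-(s / 32) : ℝ)| ≤ 1 / 4 := by
    intro s hs
    rw [abs_neg, abs_of_nonneg (by linarith [hs.1])]
    linarith [hs.2]
  have m5 : ∀ s ∈ Icc (0 : ℝ) 1, |(5 / 16 * s : ℝ)| ≤ 1 / 2 := by
    intro s hs
    rw [abs_of_nonneg (by linarith [hs.1])]
    linarith [hs.2]
  -- the paths
  obtain ⟨b₁, hb₁⟩ := exists_PC (f := fun t : ℝ => B ((⟨5 / 16, 0⟩ : ℂ), t)) (x := k (P + 5 / 16 * D))
    (y := k (P₂ + 5 / 16 * D)) (pt cB _ _ n5 n0')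
    (by
      change B ((⟨5 / 16, 0⟩ : ℂ), (0 : ℝ)) = _
      rw [lbf_B0 hk hl (lbf_mem n5 n0' le_rfl zero_le_one) rfl rfl]
      congr 1; change P + D * (5 / 16) = _; ring)
    (by
      change B ((⟨5 / 16, 0⟩ : ℂ), (1 : ℝ)) = _
      rw [lbf_B1 hk hl (lbf_mem n5 n0' zero_le_one le_rfl) rfl rfl]
      congr 1; change P₂ + D * (5 / 16) = _; ring)
  obtain ⟨om₁, hom₁⟩ := exists_PC (f := fun t : ℝ => W ((⟨-(1 / 32), 0⟩ : ℂ), t)) (x := k (P - D / 2048))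
    (y := k (P₂ + 5 / 16 * D)) (pt cW _ _ n1 n0')
    (by
      change W ((⟨-(1 / 32), 0⟩ : ℂ), (0 : ℝ)) = _
      rw [lbf_W1 hk h hl (lbf_mem n1 n0' le_rfl zero_le_one) rfl rfl]
      congr 1; change P + D * (-(1 / 32) / 64) = _; ring)
    (by
      change W ((⟨-(1 / 32), 0⟩ : ℂ), (1 : ℝ)) = _
      rw [lbf_W4 hk h hl (lbf_mem n1 n0' zero_le_one le_rfl) rfl rfl]
      congr 1; change P₂ + D * (5 / 16 + 0 / 64) = _; ring)
  obtain ⟨om₂, hom₂⟩ := exists_PC (f := fun t : ℝ => W ((⟨0, -(1 / 32)⟩ : ℂ), t)) (x := k P₂)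
    (y := k (P + D * (5 / 16 - 1 / 2048))) (pt cW _ _ n0 n1')
    (by
      change W ((⟨0, -(1 / 32)⟩ : ℂ), (0 : ℝ)) = _
      rw [lbf_W2 hk h hl (lbf_mem n0 n1' le_rfl zero_le_one) rfl rfl]
      congr 1; change P₂ + D * (0 / 64) = _; ring)
    (by
      change W ((⟨0, -(1 / 32)⟩ : ℂ), (1 : ℝ)) = _
      rw [lbf_W3 hk h hl (lbf_mem n0 n1' zero_le_one le_rfl) rfl rfl]
      congr 1; change P + D * (5 / 16 + -(1 / 32) / 64) = _; ring)
  obtain ⟨om₃, hom₃⟩ := exists_PC (f := fun t : ℝ => W ((⟨-(1 / 32), -(1 / 32)⟩ : ℂ), t)) (x := k (P₂ - D / 2048))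
    (y := k (P₂ + D * (5 / 16 - 1 / 2048))) (pt cW _ _ n1 n1')
    (by
      change W ((⟨-(1 / 32), -(1 / 32)⟩ : ℂ), (0 : ℝ)) = _
      rw [lbf_W2 hk h hl (lbf_mem n1 n1' le_rfl zero_le_one) rfl rfl]
      congr 1; change P₂ + D * (-(1 / 32) / 64) = _; ring)
    (by
      change W ((⟨-(1 / 32), -(1 / 32)⟩ : ℂ), (1 : ℝ)) = _
      rw [lbf_W4 hk h hl (lbf_mem n1 n1' zero_le_one le_rfl) rfl rfl]
      congr 1; change P₂ + D * (5 / 16 + -(1 / 32) / 64) = _; ring)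
  -- the path `b₁` in `W`
  have hb₁' : PC (fun t : ℝ => W ((⟨-(t / 32), 0⟩ : ℂ), 1)) b₁ := by
    refine hb₁.congr (fun t ht => ?_)
    have hmem := lbf_mem (m0 t ht) n0' zero_le_one le_rfl
    have ht1 := ht.1
    have ht2 := ht.2
    rw [h.relB _ hmem (by change |(1 : ℝ) - 1| ≤ 1 / 10; rw [sub_self, abs_zero]; norm_num)
      (by change -(9 / 64) ≤ -(32 * -(t / 32)); linarith) (by change -(32 * -(t / 32)) ≤ 73 / 64; linarith)]
    congr 1
    refine Prod.ext (Complex.ext ?_ ?_) ?_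
    · change 5 / 16 + (0 : ℝ) / 64 = 5 / 16
      norm_num
    · change ((1 : ℝ) - 1) / 64 = 0
      norm_num
    · change -(32 * -(t / 32)) = t
      ring
  have hb₀' : PC (fun t : ℝ => W ((⟨0, -(t / 32)⟩ : ℂ), 0)) b₀ := by
    refine hb₀.congr (fun t ht => ?_)
    have hmem := lbf_mem n0 (m0' t ht) le_rfl zero_le_one
    have ht1 := ht.1
    have ht2 := ht.2
    rw [h.relA _ hmem (by change |(0 : ℝ)| ≤ 1 / 10; rw [abs_zero]; norm_num)
      (by change -(9 / 64) ≤ -(32 * -(t / 32)); linarith) (by change -(32 * -(t / 32)) ≤ 73 / 64; linarith)]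
    congr 1
    refine Prod.ext (Complex.ext ?_ ?_) ?_
    · change (0 : ℝ) / 64 = 0
      norm_num
    · change (0 : ℝ) / 64 = 0
      norm_num
    · change -(32 * -(t / 32)) = t
      ring
  have hom' : PC (fun t : ℝ => W ((⟨0, 0⟩ : ℂ), t)) om := hom.congr (fun t _ => rfl)
  have hb₀'' : PC (fun t : ℝ => B ((⟨0, 0⟩ : ℂ), t)) b₀ := hb₀.congr (fun t _ => rfl)
  -- the path `b₂`
  obtain ⟨b₂, hb₂⟩ := exists_PC (f := fun t : ℝ => W ((⟨-(t / 32), -(1 / 32)⟩ : ℂ), 1))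
    (x := k (P + D * (5 / 16 - 1 / 2048))) (y := k (P₂ + D * (5 / 16 - 1 / 2048)))
    (cW.comp (f := fun t : ℝ => (((⟨-(t / 32), -(1 / 32)⟩ : ℂ), (1 : ℝ)) : E))
      (by
        have h1 : Continuous fun t : ℝ => (⟨-(t / 32), -(1 / 32)⟩ : ℂ) :=
          (lbf_mk (fun q => -(q.1 / 32)) (fun _ => -(1 / 32)) (by fun_prop) (by fun_prop)).comp
            (continuous_id.prodMk (continuous_const (y := (0 : ℝ))))
        exact (h1.prodMk continuous_const).continuousOn)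
      (fun t ht => lbf_mem (m0 t ht) n1' zero_le_one le_rfl))
    (by
      have e : (⟨-(0 / 32), -(1 / 32)⟩ : ℂ) = ⟨0, -(1 / 32)⟩ := by congr 1; norm_num
      change W ((⟨-(0 / 32), -(1 / 32)⟩ : ℂ), (1 : ℝ)) = _
      rw [e, lbf_W3 hk h hl (lbf_mem n0 n1' zero_le_one le_rfl) rfl rfl]
      congr 1; change P + D * (5 / 16 + -(1 / 32) / 64) = _; ring)
    (by
      change W ((⟨-(1 / 32), -(1 / 32)⟩ : ℂ), (1 : ℝ)) = _
      rw [lbf_W4 hk h hl (lbf_mem n1 n1' zero_le_one le_rfl) rfl rfl]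
      congr 1; change P₂ + D * (5 / 16 + -(1 / 32) / 64) = _; ring)
  have z32 : (-(0 / 32) : ℝ) = 0 := by norm_num
  -- relation 1, in `B`
  have R1 : b₀ ≫ lbf_K hκ P₂ (P₂ + 5 / 16 * D) = lbf_K hκ P (P + 5 / 16 * D) ≫ b₁ := by
    refine lbf_sq cB (u := fun q => ((⟨5 / 16 * q.1, 0⟩ : ℂ), q.2))
      ((lbf_mk (fun q => 5 / 16 * q.1) (fun _ => 0) (by fun_prop) continuous_const).prodMk continuous_snd)
      (fun s hs t ht => lbf_mem (m5 s hs) n0' ht.1 ht.2) ?_ ?_ ?_ ?_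
    · refine hb₀''.congr (fun t _ => ?_)
      change B ((⟨5 / 16 * 0, 0⟩ : ℂ), t) = _
      rw [mul_zero]
    · refine hb₁.congr (fun t _ => ?_)
      change B ((⟨5 / 16 * 1, 0⟩ : ℂ), t) = _
      rw [mul_one]
    · refine lbf_K_spec' hκ (fun t ht => ?_)
      rw [lbf_B0 hk hl (lbf_mem (m5 t ht) n0' le_rfl zero_le_one) rfl rfl]
      congr 1; change P + D * (5 / 16 * t) = _; ring
    · refine lbf_K_spec' hκ (fun t ht => ?_)
      rw [lbf_B1 hk hl (lbf_mem (m5 t ht) n0' zero_le_one le_rfl) rfl rfl]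
      congr 1; change P₂ + D * (5 / 16 * t) = _; ring
  -- relation 2
  have R2 : om ≫ b₁ = lbf_K hκ P (P - D / 2048) ≫ om₁ := by
    refine lbf_sq cW (u := fun q => ((⟨-(q.1 / 32), 0⟩ : ℂ), q.2))
      ((lbf_mk (fun q => -(q.1 / 32)) (fun _ => 0) (by fun_prop) continuous_const).prodMk continuous_snd)
      (fun s hs t ht => lbf_mem (m0 s hs) n0' ht.1 ht.2) ?_ hom₁ ?_ hb₁'
    · refine hom'.congr (fun t _ => ?_)
      change W ((⟨-(0 / 32), 0⟩ : ℂ), t) = _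
      rw [z32]
    · refine lbf_K_spec' hκ (fun t ht => ?_)
      rw [lbf_W1 hk h hl (lbf_mem (m0 t ht) n0' le_rfl zero_le_one) rfl rfl]
      congr 1; change P + D * (-(t / 32) / 64) = _; ring
  -- relation 3
  have R3 : om ≫ lbf_K hκ (P + 5 / 16 * D) (P + D * (5 / 16 - 1 / 2048)) = b₀ ≫ om₂ := by
    refine lbf_sq cW (u := fun q => ((⟨0, -(q.1 / 32)⟩ : ℂ), q.2))
      ((lbf_mk (fun _ => 0) (fun q => -(q.1 / 32)) continuous_const (by fun_prop)).prodMk continuous_snd)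
      (fun s hs t ht => lbf_mem n0 (m0' s hs) ht.1 ht.2) ?_ hom₂ hb₀' ?_
    · refine hom'.congr (fun t _ => ?_)
      change W ((⟨0, -(0 / 32)⟩ : ℂ), t) = _
      rw [z32]
    · refine lbf_K_spec' hκ (fun t ht => ?_)
      rw [lbf_W3 hk h hl (lbf_mem n0 (m0' t ht) zero_le_one le_rfl) rfl rfl]
      congr 1; change P + D * (5 / 16 + -(t / 32) / 64) = _; ring
  -- relation 4
  have R4 : om₂ ≫ b₂ = lbf_K hκ P₂ (P₂ - D / 2048) ≫ om₃ := by
    refine lbf_sq cW (u := fun q => ((⟨-(q.1 / 32), -(1 / 32)⟩ : ℂ), q.2))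
      ((lbf_mk (fun q => -(q.1 / 32)) (fun _ => -(1 / 32)) (by fun_prop) continuous_const).prodMk continuous_snd)
      (fun s hs t ht => lbf_mem (m0 s hs) n1' ht.1 ht.2) ?_ hom₃ ?_ hb₂
    · refine hom₂.congr (fun t _ => ?_)
      change W ((⟨-(0 / 32), -(1 / 32)⟩ : ℂ), t) = _
      rw [z32]
    · refine lbf_K_spec' hκ (fun t ht => ?_)
      rw [lbf_W2 hk h hl (lbf_mem (m0 t ht) n1' le_rfl zero_le_one) rfl rfl]
      congr 1; change P₂ + D * (-(t / 32) / 64) = _; ring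
  -- relation 5
  have R5 : b₁ ≫ lbf_K hκ (P₂ + 5 / 16 * D) (P₂ + D * (5 / 16 - 1 / 2048))
      = lbf_K hκ (P + 5 / 16 * D) (P + D * (5 / 16 - 1 / 2048)) ≫ b₂ := by
    refine lbf_sq cW (u := fun q => ((⟨-(q.2 / 32), -(q.1 / 32)⟩ : ℂ), 1))
      ((lbf_mk (fun q => -(q.2 / 32)) (fun q => -(q.1 / 32)) (by fun_prop) (by fun_prop)).prodMk continuous_const)
      (fun s hs t ht => lbf_mem (m0 t ht) (m0' s hs) zero_le_one le_rfl) ?_ hb₂ ?_ ?_
    · refine hb₁'.congr (fun t _ => ?_)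
      change W ((⟨-(t / 32), -(0 / 32)⟩ : ℂ), 1) = _
      rw [z32]
    · refine lbf_K_spec' hκ (fun t ht => ?_)
      change W ((⟨-(0 / 32), -(t / 32)⟩ : ℂ), 1) = _
      rw [z32, lbf_W3 hk h hl (lbf_mem n0 (m0' t ht) zero_le_one le_rfl) rfl rfl]
      congr 1; change P + D * (5 / 16 + -(t / 32) / 64) = _; ring
    · refine lbf_K_spec' hκ (fun t ht => ?_)
      rw [lbf_W4 hk h hl (lbf_mem n1 (m0' t ht) zero_le_one le_rfl) rfl rfl]
      congr 1; change P₂ + D * (5 / 16 + -(t / 32) / 64) = _; ring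
  -- the labels
  have L1 := congrArg (lbf_L hκ) R1
  have L2 := congrArg (lbf_L hκ) R2
  have L3 := congrArg (lbf_L hκ) R3
  have L4 := congrArg (lbf_L hκ) R4
  have L5 := congrArg (lbf_L hκ) R5
  simp only [lbf_L_comp, lbf_L_K, Category.comp_id, Category.id_comp] at L1 L2 L3 L4 L5
  rw [← hc'] at L1
  rw [← hX', ← L1] at L2
  rw [← hX', ← hc'] at L3
  rw [← L1] at L5
  have L3' : lbf_L hκ om₂ = inv c ≫ X := by rw [L3, IsIso.inv_hom_id_assoc]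
  rw [L3', ← L5, Category.assoc] at L4
  have s1 : ∀ r s : ℝ, ∀ t : ℝ, (W ∘ sub r s) (0, t) = W ((⟨r, s⟩ : ℂ), t) := by
    intro r s t
    change W (sub r s (0, t)) = _
    congr 1
    refine Prod.ext (Complex.ext ?_ ?_) rfl
    · change r + (0 : ℂ).re / 128 = r
      rw [Complex.zero_re, zero_div, add_zero]
    · change s + (0 : ℂ).im / 128 = s
      rw [Complex.zero_im, zero_div, add_zero]
  refine ⟨?_, ?_, ?_⟩
  · rw [L2]
    exact lbf_Lab' hκ (hom₁.congr (fun t _ => s1 _ _ t))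
  · rw [← L3']
    exact lbf_Lab' hκ (hom₂.congr (fun t _ => s1 _ _ t))
  · rw [L4]
    exact lbf_Lab' hκ (hom₃.congr (fun t _ => s1 _ _ t))

end

theorem lbf_main {κ : ℝ × ℂ → N} (hκ : Thick κ) {k : ℝ → N} (hk : ∀ l, κ (l, 0) = k l) {x : N} (hx : k 0 = x)
    {X c : FundamentalGroupoid.mk x ⟶ FundamentalGroupoid.mk x} {B W : E → N} {P P₂ D H H' : ℝ} (h : SP (core κ) B W)
    (hl : Lnk κ B P P₂ D H H' 1) (h1 : 0 < P - D) (h2 : P + D < P₂ - D) (h3 : P₂ + D < 1) (hc : Lab x k B P P₂ c)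
    (hX : Lab x k W P (P + 5 / 16 * D) X) :
    ChL x k (W ∘ sub 0 0) P (P + 5 / 16 * D) X ∧
    ChL x k (W ∘ sub (-(1 / 32)) 0) (P - D / 2048) (P₂ + 5 / 16 * D) (X ≫ c) ∧
    ChL x k (rev (W ∘ sub 0 (-(1 / 32)))) (P + D * (5 / 16 - 1 / 2048)) P₂ (inv X ≫ c) ∧
    ChL x k (W ∘ sub (-(1 / 32)) (-(1 / 32))) (P₂ - D / 2048) (P₂ + D * (5 / 16 - 1 / 2048)) (inv c ≫ X ≫ c) := by
  subst hx
  have hkc : Continuous k := by
    have h4 : k = fun l => κ (l, 0) := funext fun l => (hk l).symm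
    rw [h4, continuous_iff_continuousAt]
    intro l
    have h5 : ContinuousAt κ (l, 0) := (hκ.loc l 0 (by rw [norm_zero]; exact one_pos)).contMDiffAt.continuousAt
    exact h5.comp (f := fun l : ℝ => (l, (0 : ℂ))) (continuous_id.prodMk continuous_const).continuousAt
  have hD := hl.Dpos
  have hr : range k = core κ := by
    unfold core
    congr 1
    funext l
    exact (hk l).symm
  have hoff := lbf_off hκ hk h hl h1 h2 h3
  have hchd : ∀ {r s : ℝ}, (r = 0 ∨ r = -(1 / 32)) → (s = 0 ∨ s = -(1 / 32)) → Chd (range k) (W ∘ sub r s) := by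
    intro r s hr' hs'
    rw [hr]
    exact ffr_chd h.chtW h.hitW hr' hs'
  have hoff' : ∀ {r s : ℝ}, (r = 0 ∨ r = -(1 / 32)) → (s = 0 ∨ s = -(1 / 32)) → k 0 ∉ (W ∘ sub r s) '' TD := by
    rintro r s hr' hs' ⟨q, hq, h4⟩
    exact hoff ⟨_, ffr_TD hr' hs' hq, h4⟩
  obtain ⟨l1, l2, l3⟩ := lbf_labels hkc hk h hl hc hX
  refine ⟨⟨hchd (Or.inl rfl) (Or.inl rfl), by linarith, by linarith, by linarith, hoff' (Or.inl rfl) (Or.inl rfl), ?_⟩,
    ⟨hchd (Or.inr rfl) (Or.inl rfl), by linarith, by linarith, by linarith, hoff' (Or.inr rfl) (Or.inl rfl), l1⟩,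
    ⟨chd_rev (hchd (Or.inl rfl) (Or.inr rfl)), by linarith, by linarith, by linarith, ?_, ?_⟩,
    ⟨hchd (Or.inr rfl) (Or.inr rfl), by linarith, by linarith, by linarith, hoff' (Or.inr rfl) (Or.inr rfl), l3⟩⟩
  · obtain ⟨β, hβ, hX'⟩ := lbf_Lab hkc hX
    rw [hX']
    refine lbf_Lab' hkc (hβ.congr (fun t _ => ?_))
    change W (sub 0 0 (0, t)) = _
    congr 1
    refine Prod.ext (Complex.ext ?_ ?_) rfl
    · change 0 + (0 : ℂ).re / 128 = (0 : ℂ).re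
      rw [Complex.zero_re, zero_div, add_zero]
    · change 0 + (0 : ℂ).im / 128 = (0 : ℂ).im
      rw [Complex.zero_im, zero_div, add_zero]
  · rw [rev_TD]
    exact hoff' (Or.inl rfl) (Or.inr rfl)
  · have l4 := l2.rev
    rw [IsIso.inv_comp, IsIso.inv_inv] at l4
    exact l4

end Pool.Agent.NHQ
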