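import Mathlib
import Pool.Agent.CSG.LDa
import Pool.Agent.NHQ.Esp
import Pool.Agent.NHQ.Lbf

/-!
# NHQ/AxE: axiom (E) of the label calculus: four fingers change nothing (difficulty 2, assembly)

`κ` thick with `κ (l, 0) = k l`, `core κ = range k`; `exists_sp`, `lbf_main`.  `T₁ = W ∘ sub 0 0`, `T₂ = W ∘ sub (-1/32) 0`, `T₃ = W ∘ sub 0 (-1/32)`, `T₄ = W ∘ sub (-1/32) (-1/32)`: disjoint tubes (`ffr_disj`), all off `x`.
`k₁ = fing T₁ ∘ k`, `k₂ = fing T₂ ∘ k₁`, `k₃ = fing T₃ ∘ k₂`, `k₄ = fing T₄ ∘ k₃`.  `St x X k k₁`: `Mv.refl`.  `T₂` is a chord of `k₁` with the same label (`ChL.fing`), and so on: `ChL.fing` repeatedly (the curves are continuous: `fing_cont`; `Chd (range k_i) T_j` for the tubes not yet used).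
`St x (inv X ≫ c) k₂ k₃`: the chord `rev T₃` of `k₂` (`rev T₃ '' TD = T₃ '' TD`), and `fing (rev T₃) y = V 1 (fing T₃ y)` for `y ∈ range k₂` (`swap`): `Mv x (fing (rev T₃) ∘ k₂) k₃` by the inverse push, supported in `T₃ '' TD ⊆ {x}ᶜ`.
`range k₄ = fing T₄ '' (fing T₃ '' (fing T₂ '' (fing T₁ '' range k)))`, `ffr_main` and `LEqN (core κ) (KW (core κ) W)`.
-/

open scoped Manifold ContDiff Topology
open Set Filter CategoryTheory
open Pool.Agent.RSG (E3 ex Thick)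
open Pool.Agent.KNT (bmp)
open Pool.Agent.NHP

namespace Pool.Agent.NHQ

variable {N : Type*} [TopologicalSpace N] [ChartedSpace E3 N] [IsManifold (𝓡 3) ∞ N] [T2Space N] [ConnectedSpace N]

theorem axe_rev_rev {N : Type*} (T : E → N) : rev (rev T) = T := by
  funext q
  change T (rho (rho q)) = T q
  rw [rho_rho]

theorem axiom_E (hO : Ori N) {x : N} {o : FundamentalGroupoid.mk x ⟶ FundamentalGroupoid.mk x} {k : ℝ → N} (hk : Crv x o k)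
    (X c : FundamentalGroupoid.mk x ⟶ FundamentalGroupoid.mk x) :
    ∃ k₁ k₂ k₃ k₄ : ℝ → N, St x X k k₁ ∧ St x (X ≫ c) k₁ k₂ ∧ St x (inv X ≫ c) k₂ k₃ ∧ St x (inv c ≫ X ≫ c) k₃ k₄ ∧
      LEqN (range k) (range k₄) := by
  obtain ⟨κ, hκ, hκk⟩ := hk.thick
  have hcore : core κ = range k := by
    unfold core
    exact congrArg range (funext hκk)
  have hkc : Continuous k := by
    obtain ⟨κ', hκ', hκk'⟩ := hk.thick
    have h1 : Continuous fun l : ℝ => κ' (l, 0) := by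
      rw [continuous_iff_continuousAt]
      intro l
      have h2 : ContinuousAt κ' (l, 0) := CSG.ld_continuousAt (hκ'.loc l 0 (by simp))
      exact h2.comp (f := fun l : ℝ => (l, (0 : ℂ))) (by fun_prop)
    have h3 : (fun l : ℝ => κ' (l, 0)) = k := funext hκk'
    rw [← h3]
    exact h1
  obtain ⟨B, W, P, P₂, D, H, H', hSP, hL, h1, h2, h3, hc, hX, hle⟩ := exists_sp hO hκ hκk hk.zero X c
  obtain ⟨L1, L2, L3, L4⟩ := lbf_main hκ hκk hk.zero hSP hL h1 h2 h3 hc hX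
  have hWi : InjOn W TD := hSP.chtW.inj
  have hne : (0 : ℝ) ≠ -(1 / 32) := by norm_num
  have d12 : Disjoint ((W ∘ sub (-(1 / 32)) 0) '' TD) ((W ∘ sub 0 0) '' TD) :=
    ffr_disj hWi (Or.inr rfl) (Or.inl rfl) (Or.inl rfl) (Or.inl rfl) (Or.inl hne.symm)
  have d13 : Disjoint ((W ∘ sub 0 (-(1 / 32))) '' TD) ((W ∘ sub 0 0) '' TD) :=
    ffr_disj hWi (Or.inl rfl) (Or.inr rfl) (Or.inl rfl) (Or.inl rfl) (Or.inr hne.symm)
  have d14 : Disjoint ((W ∘ sub (-(1 / 32)) (-(1 / 32))) '' TD) ((W ∘ sub 0 0) '' TD) :=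
    ffr_disj hWi (Or.inr rfl) (Or.inr rfl) (Or.inl rfl) (Or.inl rfl) (Or.inr hne.symm)
  have d23 : Disjoint ((W ∘ sub 0 (-(1 / 32))) '' TD) ((W ∘ sub (-(1 / 32)) 0) '' TD) :=
    ffr_disj hWi (Or.inl rfl) (Or.inr rfl) (Or.inr rfl) (Or.inl rfl) (Or.inr hne.symm)
  have d24 : Disjoint ((W ∘ sub (-(1 / 32)) (-(1 / 32))) '' TD) ((W ∘ sub (-(1 / 32)) 0) '' TD) :=
    ffr_disj hWi (Or.inr rfl) (Or.inr rfl) (Or.inr rfl) (Or.inl rfl) (Or.inr hne.symm)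
  have d34 : Disjoint ((W ∘ sub (-(1 / 32)) (-(1 / 32))) '' TD) ((W ∘ sub 0 (-(1 / 32))) '' TD) :=
    ffr_disj hWi (Or.inr rfl) (Or.inr rfl) (Or.inl rfl) (Or.inr rfl) (Or.inl hne.symm)
  have hmain := ffr_main hSP.chtW hSP.hitW
  rw [hcore] at hmain hle
  generalize hT1 : W ∘ sub 0 0 = T₁ at *
  generalize hT2 : W ∘ sub (-(1 / 32)) 0 = T₂ at *
  generalize hT3 : W ∘ sub 0 (-(1 / 32)) = T₃ at *
  generalize hT4 : W ∘ sub (-(1 / 32)) (-(1 / 32)) = T₄ at *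
  -- first finger
  have c1 : Continuous (NHQ.fing T₁ ∘ k) := fing_cont hkc L1.chd
  have M2 := L2.fing hkc L1.chd L1.off d12
  have M3 := L3.fing hkc L1.chd L1.off (by rw [rev_TD]; exact d13)
  have M4 := L4.fing hkc L1.chd L1.off d14
  -- second finger
  have c2 : Continuous (NHQ.fing T₂ ∘ (NHQ.fing T₁ ∘ k)) := fing_cont c1 M2.chd
  have N3 := M3.fing c1 M2.chd M2.off (by rw [rev_TD]; exact d23)
  have N4 := M4.fing c1 M2.chd M2.off d24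
  -- third finger
  have hch3 : Chd (range (NHQ.fing T₂ ∘ (NHQ.fing T₁ ∘ k))) T₃ := by
    have h5 := chd_rev N3.chd
    rwa [axe_rev_rev] at h5
  have hoff3 : x ∉ T₃ '' TD := by
    have h5 := N3.off
    rwa [rev_TD] at h5
  have O4 := N4.fing c2 hch3 hoff3 d34
  obtain ⟨V, hV, hV1⟩ := swap hch3
  refine ⟨NHQ.fing T₁ ∘ k, NHQ.fing T₂ ∘ (NHQ.fing T₁ ∘ k), NHQ.fing T₃ ∘ (NHQ.fing T₂ ∘ (NHQ.fing T₁ ∘ k)),
    NHQ.fing T₄ ∘ (NHQ.fing T₃ ∘ (NHQ.fing T₂ ∘ (NHQ.fing T₁ ∘ k))), ⟨_, _, _, L1, Mv.refl _ _⟩,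
    ⟨_, _, _, M2, Mv.refl _ _⟩, ⟨_, _, _, N3, ?_⟩, ⟨_, _, _, O4, Mv.refl _ _⟩, ?_⟩
  · refine Mv.symm ⟨V, hV.mono ?_, fun t => hV1 _ (mem_range_self t)⟩
    intro y hy hyx
    exact hoff3 (by rw [← mem_singleton_iff.1 hyx]; exact hy)
  · have hr : range (NHQ.fing T₄ ∘ (NHQ.fing T₃ ∘ (NHQ.fing T₂ ∘ (NHQ.fing T₁ ∘ k)))) =
        NHQ.fing T₄ '' (NHQ.fing T₃ '' (NHQ.fing T₂ '' (NHQ.fing T₁ '' range k))) := by
      rw [range_comp, range_comp, range_comp, range_comp]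
    rw [hr]
    exact hle.trans hmain

end Pool.Agent.NHQ
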