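import Mathlib
import Pool.Agent.NHQ.Exl
import Pool.Agent.NHQ.Lab
import Pool.Agent.NHQ.Shr
import Pool.Agent.NHQ.Swp
import Pool.Agent.NHQ.Thk
import Pool.Agent.NHP.Tra

/-!
# NHQ/Kap: the tip of a chord slides once around the knot: axiom (K) of the label calculus
-/

open scoped Manifold ContDiff Topology
open Set Filter CategoryTheory
open Pool.Agent.CSG (stp stp_smooth stp_zero stp_one stp_nonneg stp_le_one)
open Pool.Agent.RSG (E3 ex Thick)
open Pool.Agent.KNT (bmp)
open Pool.Agent.NHP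

namespace Pool.Agent.NHQ

variable {N : Type*} [TopologicalSpace N] [ChartedSpace E3 N]

/-- domain of the chart along the second part of the knot -/
def Oy : Set E := {q | ‖q.1‖ < 1 ∧ 5 / 8 < q.2 ∧ q.2 < 11 / 8}

theorem Oy_open : IsOpen Oy := by
  have h1 : IsOpen {q : E | ‖q.1‖ < 1} := isOpen_lt (by fun_prop) continuous_const
  have h2 : IsOpen {q : E | 5 / 8 < q.2} := isOpen_lt continuous_const (by fun_prop)
  have h3 : IsOpen {q : E | q.2 < 11 / 8} := isOpen_lt (by fun_prop) continuous_const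
  exact h1.inter (h2.inter h3)

theorem Oy_cht {κ : ℝ × ℂ → N} (hκ : Thick κ) : Cht Oy (fun q => κ (q.2, q.1)) where
  opn := Oy_open
  loc := by
    rintro ⟨w, s⟩ hq
    have h1 : IsLocalDiffeomorphAt 𝓘(ℝ, ℂ × ℝ) 𝓘(ℝ, ℝ × ℂ) ∞ (fun q : ℂ × ℝ => (q.2, q.1)) (w, s) := by
      have hc : ContDiff ℝ ∞ (fun q : ℂ × ℝ => (q.2, q.1)) := by fun_prop
      refine CSG.ld_of_fderiv (Filter.Eventually.of_forall fun q => hc.contDiffAt) ?_ fun u hu => ?_
      · simp [Module.finrank_prod]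
      have h2 : HasFDerivAt (fun q : ℂ × ℝ => (q.2, q.1)) ((ContinuousLinearMap.snd ℝ ℂ ℝ).prod
          (ContinuousLinearMap.fst ℝ ℂ ℝ)) (w, s) := hasFDerivAt_snd.prodMk hasFDerivAt_fst
      rw [h2.fderiv] at hu
      have h3 : u.2 = 0 := congrArg Prod.fst hu
      have h4 : u.1 = 0 := congrArg Prod.snd hu
      exact Prod.ext h4 h3
    exact IsLocalDiffeomorphAt.comp (hf := h1) (hg := hκ.loc s w hq.1)
  inj := by
    rintro ⟨w, s⟩ ⟨h1, h2, h3⟩ ⟨w', s'⟩ ⟨h1', h2', h3'⟩ he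
    obtain ⟨h4, m, h5⟩ := hκ.inj s w s' w' h1 h1' he
    change 5 / 8 < s at h2
    change s < 11 / 8 at h3
    change 5 / 8 < s' at h2'
    change s' < 11 / 8 at h3'
    have h6 : m = 0 := by
      have h7 : (m : ℝ) < 1 := by linarith
      have h8 : (-1 : ℝ) < m := by linarith
      have h9 : m < 1 := by exact_mod_cast h7
      have h10 : -1 < m := by exact_mod_cast h8
      omega
    rw [h6, Int.cast_zero, add_zero] at h5
    exact Prod.ext h4 h5.symm

variable [T2Space N]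

/-- the push along the knot -/
theorem kap_push {κ : ℝ × ℂ → N} (hκ : Thick κ) :
    ∃ V : ℝ → Equiv.Perm N, Push univ V ∧ (∀ s, V s '' core κ = core κ) ∧
      (∀ s l, |l - 1 / 2| ≤ 1 / 16 → V s (κ (l, 0)) = κ (l, 0)) ∧
      ∀ s l, |l - 3 / 4| ≤ 1 / 16 → V s (κ (l, 0)) = κ (l + 1 / 2 * stp 0 1 s, 0) := by
  have hβ := Oy_cht hκ
  let a : ℂ → ℝ := fun _ => 1 / 2
  have ha : ContDiff ℝ ∞ a := contDiff_const
  let S : Set E := (fun u : ℝ => ((0 : ℂ), u)) '' Icc (11 / 16) (13 / 16)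
  have hS : IsCompact S := isCompact_Icc.image (by fun_prop)
  have hsw : ∀ q ∈ S, ∀ r ∈ Icc (0 : ℝ) 1, (q.1, q.2 + r * a q.1) ∈ Oy \ (∅ : Set E) := by
    rintro _ ⟨u, hu, rfl⟩ r hr
    rw [sdiff_empty]
    refine ⟨by simp, ?_, ?_⟩
    · change 5 / 8 < u + r * (1 / 2)
      linarith [hu.1, hr.1]
    · change u + r * (1 / 2) < 11 / 8
      linarith [hu.2, hr.2]
  obtain ⟨V, hV, hV1, hV3⟩ := vshear Oy_open isClosed_empty ha hS hsw
  rw [sdiff_empty] at hV
  obtain ⟨V', hV', hV'1, hV'2⟩ := push_chart hβ hV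
  have hcore : ∀ s y, y ∈ core κ → V' s y ∈ core κ := by
    intro s y hy
    by_cases h1 : y ∈ (fun q : E => κ (q.2, q.1)) '' Oy
    · obtain ⟨⟨w, t⟩, hq, rfl⟩ := h1
      obtain ⟨l, hl⟩ := hy
      have h2 : w = 0 := ((hκ.inj l 0 t w (by simp) hq.1 hl).1).symm
      rw [hV'1 s _ hq]
      have h3 := hV3 s (w, t)
      refine ⟨(V s (w, t)).2, ?_⟩
      change κ ((V s (w, t)).2, 0) = κ ((V s (w, t)).2, (V s (w, t)).1)
      rw [h3, h2]
    · rw [hV'2 s y h1]; exact hy
  have hcore' : ∀ s y, y ∈ core κ → (V' s).symm y ∈ core κ := by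
    intro s y hy
    by_cases h1 : y ∈ (fun q : E => κ (q.2, q.1)) '' Oy
    · obtain ⟨⟨w, t⟩, hq, rfl⟩ := h1
      obtain ⟨l, hl⟩ := hy
      have h2 : w = 0 := ((hκ.inj l 0 t w (by simp) hq.1 hl).1).symm
      have h4 : (V s).symm (w, t) ∈ Oy := hV.inv.mem s hq
      have h5 : (V' s).symm (κ (t, w)) = κ (((V s).symm (w, t)).2, ((V s).symm (w, t)).1) := by
        rw [Equiv.symm_apply_eq]
        have h6 := hV'1 s _ h4
        rw [Equiv.apply_symm_apply] at h6
        exact h6.symm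
      have h3 := hV3 s ((V s).symm (w, t))
      rw [Equiv.apply_symm_apply] at h3
      change w = _ at h3
      refine ⟨((V s).symm (w, t)).2, ?_⟩
      change κ (((V s).symm (w, t)).2, 0) = (V' s).symm (κ (t, w))
      rw [h5, ← h3, h2]
    · have h3 : (V' s).symm y = y := by
        rw [Equiv.symm_apply_eq, hV'2 s y h1]
      rw [h3]; exact hy
  refine ⟨V', hV'.mono (subset_univ _), ?_, ?_, ?_⟩
  · intro s
    ext y
    constructor
    · rintro ⟨z, hz, rfl⟩
      exact hcore s z hz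
    · intro hy
      exact ⟨(V' s).symm y, hcore' s y hy, (V' s).apply_symm_apply y⟩
  · intro s l hl
    refine hV'2 s _ ?_
    rintro ⟨⟨w, t⟩, ⟨h1, h2, h3⟩, he⟩
    obtain ⟨-, m, h5⟩ := hκ.inj t w l 0 h1 (by simp) he
    change 5 / 8 < t at h2
    change t < 11 / 8 at h3
    obtain ⟨h6, h7⟩ := abs_le.1 hl
    have h8 : (m : ℝ) < 0 := by linarith
    have h9 : (-1 : ℝ) < m := by linarith
    have h10 : m < 0 := by exact_mod_cast h8
    have h11 : -1 < m := by exact_mod_cast h9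
    omega
  · intro s l hl
    obtain ⟨h6, h7⟩ := abs_le.1 hl
    have h1 : ((0 : ℂ), l) ∈ Oy := by
      refine ⟨by simp, ?_, ?_⟩
      · change 5 / 8 < l; linarith
      · change l < 11 / 8; linarith
    have h2 := hV'1 s _ h1
    change V' s (κ (l, 0)) = _ at h2
    rw [h2, hV1 _ (Or.inl ⟨l, ⟨by linarith, by linarith⟩, rfl⟩)]
    change κ (l + stp 0 1 s * (1 / 2), 0) = _
    rw [mul_comm]

variable [IsManifold (𝓡 3) ∞ N]

/-- **Axiom (K).** -/
theorem axiom_K {x : N} {o : FundamentalGroupoid.mk x ⟶ FundamentalGroupoid.mk x} {k : ℝ → N} (hk : Crv x o k)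
    (c : FundamentalGroupoid.mk x ⟶ FundamentalGroupoid.mk x) :
    ∃ k' k'' : ℝ → N, St x c k k' ∧ St x (inv (c ≫ o)) k k'' ∧ LEqN (range k') (range k'') := by
  obtain ⟨κ, hκ, hκk⟩ := hk.thick
  have hkc := hk.cont
  have hkκ : k = fun l : ℝ => κ (l, 0) := funext fun l => (hκk l).symm
  have hcore : range k = core κ := by rw [hkκ]; rfl
  obtain ⟨ε₀, hε₀, hex⟩ := exists_chl hκ hκk hk.zero (p := 1 / 2) (q := 3 / 4) (by norm_num) (by norm_num) (by norm_num) c
    (ι := Empty) (A := fun _ => ∅) (fun i => i.elim) (fun i => i.elim) (fun i => i.elim)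
  let ε : ℝ := min ε₀ (1 / 32)
  have hε : 0 < ε := lt_min hε₀ (by norm_num)
  have hε1 : ε ≤ 1 / 32 := min_le_right _ _
  obtain ⟨-, σ, T, hσ, hT, hS, -⟩ := hex ε hε (min_le_left _ _)
  obtain ⟨V, hV, hVc, hVf, hVt⟩ := kap_push hκ
  have hi := hT.chd.cht.inj
  have hσ' : |σ| = 1 := by rcases hσ with rfl | rfl <;> norm_num
  have hstp1 : stp 0 1 (1 : ℝ) = 1 := stp_one one_pos le_rfl
  have hstp0 : stp 0 1 (0 : ℝ) = 0 := stp_zero one_pos le_rfl
  -- the slid chord
  let T₁ : E → N := V 1 ∘ T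
  have hT₁ : Chd (range k) T₁ := by
    have h1 := chd_img hT.chd hV 1
    have h2 : V 1 '' range k = range k := by rw [hcore]; exact hVc 1
    rw [h2] at h1
    exact h1
  -- the base point
  have hoff : x ∉ T₁ '' TD := by
    intro hx
    have h1 : x ∈ T₁ '' TS := by
      rw [← hT₁.hit]
      exact ⟨⟨0, hk.zero⟩, hx⟩
    obtain ⟨⟨w, s⟩, ⟨hq, hq'⟩, he⟩ := h1
    have hn : ‖w‖ < 1 := hq.1
    have hre : |w.re| < 1 := lt_of_le_of_lt (Complex.abs_re_le_norm w) hn
    have him : |w.im| < 1 := lt_of_le_of_lt (Complex.abs_im_le_norm w) hn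
    rw [← hk.zero, ← hκk] at he
    rcases hq' with ⟨h1, h2⟩ | ⟨h1, h2⟩
    · change s = 0 at h1
      change w.im = 0 at h2
      subst h1
      have h3 : T (w, 0) = κ (1 / 2 + ε * w.re, 0) := by
        rw [hS.foot _ hq (by norm_num)]
        change κ (1 / 2 + ε * w.re, (ε : ℂ) * ⟨0, w.im⟩) = _
        rw [h2]
        congr 2
        have : (⟨0, 0⟩ : ℂ) = 0 := rfl
        rw [this, mul_zero]
      change V 1 (T (w, 0)) = κ (0, 0) at he
      have h4 : |ε * w.re| ≤ 1 / 32 := by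
        rw [abs_mul, abs_of_pos hε]
        nlinarith [abs_nonneg w.re]
      rw [h3, hVf 1 _ (by rw [show 1 / 2 + ε * w.re - 1 / 2 = ε * w.re by ring]; linarith)] at he
      obtain ⟨-, m, h5⟩ := hκ.inj _ _ _ _ (by simp) (by simp) he
      obtain ⟨h6, h7⟩ := abs_le.1 h4
      have h8 : (m : ℝ) < 0 := by linarith
      have h9 : (-1 : ℝ) < m := by linarith
      have h10 : m < 0 := by exact_mod_cast h8
      have h11 : -1 < m := by exact_mod_cast h9
      omega
    · change s = 1 at h1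
      change w.re = 0 at h2
      subst h1
      have h3 : T (w, 1) = κ (3 / 4 + σ * ε * w.im, 0) := by
        rw [hS.tip _ hq (by norm_num)]
        change κ (3 / 4 + σ * ε * w.im, (ε : ℂ) * ⟨1 - 1, w.re⟩) = _
        rw [h2, sub_self]
        congr 2
        have : (⟨0, 0⟩ : ℂ) = 0 := rfl
        rw [this, mul_zero]
      change V 1 (T (w, 1)) = κ (0, 0) at he
      have h4 : |σ * ε * w.im| ≤ 1 / 32 := by
        rw [abs_mul, abs_mul, hσ', abs_of_pos hε]
        nlinarith [abs_nonneg w.im]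
      rw [h3, hVt 1 _ (by rw [show 3 / 4 + σ * ε * w.im - 3 / 4 = σ * ε * w.im by ring]; linarith), hstp1] at he
      obtain ⟨-, m, h5⟩ := hκ.inj _ _ _ _ (by simp) (by simp) he
      obtain ⟨h6, h7⟩ := abs_le.1 h4
      have h8 : (m : ℝ) < -1 := by linarith
      have h9 : (-2 : ℝ) < m := by linarith
      have h10 : m < -1 := by exact_mod_cast h8
      have h11 : -2 < m := by exact_mod_cast h9
      omega
  -- the label
  have hlab : Lab x k T₁ (1 / 2) (1 / 4) (c ≫ o) := by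
    obtain ⟨α, β, δ, h1, h2, h3, h4⟩ := hT.lab
    have hk14 : V 1 (k (3 / 4)) = k (1 / 4) := by
      rw [← hκk, ← hκk, hVt 1 _ (by norm_num), hstp1]
      rw [show (3 / 4 + 1 / 2 * 1 : ℝ) = 1 / 4 + 1 by norm_num, hκ.per]
    have hconst : PC (fun s => V s (k (1 / 2))) (𝟙 (FundamentalGroupoid.mk (k (1 / 2)))) := by
      refine (PC.const _).congr (fun s _ => ?_)
      rw [← hκk, hVf s _ (by norm_num)]
    have hstpc : Continuous (stp 0 1) := (stp_smooth 0 1).continuous
    obtain ⟨τ, hτ⟩ := exists_PC (x := k (3 / 4)) (y := k (1 / 4)) (f := fun s => k (3 / 4 + 1 / 2 * stp 0 1 s))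
      (by fun_prop) (by change k (3 / 4 + 1 / 2 * stp 0 1 0) = _; rw [hstp0]; norm_num)
      (by
        change k (3 / 4 + 1 / 2 * stp 0 1 1) = _
        rw [hstp1, ← hκk, ← hκk, show (3 / 4 + 1 / 2 * 1 : ℝ) = 1 / 4 + 1 by norm_num, hκ.per])
    have hτ' : PC (fun s => V s (k (3 / 4))) τ := hτ.congr (fun s _ => by
      rw [← hκk, hVt s _ (by norm_num), hκk])
    have h5 := h2.pushG hV hconst hτ'
    obtain ⟨δ₁, hδ₁⟩ := exists_PC (x := x) (y := k (1 / 4)) (f := fun t => k (1 / 4 * t))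
      (by fun_prop) (by simp [hk.zero]) (by simp)
    have hrel : δ ≫ τ = o ≫ δ₁ := by
      have e1 := h3.trans hτ
      have hδ₂ : PC (fun t => k (1 + 1 / 4 * t)) δ₁ := hδ₁.congr (fun t _ => by
        rw [← hκk, ← hκk, add_comm, hκ.per])
      have e2 := hk.cls.trans hδ₂
      have f1 : cc (fun t => k (3 / 4 * t)) (fun s => k (3 / 4 + 1 / 2 * stp 0 1 s))
          = fun t => k (cc (fun t => 3 / 4 * t) (fun s => 3 / 4 + 1 / 2 * stp 0 1 s) t) := by
        funext t
        unfold cc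
        split_ifs <;> rfl
      have f2 : cc k (fun t => k (1 + 1 / 4 * t))
          = fun t => k (cc (fun t => t) (fun t => 1 + 1 / 4 * t) t) := by
        funext t
        unfold cc
        split_ifs <;> rfl
      rw [f1] at e1
      rw [f2] at e2
      refine PC.unique (PC.convex convex_univ hkc.continuousOn ?_ ?_ (fun _ _ => mem_univ _) (fun _ _ => mem_univ _) ?_ ?_ e1) e2
      · unfold cc
        apply Continuous.continuousOn
        refine Continuous.if_le (by fun_prop) (by fun_prop) continuous_id continuous_const ?_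
        intro t ht
        rw [ht]
        change 3 / 4 * (2 * (1 / 2)) = 3 / 4 + 1 / 2 * stp 0 1 (2 * (1 / 2) - 1)
        rw [show (2 * (1 / 2) - 1 : ℝ) = 0 by norm_num, hstp0]; norm_num
      · unfold cc
        apply Continuous.continuousOn
        refine Continuous.if_le (by fun_prop) (by fun_prop) continuous_id continuous_const ?_
        intro t ht
        rw [ht]; norm_num
      · unfold cc
        rw [if_pos (by norm_num), if_pos (by norm_num)]; norm_num
      · unfold cc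
        rw [if_neg (by norm_num), if_neg (by norm_num)]
        change 3 / 4 + 1 / 2 * stp 0 1 (2 * 1 - 1) = 1 + 1 / 4 * (2 * 1 - 1)
        rw [show (2 * 1 - 1 : ℝ) = 1 by norm_num, hstp1]; norm_num
    refine lab_iff.2 ⟨_, _, α, inv (𝟙 _) ≫ β ≫ τ, δ₁, h1, h5, hδ₁, ?_⟩
    rw [h4]
    have h6 : inv δ ≫ o = τ ≫ inv δ₁ := by
      rw [IsIso.inv_comp_eq, ← Category.assoc, IsIso.eq_comp_inv]
      exact hrel.symm
    simp only [Category.assoc, h6, IsIso.inv_id, Category.id_comp]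
  -- the reversed chord
  have hT₂ : ChL x k (rev T₁) (1 / 4) (1 / 2) (inv (c ≫ o)) :=
    ⟨chd_rev hT₁, by norm_num, by norm_num, by norm_num, by rw [rev_TD]; exact hoff, hlab.rev⟩
  refine ⟨fing T ∘ k, fing (rev T₁) ∘ k, ⟨T, _, _, hT, Mv.refl _ _⟩, ⟨rev T₁, _, _, hT₂, Mv.refl _ _⟩, ?_⟩
  -- the equivalence
  have h1 : LEqN (range (fing T ∘ k)) (range (fing T₁ ∘ k)) := by
    have h2 : range (fing T₁ ∘ k) = V 1 '' range (fing T ∘ k) := by
      have h3 : V 1 '' range k = range k := by rw [hcore]; exact hVc 1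
      rw [range_fing hT₁, range_fing hT.chd, ← kn_img, h3]
    rw [h2]
    exact LEqN.diff _ hV
  have h2 : LEqN (range (fing T₁ ∘ k)) (range (fing (rev T₁) ∘ k)) := by
    obtain ⟨W, hW, hW1⟩ := swap hT₁
    have h3 : range (fing (rev T₁) ∘ k) = W 1 '' range (fing T₁ ∘ k) := by
      rw [← range_comp]
      congr 1
      funext t
      exact hW1 (k t) (mem_range_self t)
    rw [h3]
    exact LEqN.diff _ (hW.mono (subset_univ _))
  exact h1.trans h2

end Pool.Agent.NHQ
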