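import Pool.Agent.NHL.Knk
import Pool.Agent.NHQ.Sld
import Pool.Agent.NHQ.FgC
import Pool.Agent.NHP.TrL

/-!
# NHQ/Loc: a local finger with trivial label does not change the knot (kink)

`κ` thick with `κ (l, 0) = k l`.  `β q = κ (1/2 + q.2 / 16, q.1 / 8)` is a chart on `BB` (`axs_cht`, `Cht.comp` with the affine map `q ↦ (q.1 / 8, 1/2 + q.2 / 16)`, image in `Ox`), `β q ∈ range k ↔ q.1 = 0`, `x = κ (0, 0) ∉ β '' BB`.
`T₀` from `kink_model`, `T = β ∘ T₀`: `Cht TD T` by `Cht.comp`; `hit`: `T q ∈ range k ↔ (T₀ q).1 = 0 ↔ q ∈ TS`.  `p = 1/2 - 1/16`, `q = 1/2 + 1/16`.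
`LEqN`: `leqN_of_leqO` with the chart `β`, `Z = range k \ β '' BB`, `S = BL`: `Z ∪ β '' BL = range k` (`β q ∈ range k ↔ q.1 = 0`), `Z ∪ β '' ((BL \ T₀ '' TD) ∪ T₀ '' TF) = (range k \ T '' TD) ∪ T '' TF = kn (range k) T`.
Label: `BB` is convex; `β'` = class of `t ↦ T (0, t) = β (T₀ (0, t))` is also represented by `t ↦ β (0, -1 + 2 t) = k (p + (q - p) t)` (`PC.convex` with `F = β`), and `δ = α ≫ β'` by `PC.add` (`k`, `a = 0`, `b = p`, `c = q`, `C = univ`) and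
`PC.unique`; so `α ≫ β' ≫ inv δ = 𝟙`.
-/

open scoped Manifold ContDiff Topology
open Set Filter CategoryTheory
open Pool.Agent.CSG (stp)
open Pool.Agent.RSG (E3 ex Thick)
open Pool.Agent.KNT (bmp)
open Pool.Agent.NHP
open Pool.Agent.NHL (BB BL kink_model)

namespace Pool.Agent.NHQ

variable {N : Type*} [TopologicalSpace N] [ChartedSpace E3 N] [IsManifold (𝓡 3) ∞ N] [T2Space N]

/-- the affine map of the box into the chart along the knot -/
noncomputable def locAff (q : E) : E := ((1 / 8 : ℝ) • q.1, 1 / 2 + (1 / 16 : ℝ) * q.2)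

/-- its linear part -/
noncomputable def locLin : E →L[ℝ] E :=
  ((1 / 8 : ℝ) • ContinuousLinearMap.fst ℝ ℂ ℝ).prod ((1 / 16 : ℝ) • ContinuousLinearMap.snd ℝ ℂ ℝ)

theorem loc_lin (q : E) : locLin q = ((1 / 8 : ℝ) • q.1, (1 / 16 : ℝ) * q.2) := rfl

theorem loc_fderiv (q : E) : HasFDerivAt locAff locLin q := by
  have h1 : HasFDerivAt (fun q : E => locLin q + ((0 : ℂ), (1 / 2 : ℝ))) locLin q :=
    locLin.hasFDerivAt.add_const _
  refine h1.congr_of_eventuallyEq (Filter.Eventually.of_forall fun q => ?_)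
  change locAff q = locLin q + ((0 : ℂ), (1 / 2 : ℝ))
  rw [loc_lin]
  refine Prod.ext ?_ ?_
  · simp [locAff]
  · simp [locAff, add_comm]

theorem loc_bij : Function.Bijective locLin := by
  constructor
  · intro a b hab
    rw [loc_lin, loc_lin, Prod.mk.injEq] at hab
    obtain ⟨h1, h2⟩ := hab
    refine Prod.ext ?_ ?_
    · exact smul_right_injective ℂ (by norm_num : (1 / 8 : ℝ) ≠ 0) h1
    · linarith
  · intro a
    refine ⟨((8 : ℝ) • a.1, 16 * a.2), ?_⟩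
    rw [loc_lin]
    refine Prod.ext ?_ ?_
    · change (1 / 8 : ℝ) • ((8 : ℝ) • a.1) = a.1
      rw [smul_smul]; norm_num
    · change (1 / 16 : ℝ) * (16 * a.2) = a.2
      ring

theorem loc_smooth : ContDiff ℝ ∞ locAff := by
  unfold locAff
  fun_prop

theorem loc_inj : Function.Injective locAff := by
  intro a b hab
  apply loc_bij.1
  rw [loc_lin, loc_lin]
  have h1 : (1 / 8 : ℝ) • a.1 = (1 / 8 : ℝ) • b.1 := congrArg Prod.fst hab
  have h2 : 1 / 2 + (1 / 16 : ℝ) * a.2 = 1 / 2 + (1 / 16 : ℝ) * b.2 := congrArg Prod.snd hab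
  rw [h1, Prod.mk.injEq]
  exact ⟨rfl, by linarith⟩

theorem loc_Ox {q : E} (hq : q ∈ BB) : locAff q ∈ Ox := by
  obtain ⟨h1, h2⟩ := hq
  rw [abs_lt] at h2
  refine ⟨?_, ?_, ?_⟩
  · change ‖(1 / 8 : ℝ) • q.1‖ < 1
    rw [norm_smul, Real.norm_eq_abs, abs_of_pos (by norm_num)]
    linarith
  · change 0 < 1 / 2 + (1 / 16 : ℝ) * q.2
    linarith [h2.1]
  · change 1 / 2 + (1 / 16 : ℝ) * q.2 < 1
    linarith [h2.2]

theorem loc_BB_open : IsOpen BB := by
  have h1 : IsOpen {q : E | ‖q.1‖ < 8} := isOpen_lt (by fun_prop) continuous_const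
  have h2 : IsOpen {q : E | |q.2| < 8} := isOpen_lt (by fun_prop) continuous_const
  exact h1.inter h2

theorem loc_BB_convex : Convex ℝ BB := by
  have h : BB = Metric.ball (0 : ℂ) 8 ×ˢ Metric.ball (0 : ℝ) 8 := by
    ext q
    simp [BB, Set.mem_prod, Metric.mem_ball, dist_zero_right]
  rw [h]
  exact (convex_ball _ _).prod (convex_ball _ _)

/-- the chart of the box -/
theorem loc_cht {κ : ℝ × ℂ → N} (hκ : Thick κ) :
    Cht BB (fun q : E => κ (1 / 2 + (1 / 16 : ℝ) * q.2, (1 / 8 : ℝ) • q.1)) := by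
  have h := (axs_cht hκ).1.comp (f := locAff) loc_BB_open (fun q _ => loc_smooth.contDiffAt)
    (fun q _ => by rw [(loc_fderiv q).fderiv]; exact loc_bij) loc_inj.injOn (fun q hq => loc_Ox hq)
  exact h

theorem exists_kink {x : N} {o : FundamentalGroupoid.mk x ⟶ FundamentalGroupoid.mk x} {k : ℝ → N} (hk : Crv x o k) :
    ∃ (T : E → N) (p q : ℝ), ChL x k T p q (𝟙 (FundamentalGroupoid.mk x)) ∧ LEqN (range k) (kn (range k) T) := by
  obtain ⟨κ, hκ, hκk⟩ := hk.thick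
  obtain ⟨-, hcore, hx0⟩ := axs_cht hκ
  obtain ⟨T₀, hs, hb, hi, hm, hT, h0, h1, hL⟩ := kink_model
  have hrange : range k = core κ := by
    unfold core
    congr 1
    funext l
    exact (hκk l).symm
  obtain ⟨β, hβdef⟩ : ∃ β : E → N, β = fun q : E => κ (1 / 2 + (1 / 16 : ℝ) * q.2, (1 / 8 : ℝ) • q.1) := ⟨_, rfl⟩
  have hβ : Cht BB β := by rw [hβdef]; exact loc_cht hκ
  have hβ0 : ∀ q : E, β q = κ (1 / 2 + (1 / 16 : ℝ) * q.2, (1 / 8 : ℝ) • q.1) := fun q => by rw [hβdef]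
  have hβk : ∀ y : ℝ, β (0, y) = k (1 / 2 + (1 / 16 : ℝ) * y) := by
    intro y
    rw [hβ0, ← hκk]
    congr 1
    refine Prod.ext rfl ?_
    exact smul_zero _
  have hβcore : ∀ q ∈ BB, (β q ∈ range k ↔ q.1 = 0) := by
    intro q hq
    rw [hrange, hβ0]
    rw [show (κ (1 / 2 + (1 / 16 : ℝ) * q.2, (1 / 8 : ℝ) • q.1) ∈ core κ ↔ q.1 = 0)
      = (κ ((locAff q).2, (locAff q).1) ∈ core κ ↔ q.1 = 0) from rfl, hcore _ (loc_Ox hq)]
    change (1 / 8 : ℝ) • q.1 = 0 ↔ q.1 = 0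
    rw [smul_eq_zero]
    norm_num
  have hβx : x ∉ β '' BB := by
    rintro ⟨q, hq, hqe⟩
    apply hx0
    refine ⟨locAff q, loc_Ox hq, ?_⟩
    change κ (1 / 2 + (1 / 16 : ℝ) * q.2, (1 / 8 : ℝ) • q.1) = κ (0, 0)
    rw [← hβ0, hqe, hκk, hk.zero]
  have hkc : Continuous k := by
    have : k = fun l => κ (l, 0) := by funext l; exact (hκk l).symm
    rw [this]
    rw [continuous_iff_continuousAt]
    intro l
    have h2 : ContinuousAt κ (l, 0) := (hκ.loc l 0 (by simp)).contMDiffAt.continuousAt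
    exact h2.comp (f := fun l : ℝ => (l, (0 : ℂ))) (by fun_prop)
  have hTc : Cht TD fun q => β (T₀ q) := hβ.comp TD_open hs hb hi hm
  have hTD : (fun q => β (T₀ q)) '' TD ⊆ β '' BB := by
    rintro _ ⟨q, hq, rfl⟩
    exact ⟨_, hm q hq, rfl⟩
  have hT₀TD : ∀ t ∈ Icc (0 : ℝ) 1, ((0 : ℂ), t) ∈ TD := by
    intro t ht
    refine ⟨?_, ?_, ?_⟩
    · simp
    · linarith [ht.1]
    · linarith [ht.2]
  refine ⟨fun q => β (T₀ q), 1 / 2 - 1 / 16, 1 / 2 + 1 / 16, ?_, ?_⟩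
  · refine ⟨⟨hTc, ?_⟩, by norm_num, by norm_num, by norm_num, ?_, ?_⟩
    · ext y
      constructor
      · rintro ⟨hy, q, hq, rfl⟩
        exact ⟨q, (hT q hq).1 ((hβcore _ (hm q hq)).1 hy), rfl⟩
      · rintro ⟨q, hq, rfl⟩
        exact ⟨(hβcore _ (hm q (TS_sub hq))).2 ((hT q (TS_sub hq)).2 hq), q, TS_sub hq, rfl⟩
    · exact fun h => hβx (hTD h)
    · obtain ⟨α, hα⟩ := exists_PC (x := x) (y := k (1 / 2 - 1 / 16)) (f := fun t => k ((1 / 2 - 1 / 16) * t))
        (hkc.comp (by fun_prop)).continuousOn (by rw [mul_zero, hk.zero]) (by rw [mul_one])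
      have hcT : ContinuousOn (fun t : ℝ => T₀ (0, t)) (Icc 0 1) := by
        intro t ht
        have h2 : ContinuousAt T₀ ((0 : ℂ), t) := (hs _ (hT₀TD t ht)).continuousAt
        exact (h2.comp (f := fun t : ℝ => ((0 : ℂ), t)) (by fun_prop)).continuousWithinAt
      obtain ⟨γ, hγ⟩ := exists_PC (x := k (1 / 2 - 1 / 16)) (y := k (1 / 2 + 1 / 16)) (f := fun t => β (T₀ (0, t)))
        (hβ.contOn.comp hcT (fun t ht => hm _ (hT₀TD t ht)))
        (by rw [h0, hβk]; congr 1; norm_num) (by rw [h1, hβk]; congr 1; norm_num)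
      have h3 : PC (fun t => β ((0 : ℂ), -1 + 2 * t)) γ := by
        refine PC.convex loc_BB_convex hβ.contOn (u := fun t : ℝ => T₀ (0, t)) (v := fun t : ℝ => ((0 : ℂ), -1 + 2 * t))
          hcT (by fun_prop) (fun t ht => hm _ (hT₀TD t ht)) ?_ ?_ ?_ hγ
        · intro t ht
          refine ⟨?_, ?_⟩
          · simp
          · change |-1 + 2 * t| < 8
            rw [abs_lt]
            constructor <;> linarith [ht.1, ht.2]
        · change T₀ (0, 0) = ((0 : ℂ), -1 + 2 * (0 : ℝ))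
          rw [h0]; norm_num
        · change T₀ (0, 1) = ((0 : ℂ), -1 + 2 * (1 : ℝ))
          rw [h1]; norm_num
      have h4 := PC.add (C := univ) convex_univ hkc.continuousOn (mem_univ 0) (mem_univ (1 / 2 - 1 / 16))
        (mem_univ (1 / 2 + 1 / 16))
        (hα.congr (fun t _ => by
          change k (0 + (1 / 2 - 1 / 16 - 0) * t) = k ((1 / 2 - 1 / 16) * t)
          congr 1; ring))
        (h3.congr (fun t _ => by
          change k (1 / 2 - 1 / 16 + (1 / 2 + 1 / 16 - (1 / 2 - 1 / 16)) * t) = β ((0 : ℂ), -1 + 2 * t)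
          rw [hβk]
          congr 1; ring))
      refine ⟨α, γ, α ≫ γ, hα, hγ, h4.congr (fun t _ => by
        change k ((1 / 2 + 1 / 16) * t) = k (0 + (1 / 2 + 1 / 16 - 0) * t)
        congr 1; ring), ?_⟩
      rw [← Category.assoc, IsIso.hom_inv_id]
  · have hd : Disjoint (range k \ β '' BB) (β '' BB) := disjoint_sdiff_left
    have h2 := leqN_of_leqO hβ hd (fun q hq => hq.1) hL
    have e1 : (range k \ β '' BB) ∪ β '' BL = range k := by
      ext y
      constructor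
      · rintro (⟨hy, -⟩ | ⟨q, ⟨hq, hq1⟩, rfl⟩)
        · exact hy
        · exact (hβcore q hq).2 hq1
      · intro hy
        by_cases h : y ∈ β '' BB
        · right
          obtain ⟨q, hq, rfl⟩ := h
          exact ⟨q, ⟨hq, (hβcore q hq).1 hy⟩, rfl⟩
        · exact Or.inl ⟨hy, h⟩
    have e2 : (range k \ β '' BB) ∪ β '' ((BL \ T₀ '' TD) ∪ T₀ '' TF) = kn (range k) fun q => β (T₀ q) := by
      ext y
      constructor
      · rintro (⟨hy, hy2⟩ | ⟨q, ⟨⟨hq, hq1⟩, hq2⟩ | ⟨q', hq', rfl⟩, rfl⟩)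
        · exact Or.inl ⟨hy, fun h => hy2 (hTD h)⟩
        · left
          refine ⟨(hβcore q hq).2 hq1, ?_⟩
          rintro ⟨q', hq', he⟩
          exact hq2 ⟨q', hq', hβ.inj (hm q' hq') hq he⟩
        · exact Or.inr ⟨q', hq', rfl⟩
      · rintro (⟨hy, hy2⟩ | ⟨q, hq, rfl⟩)
        · by_cases h : y ∈ β '' BB
          · obtain ⟨q, hq, rfl⟩ := h
            right
            refine ⟨q, Or.inl ⟨⟨hq, (hβcore q hq).1 hy⟩, ?_⟩, rfl⟩
            rintro ⟨q', hq', rfl⟩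
            exact hy2 ⟨q', hq', rfl⟩
          · exact Or.inl ⟨hy, h⟩
        · exact Or.inr ⟨T₀ q, Or.inr ⟨q, hq, rfl⟩, rfl⟩
    rw [e1, e2] at h2
    exact h2

end Pool.Agent.NHQ
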