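import Mathlib
import Pool.Agent.NHQ.Lab
import Pool.Agent.NHQ.Shr
import Pool.Agent.NHP.Tra

/-!
# NHQ/Rev: a finger can be retracted along a finger with the same label: axiom (S) of the label calculus
-/

open scoped Manifold ContDiff Topology
open Set Filter CategoryTheory
open Pool.Agent.CSG (stp stp_smooth stp_zero stp_one stp_nonneg stp_le_one)
open Pool.Agent.RSG (E3 ex Thick)
open Pool.Agent.KNT (bmp)
open Pool.Agent.NHP

namespace Pool.Agent.NHQ

/-- model of the chord from the tip of the finger back through the tip strand -/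
noncomputable def ret (q : E) : E := ((1 / 16 : ℂ) * q.1, 9 / 8 - q.2 / 8)

theorem ret_TD {q : E} (h : q ∈ TD) : ret q ∈ TD := by
  obtain ⟨h1, h2, h3⟩ := h
  refine ⟨?_, ?_, ?_⟩
  · change ‖(1 / 16 : ℂ) * q.1‖ < 1
    rw [norm_mul]
    have : ‖(1 / 16 : ℂ)‖ = 1 / 16 := by norm_num
    rw [this]; linarith [norm_nonneg q.1]
  · change -(1 / 4) < 9 / 8 - q.2 / 8; linarith
  · change 9 / 8 - q.2 / 8 < 5 / 4; linarith

theorem ret_inj : Function.Injective ret := by
  rintro ⟨w, x⟩ ⟨w', x'⟩ h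
  have h1 : (1 / 16 : ℂ) * w = (1 / 16 : ℂ) * w' := congrArg Prod.fst h
  have h2 : 9 / 8 - x / 8 = 9 / 8 - x' / 8 := congrArg Prod.snd h
  refine Prod.ext ?_ ?_
  · exact mul_left_cancel₀ (by norm_num) h1
  · change x = x'; linarith

theorem ret_smooth : ContDiff ℝ ∞ ret := by
  unfold ret
  fun_prop

theorem ret_bij (q : E) : Function.Bijective (fderiv ℝ ret q) := by
  have h1 : HasFDerivAt ret ((((1 / 16 : ℂ) • (ContinuousLinearMap.fst ℝ ℂ ℝ))).prod
      (-((1 / 8 : ℝ) • (ContinuousLinearMap.snd ℝ ℂ ℝ)))) q := by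
    refine HasFDerivAt.prodMk ?_ ?_
    · exact (hasFDerivAt_fst (𝕜 := ℝ) (p := q)).const_mul (1 / 16 : ℂ)
    · have h2 := ((hasFDerivAt_snd (𝕜 := ℝ) (p := q)).const_mul (1 / 8 : ℝ)).const_sub (9 / 8 : ℝ)
      refine h2.congr_of_eventuallyEq (Filter.Eventually.of_forall (fun q' => ?_))
      change 9 / 8 - q'.2 / 8 = 9 / 8 - 1 / 8 * q'.2
      ring
  rw [h1.fderiv]
  constructor
  · rintro ⟨w, x⟩ ⟨w', x'⟩ h
    have h2 : (1 / 16 : ℂ) * w = (1 / 16 : ℂ) * w' := congrArg Prod.fst h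
    have h3 : -((1 / 8 : ℝ) * x) = -((1 / 8 : ℝ) * x') := congrArg Prod.snd h
    refine Prod.ext ?_ ?_
    · exact mul_left_cancel₀ (by norm_num) h2
    · change x = x'; linarith
  · rintro ⟨w, x⟩
    refine ⟨(16 * w, -8 * x), ?_⟩
    refine Prod.ext ?_ ?_
    · change (1 / 16 : ℂ) * (16 * w) = w; ring
    · change -((1 / 8 : ℝ) * (-8 * x)) = x; ring

section
variable {N : Type*} [TopologicalSpace N] [ChartedSpace E3 N]

theorem kn_hit {K : Set N} {T : E → N} (hT : InjOn T TD) : kn K T ∩ T '' TD = T '' TF := by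
  unfold kn
  ext y
  constructor
  · rintro ⟨h1 | h1, h2⟩
    · exact absurd h2 h1.2
    · exact h1
  · intro h1
    exact ⟨Or.inr h1, image_mono TF_sub h1⟩

theorem ret_image {T : E → N} : (T ∘ ret) '' TD ⊆ T '' TD := by
  rintro _ ⟨q, hq, rfl⟩
  exact ⟨ret q, ret_TD hq, rfl⟩

theorem ret_iff {q : E} (hq : q ∈ TD) : ret q ∈ TF ↔ q ∈ TS := by
  obtain ⟨w, x⟩ := q
  have hn : ‖w‖ < 1 := hq.1
  have hre : |w.re| < 1 := lt_of_le_of_lt (Complex.abs_re_le_norm w) hn
  have e1 : ((1 / 16 : ℂ) * w).re = w.re / 16 := by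
    have : (1 / 16 : ℂ) = ((1 / 16 : ℝ) : ℂ) := by norm_num
    rw [this, Complex.re_ofReal_mul]; ring
  have e2 : ((1 / 16 : ℂ) * w).im = w.im / 16 := by
    have : (1 / 16 : ℂ) = ((1 / 16 : ℝ) : ℂ) := by norm_num
    rw [this, Complex.im_ofReal_mul]; ring
  have hb : bmp ((1 / 16 : ℂ) * w).re = 1 := by
    rw [e1]; apply bmp_one; rw [abs_div]; norm_num; linarith
  constructor
  · rintro ⟨-, h⟩
    refine ⟨hq, ?_⟩
    rcases h with ⟨h1, h2⟩ | ⟨h1, h2⟩
    · left
      change ((1 / 16 : ℂ) * w).im = 0 at h1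
      change 9 / 8 - x / 8 = 9 / 8 * bmp ((1 / 16 : ℂ) * w).re at h2
      rw [hb] at h2
      rw [e2] at h1
      exact ⟨by change x = 0; linarith, by change w.im = 0; linarith⟩
    · right
      change 9 / 8 - x / 8 = 1 at h1
      change ((1 / 16 : ℂ) * w).re = 0 at h2
      rw [e1] at h2
      exact ⟨by change x = 1; linarith, by change w.re = 0; linarith⟩
  · rintro ⟨-, h⟩
    refine ⟨ret_TD hq, ?_⟩
    rcases h with ⟨h1, h2⟩ | ⟨h1, h2⟩
    · left
      change x = 0 at h1
      change w.im = 0 at h2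
      refine ⟨?_, ?_⟩
      · change ((1 / 16 : ℂ) * w).im = 0
        rw [e2, h2]; norm_num
      · change 9 / 8 - x / 8 = 9 / 8 * bmp ((1 / 16 : ℂ) * w).re
        rw [hb, h1]; norm_num
    · right
      change x = 1 at h1
      change w.re = 0 at h2
      refine ⟨?_, ?_⟩
      · change 9 / 8 - x / 8 = 1
        rw [h1]; norm_num
      · change ((1 / 16 : ℂ) * w).re = 0
        rw [e1, h2]; norm_num

theorem ret_chd {K : Set N} {T : E → N} (hT : Chd K T) : Chd (kn K T) (T ∘ ret) where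
  cht := hT.cht.comp (f := ret) TD_open (fun q _ => ret_smooth.contDiffAt) (fun q _ => ret_bij q) ret_inj.injOn
    (fun q hq => ret_TD hq)
  hit := by
    ext y
    constructor
    · rintro ⟨h1, ⟨q, hq, rfl⟩⟩
      have h2 := ret_TD hq
      have h3 : T (ret q) ∈ T '' TF := by rw [← kn_hit (K := K) hT.cht.inj]; exact ⟨h1, ⟨_, h2, rfl⟩⟩
      obtain ⟨q', hq', he⟩ := h3
      have h4 : q' = ret q := hT.cht.inj (TF_sub hq') h2 he
      rw [h4] at hq'
      exact ⟨q, (ret_iff hq).1 hq', rfl⟩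
    · rintro ⟨q, hq, rfl⟩
      have h1 : ret q ∈ TF := (ret_iff (TS_sub hq)).2 hq
      have h2 : T (ret q) ∈ kn K T ∩ T '' TD := by rw [kn_hit hT.cht.inj]; exact ⟨_, h1, rfl⟩
      exact ⟨h2.1, q, TS_sub hq, rfl⟩

variable [T2Space N]

/-- the chord back has the same label -/
theorem ret_chl {x : N} {k : ℝ → N} {T : E → N} {p q : ℝ} {c : FundamentalGroupoid.mk x ⟶ FundamentalGroupoid.mk x}
    (hk : Continuous k) (h : ChL x k T p q c) : ChL x (fing T ∘ k) (T ∘ ret) p q c where
  chd := by rw [range_fing h.chd]; exact ret_chd h.chd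
  pos := h.pos
  lt := h.lt
  one := h.one
  off := fun h1 => h.off (ret_image h1)
  lab := by
    have hi := h.chd.cht.inj
    have hT0 := h.lab.foot
    have hT1 := h.lab.tip
    obtain ⟨α, β, δ, h1, h2, h3, h4⟩ := h.lab
    have h0 : k 0 = x := by
      have := h1.zero
      simpa using this
    have hx : fing T (k 0) = k 0 := fing_off hi (by rw [h0]; exact h.off)
    have hq : fing T (k q) = k q := by
      rw [← hT1]
      exact fing_tip hi (by simp) (by norm_num) (by norm_num) one_ne_zero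
    have hcont : ContinuousOn (fun s : ℝ => T (0, s)) (Ioo (-(1 / 4)) (5 / 4)) := by
      refine h.chd.cht.contOn.comp (f := fun s : ℝ => ((0 : ℂ), s)) (by fun_prop) ?_
      intro s hs
      exact ⟨by simp, hs.1, hs.2⟩
    obtain ⟨ρ, hρ⟩ := exists_PC (x := k p) (y := T (0, 9 / 8)) (f := fun t => T (0, 9 / 8 * t))
      (hcont.comp (by fun_prop) (fun t ht => ⟨by linarith [ht.1], by linarith [ht.2]⟩)) (by simpa using hT0) (by simp)
    obtain ⟨β', hβ'⟩ := exists_PC (x := T (0, 9 / 8)) (y := k q) (f := fun t => T (0, 9 / 8 - t / 8))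
      (hcont.comp (by fun_prop) (fun t ht => ⟨by linarith [ht.2], by linarith [ht.1]⟩)) (by simp)
      (by rw [← hT1]; norm_num)
    have hα' : PC (fun t => fing T (k (p * t))) (α ≫ ρ) :=
      PC.fing_foot hk h.chd (φ := fun t => p * t) (by fun_prop) (by rw [mul_zero]; exact hx)
        (by rw [mul_one]; exact hT0.symm) h1 hρ
    have hδ' : PC (fun t => fing T (k (q * t))) δ :=
      PC.fing hk h.chd (φ := fun t => q * t) (by fun_prop) (by rw [mul_zero]; exact hx)
        (by rw [mul_one]; exact hq) h3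
    have hββ : ρ ≫ β' = β := by
      have e1 := hρ.trans hβ'
      have e2 : cc (fun t => T (0, 9 / 8 * t)) (fun t => T (0, 9 / 8 - t / 8))
          = fun t => (fun s : ℝ => T (0, s)) (cc (fun t => 9 / 8 * t) (fun t => 9 / 8 - t / 8) t) := by
        funext t
        unfold cc
        split_ifs <;> rfl
      rw [e2] at e1
      refine PC.unique (PC.convex (convex_Ioo _ _) hcont ?_ ?_ ?_ ?_ ?_ ?_ e1) h2
      · unfold cc
        apply Continuous.continuousOn
        refine Continuous.if_le (by fun_prop) (by fun_prop) continuous_id continuous_const ?_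
        intro t ht
        rw [ht]; ring
      · exact continuousOn_id
      · intro t ht
        unfold cc
        split_ifs with h5
        · constructor <;> linarith [ht.1, ht.2]
        · constructor <;> linarith [ht.1, ht.2]
      · intro t ht
        constructor
        · change -(1 / 4) < t; linarith [ht.1]
        · change t < 5 / 4; linarith [ht.2]
      · unfold cc
        rw [if_pos (by norm_num)]; norm_num
      · unfold cc
        rw [if_neg (by norm_num)]; norm_num
    refine lab_iff.2 ⟨_, _, α ≫ ρ, β', δ, hα', ?_, hδ', ?_⟩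
    · refine hβ'.congr (fun t _ => ?_)
      change T ((1 / 16 : ℂ) * 0, 9 / 8 - t / 8) = T (0, 9 / 8 - t / 8)
      rw [mul_zero]
    · rw [h4, ← hββ]; simp

/-- the second finger cancels the first one -/
theorem ret_mv {x : N} {k : ℝ → N} {T : E → N} (hT : Chd (range k) T) (hx : x ∉ T '' TD) :
    Mv x (fing (T ∘ ret) ∘ (fing T ∘ k)) k := by
  have hi := hT.cht.inj
  have hi' : InjOn (T ∘ ret) TD := (ret_chd hT).cht.inj
  let g : ℝ → ℝ := fun u => 9 / 8 * bmp u - 9 / 64 * bmp (16 * u)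
  have hg : ContDiff ℝ ∞ g := by
    have h1 := bmp_smooth
    have h2 : ContDiff ℝ ∞ fun u : ℝ => bmp (16 * u) := h1.comp (by fun_prop)
    exact (contDiff_const.mul h1).sub (contDiff_const.mul h2)
  have hgout : ∀ u : ℝ, 1 / 8 ≤ |u| → g u = 0 := by
    intro u hu
    change 9 / 8 * bmp u - 9 / 64 * bmp (16 * u) = 0
    rw [bmp_zero hu, bmp_zero (y := 16 * u) (by rw [abs_mul]; norm_num; linarith)]
    ring
  have hgb : ∀ u : ℝ, 0 ≤ g u ∧ g u ≤ 9 / 8 := by
    intro u
    have h1 := bmp_nonneg u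
    have h2 := bmp_le_one u
    have h3 := bmp_nonneg (16 * u)
    have h4 := bmp_le_one (16 * u)
    change 0 ≤ 9 / 8 * bmp u - 9 / 64 * bmp (16 * u) ∧ 9 / 8 * bmp u - 9 / 64 * bmp (16 * u) ≤ 9 / 8
    by_cases h5 : |u| ≤ 1 / 16
    · rw [bmp_one h5]
      constructor <;> linarith
    · rw [bmp_zero (y := 16 * u) (by rw [abs_mul]; norm_num; linarith [not_le.1 h5])]
      constructor <;> linarith
  have hg0 : g 0 = 63 / 64 := by
    change 9 / 8 * bmp 0 - 9 / 64 * bmp (16 * 0) = 63 / 64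
    rw [mul_zero, bmp_zero_eq]; norm_num
  let a : ℂ → ℝ := fun w => -g w.re
  have ha : ContDiff ℝ ∞ a := (hg.comp Complex.reCLM.contDiff).neg
  let S : Set E := (fun u : ℝ => ((u : ℂ), g u)) '' Icc (-(1 / 8)) (1 / 8)
  have hS : IsCompact S := isCompact_Icc.image (by have := hg.continuous; fun_prop)
  let P : Set E := {q | q.1.re = 0 ∧ q.2 = 1}
  have hP : IsClosed P :=
    (isClosed_eq (Complex.continuous_re.comp continuous_fst) continuous_const).inter
      (isClosed_eq continuous_snd continuous_const)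
  have hsw : ∀ q ∈ S, ∀ r ∈ Icc (0 : ℝ) 1, (q.1, q.2 + r * a q.1) ∈ TD \ P := by
    rintro _ ⟨u, hu, rfl⟩ r hr
    have hu' : |u| ≤ 1 / 8 := abs_le.2 hu
    change ((u : ℂ), g u + r * (-g (u : ℂ).re)) ∈ TD \ P
    rw [Complex.ofReal_re]
    obtain ⟨h1, h2⟩ := hgb u
    have h3 : 0 ≤ (1 - r) * g u := mul_nonneg (by linarith [hr.2]) h1
    have h4 : (1 - r) * g u ≤ 9 / 8 := by
      calc (1 - r) * g u ≤ 1 * (9 / 8) := mul_le_mul (by linarith [hr.1]) h2 h1 zero_le_one
        _ = 9 / 8 := one_mul _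
    refine ⟨foot_TD (by linarith) (by linarith) (by linarith), ?_⟩
    rintro ⟨h5, h6⟩
    change (u : ℂ).re = 0 at h5
    rw [Complex.ofReal_re] at h5
    change g u + r * (-g u) = 1 at h6
    rw [h5, hg0] at h6
    linarith [hr.1]
  obtain ⟨V, hV, hV1, -⟩ := vshear TD_open hP ha hS hsw
  obtain ⟨V', hV', hV'1, hV'2⟩ := push_chart hT.cht (hV.mono sdiff_subset)
  refine ⟨V', hV'.mono (fun y hy h1 => hx (by rw [← mem_singleton_iff.1 h1]; exact hy)), ?_⟩
  have hstp : stp 0 1 (1 : ℝ) = 1 := stp_one one_pos le_rfl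
  have hret : ∀ u : ℝ, (T ∘ ret) ((u : ℂ), 0) = T (((u / 16 : ℝ) : ℂ), 9 / 8) := by
    intro u
    change T ((1 / 16 : ℂ) * (u : ℂ), 9 / 8 - 0 / 8) = _
    have : (1 / 16 : ℂ) * (u : ℂ) = ((u / 16 : ℝ) : ℂ) := by push_cast; ring
    rw [this]; norm_num
  intro t
  change k t = V' 1 (fing (T ∘ ret) (fing T (k t)))
  have hy : k t ∈ range k := mem_range_self t
  generalize k t = y at hy ⊢
  by_cases hyT : y ∈ T '' TD
  · have hyS : y ∈ T '' TS := by rw [← hT.hit]; exact ⟨hy, hyT⟩
    obtain ⟨⟨w, x⟩, ⟨hq, hq'⟩, rfl⟩ := hyS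
    rcases hq' with ⟨h1, h2⟩ | ⟨h1, h2⟩
    · -- foot
      change x = 0 at h1
      change w.im = 0 at h2
      subst h1
      obtain ⟨u, rfl⟩ : ∃ u : ℝ, w = (u : ℂ) := ⟨w.re, by apply Complex.ext <;> simp [h2]⟩
      have hu : |u| < 1 := by have := hq.1; change ‖(u : ℂ)‖ < 1 at this; rwa [Complex.norm_real, Real.norm_eq_abs] at this
      rw [fing_foot hi hu]
      have hmem : ((u : ℂ), g u) ∈ TD := foot_TD hu (by linarith [(hgb u).1]) (by linarith [(hgb u).2])
      have h3 : fing (T ∘ ret) (T ((u : ℂ), 9 / 8 * bmp u)) = T ((u : ℂ), g u) := by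
        by_cases h4 : |u| < 1 / 16
        · have h5 : |16 * u| < 1 := by rw [abs_mul]; norm_num; linarith
          have h6 : T ((u : ℂ), 9 / 8 * bmp u) = (T ∘ ret) (((16 * u : ℝ) : ℂ), 0) := by
            rw [hret, bmp_one h4.le, mul_one]
            congr 3; ring
          rw [h6, fing_foot hi' h5]
          change T ((1 / 16 : ℂ) * ((16 * u : ℝ) : ℂ), 9 / 8 - 9 / 8 * bmp (16 * u) / 8) = T ((u : ℂ), 9 / 8 * bmp u - 9 / 64 * bmp (16 * u))
          have h7 : (1 / 16 : ℂ) * ((16 * u : ℝ) : ℂ) = (u : ℂ) := by push_cast; ring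
          rw [h7, bmp_one h4.le]
          congr 2; ring
        · have h5 : g u = 9 / 8 * bmp u := by
            change 9 / 8 * bmp u - 9 / 64 * bmp (16 * u) = 9 / 8 * bmp u
            rw [bmp_zero (y := 16 * u) (by rw [abs_mul]; norm_num; linarith [not_lt.1 h4])]
            ring
          rw [h5]
          refine fing_fix hi' (fun u' hu' he => ?_)
          rw [hret] at he
          have hb0 := bmp_nonneg u
          have hb1 := bmp_le_one u
          have h6 := hi (foot_TD (by rw [abs_div]; norm_num; linarith) (by norm_num) (by norm_num))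
            (foot_TD hu (by linarith) (by linarith)) he
          have h7 : ((u' / 16 : ℝ) : ℂ) = (u : ℂ) := congrArg Prod.fst h6
          have h8 : u' / 16 = u := Complex.ofReal_injective h7
          apply h4
          rw [← h8, abs_div]; norm_num; linarith
      rw [h3, hV'1 1 _ hmem]
      have h4 : ((u : ℂ), g u) ∈ S ∨ a (((u : ℂ), g u) : E).1 = 0 := by
        by_cases h4 : |u| ≤ 1 / 8
        · exact Or.inl ⟨u, abs_le.1 h4, rfl⟩
        · right
          change -g (u : ℂ).re = 0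
          rw [Complex.ofReal_re, hgout u (not_le.1 h4).le, neg_zero]
      rw [hV1 _ h4, hstp]
      congr 1
      refine Prod.ext rfl ?_
      change 0 = g u + 1 * (-g (u : ℂ).re)
      rw [Complex.ofReal_re]; ring
    · -- tip
      change x = 1 at h1
      change w.re = 0 at h2
      subst h1
      rw [fing_tip hi hq.1 (by norm_num) (by norm_num) one_ne_zero]
      have h3 : fing (T ∘ ret) (T (w, 1)) = T (w, 1) := by
        refine fing_fix hi' (fun u' hu' he => ?_)
        rw [hret] at he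
        have h6 := hi (foot_TD (by rw [abs_div]; norm_num; linarith) (by norm_num) (by norm_num)) hq he
        have h7 : (9 / 8 : ℝ) = 1 := congrArg Prod.snd h6
        norm_num at h7
      rw [h3, hV'1 1 _ hq, hV.out 1 (x := (w, 1)) (fun h4 => h4.2 ⟨h2, rfl⟩)]
  · rw [fing_off hi hyT, fing_off hi' (fun h1 => hyT (ret_image h1)), hV'2 1 y hyT]

/-- **Axiom (S).** -/
theorem St.symm {x : N} {k k' : ℝ → N} (hk : Continuous k) {c : FundamentalGroupoid.mk x ⟶ FundamentalGroupoid.mk x}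
    (h : St x c k k') : St x c k' k := by
  obtain ⟨T, p, q, h1, h2⟩ := h
  have h3 : St x c (fing T ∘ k) k := ⟨T ∘ ret, p, q, ret_chl hk h1, ret_mv h1.chd h1.off⟩
  exact h3.mv_left h2

end

end Pool.Agent.NHQ
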