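import Mathlib
import Pool.Agent.NHT.AlgQ
import Pool.Agent.NHQ.AxA
import Pool.Agent.NHQ.AxC
import Pool.Agent.NHQ.AxE
import Pool.Agent.NHQ.Kap
import Pool.Agent.NHQ.Loc
import Pool.Agent.NHQ.Rev
import Pool.Agent.NHQ.Thk

/-!
# NHQ/Fin: the label calculus of fingers; a crossing change of a knot which generates `H₁(N; 𝔽₂)` gives an equivalent knot
-/

open scoped Manifold ContDiff Topology
open Set Filter CategoryTheory
open Pool.Agent.RSG (E3 ex Thick)
open Pool.Agent.KNT (bmp)
open Pool.Agent.NHP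
open Pool.Agent.NHT (LabelCalc GenMod2)

namespace Pool.Agent.NHQ

variable {N : Type*} [TopologicalSpace N] [ChartedSpace E3 N] [IsManifold (𝓡 3) ∞ N] [T2Space N] [ConnectedSpace N]

section
variable {M : Type*} [TopologicalSpace M] {x : M}

theorem FG_mul (a b : FundamentalGroup M x) : FundamentalGroup.toArrow (a * b) =
    FundamentalGroup.toArrow b ≫ FundamentalGroup.toArrow a := rfl

theorem FG_inv (a : FundamentalGroup M x) : FundamentalGroup.toArrow a⁻¹ = inv (FundamentalGroup.toArrow a) := by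
  change Groupoid.inv (FundamentalGroup.toArrow a) = _
  rw [Groupoid.inv_eq_inv]

end

/-- knots through `x` of class `o` -/
abbrev Kn (x : N) (o : FundamentalGroup N x) : Type _ := {k : ℝ → N // Crv x o k}

/-- a finger with the label `c⁻¹` -/
def StL (x : N) (o : FundamentalGroup N x) (c : FundamentalGroup N x) (k k' : Kn x o) : Prop :=
  St x (inv (FundamentalGroup.toArrow c)) k.1 k'.1

/-- the equivalence of knots -/
def RL (x : N) (o : FundamentalGroup N x) (k k' : Kn x o) : Prop := LEqN (range k.1) (range k'.1)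

theorem labelCalc (hO : Ori N) {x : N} (o : FundamentalGroup N x) (hg : Gen2 o) : LabelCalc o (RL x o) (StL x o) where
  eqv := ⟨fun k => LEqN.refl _, fun h => LEqN.symm h, fun h h' => LEqN.trans h h'⟩
  A := fun c k k' k'' h h' => axiom_A hO k.2 hg h h'
  B := fun c k => by
    obtain ⟨k', h⟩ := axiom_B (c := inv (FundamentalGroup.toArrow c)) k.2
    exact ⟨⟨k', k.2.st h⟩, h⟩
  C := fun c d k k₁ k₂ h1 h2 e => by
    obtain ⟨k', k₁', k₂', g1, g2, g3, g4, g5⟩ := axiom_C (e := inv (FundamentalGroup.toArrow e)) k.2 h1 h2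
    exact ⟨⟨k', k.2.st g1⟩, ⟨k₁', (k.2.st g1).st g2⟩, ⟨k₂', (k.2.st g1).st g4⟩, g1, g2, g3, g4, g5⟩
  S := fun c k k' h => ⟨k, St.symm k.2.cont h, LEqN.refl _⟩
  T := fun k k' h => by
    obtain ⟨T, p, q, h1, h2⟩ := exists_kink k.2
    have h3 : StL x o 1 k ⟨fing T ∘ k.1, k.2.fing h1.chd h1.off⟩ := by
      change St x (inv (𝟙 (FundamentalGroupoid.mk x))) k.1 (fing T ∘ k.1)
      rw [IsIso.inv_id]
      exact ⟨T, p, q, h1, Mv.refl _ _⟩
    have h4 : LEqN (range (fing T ∘ k.1)) (range k'.1) := axiom_A hO k.2 hg h3 h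
    refine LEqN.trans ?_ h4
    rw [range_fing h1.chd]
    exact h2
  K := fun c k => by
    obtain ⟨k', k'', h1, h2, h3⟩ := axiom_K k.2 (inv (FundamentalGroup.toArrow c))
    refine ⟨⟨k', k.2.st h1⟩, ⟨k'', k.2.st h2⟩, h1, ?_, h3⟩
    have e : FundamentalGroup.toArrow (o * c⁻¹) = inv (FundamentalGroup.toArrow c) ≫ FundamentalGroup.toArrow o := by
      rw [FG_mul, FG_inv]
    change St x (inv (FundamentalGroup.toArrow (o * c⁻¹))) k.1 k''
    rw [e]
    exact h2
  E := fun k X c => by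
    obtain ⟨k₁, k₂, k₃, k₄, h1, h2, h3, h4, h5⟩ :=
      axiom_E hO k.2 (inv (FundamentalGroup.toArrow X)) (inv (FundamentalGroup.toArrow c))
    refine ⟨⟨k₁, k.2.st h1⟩, ⟨k₂, (k.2.st h1).st h2⟩, ⟨k₃, ((k.2.st h1).st h2).st h3⟩,
      ⟨k₄, (((k.2.st h1).st h2).st h3).st h4⟩, h1, ?_, ?_, ?_, h5⟩
    · change St x (inv (FundamentalGroup.toArrow (X * c))) k₁ k₂
      rw [FG_mul, IsIso.inv_comp]; exact h2
    · change St x (inv (FundamentalGroup.toArrow (X⁻¹ * c))) k₂ k₃
      rw [FG_mul, IsIso.inv_comp, FG_inv]; exact h3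
    · change St x (inv (FundamentalGroup.toArrow (c⁻¹ * X * c))) k₃ k₄
      rw [FG_mul, FG_mul, IsIso.inv_comp, IsIso.inv_comp, FG_inv, Category.assoc]; exact h4

/-- a finger gives an equivalent knot -/
theorem fing_leq (hO : Ori N) {x : N} {o : FundamentalGroupoid.mk x ⟶ FundamentalGroupoid.mk x} (hg : Gen2 o) {k : ℝ → N} (hk : Crv x o k)
    {T : E → N} {p q : ℝ} {c : FundamentalGroupoid.mk x ⟶ FundamentalGroupoid.mk x} (h : ChL x k T p q c) :
    LEqN (range k) (kn (range k) T) := by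
  have h1 := (labelCalc hO (x := x) o hg).main hg (FundamentalGroup.fromArrow (inv c)) ⟨k, hk⟩
    ⟨fing T ∘ k, hk.fing h.chd h.off⟩ (by
      change St x (inv (inv c)) k (fing T ∘ k)
      rw [IsIso.inv_inv]
      exact ⟨T, p, q, h, Mv.refl _ _⟩)
  have h2 : range (fing T ∘ k) = kn (range k) T := range_fing h.chd
  rw [← h2]
  exact h1

/-! ## change of the base point -/

theorem gen2_conj {M : Type*} [TopologicalSpace M] {x y : M} {o : FundamentalGroupoid.mk x ⟶ FundamentalGroupoid.mk x}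
    (hg : Gen2 o) (ρ : FundamentalGroupoid.mk x ⟶ FundamentalGroupoid.mk y) : Gen2 (inv ρ ≫ o ≫ ρ) := by
  let φ : FundamentalGroup M x ≃* FundamentalGroup M y := (asIso ρ).conj
  have hφ : ∀ z : FundamentalGroup M x, φ z = (inv ρ ≫ z ≫ ρ : FundamentalGroupoid.mk y ⟶ FundamentalGroupoid.mk y) :=
    fun z => rfl
  unfold Gen2 at hg ⊢
  rw [eq_top_iff]
  intro z _
  obtain ⟨w, rfl⟩ := φ.surjective z
  have hw : w ∈ Subgroup.closure ({z : FundamentalGroup M x | ∃ y : FundamentalGroup M x, z = y * y} ∪ {(o : FundamentalGroup M x)}) := by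
    rw [hg]; trivial
  induction hw using Subgroup.closure_induction with
  | mem w hw =>
    refine Subgroup.subset_closure ?_
    rcases hw with ⟨v, rfl⟩ | hw
    · exact Or.inl ⟨φ v, map_mul φ v v⟩
    · rw [mem_singleton_iff] at hw
      rw [hw]
      exact Or.inr (hφ _)
  | one => rw [map_one]; exact Subgroup.one_mem _
  | mul a b _ _ ha hb => rw [map_mul]; exact Subgroup.mul_mem _ (ha trivial) (hb trivial)
  | inv a _ ha => rw [map_inv]; exact Subgroup.inv_mem _ (ha trivial)

omit [IsManifold (𝓡 3) ∞ N] [ConnectedSpace N] in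
/-- the knot with the parameter shifted by `a` -/
theorem crv_shift {x : N} {o : FundamentalGroupoid.mk x ⟶ FundamentalGroupoid.mk x} {k : ℝ → N} (hk : Crv x o k) (a : ℝ) :
    ∃ ρ : FundamentalGroupoid.mk x ⟶ FundamentalGroupoid.mk (k a), Crv (k a) (inv ρ ≫ o ≫ ρ) fun l => k (l + a) := by
  have hkc := hk.cont
  obtain ⟨κ, hκ, hκk⟩ := hk.thick
  obtain ⟨ρ, hρ⟩ := exists_PC (x := x) (y := k a) (f := fun t => k (a * t)) (by fun_prop) (by simp [hk.zero]) (by simp)
  obtain ⟨o', ho'⟩ := exists_PC (x := k a) (y := k a) (f := fun t => k (t + a)) (by fun_prop) (by simp) (by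
    rw [← hκk, ← hκk, add_comm, hκ.per])
  have hrel : ρ ≫ o' = o ≫ ρ := by
    have e1 := hρ.trans ho'
    have hρ₂ : PC (fun t => k (1 + a * t)) ρ := hρ.congr (fun t _ => by
      rw [← hκk, ← hκk, add_comm, hκ.per])
    have e2 := hk.cls.trans hρ₂
    have f1 : cc (fun t => k (a * t)) (fun t => k (t + a)) = fun t => k (cc (fun t => a * t) (fun t => t + a) t) := by
      funext t
      unfold cc
      split_ifs <;> rfl
    have f2 : cc k (fun t => k (1 + a * t)) = fun t => k (cc (fun t => t) (fun t => 1 + a * t) t) := by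
      funext t
      unfold cc
      split_ifs <;> rfl
    rw [f1] at e1
    rw [f2] at e2
    refine PC.unique (PC.convex convex_univ hkc.continuousOn ?_ ?_ (fun _ _ => mem_univ _) (fun _ _ => mem_univ _) ?_ ?_ e1) e2
    · unfold cc
      apply Continuous.continuousOn
      refine Continuous.if_le (by fun_prop) (by fun_prop) continuous_id continuous_const ?_
      intro t ht
      rw [ht]; ring
    · unfold cc
      apply Continuous.continuousOn
      refine Continuous.if_le (by fun_prop) (by fun_prop) continuous_id continuous_const ?_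
      intro t ht
      rw [ht]; norm_num
    · unfold cc
      rw [if_pos (by norm_num), if_pos (by norm_num)]; ring
    · unfold cc
      rw [if_neg (by norm_num), if_neg (by norm_num)]; ring
  have ho : o' = inv ρ ≫ o ≫ ρ := by rw [← hrel]; simp
  refine ⟨ρ, ⟨⟨fun q => κ (q.1 + a, q.2), ?_, fun l => hκk _⟩, by simp, ?_⟩⟩
  · refine ⟨fun l v => ?_, fun l v hv => ?_, fun l v l' v' hv hv' he => ?_⟩
    · change κ (l + 1 + a, v) = κ (l + a, v)
      rw [show l + 1 + a = l + a + 1 by ring, hκ.per]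
    · have h1 : IsLocalDiffeomorphAt 𝓘(ℝ, ℝ × ℂ) 𝓘(ℝ, ℝ × ℂ) ∞ (fun q : ℝ × ℂ => (q.1 + a, q.2)) (l, v) := by
        have hc : ContDiff ℝ ∞ (fun q : ℝ × ℂ => (q.1 + a, q.2)) := by fun_prop
        refine CSG.ld_of_fderiv (Filter.Eventually.of_forall fun q => hc.contDiffAt) rfl fun u hu => ?_
        have h2 : HasFDerivAt (fun q : ℝ × ℂ => (q.1 + a, q.2)) ((ContinuousLinearMap.fst ℝ ℝ ℂ).prod
            (ContinuousLinearMap.snd ℝ ℝ ℂ)) (l, v) :=
          (hasFDerivAt_fst.add_const a).prodMk hasFDerivAt_snd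
        rw [h2.fderiv] at hu
        exact hu
      exact IsLocalDiffeomorphAt.comp (hf := h1) (hg := hκ.loc (l + a) v hv)
    · obtain ⟨h4, m, h5⟩ := hκ.inj _ _ _ _ hv hv' he
      exact ⟨h4, m, by linarith⟩
  · rw [← ho]
    exact ho'

/-- **Block Q.** A crossing change of a knot whose class and the squares generate the fundamental group gives an
equivalent knot. -/
theorem Q_main (hO : Ori N) {x : N} {o : FundamentalGroupoid.mk x ⟶ FundamentalGroupoid.mk x} {k : ℝ → N} (hk : Crv x o k) (hg : Gen2 o)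
    {K' : Set N} (h : Cross (range k) K') : LEqN (range k) K' := by
  obtain ⟨T, hT, rfl⟩ := h
  obtain ⟨κ, hκ, hκk⟩ := hk.thick
  have hkc := hk.cont
  have hi := hT.cht.inj
  have hper : ∀ (l : ℝ) (m : ℤ), k (l + m) = k l := by
    intro l m
    rw [← hκk, ← hκk, thick_int hκ]
  have hinj : ∀ l l' : ℝ, k l = k l' → ∃ m : ℤ, l' = l + m := by
    intro l l' he
    rw [← hκk, ← hκk] at he
    exact (hκ.inj _ _ _ _ (by simp) (by simp) he).2
  -- the parameters of the foot and the tip
  have m0 : ((0 : ℂ), (0 : ℝ)) ∈ TS := by simpa using foot_TS (u := 0) (by norm_num)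
  have m1 : ((0 : ℂ), (1 : ℝ)) ∈ TS := ⟨⟨by simp, by norm_num, by norm_num⟩, Or.inr ⟨rfl, rfl⟩⟩
  have hK : ∀ q ∈ TS, T q ∈ range k := fun q hq => by
    have : T q ∈ range k ∩ T '' TD := by rw [hT.hit]; exact mem_image_of_mem T hq
    exact this.1
  obtain ⟨p, hp⟩ := hK _ m0
  obtain ⟨q, hq⟩ := hK _ m1
  -- `q = p + r + m`, `0 < r < 1`
  obtain ⟨r, m, hr0, hr1, hqr⟩ : ∃ (r : ℝ) (m : ℤ), 0 < r ∧ r < 1 ∧ q = p + r + m := by
    refine ⟨Int.fract (q - p), ⌊q - p⌋, ?_, Int.fract_lt_one _, ?_⟩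
    · rcases (Int.fract_nonneg (q - p)).lt_or_eq with h1 | h1
      · exact h1
      · exfalso
        have h2 := Int.fract_add_floor (q - p)
        rw [← h1, zero_add] at h2
        have h3 : k q = k p := by
          rw [show q = p + (⌊q - p⌋ : ℝ) by linarith]
          exact hper p _
        rw [hp, hq] at h3
        have h4 := hi (TS_sub m1) (TS_sub m0) h3
        have h5 : (1 : ℝ) = 0 := congrArg Prod.snd h4
        norm_num at h5
    · have h2 := Int.fract_add_floor (q - p)
      linarith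
  -- the base point `k (p - η)`
  let η : ℝ := (1 - r) / 2
  have hη : 0 < η := by change 0 < (1 - r) / 2; linarith
  let a : ℝ := p - η
  obtain ⟨ρ, hka⟩ := crv_shift hk a
  -- the thin chord
  have hcore : ∀ t ∈ Icc (0 : ℝ) 1, T (0, t) ∈ ({k a}ᶜ : Set N) := by
    intro t ht he
    rw [mem_singleton_iff] at he
    have h1 : ((0 : ℂ), t) ∈ TD := ⟨by simp, by change -(1 / 4) < t; linarith [ht.1], by change t < 5 / 4; linarith [ht.2]⟩
    have h2 : T (0, t) ∈ T '' TS := by
      rw [← hT.hit]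
      exact ⟨⟨a, he.symm⟩, mem_image_of_mem T h1⟩
    obtain ⟨q', hq', he'⟩ := h2
    have h3 : q' = ((0 : ℂ), t) := hi (TS_sub hq') h1 he'
    subst h3
    rcases hq'.2 with ⟨h4, -⟩ | ⟨h4, -⟩
    · change t = 0 at h4
      rw [h4, ← hp] at he
      obtain ⟨n, hn⟩ := hinj _ _ he
      change p - (1 - r) / 2 = p + n at hn
      have h5 : (n : ℝ) < 0 := by linarith
      have h6 : (-1 : ℝ) < n := by linarith
      have h7 : n < 0 := by exact_mod_cast h5
      have h8 : -1 < n := by exact_mod_cast h6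
      omega
    · change t = 1 at h4
      rw [h4, ← hq] at he
      obtain ⟨n, hn⟩ := hinj _ _ he
      rw [hqr] at hn
      change p - (1 - r) / 2 = p + r + m + n at hn
      have h5 : ((m + n : ℤ) : ℝ) < 0 := by push_cast; linarith
      have h6 : (-1 : ℝ) < ((m + n : ℤ) : ℝ) := by push_cast; linarith
      have h7 : m + n < 0 := by exact_mod_cast h5
      have h8 : -1 < m + n := by exact_mod_cast h6
      omega
  obtain ⟨d, hd, hd'⟩ := thin_chord hT isOpen_compl_singleton hcore
  obtain ⟨h', H, hT', hOff, -, ⟨V, hV, hV1⟩, -⟩ := hd' d hd le_rfl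
  let T' : E → N := T ∘ Sc d h'
  have hleq : LEqN (kn (range k) T) (kn (range k) T') := by
    have h1 : kn (range k) T' = V 1 '' kn (range k) T := by
      rw [← range_fing hT', ← range_fing hT, ← range_comp]
      congr 1
      funext t
      exact hV1 (k t) (mem_range_self t)
    rw [h1]
    exact LEqN.diff _ (hV.mono (subset_univ _))
  -- the label
  let k₁ : ℝ → N := fun l => k (l + a)
  have hr : range k₁ = range k := by
    ext y
    constructor
    · rintro ⟨l, rfl⟩; exact ⟨_, rfl⟩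
    · rintro ⟨l, rfl⟩
      exact ⟨l - a, by change k (l - a + a) = k l; rw [sub_add_cancel]⟩
  have hT'0 : T' (0, 0) = k₁ η := by
    change T ((d : ℂ) * 0, h' 0) = k (η + (p - η))
    rw [mul_zero, H.zero, ← hp]
    congr 1; ring
  have hT'1 : T' (0, 1) = k₁ (η + r) := by
    change T ((d : ℂ) * 0, h' 1) = k (η + r + (p - η))
    rw [mul_zero, H.one, ← hq, hqr, hper]
    congr 1; ring
  obtain ⟨c, hc⟩ := exists_Lab (x := k a) (k := k₁) (by fun_prop) (by change k (0 + a) = k a; rw [zero_add]) (T := T')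
    (hT'.cht.contOn.comp (f := fun t : ℝ => ((0 : ℂ), t)) (by fun_prop) (fun t ht => ⟨by simp, by
      change -(1 / 4) < t; linarith [ht.1], by change t < 5 / 4; linarith [ht.2]⟩)) hT'0 hT'1
  have hch : ChL (k a) k₁ T' η (η + r) c := by
    refine ⟨by rw [hr]; exact hT', hη, by linarith, ?_, fun h1 => hOff h1 rfl, hc⟩
    change (1 - r) / 2 + r < 1
    linarith
  have h1 := fing_leq hO (gen2_conj hg ρ) hka hch
  change LEqN (range k₁) (kn (range k₁) T') at h1
  rw [hr] at h1
  exact h1.trans (LEqN.symm hleq)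

end Pool.Agent.NHQ
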