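import Mathlib
import Pool.Agent.NHQ.KerD

/-!
# NHQ/Org: in an oriented manifold chords with standard ends have the sign `1` (difficulty 3)

`o` orientation (`Orq` is a copy of `NHB.Orn` of helper40: `o Φ q = ±1` for local parametrisations `Φ : E → N`, locally constant in `q`, compatible with transition maps: `cmp`).
(1) For a local parametrisation on a preconnected open set (here `TD`, or `{q | ‖q.1‖ < 1}`; both are convex) `o Φ` is constant (`IsPreconnected` and locally constant: `IsPreconnected.constant_of_mapsTo`/`IsLocallyConstant`, or a path argument).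
(2) `Φ (v, l) = κ (l, v)` is a local parametrisation on `{‖v‖ < 1}` (`Thick.loc` composed with the linear swap); let `s` be the value of `o Φ`.
(3) Near `(0, 0)`: `T = Φ ∘ g`, `g (w, x) = (ε ⟨x, im w⟩, p + ε re w)` (affine, `det = -ε³` as a real `3 × 3` determinant of the linear part `(w, x) ↦ (ε ⟨x, im w⟩, ε re w)`; only its sign matters), so by `cmp` `o T (0, 0) = -s`.
Near `(0, 1)`: `T = Φ ∘ g'`, `g' (w, x) = (ε ⟨1 - x, re w⟩, q + σ ε im w)`, linear part `(w, x) ↦ (ε ⟨-x, re w⟩, σ ε im w)`, `det = -σ ε³`, so `o T (0, 1) = -σ s`.  Since `o T` is constant on `TD`, `σ = 1`.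
(determinants of linear maps of `ℂ × ℝ`: via `LinearMap.det_toLin`/a basis, or factor the linear part: the swap-type maps; see `/team-store/nhb_src.tgz` NHB/Ori.lean, NHB/AdI.lean for determinant computations of the same kind.)
-/

open scoped Manifold ContDiff Topology
open Set Filter
open Pool.Agent.RSG (E3 ex Thick)
open Pool.Agent.NHP

namespace Pool.Agent.NHQ

variable {N : Type*} [TopologicalSpace N] [ChartedSpace E3 N]

/-- an orientation of `N` (copy of `NHB.Orn`) -/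
structure Orq (o : (E → N) → E → ℝ) : Prop where
  val : ∀ Φ q, IsLocalDiffeomorphAt 𝓘(ℝ, ℂ × ℝ) (𝓡 3) ∞ Φ q → o Φ q = 1 ∨ o Φ q = -1
  cst : ∀ Φ q, IsLocalDiffeomorphAt 𝓘(ℝ, ℂ × ℝ) (𝓡 3) ∞ Φ q → ∀ᶠ q' in 𝓝 q, o Φ q' = o Φ q
  cmp : ∀ (Φ Ψ : E → N) (g : E → E) (q : E), IsLocalDiffeomorphAt 𝓘(ℝ, ℂ × ℝ) (𝓡 3) ∞ Φ (g q) →
    IsLocalDiffeomorphAt 𝓘(ℝ, ℂ × ℝ) 𝓘(ℝ, ℂ × ℝ) ∞ g q → Ψ =ᶠ[𝓝 q] Φ ∘ g →
      0 < o Ψ q * o Φ (g q) * LinearMap.det ((fderiv ℝ g q : E →L[ℝ] E) : E →ₗ[ℝ] E)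

/-- coordinates of `E` -/
private noncomputable def org_e : E ≃ₗ[ℝ] (Fin 3 → ℝ) where
  toFun z := ![z.1.re, z.1.im, z.2]
  invFun v := (⟨v 0, v 1⟩, v 2)
  map_add' x y := by
    funext i
    fin_cases i <;> simp
  map_smul' c x := by
    funext i
    fin_cases i <;> simp
  left_inv z := by
    obtain ⟨⟨a, b⟩, x⟩ := z
    rfl
  right_inv v := by
    funext i
    fin_cases i <;> rfl

private theorem org_aff (M : Matrix (Fin 3) (Fin 3) ℝ) (hM : M.det ≠ 0) (c q : E) :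
    IsLocalDiffeomorphAt 𝓘(ℝ, ℂ × ℝ) 𝓘(ℝ, ℂ × ℝ) ∞ (fun z : E => org_e.symm (M.mulVec (org_e z)) + c) q ∧
      LinearMap.det ((fderiv ℝ (fun z : E => org_e.symm (M.mulVec (org_e z)) + c) q : E →L[ℝ] E) : E →ₗ[ℝ] E)
        = M.det := by
  set L : E →ₗ[ℝ] E := (org_e.symm : (Fin 3 → ℝ) →ₗ[ℝ] E) ∘ₗ (Matrix.toLin' M) ∘ₗ (org_e : E →ₗ[ℝ] (Fin 3 → ℝ)) with hL
  have hdet : LinearMap.det L = M.det := by
    have h1 := LinearMap.det_conj (Matrix.toLin' M) org_e.symm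
    rw [LinearEquiv.symm_symm] at h1
    rw [hL, h1, LinearMap.det_toLin']
  have hfun : (fun z : E => org_e.symm (M.mulVec (org_e z)) + c) = fun z => L z + c := rfl
  rw [hfun]
  have hLn : LinearMap.det L ≠ 0 := by rw [hdet]; exact hM
  constructor
  · set Le : E ≃ₗ[ℝ] E := LinearMap.equivOfDetNeZero L hLn with hLe
    have h2 : ∀ z, Le z = L z := fun z => rfl
    let f : E ≃ E := ⟨fun z => Le z + c, fun y => Le.symm (y - c), fun z => by simp, fun y => by simp⟩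
    have hf : ContDiff ℝ ∞ f :=
      (LinearMap.toContinuousLinearMap (Le : E →ₗ[ℝ] E)).contDiff.add contDiff_const
    have hf' : ContDiff ℝ ∞ f.symm :=
      (LinearMap.toContinuousLinearMap (Le.symm : E →ₗ[ℝ] E)).contDiff.comp (contDiff_id.sub contDiff_const)
    exact CSG.ld_of_perm hf hf' q
  · have h1 : HasFDerivAt (fun z => L z + c) (LinearMap.toContinuousLinearMap L) q :=
      (LinearMap.toContinuousLinearMap L).hasFDerivAt.add_const c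
    rw [h1.fderiv, LinearMap.coe_toContinuousLinearMap, hdet]

/-- locally constant on a convex set -/
private theorem org_const {f : E → ℝ} {C : Set E} (hC : Convex ℝ C) (h : ∀ x ∈ C, ∀ᶠ y in 𝓝 x, f y = f x) {x y : E}
    (hx : x ∈ C) (hy : y ∈ C) : f x = f y := by
  refine hC.isPreconnected.induction₂ (fun a b => f a = f b) ?_ (fun a b d _ _ _ h1 h2 => h1.trans h2)
    (fun a b _ _ h1 => h1.symm) hx hy
  intro a ha
  refine Filter.Eventually.filter_mono nhdsWithin_le_nhds ?_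
  filter_upwards [h a ha] with b hb
  exact hb.symm

private theorem org_TD_convex : Convex ℝ TD := by
  have h1 : TD = {q : E | ‖q.1‖ < 1} ∩ {q : E | -(1 / 4) < q.2 ∧ q.2 < 5 / 4} := by
    ext q
    exact ⟨fun h => ⟨h.1, h.2⟩, fun h => ⟨h.1, h.2⟩⟩
  rw [h1]
  refine Convex.inter ?_ ?_
  · have h2 : {q : E | ‖q.1‖ < 1} = (LinearMap.fst ℝ ℂ ℝ) ⁻¹' (Metric.ball (0 : ℂ) 1) := by
      ext q
      simp
    rw [h2]
    exact (convex_ball (0 : ℂ) 1).linear_preimage _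
  · have h2 : {q : E | -(1 / 4) < q.2 ∧ q.2 < 5 / 4} = (LinearMap.snd ℝ ℂ ℝ) ⁻¹' (Ioo (-(1 / 4)) (5 / 4)) := by
      ext q
      simp
    rw [h2]
    exact (convex_Ioo _ _).linear_preimage _

private theorem org_cyl_convex : Convex ℝ {q : E | ‖q.1‖ < 1} := by
  have h2 : {q : E | ‖q.1‖ < 1} = (LinearMap.fst ℝ ℂ ℝ) ⁻¹' (Metric.ball (0 : ℂ) 1) := by
    ext q
    simp
  rw [h2]
  exact (convex_ball (0 : ℂ) 1).linear_preimage _

theorem ori_of_orn {o : (E → N) → E → ℝ} (ho : Orq o) : Ori N := by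
  intro κ p q ε σ T hκ hε hσ hchd hstd
  set Φ : E → N := fun z => κ (z.2, z.1) with hΦdef
  have hΦ : ∀ z : E, ‖z.1‖ < 1 → IsLocalDiffeomorphAt 𝓘(ℝ, ℂ × ℝ) (𝓡 3) ∞ Φ z := by
    intro z hz
    have h1 : IsLocalDiffeomorphAt 𝓘(ℝ, ℂ × ℝ) 𝓘(ℝ, ℝ × ℂ) ∞ (fun w : ℂ × ℝ => ((w.2, w.1) : ℝ × ℂ)) z := by
      refine CSG.ld_of_perm (f := Equiv.prodComm ℂ ℝ) ?_ ?_ z
      · exact contDiff_snd.prodMk contDiff_fst
      · exact contDiff_snd.prodMk contDiff_fst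
    exact IsLocalDiffeomorphAt.comp (hf := h1) (g := κ) (hg := hκ.loc z.2 z.1 hz) ..
  have hΦc : ∀ z : E, ‖z.1‖ < 1 → o Φ z = o Φ (0, 0) := by
    intro z hz
    exact org_const org_cyl_convex (fun x hx => ho.cst Φ x (hΦ x hx)) hz
      (show ‖((0 : ℂ), (0 : ℝ)).1‖ < 1 by simp)
  have hTl : ∀ z ∈ TD, IsLocalDiffeomorphAt 𝓘(ℝ, ℂ × ℝ) (𝓡 3) ∞ T z := hchd.cht.loc
  have h0 : ((0 : ℂ), (0 : ℝ)) ∈ TD := ⟨by simp, by norm_num, by norm_num⟩
  have h1 : ((0 : ℂ), (1 : ℝ)) ∈ TD := ⟨by simp, by norm_num, by norm_num⟩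
  have hT01 : o T (0, 0) = o T (0, 1) := org_const org_TD_convex (fun x hx => ho.cst T x (hTl x hx)) h0 h1
  -- the foot
  set M₀ : Matrix (Fin 3) (Fin 3) ℝ := !![0, 0, ε; 0, ε, 0; ε, 0, 0] with hM₀
  have hd₀ : M₀.det = -(ε ^ 3) := by
    rw [hM₀, Matrix.det_fin_three]
    simp
    ring
  set M₁ : Matrix (Fin 3) (Fin 3) ℝ := !![0, 0, -ε; ε, 0, 0; 0, σ * ε, 0] with hM₁
  have hd₁ : M₁.det = -(σ * ε ^ 3) := by
    rw [hM₁, Matrix.det_fin_three]
    simp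
    ring
  have hε3 : 0 < ε ^ 3 := by positivity
  have hσ0 : σ ≠ 0 := by rcases hσ with rfl | rfl <;> norm_num
  have hn₀ : M₀.det ≠ 0 := by rw [hd₀]; exact neg_ne_zero.2 hε3.ne'
  have hn₁ : M₁.det ≠ 0 := by rw [hd₁]; exact neg_ne_zero.2 (mul_ne_zero hσ0 hε3.ne')
  have hg₀ : ∀ z : E, org_e.symm (M₀.mulVec (org_e z)) + (0, p)
      = ((ε : ℂ) * (⟨z.2, z.1.im⟩ : ℂ), p + ε * z.1.re) := by
    intro z
    rw [hM₀]
    apply Prod.ext
    · apply Complex.ext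
      · simp [org_e, Matrix.mulVec, dotProduct, Fin.sum_univ_three] <;> ring
      · simp [org_e, Matrix.mulVec, dotProduct, Fin.sum_univ_three] <;> ring
    · simp [org_e, Matrix.mulVec, dotProduct, Fin.sum_univ_three] <;> ring
  have hg₁ : ∀ z : E, org_e.symm (M₁.mulVec (org_e z)) + ((ε : ℂ), q)
      = ((ε : ℂ) * (⟨1 - z.2, z.1.re⟩ : ℂ), q + σ * ε * z.1.im) := by
    intro z
    rw [hM₁]
    apply Prod.ext
    · apply Complex.ext
      · simp [org_e, Matrix.mulVec, dotProduct, Fin.sum_univ_three] <;> ring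
      · simp [org_e, Matrix.mulVec, dotProduct, Fin.sum_univ_three] <;> ring
    · simp [org_e, Matrix.mulVec, dotProduct, Fin.sum_univ_three] <;> ring
  have hTDo : IsOpen TD := hchd.cht.opn
  obtain ⟨a1, a2⟩ := org_aff M₀ hn₀ ((0 : ℂ), p) ((0 : ℂ), (0 : ℝ))
  obtain ⟨b1, b2⟩ := org_aff M₁ hn₁ ((ε : ℂ), q) ((0 : ℂ), (1 : ℝ))
  have hv₀ : org_e.symm (M₀.mulVec (org_e ((0 : ℂ), (0 : ℝ)))) + ((0 : ℂ), p) = ((0 : ℂ), p) := by
    rw [hg₀]
    apply Prod.ext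
    · apply Complex.ext <;> simp
    · simp
  have hv₁ : org_e.symm (M₁.mulVec (org_e ((0 : ℂ), (1 : ℝ)))) + ((ε : ℂ), q) = ((0 : ℂ), q) := by
    rw [hg₁]
    apply Prod.ext
    · apply Complex.ext <;> simp
    · simp
  have c0 := ho.cmp Φ T (fun z : E => org_e.symm (M₀.mulVec (org_e z)) + ((0 : ℂ), p)) ((0 : ℂ), (0 : ℝ))
    (by rw [hv₀]; exact hΦ _ (by simp)) a1 (by
      have e1 : TD ∩ {z : E | z.2 < 1 / 4} ∈ 𝓝 ((0 : ℂ), (0 : ℝ)) :=
        (hTDo.inter (isOpen_lt continuous_snd continuous_const)).mem_nhds ⟨h0, by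
          change (0 : ℝ) < 1 / 4
          norm_num⟩
      filter_upwards [e1] with z hz
      rw [hstd.foot z hz.1 hz.2]
      change footT κ p ε z = Φ (org_e.symm (M₀.mulVec (org_e z)) + ((0 : ℂ), p))
      rw [hg₀]
      rfl)
  have c1 := ho.cmp Φ T (fun z : E => org_e.symm (M₁.mulVec (org_e z)) + ((ε : ℂ), q)) ((0 : ℂ), (1 : ℝ))
    (by rw [hv₁]; exact hΦ _ (by simp)) b1 (by
      have e1 : TD ∩ {z : E | 3 / 4 < z.2} ∈ 𝓝 ((0 : ℂ), (1 : ℝ)) :=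
        (hTDo.inter (isOpen_lt continuous_const continuous_snd)).mem_nhds ⟨h1, by
          change (3 / 4 : ℝ) < 1
          norm_num⟩
      filter_upwards [e1] with z hz
      rw [hstd.tip z hz.1 hz.2]
      change tipT κ q ε σ z = Φ (org_e.symm (M₁.mulVec (org_e z)) + ((ε : ℂ), q))
      rw [hg₁]
      rfl)
  rw [a2] at c0
  rw [b2] at c1
  have c0' : 0 < o T (0, 0) * o Φ (org_e.symm (M₀.mulVec (org_e ((0 : ℂ), (0 : ℝ)))) + ((0 : ℂ), p)) * M₀.det := c0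
  have c1' : 0 < o T (0, 1) * o Φ (org_e.symm (M₁.mulVec (org_e ((0 : ℂ), (1 : ℝ)))) + ((ε : ℂ), q)) * M₁.det := c1
  rw [hv₀, hΦc _ (by simp), hd₀] at c0'
  rw [hv₁, hΦc _ (by simp), hd₁, ← hT01] at c1'
  rcases hσ with rfl | rfl
  · rfl
  · exfalso
    have hs : 0 < (o T (0, 0) * o Φ (0, 0)) * (o T (0, 0) * o Φ (0, 0)) := by
      rcases ho.val T _ (hTl _ h0) with e | e <;> rcases ho.val Φ (0, 0) (hΦ _ (by simp)) with e' | e' <;>
        rw [e, e'] <;> norm_num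
    nlinarith

end Pool.Agent.NHQ
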